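import Pool.Agent.TH160.Stm
set_option autoImplicit false
open Polynomial

namespace Pool.Agent.TH553.J328
open TH160

lemma three_ne (L : Type) [Field L] [Algebra ℂ L] : (3 : L) ≠ 0 := by
  have h : (algebraMap ℂ L 3) ≠ 0 := (_root_.map_ne_zero _).2 three_ne_zero
  rwa [map_ofNat] at h

section

variable {L : Type} [Field L] [Algebra ℂ L] (O : ValuationSubring L)
  (hO : ∀ c : ℂ, algebraMap ℂ L c ∈ O)

include hO

lemma aeval_mem {T : L} (hT : T ∈ O) (p : ℂ[X]) : aeval T p ∈ O := by
  induction p using Polynomial.induction_on' with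
  | add p q hp hq => rw [map_add]; exact O.add_mem _ _ hp hq
  | monomial n c =>
    rw [aeval_monomial]
    exact O.mul_mem _ _ (hO c) (pow_mem hT n)

omit hO [Algebra ℂ L] in
/-- not a unit of `O` -/
lemma not_unit_iff {x : L} (hx : x ∈ O) :
    (⟨x, hx⟩ : O) ∈ IsLocalRing.maximalIdeal O ↔ ¬ (x ≠ 0 ∧ x⁻¹ ∈ O) := by
  rw [IsLocalRing.mem_maximalIdeal, mem_nonunits_iff, not_iff_not]
  constructor
  · rintro ⟨u, hu⟩
    have h1 : (u : O) * (↑(u⁻¹) : O) = 1 := u.mul_inv
    have h2 : x * ((↑(u⁻¹) : O) : L) = 1 := by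
      have := congrArg (fun z : O => (z : L)) h1
      rw [hu] at this
      exact this
    have hx0 : x ≠ 0 := by
      rintro rfl
      rw [zero_mul] at h2
      exact zero_ne_one h2
    refine ⟨hx0, ?_⟩
    have : x⁻¹ = ((↑(u⁻¹) : O) : L) := by
      rw [inv_eq_iff_eq_inv, eq_comm, inv_eq_iff_eq_inv]
      exact eq_inv_of_mul_eq_one_right h2
    rw [this]
    exact SetLike.coe_mem _
  · rintro ⟨h0, h1⟩
    refine ⟨⟨⟨x, hx⟩, ⟨x⁻¹, h1⟩, ?_, ?_⟩, rfl⟩
    · exact Subtype.ext (mul_inv_cancel₀ h0)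
    · exact Subtype.ext (inv_mul_cancel₀ h0)

/-- one of the three partial derivatives is a unit -/
lemma unit_der {A B C : ℂ[X]} (hN : Nice A B C) {T Y Z : L} (hT : T ∈ O) (hY : Y ∈ O) (hZ : Z ∈ O)
    (hF : aeval T A + aeval T B * Y ^ 3 + aeval T C * Z ^ 3 = 0) :
    (∃ u ∈ O, u * (aeval T (derivative A) + aeval T (derivative B) * Y ^ 3 +
      aeval T (derivative C) * Z ^ 3) = 1) ∨
    (∃ u ∈ O, u * (3 * aeval T B * Y ^ 2) = 1) ∨ (∃ u ∈ O, u * (3 * aeval T C * Z ^ 2) = 1) := by
  by_contra hcon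
  push Not at hcon
  obtain ⟨h1, h2, h3⟩ := hcon
  have h3O : (3 : L) ∈ O := by
    have := hO 3
    rwa [map_ofNat] at this
  have hA := aeval_mem O hO hT A
  have hB := aeval_mem O hO hT B
  have hC := aeval_mem O hO hT C
  have hA' := aeval_mem O hO hT (derivative A)
  have hB' := aeval_mem O hO hT (derivative B)
  have hC' := aeval_mem O hO hT (derivative C)
  -- elements of the ring
  let t (p : ℂ[X]) : O := ⟨aeval T p, aeval_mem O hO hT p⟩
  let y : O := ⟨Y, hY⟩
  let z : O := ⟨Z, hZ⟩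
  have hmax : ∀ x : O, (∀ u ∈ O, u * (x : L) ≠ 1) → x ∈ IsLocalRing.maximalIdeal O := by
    rintro ⟨x, hx⟩ h
    rw [not_unit_iff]
    rintro ⟨h0, h1⟩
    exact h _ h1 (inv_mul_cancel₀ h0)
  have hp : (IsLocalRing.maximalIdeal O).IsPrime := inferInstance
  have m1 : t (derivative A) + t (derivative B) * y ^ 3 + t (derivative C) * z ^ 3 ∈
      IsLocalRing.maximalIdeal O := hmax _ h1
  have m2 : 3 * t B * y ^ 2 ∈ IsLocalRing.maximalIdeal O := hmax _ h2
  have m3 : 3 * t C * z ^ 2 ∈ IsLocalRing.maximalIdeal O := hmax _ h3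
  have h3u : (3 : O) ∉ IsLocalRing.maximalIdeal O := by
    have e : (3 : O) = ⟨3, h3O⟩ := rfl
    rw [e, not_unit_iff, not_not]
    refine ⟨three_ne L, ?_⟩
    have := hO (3⁻¹)
    rwa [map_inv₀, map_ofNat] at this
  have cop : ∀ p q : ℂ[X], IsCoprime p q → t p ∈ IsLocalRing.maximalIdeal O →
      t q ∉ IsLocalRing.maximalIdeal O := by
    rintro p q ⟨u, v, huv⟩ hp' hq'
    have e : t u * t p + t v * t q = 1 := by
      apply Subtype.ext
      change aeval T u * aeval T p + aeval T v * aeval T q = 1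
      rw [← map_mul, ← map_mul, ← map_add, huv, map_one]
    apply hp.ne_top
    rw [Ideal.eq_top_iff_one, ← e]
    exact Ideal.add_mem _ (Ideal.mul_mem_left _ _ hp') (Ideal.mul_mem_left _ _ hq')
  have m2' : t B * y ^ 3 ∈ IsLocalRing.maximalIdeal O := by
    have : t B * y ^ 2 ∈ IsLocalRing.maximalIdeal O := by
      rw [mul_assoc] at m2
      exact (hp.mem_or_mem m2).resolve_left h3u
    have e : t B * y ^ 3 = y * (t B * y ^ 2) := by ring
    rw [e]
    exact Ideal.mul_mem_left _ _ this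
  have m3' : t C * z ^ 3 ∈ IsLocalRing.maximalIdeal O := by
    have : t C * z ^ 2 ∈ IsLocalRing.maximalIdeal O := by
      rw [mul_assoc] at m3
      exact (hp.mem_or_mem m3).resolve_left h3u
    have e : t C * z ^ 3 = z * (t C * z ^ 2) := by ring
    rw [e]
    exact Ideal.mul_mem_left _ _ this
  have mA : t A ∈ IsLocalRing.maximalIdeal O := by
    have e : t A = -(t B * y ^ 3 + t C * z ^ 3) := by
      apply Subtype.ext
      change aeval T A = -(aeval T B * Y ^ 3 + aeval T C * Z ^ 3)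
      linear_combination hF
    rw [e]
    exact neg_mem (Ideal.add_mem _ m2' m3')
  have nB := cop A B hN.cAB mA
  have nC := cop A C hN.cCA.symm mA
  have my : y ∈ IsLocalRing.maximalIdeal O :=
    hp.mem_of_pow_mem 3 ((hp.mem_or_mem m2').resolve_left nB)
  have mz : z ∈ IsLocalRing.maximalIdeal O :=
    hp.mem_of_pow_mem 3 ((hp.mem_or_mem m3').resolve_left nC)
  have mA' : t (derivative A) ∈ IsLocalRing.maximalIdeal O := by
    have e : t (derivative A) = (t (derivative A) + t (derivative B) * y ^ 3 +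
        t (derivative C) * z ^ 3) - (t (derivative B) * y ^ 2 * y + t (derivative C) * z ^ 2 * z) := by
      ring
    rw [e]
    exact Ideal.sub_mem _ m1 (Ideal.add_mem _ (Ideal.mul_mem_left _ _ my)
      (Ideal.mul_mem_left _ _ mz))
  exact cop A (derivative A) hN.sA mA mA'

/-- the basic chart: `X = 1`, `T`, `Y`, `Z` regular -/
lemma chart1 {A B C : ℂ[X]} (hN : Nice A B C) {D1 D2 : Derivation ℂ L L} {T Y Z h : L}
    (hT : T ∈ O) (hY : Y ∈ O) (hZ : Z ∈ O) (hA : aeval T A ≠ 0) (hB : aeval T B ≠ 0)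
    (hC : aeval T C ≠ 0)
    (hF : aeval T A + aeval T B * Y ^ 3 + aeval T C * Z ^ 3 = 0)
    (hI : IsForm A B C D1 D2 T 1 Y Z h) :
    ∃ a ∈ O, ∃ b ∈ O, ∃ c ∈ O, h = c * br D1 D2 a b := by
  have e2 : 3 * aeval T B * Y ^ 2 * h = - br D1 D2 T Z := by
    have := hI.e2
    simp only [br, Derivation.map_one_eq_zero] at this ⊢
    linear_combination this
  have e3 : 3 * aeval T C * Z ^ 2 * h = br D1 D2 T Y := by
    have := hI.e3
    simp only [br, Derivation.map_one_eq_zero] at this ⊢
    linear_combination this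
  -- derivative of the equation
  have hD : ∀ D : Derivation ℂ L L, (aeval T (derivative A) + aeval T (derivative B) * Y ^ 3 +
      aeval T (derivative C) * Z ^ 3) * D T + 3 * aeval T B * Y ^ 2 * D Y +
      3 * aeval T C * Z ^ 2 * D Z = 0 := by
    intro D
    have h1 := congrArg D hF
    rw [map_add, map_add, Derivation.leibniz, Derivation.leibniz, Derivation.leibniz_pow,
      Derivation.leibniz_pow, Derivation.map_aeval, Derivation.map_aeval, Derivation.map_aeval,
      map_zero] at h1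
    simp only [smul_eq_mul, nsmul_eq_mul] at h1
    push_cast at h1
    linear_combination h1
  have hD1 := hD D1
  have hD2 := hD D2
  rcases unit_der O hO hN hT hY hZ hF with ⟨u, hu, hu1⟩ | ⟨u, hu, hu1⟩ | ⟨u, hu, hu1⟩
  · refine ⟨Y, hY, Z, hZ, u, hu, ?_⟩
    have key : (aeval T (derivative A) + aeval T (derivative B) * Y ^ 3 +
        aeval T (derivative C) * Z ^ 3) * h = br D1 D2 Y Z := by
      have hYZ : Y ≠ 0 ∨ Z ≠ 0 := by
        by_contra hcon
        push Not at hcon
        rw [hcon.1, hcon.2] at hF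
        apply hA
        linear_combination hF
      rcases hYZ with h0 | h0
      · have hne : 3 * aeval T B * Y ^ 2 ≠ 0 :=
          mul_ne_zero (mul_ne_zero (three_ne L) hB) (pow_ne_zero _ h0)
        apply mul_left_cancel₀ hne
        simp only [br] at e2 ⊢
        linear_combination (aeval T (derivative A) + aeval T (derivative B) * Y ^ 3 +
          aeval T (derivative C) * Z ^ 3) * e2 - D2 Z * hD1 + D1 Z * hD2
      · have hne : 3 * aeval T C * Z ^ 2 ≠ 0 :=
          mul_ne_zero (mul_ne_zero (three_ne L) hC) (pow_ne_zero _ h0)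
        apply mul_left_cancel₀ hne
        simp only [br] at e3 ⊢
        linear_combination (aeval T (derivative A) + aeval T (derivative B) * Y ^ 3 +
          aeval T (derivative C) * Z ^ 3) * e3 + D2 Y * hD1 - D1 Y * hD2
    linear_combination u * key - h * hu1
  · refine ⟨T, hT, Z, hZ, -u, O.neg_mem _ hu, ?_⟩
    linear_combination u * e2 - h * hu1
  · refine ⟨T, hT, Y, hY, u, hu, ?_⟩
    linear_combination u * e3 - h * hu1

omit hO in
lemma form_cyc {A B C : ℂ[X]} {D1 D2 : Derivation ℂ L L} {T X Y Z h : L}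
    (hI : IsForm A B C D1 D2 T X Y Z h) : IsForm B C A D1 D2 T Y Z X h :=
  ⟨hI.e2, hI.e3, hI.e1⟩

omit hO in
lemma nice_cyc {A B C : ℂ[X]} (hN : Nice A B C) : Nice B C A :=
  ⟨hN.sB, hN.sC, hN.sA, hN.cBC, hN.cCA, hN.cAB⟩

omit hO in
lemma form_scale {A B C : ℂ[X]} {D1 D2 : Derivation ℂ L L} {T X Y Z h c : L} (hc : c ≠ 0)
    (hI : IsForm A B C D1 D2 T (c * X) (c * Y) (c * Z) h) : IsForm A B C D1 D2 T X Y Z h := by
  obtain ⟨h1, h2, h3⟩ := hI
  have hc2 : c ^ 2 ≠ 0 := pow_ne_zero _ hc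
  simp only [br, Derivation.leibniz, smul_eq_mul] at h1 h2 h3
  refine ⟨?_, ?_, ?_⟩
  · apply mul_left_cancel₀ hc2
    simp only [br]
    linear_combination h1
  · apply mul_left_cancel₀ hc2
    simp only [br]
    linear_combination h2
  · apply mul_left_cancel₀ hc2
    simp only [br]
    linear_combination h3

/-- chart with `X` dividing the others -/
lemma chart2 {A B C : ℂ[X]} (hN : Nice A B C) {D1 D2 : Derivation ℂ L L} {T X Y Z h : L}
    (hT : T ∈ O) (hX : X ≠ 0) (hY : Y / X ∈ O) (hZ : Z / X ∈ O) (hA : aeval T A ≠ 0)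
    (hB : aeval T B ≠ 0) (hC : aeval T C ≠ 0)
    (hF : aeval T A * X ^ 3 + aeval T B * Y ^ 3 + aeval T C * Z ^ 3 = 0)
    (hI : IsForm A B C D1 D2 T X Y Z h) :
    ∃ a ∈ O, ∃ b ∈ O, ∃ c ∈ O, h = c * br D1 D2 a b := by
  refine chart1 O hO hN hT hY hZ hA hB hC ?_ ?_
  · have : X ^ 3 ≠ 0 := pow_ne_zero _ hX
    apply mul_left_cancel₀ this
    field_simp
    linear_combination hF
  · apply form_scale hX
    rw [mul_one, mul_div_cancel₀ _ hX, mul_div_cancel₀ _ hX]
    exact hI

/-- chart with `T` regular -/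
lemma chart3 {A B C : ℂ[X]} (hN : Nice A B C) {D1 D2 : Derivation ℂ L L} {T X Y Z h : L}
    (hT : T ∈ O) (hX : X ≠ 0 ∨ Y ≠ 0 ∨ Z ≠ 0) (hA : aeval T A ≠ 0)
    (hB : aeval T B ≠ 0) (hC : aeval T C ≠ 0)
    (hF : aeval T A * X ^ 3 + aeval T B * Y ^ 3 + aeval T C * Z ^ 3 = 0)
    (hI : IsForm A B C D1 D2 T X Y Z h) :
    ∃ a ∈ O, ∃ b ∈ O, ∃ c ∈ O, h = c * br D1 D2 a b := by
  have key : ∀ x y : L, x ≠ 0 → O.valuation y ≤ O.valuation x → y / x ∈ O := by
    intro x y hx hxy
    rw [← ValuationSubring.valuation_le_one_iff, map_div₀]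
    exact div_le_one_of_le₀ hxy zero_le
  have hpos : ∀ x y : L, y ≠ 0 → O.valuation y ≤ O.valuation x → x ≠ 0 := by
    rintro x y hy hxy rfl
    rw [map_zero, le_zero_iff, map_eq_zero] at hxy
    exact hy hxy
  rcases le_total (O.valuation X) (O.valuation Y) with h1 | h1
  · rcases le_total (O.valuation Y) (O.valuation Z) with h2 | h2
    · have hZ0 : Z ≠ 0 := by
        rcases hX with h | h | h
        · exact hpos _ _ h (h1.trans h2)
        · exact hpos _ _ h h2
        · exact h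
      refine chart2 O hO (nice_cyc (nice_cyc hN)) hT hZ0 (key _ _ hZ0 (h1.trans h2))
        (key _ _ hZ0 h2) hC hA hB ?_ (form_cyc (form_cyc hI))
      linear_combination hF
    · have hY0 : Y ≠ 0 := by
        rcases hX with h | h | h
        · exact hpos _ _ h h1
        · exact h
        · exact hpos _ _ h h2
      refine chart2 O hO (nice_cyc hN) hT hY0 (key _ _ hY0 h2)
        (key _ _ hY0 h1) hB hC hA ?_ (form_cyc hI)
      linear_combination hF
  · rcases le_total (O.valuation X) (O.valuation Z) with h2 | h2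
    · have hZ0 : Z ≠ 0 := by
        rcases hX with h | h | h
        · exact hpos _ _ h h2
        · exact hpos _ _ h (h1.trans h2)
        · exact h
      refine chart2 O hO (nice_cyc (nice_cyc hN)) hT hZ0 (key _ _ hZ0 h2)
        (key _ _ hZ0 (h1.trans h2)) hC hA hB ?_ (form_cyc (form_cyc hI))
      linear_combination hF
    · have hX0 : X ≠ 0 := by
        rcases hX with h | h | h
        · exact h
        · exact hpos _ _ h h1
        · exact hpos _ _ h h2
      exact chart2 O hO hN hT hX0 (key _ _ hX0 h1) (key _ _ hX0 h2) hA hB hC hF hI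

end

theorem stmLocal : StmLocal := by
  intro A B C hN L _ _ D1 D2 T X Y Z h hTt hF hX hI
  have hne : ∀ p : ℂ[X], p.Separable → aeval T p ≠ 0 := by
    intro p hp h0
    have := transcendental_iff.1 hTt p h0
    rw [this] at hp
    exact not_separable_zero hp
  have hA := hne A hN.fin.sA
  have hB := hne B hN.fin.sB
  have hC := hne C hN.fin.sC
  have hT0 : T ≠ 0 := by
    rintro rfl
    exact hTt isAlgebraic_zero
  -- the two statements at one valuation ring
  have key : ∀ O : ValuationSubring L, (∀ c : ℂ, algebraMap ℂ L c ∈ O) →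
      (∃ a ∈ O, ∃ b ∈ O, ∃ c ∈ O, h = c * br D1 D2 a b) ∧
      (∃ a ∈ O, ∃ b ∈ O, ∃ c ∈ O, T * h = c * br D1 D2 a b) := by
    intro O hO
    rcases O.mem_or_inv_mem T with hT | hT
    · obtain ⟨a, ha, b, hb, c, hc, he⟩ := chart3 O hO hN.fin hT hX hA hB hC hF hI
      refine ⟨⟨a, ha, b, hb, c, hc, he⟩, ⟨a, ha, b, hb, T * c, O.mul_mem _ _ hT hc, ?_⟩⟩
      rw [he]; ring
    · set S := T⁻¹ with hS
      have hST : S * T = 1 := inv_mul_cancel₀ hT0
      have hrefl : ∀ p : ℂ[X], p.natDegree ≤ 4 → aeval T p = T ^ 4 * aeval S (p.reflect 4) := by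
        intro p hp
        haveI : Invertible T := invertibleOfNonzero hT0
        have h1 := eval₂_reflect_mul_pow (algebraMap ℂ L) T 4 p hp
        rw [invOf_eq_inv] at h1
        rw [aeval_def, aeval_def, ← h1, hS]
        ring
      have rA := hrefl A hN.dA
      have rB := hrefl B hN.dB
      have rC := hrefl C hN.dC
      have hA4 : aeval S (A.reflect 4) ≠ 0 := by
        intro h0; rw [h0, mul_zero] at rA; exact hA rA
      have hB4 : aeval S (B.reflect 4) ≠ 0 := by
        intro h0; rw [h0, mul_zero] at rB; exact hB rB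
      have hC4 : aeval S (C.reflect 4) ≠ 0 := by
        intro h0; rw [h0, mul_zero] at rC; exact hC rC
      have hbr : ∀ a : L, br D1 D2 S a = - S ^ 2 * br D1 D2 T a := by
        intro a
        simp only [br, hS, Derivation.leibniz_inv, smul_eq_mul]
        ring
      have hT4 : T ^ 4 ≠ 0 := pow_ne_zero _ hT0
      have hF4 : aeval S (A.reflect 4) * X ^ 3 + aeval S (B.reflect 4) * Y ^ 3 +
          aeval S (C.reflect 4) * Z ^ 3 = 0 := by
        apply mul_left_cancel₀ hT4
        rw [rA, rB, rC] at hF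
        linear_combination hF
      have hI4 : IsForm (A.reflect 4) (B.reflect 4) (C.reflect 4) D1 D2 S X Y Z (- T ^ 2 * h) := by
        obtain ⟨h1, h2, h3⟩ := hI
        rw [rA] at h1
        rw [rB] at h2
        rw [rC] at h3
        have hT2 : T ^ 2 ≠ 0 := pow_ne_zero _ hT0
        have hS2 : T ^ 2 * S ^ 2 = 1 := by rw [← mul_pow, mul_comm T S, hST, one_pow]
        refine ⟨?_, ?_, ?_⟩
        · apply mul_left_cancel₀ hT2
          rw [hbr, hbr]
          linear_combination - h1 + (Y * br D1 D2 T Z - Z * br D1 D2 T Y) * hS2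
        · apply mul_left_cancel₀ hT2
          rw [hbr, hbr]
          linear_combination - h2 + (Z * br D1 D2 T X - X * br D1 D2 T Z) * hS2
        · apply mul_left_cancel₀ hT2
          rw [hbr, hbr]
          linear_combination - h3 + (X * br D1 D2 T Y - Y * br D1 D2 T X) * hS2
      obtain ⟨a, ha, b, hb, c, hc, he⟩ := chart3 O hO hN.inf hT hX hA4 hB4 hC4 hF4 hI4
      refine ⟨⟨a, ha, b, hb, -(S ^ 2 * c), O.neg_mem _ (O.mul_mem _ _ (pow_mem hT 2) hc), ?_⟩,
        ⟨a, ha, b, hb, -(S * c), O.neg_mem _ (O.mul_mem _ _ hT hc), ?_⟩⟩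
      · linear_combination - S ^ 2 * he - h * (1 + S * T) * hST
      · linear_combination - S * he - T * h * hST
  exact ⟨fun O hO => (key O hO).1, fun O hO => (key O hO).2⟩

end Pool.Agent.TH553.J328
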