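import Pool.Agent.TH160.Stm
set_option autoImplicit false
open Polynomial

namespace Pool.Agent.TH553.J335
open TH160

noncomputable section

abbrev RR := MvPolynomial (Fin 2) ℂ
abbrev SS := MvPolynomial (Fin 2) RR

/-- the quadratic form `s² + 2c s r + 4 r²` -/
def q (c : ℂ) : RR := MvPolynomial.X 0 ^ 2 + MvPolynomial.C (2 * c) * MvPolynomial.X 0 *
  MvPolynomial.X 1 + 4 * MvPolynomial.X 1 ^ 2

def aR (b : ℂ) : RR := q b * q (-1)
def bR (b : ℂ) : RR := 2 * MvPolynomial.X 0 * MvPolynomial.X 1 * q (-b)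
def cR : RR := q 0 * q 1
def gS (b : ℂ) : SS := MvPolynomial.C (bR b) * MvPolynomial.X 0 ^ 3 +
  MvPolynomial.C cR * MvPolynomial.X 1 ^ 3

def e : MvPolynomial (Fin 3 ⊕ Fin 2) ℂ ≃+* SS[X] :=
  (MvPolynomial.sumAlgEquiv ℂ (Fin 3) (Fin 2)).toRingEquiv.trans
    (MvPolynomial.finSuccEquiv RR 2).toRingEquiv

lemma e_inl0 : e (MvPolynomial.X (Sum.inl 0)) = X := by
  simp only [e, RingEquiv.coe_trans, Function.comp_apply]
  change MvPolynomial.finSuccEquiv RR 2 (MvPolynomial.sumAlgEquiv ℂ (Fin 3) (Fin 2) _) = _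
  rw [MvPolynomial.sumAlgEquiv_X_inl, MvPolynomial.finSuccEquiv_X_zero]

lemma e_inl1 : e (MvPolynomial.X (Sum.inl 1)) = C (MvPolynomial.X 0) := by
  change MvPolynomial.finSuccEquiv RR 2 (MvPolynomial.sumAlgEquiv ℂ (Fin 3) (Fin 2) _) = _
  rw [MvPolynomial.sumAlgEquiv_X_inl]
  exact MvPolynomial.finSuccEquiv_X_succ (j := (0 : Fin 2))

lemma e_inl2 : e (MvPolynomial.X (Sum.inl 2)) = C (MvPolynomial.X 1) := by
  change MvPolynomial.finSuccEquiv RR 2 (MvPolynomial.sumAlgEquiv ℂ (Fin 3) (Fin 2) _) = _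
  rw [MvPolynomial.sumAlgEquiv_X_inl]
  exact MvPolynomial.finSuccEquiv_X_succ (j := (1 : Fin 2))

lemma fs_C (r : RR) : MvPolynomial.finSuccEquiv RR 2 (MvPolynomial.C r) = C (MvPolynomial.C r) := by
  rw [MvPolynomial.finSuccEquiv_apply, MvPolynomial.eval₂Hom_C]
  rfl

lemma e_inr (j : Fin 2) : e (MvPolynomial.X (Sum.inr j)) = C (MvPolynomial.C (MvPolynomial.X j)) := by
  change MvPolynomial.finSuccEquiv RR 2 (MvPolynomial.sumAlgEquiv ℂ (Fin 3) (Fin 2) _) = _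
  rw [MvPolynomial.sumAlgEquiv_X_inr, fs_C]

lemma e_C (c : ℂ) : e (MvPolynomial.C c) = C (MvPolynomial.C (MvPolynomial.C c)) := by
  change MvPolynomial.finSuccEquiv RR 2 (MvPolynomial.sumAlgEquiv ℂ (Fin 3) (Fin 2) _) = _
  rw [MvPolynomial.sumAlgEquiv_C_inl, fs_C]

lemma e_feq (b : ℂ) : e (Feq b) = C (MvPolynomial.C (aR b)) * X ^ 3 + C (gS b) := by
  unfold Feq x0 x1 x2 s0 s1
  simp only [map_add, map_mul, map_sub, map_pow, map_ofNat, e_inl0, e_inl1, e_inl2, e_inr, e_C]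
  unfold gS aR bR cR q
  simp only [map_add, map_mul, map_pow, map_ofNat, map_neg, map_one, map_zero]
  ring

/-! ### a point -/

/-- restriction to the line `s₀ = X`, `s₁ = 1` -/
def θ0 : RR →+* ℂ[X] := (MvPolynomial.aeval (![X, 1] : Fin 2 → ℂ[X])).toRingHom

def θ : SS →+* ℂ[X] := MvPolynomial.eval₂Hom θ0 (![1, 0] : Fin 2 → ℂ[X])

lemma θ0_q (c : ℂ) : θ0 (q c) = X ^ 2 + C (2 * c) * X + 4 := by
  change MvPolynomial.aeval _ _ = _
  unfold q
  simp only [map_add, map_mul, map_pow, map_ofNat, MvPolynomial.aeval_X, MvPolynomial.aeval_C]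
  simp
  
lemma θ_C (r : RR) : θ (MvPolynomial.C r) = θ0 r := MvPolynomial.eval₂Hom_C _ _ _

lemma θ_X0 : θ (MvPolynomial.X 0) = 1 := by
  simp [θ]

lemma θ_X1 : θ (MvPolynomial.X 1) = 0 := by
  simp [θ]

lemma θ0_b (b : ℂ) : θ0 (bR b) = X * (2 * (X ^ 2 + C (2 * (-b)) * X + 4)) := by
  unfold bR
  have h0 : θ0 (MvPolynomial.X 0) = X := by
    change MvPolynomial.aeval _ _ = _
    simp
  have h1 : θ0 (MvPolynomial.X 1) = 1 := by
    change MvPolynomial.aeval _ _ = _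
    simp
  rw [map_mul, map_mul, map_mul, h0, h1, θ0_q, map_ofNat]
  ring

lemma θ_g (b : ℂ) : θ (gS b) = X * (2 * (X ^ 2 + C (2 * (-b)) * X + 4)) := by
  unfold gS
  rw [map_add, map_mul, map_mul, map_pow, map_pow, θ_C, θ_C, θ_X0, θ_X1, θ0_b]
  ring

def 𝔭 : Ideal SS := (Ideal.span {(X : ℂ[X])}).comap θ

lemma 𝔭_prime : 𝔭.IsPrime := by
  have : (Ideal.span {(X : ℂ[X])}).IsPrime :=
    (Ideal.span_singleton_prime X_ne_zero).2 prime_X
  exact Ideal.comap_isPrime θ _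

lemma mem_𝔭 (f : SS) : f ∈ 𝔭 ↔ X ∣ θ f := by
  unfold 𝔭
  rw [Ideal.mem_comap, Ideal.mem_span_singleton]

lemma a_notMem (b : ℂ) : MvPolynomial.C (aR b) ∉ 𝔭 := by
  rw [mem_𝔭, θ_C]
  unfold aR
  rw [map_mul, θ0_q, θ0_q, X_dvd_iff, coeff_zero_eq_eval_zero]
  simp

lemma g_mem (b : ℂ) : gS b ∈ 𝔭 := by
  rw [mem_𝔭, θ_g]
  exact Dvd.intro _ rfl

lemma g_notMem (b : ℂ) : gS b ∉ 𝔭 ^ 2 := by
  intro h
  have h1 : θ (gS b) ∈ (Ideal.span {(X : ℂ[X])}) ^ 2 := by
    have h2 : (𝔭 ^ 2).map θ ≤ (Ideal.span {(X : ℂ[X])}) ^ 2 := by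
      rw [Ideal.map_pow]
      exact Ideal.pow_right_mono Ideal.map_comap_le 2
    exact h2 (Ideal.mem_map_of_mem θ h)
  rw [Ideal.span_singleton_pow, Ideal.mem_span_singleton, θ_g, pow_two] at h1
  have h3 := (mul_dvd_mul_iff_left (X_ne_zero (R := ℂ))).1 h1
  rw [X_dvd_iff, coeff_zero_eq_eval_zero] at h3
  simp at h3

/-! ### primitivity -/

lemma q_q {p : RR} (hp : Prime p) {c d : ℂ} (hcd : c ≠ d) (h1 : p ∣ q c) (h2 : p ∣ q d) : False := by
  have hs : p ∣ MvPolynomial.C (2 * (c - d)) * (MvPolynomial.X 0 * MvPolynomial.X 1) := by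
    have h3 := dvd_sub h1 h2
    have e3 : q c - q d = MvPolynomial.C (2 * (c - d)) * (MvPolynomial.X 0 * MvPolynomial.X 1) := by
      unfold q
      simp only [mul_sub, map_sub]
      ring
    rwa [e3] at h3
  have hu : IsUnit (MvPolynomial.C (2 * (c - d)) : RR) := by
    have : IsUnit (2 * (c - d)) := by
      rw [isUnit_iff_ne_zero]
      exact mul_ne_zero two_ne_zero (sub_ne_zero.2 hcd)
    exact this.map MvPolynomial.C
  have hs2 := (hu.dvd_mul_left).1 hs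
  have hxy : p ∣ MvPolynomial.X 0 ∧ p ∣ MvPolynomial.X 1 := by
    have u4 : IsUnit (4 : RR) := by
      have : IsUnit (4 : ℂ) := by
        rw [isUnit_iff_ne_zero]; norm_num
      have h4 := this.map (MvPolynomial.C : ℂ →+* RR)
      rwa [map_ofNat] at h4
    rcases hp.dvd_or_dvd hs2 with h | h
    · refine ⟨h, ?_⟩
      have h5 : p ∣ (4 : RR) * MvPolynomial.X 1 ^ 2 := by
        have e5 : (4 : RR) * MvPolynomial.X 1 ^ 2 = q c - MvPolynomial.X 0 *
          (MvPolynomial.X 0 + MvPolynomial.C (2 * c) * MvPolynomial.X 1) := by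
          unfold q; ring
        rw [e5]
        exact dvd_sub h1 (h.mul_right _)
      exact hp.dvd_of_dvd_pow ((u4.dvd_mul_left).1 h5)
    · refine ⟨?_, h⟩
      have h5 : p ∣ (MvPolynomial.X 0 : RR) ^ 2 := by
        have e5 : (MvPolynomial.X 0 : RR) ^ 2 = q c - MvPolynomial.X 1 *
          (4 * MvPolynomial.X 1 + MvPolynomial.C (2 * c) * MvPolynomial.X 0) := by
          unfold q; ring
        rw [e5]
        exact dvd_sub h1 (h.mul_right _)
      exact hp.dvd_of_dvd_pow h5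
  have hX : Irreducible (MvPolynomial.X 0 : RR) := MvPolynomial.X_prime.irreducible
  have ha := hp.irreducible.associated_of_dvd hX hxy.1
  have hd : (MvPolynomial.X 0 : RR) ∣ MvPolynomial.X 1 := ha.symm.dvd.trans hxy.2
  rw [MvPolynomial.X_dvd_X] at hd
  exact absurd hd (by decide)

lemma aR_ne (b : ℂ) : aR b ≠ 0 := by
  intro h
  have h1 := a_notMem b
  rw [h, map_zero] at h1
  exact h1 (Ideal.zero_mem _)

lemma unit_of_dvd {b : ℂ} (hb : b ∈ Tset) {r : RR} (h1 : r ∣ aR b) (h2 : r ∣ cR) : IsUnit r := by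
  by_contra hr
  have hr0 : r ≠ 0 := by
    rintro rfl
    exact aR_ne b (zero_dvd_iff.1 h1)
  obtain ⟨p, hp, hpr⟩ := WfDvdMonoid.exists_irreducible_factor hr hr0
  have hp' : Prime p := UniqueFactorizationMonoid.irreducible_iff_prime.1 hp
  have hb0 : b ≠ 0 := hb.1
  have hb1 : b ≠ 1 := fun h => hb.2.1 (by rw [h]; norm_num)
  have n1 : (-1 : ℂ) ≠ 0 := by norm_num
  have n2 : (-1 : ℂ) ≠ 1 := by norm_num
  rcases hp'.dvd_or_dvd (hpr.trans h1) with h3 | h3 <;>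
    rcases hp'.dvd_or_dvd (hpr.trans h2) with h4 | h4
  · exact q_q hp' hb0 h3 h4
  · exact q_q hp' hb1 h3 h4
  · exact q_q hp' n1 h3 h4
  · exact q_q hp' n2 h3 h4

lemma coeff_g (b : ℂ) : (gS b).coeff (Finsupp.single 1 3) = cR := by
  unfold gS
  rw [MvPolynomial.coeff_add, MvPolynomial.coeff_C_mul, MvPolynomial.coeff_C_mul,
    MvPolynomial.coeff_X_pow, MvPolynomial.coeff_X_pow]
  rw [if_neg, if_pos rfl]
  · ring
  · intro h
    have := DFunLike.congr_fun h 0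
    simp at this

theorem stmIrr : StmIrr := by
  intro b hb
  rw [← MulEquiv.irreducible_iff e, e_feq]
  set F : SS[X] := C (MvPolynomial.C (aR b)) * X ^ 3 + C (gS b) with hF
  have ha : (MvPolynomial.C (aR b) : SS) ≠ 0 := by
    intro h
    have h1 := a_notMem b
    rw [h] at h1
    exact h1 (Ideal.zero_mem _)
  have c3 : F.coeff 3 = MvPolynomial.C (aR b) := by
    rw [hF]; simp [coeff_C]
  have c0 : F.coeff 0 = gS b := by
    rw [hF]; simp
  have hdeg : F.natDegree = 3 := by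
    rw [hF, natDegree_add_C, natDegree_C_mul_X_pow 3 _ ha]
  have hd : F.degree = 3 := by
    rw [degree_eq_natDegree, hdeg]
    · rfl
    · intro h
      rw [h, natDegree_zero] at hdeg
      exact absurd hdeg (by norm_num)
  refine irreducible_of_eisenstein_criterion (P := 𝔭) 𝔭_prime ?_ ?_ ?_ ?_ ?_
  · rw [leadingCoeff, hdeg, c3]
    exact a_notMem b
  · intro n hn
    rw [hd] at hn
    have hn3 : n < 3 := by exact_mod_cast hn
    interval_cases n
    · rw [c0]; exact g_mem b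
    · have : F.coeff 1 = 0 := by rw [hF]; simp [coeff_C, coeff_X_pow]
      rw [this]; exact Ideal.zero_mem _
    · have : F.coeff 2 = 0 := by rw [hF]; simp [coeff_C, coeff_X_pow]
      rw [this]; exact Ideal.zero_mem _
  · rw [hd]; norm_num
  · rw [c0]; exact g_notMem b
  · intro r hr
    have h3 : r ∣ MvPolynomial.C (aR b) := by
      rw [← c3]
      exact (C_dvd_iff_dvd_coeff _ _).1 hr 3
    have h0 : r ∣ gS b := by
      rw [← c0]
      exact (C_dvd_iff_dvd_coeff _ _).1 hr 0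
    obtain ⟨r', hr', rfl⟩ := (MvPolynomial.dvd_C_iff_exists (aR_ne b)).1 h3
    have h4 := (MvPolynomial.C_dvd_iff_dvd_coeff _ _).1 h0 (Finsupp.single 1 3)
    rw [coeff_g] at h4
    exact (unit_of_dvd hb hr' h4).map MvPolynomial.C

end

end Pool.Agent.TH553.J335
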