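import Pool.Agent.TH160.Stm
set_option autoImplicit false
open Polynomial

namespace Pool.Agent.TH553.J336
open TH160

noncomputable section

/-- the quadratic `X² + 2cX + 4` -/
def Q (c : ℂ) : ℂ[X] := X ^ 2 + C (2 * c) * X + 4
/-- the reversed quadratic `4X² + 2cX + 1` -/
def R (c : ℂ) : ℂ[X] := 4 * X ^ 2 + C (2 * c) * X + 1

lemma C4 : (C (4 : ℂ) : ℂ[X]) = 4 := map_ofNat C 4
lemma C2 : (C (2 : ℂ) : ℂ[X]) = 2 := map_ofNat C 2

lemma Q_cop {c d : ℂ} (h : c ≠ d) : IsCoprime (Q c) (Q d) := by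
  have h2 : (c - d) ≠ 0 := sub_ne_zero.2 h
  refine ⟨C (1 / 4) * (1 - C (1 / (2 * (c - d))) * (X + C (2 * c))),
    C (1 / 4) * (C (1 / (2 * (c - d))) * (X + C (2 * c))), ?_⟩
  have e1 : (C (1 / 4) : ℂ[X]) * 4 = 1 := by
    rw [← C4, ← C_mul]; norm_num
  have e2 : (C (1 / (2 * (c - d))) : ℂ[X]) * (C (2 * c) - C (2 * d)) = 1 := by
    rw [← C_sub, ← C_mul, ← C_1]
    congr 1
    field_simp
  unfold Q
  linear_combination e1 - C (1 / 4) * (X + C (2 * c)) * X * e2

lemma R_cop {c d : ℂ} (h : c ≠ d) : IsCoprime (R c) (R d) := by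
  have h2 : (c - d) ≠ 0 := sub_ne_zero.2 h
  refine ⟨(1 - C (1 / (2 * (c - d))) * (4 * X + C (2 * c))),
    (C (1 / (2 * (c - d))) * (4 * X + C (2 * c))), ?_⟩
  have e2 : (C (1 / (2 * (c - d))) : ℂ[X]) * (C (2 * c) - C (2 * d)) = 1 := by
    rw [← C_sub, ← C_mul, ← C_1]
    congr 1
    field_simp
  unfold R
  linear_combination - (4 * X + C (2 * c)) * X * e2

lemma Q_sep {c : ℂ} (h : c ^ 2 ≠ 4) : (Q c).Separable := by
  have h2 : (4 - c ^ 2) ≠ 0 := sub_ne_zero.2 (Ne.symm h)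
  have hd : derivative (Q c) = 2 * X + C (2 * c) := by
    simp [Q]
    norm_num
  unfold Polynomial.Separable
  rw [hd]
  refine ⟨C (1 / (4 - c ^ 2)), - C (1 / (2 * (4 - c ^ 2))) * (X + C c), ?_⟩
  have e2 : (C (1 / (4 - c ^ 2)) : ℂ[X]) * (4 - C c ^ 2) = 1 := by
    rw [← C_pow, ← C4, ← C_sub, ← C_mul, ← C_1]
    congr 1
    field_simp
  have e3 : (C (1 / (4 - c ^ 2)) : ℂ[X]) = 2 * C (1 / (2 * (4 - c ^ 2))) := by
    rw [← C2, ← C_mul]
    congr 1
    field_simp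
  have e4 : (C (2 * c) : ℂ[X]) = 2 * C c := by rw [C_mul, C2]
  rw [e3] at e2 ⊢
  unfold Q
  rw [e4]
  linear_combination e2

lemma R_sep {c : ℂ} (h : c ^ 2 ≠ 4) : (R c).Separable := by
  have h2 : (4 - c ^ 2) ≠ 0 := sub_ne_zero.2 (Ne.symm h)
  have hd : derivative (R c) = 8 * X + C (2 * c) := by
    simp [R]
    ring
  unfold Polynomial.Separable
  rw [hd]
  refine ⟨C (4 / (4 - c ^ 2)), - C (1 / (2 * (4 - c ^ 2))) * (4 * X + C c), ?_⟩
  have e2 : (C (1 / (4 - c ^ 2)) : ℂ[X]) * (4 - C c ^ 2) = 1 := by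
    rw [← C_pow, ← C4, ← C_sub, ← C_mul, ← C_1]
    congr 1
    field_simp
  have e3 : (C (1 / (4 - c ^ 2)) : ℂ[X]) = 2 * C (1 / (2 * (4 - c ^ 2))) := by
    rw [← C2, ← C_mul]
    congr 1
    field_simp
  have e5 : (C (4 / (4 - c ^ 2)) : ℂ[X]) = 8 * C (1 / (2 * (4 - c ^ 2))) := by
    rw [show (8 : ℂ[X]) = C 8 from (map_ofNat C 8).symm, ← C_mul]
    congr 1
    field_simp
    norm_num
  have e4 : (C (2 * c) : ℂ[X]) = 2 * C c := by rw [C_mul, C2]
  rw [e3] at e2
  rw [e5]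
  unfold R
  rw [e4]
  linear_combination e2

lemma X_copQ (c : ℂ) : IsCoprime (C 2 * X : ℂ[X]) (Q c) := by
  refine ⟨- C (1 / 8) * (X + C (2 * c)), C (1 / 4), ?_⟩
  have e1 : (C (1 / 4) : ℂ[X]) = 2 * C (1 / 8) := by
    rw [← C2, ← C_mul]
    norm_num
  have e2 : (C (1 / 8) : ℂ[X]) * 8 = 1 := by
    rw [show (8 : ℂ[X]) = C 8 from (map_ofNat C 8).symm, ← C_mul]; norm_num
  rw [e1, C2]
  unfold Q
  linear_combination e2

lemma X_copR (c : ℂ) : IsCoprime (C 2 * X : ℂ[X]) (R c) := by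
  refine ⟨- C (1 / 2) * (4 * X + C (2 * c)), 1, ?_⟩
  have e2 : (C (1 / 2) : ℂ[X]) * 2 = 1 := by
    rw [← C2, ← C_mul]; norm_num
  rw [C2]
  unfold R
  linear_combination - (4 * X + C (2 * c)) * X * e2

lemma X_sep : (C 2 * X : ℂ[X]).Separable := by
  unfold Polynomial.Separable
  refine ⟨0, C (1 / 2), ?_⟩
  simp only [derivative_mul, derivative_C, zero_mul, derivative_X, mul_one, zero_add]
  rw [← C_mul]
  norm_num

lemma pA_eq (b : ℂ) : pA b = Q b * Q (-1) := by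
  have e : (C (2 * (-1 : ℂ)) : ℂ[X]) = - 2 := by
    rw [mul_neg, mul_one, C_neg, C2]
  unfold pA Q
  rw [e]
  ring

lemma pB_eq (b : ℂ) : pB b = (C 2 * X) * Q (-b) := by
  have e : (C (2 * (-b : ℂ)) : ℂ[X]) = - C (2 * b) := by
    rw [mul_neg, C_neg]
  unfold pB Q
  rw [e, C2]
  ring

lemma pC_eq : pC = Q 0 * Q 1 := by
  unfold pC Q
  rw [mul_zero, mul_one, C_0, C2]
  ring

lemma Q_deg (c : ℂ) : (Q c).natDegree ≤ 2 := by
  unfold Q
  compute_degree

lemma Q_refl (c : ℂ) : (Q c).reflect 2 = R c := by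
  have e : Q c = C 1 * X ^ 2 + C (2 * c) * X ^ 1 + C 4 * X ^ 0 := by
    unfold Q
    rw [C4, C_1]
    ring
  rw [e, reflect_add, reflect_add, reflect_C_mul_X_pow, reflect_C_mul_X_pow, reflect_C_mul_X_pow]
  unfold R
  rw [revAt_le (by norm_num), revAt_le (by norm_num), revAt_le (by norm_num), C4, C_1]
  ring

lemma X_deg : (C 2 * X : ℂ[X]).natDegree ≤ 2 :=
  (natDegree_C_mul_le 2 X).trans (natDegree_X_le.trans (by norm_num))

lemma X_refl : (C 2 * X : ℂ[X]).reflect 2 = C 2 * X := by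
  have e : (C 2 * X : ℂ[X]) = C 2 * X ^ 1 := by rw [pow_one]
  rw [e, reflect_C_mul_X_pow, revAt_le (by norm_num)]

theorem stmNice : StmNice := by
  rintro b ⟨h0, h1, h4⟩
  have hb1 : b ≠ 1 := fun h => h1 (by rw [h]; norm_num)
  have hbm1 : b ≠ -1 := fun h => h1 (by rw [h]; norm_num)
  have hbb : b ≠ -b := by
    intro h
    apply h0
    linear_combination h / 2
  have hb4 : (-b) ^ 2 ≠ 4 := by rwa [neg_sq]
  have s1 : (-1 : ℂ) ^ 2 ≠ 4 := by norm_num
  have s0 : (0 : ℂ) ^ 2 ≠ 4 := by norm_num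
  have s1' : (1 : ℂ) ^ 2 ≠ 4 := by norm_num
  have n1 : (-1 : ℂ) ≠ 0 := by norm_num
  have n2 : (-1 : ℂ) ≠ 1 := by norm_num
  have n3 : (0 : ℂ) ≠ 1 := by norm_num
  have n4 : -b ≠ 0 := neg_ne_zero.2 h0
  have n5 : -b ≠ 1 := fun h => hbm1 (by linear_combination -h)
  have n6 : (-1 : ℂ) ≠ -b := fun h => hb1 (by linear_combination h)
  refine ⟨?_, ?_, ?_, ?_, ?_⟩
  · rw [pA_eq]
    exact (natDegree_mul_le).trans (Nat.add_le_add (Q_deg _) (Q_deg _))
  · rw [pB_eq]
    exact (natDegree_mul_le).trans (Nat.add_le_add X_deg (Q_deg _))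
  · rw [pC_eq]
    exact (natDegree_mul_le).trans (Nat.add_le_add (Q_deg _) (Q_deg _))
  · rw [pA_eq, pB_eq, pC_eq]
    exact
    { sA := (Q_sep h4).mul (Q_sep s1) (Q_cop hbm1)
      sB := X_sep.mul (Q_sep hb4) (X_copQ _)
      sC := (Q_sep s0).mul (Q_sep s1') (Q_cop n3)
      cAB := IsCoprime.mul_left
        (IsCoprime.mul_right (X_copQ _).symm (Q_cop hbb))
        (IsCoprime.mul_right (X_copQ _).symm (Q_cop n6))
      cBC := IsCoprime.mul_left
        (IsCoprime.mul_right (X_copQ _) (X_copQ _))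
        (IsCoprime.mul_right (Q_cop n4) (Q_cop n5))
      cCA := IsCoprime.mul_left
        (IsCoprime.mul_right (Q_cop h0.symm) (Q_cop n1.symm))
        (IsCoprime.mul_right (Q_cop hb1.symm) (Q_cop n2.symm)) }
  · rw [pA_eq, pB_eq, pC_eq, show 4 = 2 + 2 from rfl, reflect_mul _ _ (Q_deg _) (Q_deg _),
      reflect_mul _ _ X_deg (Q_deg _), reflect_mul _ _ (Q_deg _) (Q_deg _), Q_refl, Q_refl, Q_refl,
      Q_refl, Q_refl, X_refl]
    exact
    { sA := (R_sep h4).mul (R_sep s1) (R_cop hbm1)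
      sB := X_sep.mul (R_sep hb4) (X_copR _)
      sC := (R_sep s0).mul (R_sep s1') (R_cop n3)
      cAB := IsCoprime.mul_left
        (IsCoprime.mul_right (X_copR _).symm (R_cop hbb))
        (IsCoprime.mul_right (X_copR _).symm (R_cop n6))
      cBC := IsCoprime.mul_left
        (IsCoprime.mul_right (X_copR _) (X_copR _))
        (IsCoprime.mul_right (R_cop n4) (R_cop n5))
      cCA := IsCoprime.mul_left
        (IsCoprime.mul_right (R_cop h0.symm) (R_cop n1.symm))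
        (IsCoprime.mul_right (R_cop hb1.symm) (R_cop n2.symm)) }

/-! ### smoothness -/

lemma q_ne {s r c : ℂ} (h : s ≠ 0 ∨ r ≠ 0) (hq : s ^ 2 + 2 * c * s * r + 4 * r ^ 2 = 0) :
    s ≠ 0 ∧ r ≠ 0 := by
  constructor
  · intro hs
    subst hs
    have : r ^ 2 = 0 := by linear_combination hq / 4
    have hr : r = 0 := pow_eq_zero_iff (two_ne_zero) |>.1 this
    rcases h with h | h
    · exact h rfl
    · exact h hr
  · intro hr
    subst hr
    have : s ^ 2 = 0 := by linear_combination hq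
    have hs : s = 0 := pow_eq_zero_iff (two_ne_zero) |>.1 this
    rcases h with h | h
    · exact h hs
    · exact h rfl

lemma q_q {s r c d : ℂ} (hcd : c ≠ d) (h : s ≠ 0 ∨ r ≠ 0)
    (hq : s ^ 2 + 2 * c * s * r + 4 * r ^ 2 = 0) (hq' : s ^ 2 + 2 * d * s * r + 4 * r ^ 2 = 0) :
    False := by
  obtain ⟨hs, hr⟩ := q_ne h hq
  have h1 : (c - d) * (s * r) = 0 := by linear_combination hq / 2 - hq' / 2
  rcases mul_eq_zero.1 h1 with h2 | h2
  · exact hcd (sub_eq_zero.1 h2)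
  · rcases mul_eq_zero.1 h2 with h3 | h3
    · exact hs h3
    · exact hr h3

lemma q_der {s r c : ℂ} (hc : c ^ 2 ≠ 4) (h : s ≠ 0 ∨ r ≠ 0)
    (h1 : 2 * s + 2 * c * r = 0) (h2 : 2 * c * s + 8 * r = 0) : False := by
  have h3 : (4 - c ^ 2) * r = 0 := by linear_combination h2 / 2 - c * h1 / 2
  rcases mul_eq_zero.1 h3 with h4 | h4
  · exact hc (by linear_combination -h4)
  · have : s = 0 := by linear_combination h1 / 2 - c * h4
    rcases h with h | h
    · exact h this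
    · exact h h4

/-- two quadratic factors: partial derivatives of the product -/
lemma qq_der {s r c d : ℂ} (hc : c ^ 2 ≠ 4) (hd : d ^ 2 ≠ 4) (hcd : c ≠ d) (h : s ≠ 0 ∨ r ≠ 0)
    (h0 : (s ^ 2 + 2 * c * s * r + 4 * r ^ 2) * (s ^ 2 + 2 * d * s * r + 4 * r ^ 2) = 0)
    (h1 : (2 * s + 2 * c * r) * (s ^ 2 + 2 * d * s * r + 4 * r ^ 2) +
      (s ^ 2 + 2 * c * s * r + 4 * r ^ 2) * (2 * s + 2 * d * r) = 0)
    (h2 : (2 * c * s + 8 * r) * (s ^ 2 + 2 * d * s * r + 4 * r ^ 2) +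
      (s ^ 2 + 2 * c * s * r + 4 * r ^ 2) * (2 * d * s + 8 * r) = 0) : False := by
  rcases mul_eq_zero.1 h0 with hq | hq
  · have hne : s ^ 2 + 2 * d * s * r + 4 * r ^ 2 ≠ 0 := fun h' => q_q hcd h hq h'
    rw [hq, zero_mul, add_zero] at h1 h2
    exact q_der hc h ((mul_eq_zero.1 h1).resolve_right hne) ((mul_eq_zero.1 h2).resolve_right hne)
  · have hne : s ^ 2 + 2 * c * s * r + 4 * r ^ 2 ≠ 0 := fun h' => q_q hcd h h' hq
    rw [hq, mul_zero, zero_add] at h1 h2
    exact q_der hd h ((mul_eq_zero.1 h1).resolve_left hne) ((mul_eq_zero.1 h2).resolve_left hne)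

/-- the middle coefficient -/
lemma xq_der {s r c : ℂ} (hc : c ^ 2 ≠ 4) (h : s ≠ 0 ∨ r ≠ 0)
    (h0 : 2 * s * r * (s ^ 2 + 2 * c * s * r + 4 * r ^ 2) = 0)
    (h1 : 2 * r * (s ^ 2 + 2 * c * s * r + 4 * r ^ 2) + 2 * s * r * (2 * s + 2 * c * r) = 0)
    (h2 : 2 * s * (s ^ 2 + 2 * c * s * r + 4 * r ^ 2) + 2 * s * r * (2 * c * s + 8 * r) = 0) :
    False := by
  by_cases hs : s = 0
  · subst hs
    have : r ^ 3 = 0 := by linear_combination h1 / 8
    have hr : r = 0 := pow_eq_zero_iff (three_ne_zero) |>.1 this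
    rcases h with h | h
    · exact h rfl
    · exact h hr
  by_cases hr : r = 0
  · subst hr
    have : s ^ 3 = 0 := by linear_combination h2 / 2
    exact hs (pow_eq_zero_iff (three_ne_zero) |>.1 this)
  have hsr : 2 * s * r ≠ 0 := mul_ne_zero (mul_ne_zero two_ne_zero hs) hr
  have hq := (mul_eq_zero.1 h0).resolve_left hsr
  rw [hq, mul_zero, zero_add] at h1 h2
  exact q_der hc h ((mul_eq_zero.1 h1).resolve_left hsr) ((mul_eq_zero.1 h2).resolve_left hsr)

theorem stmSmooth : StmSmooth := by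
  rintro b ⟨h0, h1, h4⟩ a ⟨i, hi⟩ ⟨j, hj⟩ hF
  by_contra hcon
  push Not at hcon
  have hb1 : b ≠ 1 := fun h => h1 (by rw [h]; norm_num)
  have hbm1 : b ≠ -1 := fun h => h1 (by rw [h]; norm_num)
  have hbb : b ≠ -b := by
    intro h
    apply h0
    linear_combination h / 2
  have hb4 : (-b) ^ 2 ≠ 4 := by rwa [neg_sq]
  have p2 : ∀ k : Fin 3 ⊕ Fin 2, MvPolynomial.pderiv k (2 : MvPolynomial (Fin 3 ⊕ Fin 2) ℂ) = 0 :=
    fun k => by
      have := (MvPolynomial.pderiv (R := ℂ) k).map_natCast 2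
      simpa using this
  have p4 : ∀ k : Fin 3 ⊕ Fin 2, MvPolynomial.pderiv k (4 : MvPolynomial (Fin 3 ⊕ Fin 2) ℂ) = 0 :=
    fun k => by
      have := (MvPolynomial.pderiv (R := ℂ) k).map_natCast 4
      simpa using this
  have k0 := hcon (Sum.inl 0)
  have k1 := hcon (Sum.inl 1)
  have k2 := hcon (Sum.inl 2)
  have k3 := hcon (Sum.inr 0)
  have k4 := hcon (Sum.inr 1)
  simp [Feq, MvPolynomial.pderiv_X, Derivation.leibniz, Derivation.leibniz_pow, p2, p4]
    at k0 k1 k2 k3 k4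
  clear hcon hF p2 p4
  have hx : a (Sum.inl 0) ≠ 0 ∨ a (Sum.inl 1) ≠ 0 ∨ a (Sum.inl 2) ≠ 0 := by
    fin_cases i
    · exact Or.inl hi
    · exact Or.inr (Or.inl hi)
    · exact Or.inr (Or.inr hi)
  have hs : a (Sum.inr 0) ≠ 0 ∨ a (Sum.inr 1) ≠ 0 := by
    fin_cases j
    · exact Or.inl hj
    · exact Or.inr hj
  clear hi hj i j
  generalize a (Sum.inl 0) = x at *
  generalize a (Sum.inl 1) = y at *
  generalize a (Sum.inl 2) = z at *
  generalize a (Sum.inr 0) = s at *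
  generalize a (Sum.inr 1) = r at *
  have eA : s ^ 2 - 2 * s * r + 4 * r ^ 2 = s ^ 2 + 2 * (-1) * s * r + 4 * r ^ 2 := by ring
  have eB : s ^ 2 - 2 * b * s * r + 4 * r ^ 2 = s ^ 2 + 2 * (-b) * s * r + 4 * r ^ 2 := by ring
  have eC : s ^ 2 + 4 * r ^ 2 = s ^ 2 + 2 * 0 * s * r + 4 * r ^ 2 := by ring
  have eD : s ^ 2 + 2 * s * r + 4 * r ^ 2 = s ^ 2 + 2 * 1 * s * r + 4 * r ^ 2 := by ring
  rw [eA] at k0 k3 k4
  rw [eB] at k1 k3 k4
  rw [eD] at k2 k3 k4
  rw [eC] at k2 k3 k4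
  have s1 : (-1 : ℂ) ^ 2 ≠ 4 := by norm_num
  have s0 : (0 : ℂ) ^ 2 ≠ 4 := by norm_num
  have s1' : (1 : ℂ) ^ 2 ≠ 4 := by norm_num
  have n1 : (-1 : ℂ) ≠ 0 := by norm_num
  have n2 : (-1 : ℂ) ≠ 1 := by norm_num
  have n3 : (0 : ℂ) ≠ 1 := by norm_num
  have n4 : -b ≠ 0 := neg_ne_zero.2 h0
  have n5 : -b ≠ 1 := fun h => hbm1 (by linear_combination -h)
  have n6 : (-1 : ℂ) ≠ -b := fun h => hb1 (by linear_combination h)
  by_cases hx0 : x = 0
  · by_cases hy0 : y = 0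
    · have hz0 : z ≠ 0 := by
        rcases hx with h | h | h
        · exact absurd hx0 h
        · exact absurd hy0 h
        · exact h
      have hz3 : z ^ 3 ≠ 0 := pow_ne_zero _ hz0
      rw [hx0, hy0] at k3 k4
      have hq := k2.resolve_right hz0
      refine qq_der (c := 0) (d := 1) s0 s1' n3 hs ?_ ?_ ?_
      · rcases hq with h | h
        · rw [h, zero_mul]
        · rw [h, mul_zero]
      · refine mul_left_cancel₀ hz3 ?_
        linear_combination k3
      · refine mul_left_cancel₀ hz3 ?_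
        linear_combination k4
    · have hz0 : z = 0 := by
        by_contra hz
        have hq := k2.resolve_right hz
        rcases k1.resolve_right hy0 with (h | h) | h
        · rcases hq with hq | hq
          · exact (q_ne hs hq).1 h
          · exact (q_ne hs hq).1 h
        · rcases hq with hq | hq
          · exact (q_ne hs hq).2 h
          · exact (q_ne hs hq).2 h
        · rcases hq with hq | hq
          · exact q_q n4 hs h hq
          · exact q_q n5 hs h hq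
      have hy3 : y ^ 3 ≠ 0 := pow_ne_zero _ hy0
      rw [hx0, hz0] at k3 k4
      refine xq_der (c := -b) hb4 hs ?_ ?_ ?_
      · rcases k1.resolve_right hy0 with (h | h) | h
        · rw [h]; ring
        · rw [h]; ring
        · rw [h]; ring
      · refine mul_left_cancel₀ hy3 ?_
        linear_combination k3
      · refine mul_left_cancel₀ hy3 ?_
        linear_combination k4
  · have hqa := k0.resolve_right hx0
    have hy0 : y = 0 := by
      by_contra hy
      rcases k1.resolve_right hy with (h | h) | h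
      · rcases hqa with hq | hq
        · exact (q_ne hs hq).1 h
        · exact (q_ne hs hq).1 h
      · rcases hqa with hq | hq
        · exact (q_ne hs hq).2 h
        · exact (q_ne hs hq).2 h
      · rcases hqa with hq | hq
        · exact q_q hbb hs hq h
        · exact q_q n6 hs hq h
    have hz0 : z = 0 := by
      by_contra hz
      have hq := k2.resolve_right hz
      rcases hqa with h | h
      · rcases hq with hq | hq
        · exact q_q h0 hs h hq
        · exact q_q hb1 hs h hq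
      · rcases hq with hq | hq
        · exact q_q n1 hs h hq
        · exact q_q n2 hs h hq
    have hx3 : x ^ 3 ≠ 0 := pow_ne_zero _ hx0
    rw [hy0, hz0] at k3 k4
    refine qq_der (c := b) (d := -1) h4 s1 hbm1 hs ?_ ?_ ?_
    · rcases hqa with h | h
      · rw [h, zero_mul]
      · rw [h, mul_zero]
    · refine mul_left_cancel₀ hx3 ?_
      linear_combination k3
    · refine mul_left_cancel₀ hx3 ?_
      linear_combination k4

end

end Pool.Agent.TH553.J336
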