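import Pool.Agent.TH619.ResDefs
import Pool.Agent.Helper874.Odd.Jcur1

set_option autoImplicit false
namespace Pool.Agent.TH553.J255
open Set Topology
open Pool.Agent.Helper874.Odd
open Pool.Agent.TH619

theorem mm_mono_abs {x y : ℝ} (h : |x| ≤ |y|) : mm x ≤ mm y := by
  rw [← mm_abs x, ← mm_abs y]
  exact mm_strictMonoOn.monotoneOn (abs_nonneg x) (abs_nonneg y) h

theorem mm_nonneg (x : ℝ) : 0 ≤ mm x := (abs_nonneg x).trans (abs_le_mm x)

theorem cc_vals (j : Fin 3) : cc j = -2 ∨ cc j = 0 ∨ cc j = 2 := by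
  unfold cc
  fin_cases j <;> norm_num

theorem cc_dist {j j' : Fin 3} (h : j ≠ j') : 2 ≤ |cc j - cc j'| := by
  unfold cc
  fin_cases j <;> fin_cases j' <;> simp_all <;> norm_num

theorem cc_abs (j : Fin 3) : |cc j| ≤ 2 := by
  rcases cc_vals j with h | h | h <;> rw [h] <;> norm_num

/-- points of the square near the `j`-th hole -/
theorem mem_near {c : ℝ} (hc : |c| ≤ 1 / 4) (j : Fin 3) {X Y : ℝ} (hX : |X| ≤ 1)
    (hY : |Y| ≤ 15 / 4) (h : 9 / 16 ≤ mm X + mm Y) : ((cc j + c + X, Y) : ℝ × ℝ) ∈ S2 c := by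
  refine ⟨?_, hY, fun k => ?_⟩
  · show |cc j + c + X| ≤ 15 / 4
    have h1 := abs_le.1 (cc_abs j)
    have h2 := abs_le.1 hc
    have h3 := abs_le.1 hX
    exact abs_le.2 ⟨by linarith, by linarith⟩
  · show 9 / 16 ≤ mm (cc j + c + X - (cc k + c)) + mm Y
    by_cases hjk : j = k
    · subst hjk
      rwa [show cc j + c + X - (cc j + c) = X by ring]
    · have h1 := cc_dist hjk
      have h2 := abs_le_mm (cc j + c + X - (cc k + c))
      have h3 : |cc j - cc k| ≤ |cc j + c + X - (cc k + c)| + |X| := by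
        have := abs_sub (cc j + c + X - (cc k + c)) X
        rwa [show cc j + c + X - (cc k + c) - X = cc j - cc k by ring] at this
      have h4 := mm_nonneg Y
      linarith

/-- points of the square far from all the holes -/
theorem mem_far {c : ℝ} {x y : ℝ} (hx : |x| ≤ 15 / 4) (hy : |y| ≤ 15 / 4)
    (h : ∀ k, 1 ≤ |x - (cc k + c)|) : ((x, y) : ℝ × ℝ) ∈ S2 c := by
  refine ⟨hx, hy, fun k => ?_⟩
  have h1 := h k
  have h2 := abs_le_mm (x - (cc k + c))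
  have h4 := mm_nonneg y
  show 9 / 16 ≤ mm (x - (cc k + c)) + mm y
  linarith

theorem key_bd {t v : ℝ} (ht : t ∈ Icc (-(9 / 32) : ℝ) (9 / 32)) (hv : v ∈ Icc (0 : ℝ) 1) :
    9 / 32 ≤ 9 / 16 - mm t ∧ 9 / 16 - mm t ≤ (1 - v) * (9 / 16 - mm t) + v ∧
      (1 - v) * (9 / 16 - mm t) + v ≤ 1 ∧
      9 / 16 - mm t ≤ (1 - v) * (9 / 16 - mm t) + v * (15 / 4) ∧
      (1 - v) * (9 / 16 - mm t) + v * (15 / 4) ≤ 15 / 4 := by
  have h0 := mm_nonneg t
  have h1 : mm t ≤ 9 / 32 := by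
    have : mm (9 / 32) = 9 / 32 := mm_eq_self (by norm_num)
    rw [← this]
    apply mm_mono_abs
    rw [abs_of_pos (by norm_num : (0 : ℝ) < 9 / 32)]
    exact abs_le.2 ht
  obtain ⟨hv0, hv1⟩ := hv
  refine ⟨by linarith, ?_, ?_, ?_, ?_⟩ <;> nlinarith

theorem key_t {t v M : ℝ} (ht : t ∈ Icc (-(9 / 32) : ℝ) (9 / 32)) (hv : v ∈ Icc (0 : ℝ) 1)
    (hM : 1 ≤ M) : |t| ≤ |(1 - v) * t + v * (M * (t / (9 / 32)))| ∧
      |(1 - v) * t + v * (M * (t / (9 / 32)))| ≤ M := by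
  obtain ⟨hv0, hv1⟩ := hv
  have e : (1 - v) * t + v * (M * (t / (9 / 32))) = t * (1 - v + v * (M * (32 / 9))) := by ring
  have h1 : 1 ≤ 1 - v + v * (M * (32 / 9)) := by nlinarith
  have h2 : 1 - v + v * (M * (32 / 9)) ≤ M * (32 / 9) := by nlinarith
  have h3 : |t| ≤ 9 / 32 := abs_le.2 ht
  have h4 := abs_nonneg t
  rw [e, abs_mul, abs_of_nonneg (by linarith : (0 : ℝ) ≤ 1 - v + v * (M * (32 / 9)))]
  constructor
  · nlinarith
  · calc |t| * (1 - v + v * (M * (32 / 9))) ≤ 9 / 32 * (M * (32 / 9)) := by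
          apply mul_le_mul h3 h2 (by linarith) (by norm_num)
      _ = M := by ring

theorem hcm : Continuous mm := mm_cont_aux

/-- the square around one hole -/
theorem one_hole {A : Type} [AddCommGroup A] {c : ℝ} (hc : |c| ≤ 1 / 4) (μ : PF (S2 c) A)
    (j : Fin 3) :
    μ.Dr (fun x y => (x, y)) (cc j + c - 1) (cc j + c + 1) (-(15 / 4)) (15 / 4) =
      μ.Gl (fun X Y => (cc j + c + X, Y)) (9 / 16) := by
  obtain ⟨p, hp⟩ : ∃ p, p = cc j + c := ⟨_, rfl⟩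
  have hms : mm (9 / 32) = 9 / 32 := mm_eq_self (by norm_num)
  have hms' : mm (-(9 / 32)) = 9 / 32 := by rw [mm_neg, hms]
  have hmem : ∀ X Y : ℝ, |X| ≤ 1 → |Y| ≤ 15 / 4 → 9 / 16 ≤ mm X + mm Y →
      ((p + X, Y) : ℝ × ℝ) ∈ S2 c := fun X Y h1 h2 h3 => by
    rw [hp]; exact mem_near hc j h1 h2 h3
  have hI : (Icc (-(9 / 32) : ℝ) (9 / 32)).OrdConnected := ordConnected_Icc
  have hJ : (Icc (0 : ℝ) 1).OrdConnected := ordConnected_Icc
  have ha : (-(9 / 32) : ℝ) ∈ Icc (-(9 / 32) : ℝ) (9 / 32) := ⟨le_refl _, by norm_num⟩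
  have hb : (9 / 32 : ℝ) ∈ Icc (-(9 / 32) : ℝ) (9 / 32) := ⟨by norm_num, le_refl _⟩
  have h0 : (0 : ℝ) ∈ Icc (0 : ℝ) 1 := ⟨le_refl _, by norm_num⟩
  have h1 : (1 : ℝ) ∈ Icc (0 : ℝ) 1 := ⟨by norm_num, le_refl _⟩
  -- right
  have hR := μ.L_rect (G := fun t v : ℝ =>
      ((p + ((1 - v) * (9 / 16 - mm t) + v), (1 - v) * t + v * (15 / 4 * (t / (9 / 32)))) : ℝ × ℝ))
    hI hJ (by
      have := hcm
      apply Continuous.continuousOn
      fun_prop) (by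
      intro t ht v hv
      obtain ⟨k1, k2, k3, k4, k5⟩ := key_bd ht hv
      obtain ⟨k6, k7⟩ := key_t (M := 15 / 4) ht hv (by norm_num)
      refine hmem _ _ ?_ k7 ?_
      · rw [abs_of_nonneg (by linarith)]; exact k3
      · have := mm_mono_abs k6
        have := abs_le_mm ((1 - v) * (9 / 16 - mm t) + v)
        rw [abs_of_nonneg (by linarith)] at this
        linarith) ha hb h0 h1
  -- left
  have hL := μ.L_rect (G := fun t v : ℝ =>
      ((p + -((1 - v) * (9 / 16 - mm t) + v), (1 - v) * t + v * (15 / 4 * (t / (9 / 32)))) : ℝ × ℝ))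
    hI hJ (by
      have := hcm
      apply Continuous.continuousOn
      fun_prop) (by
      intro t ht v hv
      obtain ⟨k1, k2, k3, k4, k5⟩ := key_bd ht hv
      obtain ⟨k6, k7⟩ := key_t (M := 15 / 4) ht hv (by norm_num)
      refine hmem _ _ ?_ k7 ?_
      · rw [abs_neg, abs_of_nonneg (by linarith)]; exact k3
      · have := mm_mono_abs k6
        have := abs_le_mm ((1 - v) * (9 / 16 - mm t) + v)
        rw [abs_of_nonneg (by linarith)] at this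
        rw [mm_neg]
        linarith) ha hb h0 h1
  -- top
  have hT := μ.L_rect (G := fun t v : ℝ =>
      ((p + ((1 - v) * t + v * (1 * (t / (9 / 32)))), (1 - v) * (9 / 16 - mm t) + v * (15 / 4)) :
        ℝ × ℝ))
    hI hJ (by
      have := hcm
      apply Continuous.continuousOn
      fun_prop) (by
      intro t ht v hv
      obtain ⟨k1, k2, k3, k4, k5⟩ := key_bd ht hv
      obtain ⟨k6, k7⟩ := key_t (M := 1) ht hv (by norm_num)
      refine hmem _ _ k7 ?_ ?_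
      · rw [abs_of_nonneg (by linarith)]; exact k5
      · have := mm_mono_abs k6
        have := abs_le_mm ((1 - v) * (9 / 16 - mm t) + v * (15 / 4))
        rw [abs_of_nonneg (by linarith)] at this
        linarith) ha hb h0 h1
  -- bottom
  have hB := μ.L_rect (G := fun t v : ℝ =>
      ((p + ((1 - v) * t + v * (1 * (t / (9 / 32)))), -((1 - v) * (9 / 16 - mm t) + v * (15 / 4))) :
        ℝ × ℝ))
    hI hJ (by
      have := hcm
      apply Continuous.continuousOn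
      fun_prop) (by
      intro t ht v hv
      obtain ⟨k1, k2, k3, k4, k5⟩ := key_bd ht hv
      obtain ⟨k6, k7⟩ := key_t (M := 1) ht hv (by norm_num)
      refine hmem _ _ k7 ?_ ?_
      · rw [abs_neg, abs_of_nonneg (by linarith)]; exact k5
      · have := mm_mono_abs k6
        have := abs_le_mm ((1 - v) * (9 / 16 - mm t) + v * (15 / 4))
        rw [abs_of_nonneg (by linarith)] at this
        rw [mm_neg ((1 - v) * (9 / 16 - mm t) + v * (15 / 4))]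
        linarith) ha hb h0 h1
  -- the four corner segments
  obtain ⟨cpp, hcpp⟩ : ∃ z, z = μ.L (fun v : ℝ =>
    ((p + ((1 - v) * (9 / 32) + v), (1 - v) * (9 / 32) + v * (15 / 4)) : ℝ × ℝ)) 0 1 := ⟨_, rfl⟩
  obtain ⟨cpm, hcpm⟩ : ∃ z, z = μ.L (fun v : ℝ =>
    ((p + ((1 - v) * (9 / 32) + v), -((1 - v) * (9 / 32) + v * (15 / 4))) : ℝ × ℝ)) 0 1 := ⟨_, rfl⟩
  obtain ⟨cmp, hcmp⟩ : ∃ z, z = μ.L (fun v : ℝ =>
    ((p + -((1 - v) * (9 / 32) + v), (1 - v) * (9 / 32) + v * (15 / 4)) : ℝ × ℝ)) 0 1 := ⟨_, rfl⟩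
  obtain ⟨cmm, hcmm⟩ : ∃ z, z = μ.L (fun v : ℝ =>
    ((p + -((1 - v) * (9 / 32) + v), -((1 - v) * (9 / 32) + v * (15 / 4))) : ℝ × ℝ)) 0 1 :=
      ⟨_, rfl⟩
  -- sides
  have sR : μ.L (fun y : ℝ => ((p + 1, y) : ℝ × ℝ)) (-(15 / 4)) (15 / 4) =
      μ.L (fun t : ℝ => ((p + 1, (15 / 4) * (t / (9 / 32))) : ℝ × ℝ)) (-(9 / 32)) (9 / 32) := by
    have := μ.L_affine (fun y : ℝ => ((p + 1, y) : ℝ × ℝ)) 0 (15 / 4 / (9 / 32)) (-(9 / 32)) (9 / 32)
    rw [show (0 : ℝ) + 15 / 4 / (9 / 32) * -(9 / 32) = -(15 / 4) by norm_num,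
      show (0 : ℝ) + 15 / 4 / (9 / 32) * (9 / 32) = 15 / 4 by norm_num] at this
    rw [← this]
    congr 1
    funext t
    congr 1
    ring
  have sL : μ.L (fun y : ℝ => ((p - 1, y) : ℝ × ℝ)) (-(15 / 4)) (15 / 4) =
      μ.L (fun t : ℝ => ((p + -1, (15 / 4) * (t / (9 / 32))) : ℝ × ℝ)) (-(9 / 32)) (9 / 32) := by
    have := μ.L_affine (fun y : ℝ => ((p - 1, y) : ℝ × ℝ)) 0 (15 / 4 / (9 / 32)) (-(9 / 32)) (9 / 32)
    rw [show (0 : ℝ) + 15 / 4 / (9 / 32) * -(9 / 32) = -(15 / 4) by norm_num,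
      show (0 : ℝ) + 15 / 4 / (9 / 32) * (9 / 32) = 15 / 4 by norm_num] at this
    rw [← this]
    congr 1
    funext t
    congr 1
    ring
  have sH : ∀ h : ℝ, μ.L (fun x : ℝ => ((x, h) : ℝ × ℝ)) (p - 1) (p + 1) =
      μ.L (fun t : ℝ => ((p + 1 * (t / (9 / 32)), h) : ℝ × ℝ)) (-(9 / 32)) (9 / 32) := by
    intro h
    have := μ.L_affine (fun x : ℝ => ((x, h) : ℝ × ℝ)) p (1 / (9 / 32)) (-(9 / 32)) (9 / 32)
    rw [show p + 1 / (9 / 32) * -(9 / 32) = p - 1 by ring,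
      show p + 1 / (9 / 32) * (9 / 32) = p + 1 by ring] at this
    rw [← this]
    congr 1
    funext t
    congr 1
    ring
  rw [← hp]
  unfold PF.Dr PF.Gl
  simp only at hR hL hT hB ⊢
  rw [sR, sL, sH, sH]
  rw [show (9 / 16 : ℝ) / 2 = 9 / 32 by norm_num]
  simp only [hms, hms'] at hR hL hT hB
  -- rewriting the pieces
  have r1 : (fun u : ℝ => ((p + ((1 - 0) * (9 / 16 - mm u) + 0),
      (1 - 0) * u + 0 * (15 / 4 * (u / (9 / 32)))) : ℝ × ℝ)) =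
      fun y => (p + (9 / 16 - mm y), y) := by
    funext u; congr 1 <;> ring
  have r2 : (fun u : ℝ => ((p + ((1 - 1) * (9 / 16 - mm u) + 1),
      (1 - 1) * u + 1 * (15 / 4 * (u / (9 / 32)))) : ℝ × ℝ)) =
      fun u => (p + 1, 15 / 4 * (u / (9 / 32))) := by
    funext u; congr 1 <;> ring
  have r3 : (fun v : ℝ => ((p + ((1 - v) * (9 / 16 - 9 / 32) + v),
      (1 - v) * (9 / 32) + v * (15 / 4 * (9 / 32 / (9 / 32)))) : ℝ × ℝ)) =
      fun v => (p + ((1 - v) * (9 / 32) + v), (1 - v) * (9 / 32) + v * (15 / 4)) := by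
    funext u; congr 1 <;> ring
  have r4 : (fun v : ℝ => ((p + ((1 - v) * (9 / 16 - 9 / 32) + v),
      (1 - v) * -(9 / 32) + v * (15 / 4 * (-(9 / 32) / (9 / 32)))) : ℝ × ℝ)) =
      fun v => (p + ((1 - v) * (9 / 32) + v), -((1 - v) * (9 / 32) + v * (15 / 4))) := by
    funext u; congr 1 <;> ring
  rw [r1, r2, r3, r4] at hR
  have l1 : (fun u : ℝ => ((p + -((1 - 0) * (9 / 16 - mm u) + 0),
      (1 - 0) * u + 0 * (15 / 4 * (u / (9 / 32)))) : ℝ × ℝ)) =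
      fun y => (p + -(9 / 16 - mm y), y) := by
    funext u; congr 1 <;> ring
  have l2 : (fun u : ℝ => ((p + -((1 - 1) * (9 / 16 - mm u) + 1),
      (1 - 1) * u + 1 * (15 / 4 * (u / (9 / 32)))) : ℝ × ℝ)) =
      fun u => (p + -1, 15 / 4 * (u / (9 / 32))) := by
    funext u; congr 1 <;> ring
  have l3 : (fun v : ℝ => ((p + -((1 - v) * (9 / 16 - 9 / 32) + v),
      (1 - v) * (9 / 32) + v * (15 / 4 * (9 / 32 / (9 / 32)))) : ℝ × ℝ)) =
      fun v => (p + -((1 - v) * (9 / 32) + v), (1 - v) * (9 / 32) + v * (15 / 4)) := by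
    funext u; congr 1 <;> ring
  have l4 : (fun v : ℝ => ((p + -((1 - v) * (9 / 16 - 9 / 32) + v),
      (1 - v) * -(9 / 32) + v * (15 / 4 * (-(9 / 32) / (9 / 32)))) : ℝ × ℝ)) =
      fun v => (p + -((1 - v) * (9 / 32) + v), -((1 - v) * (9 / 32) + v * (15 / 4))) := by
    funext u; congr 1 <;> ring
  rw [l1, l2, l3, l4] at hL
  have t1 : (fun u : ℝ => ((p + ((1 - 0) * u + 0 * (1 * (u / (9 / 32)))),
      (1 - 0) * (9 / 16 - mm u) + 0 * (15 / 4)) : ℝ × ℝ)) =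
      fun x => (p + x, 9 / 16 - mm x) := by
    funext u; congr 1 <;> ring
  have t2 : (fun u : ℝ => ((p + ((1 - 1) * u + 1 * (1 * (u / (9 / 32)))),
      (1 - 1) * (9 / 16 - mm u) + 1 * (15 / 4)) : ℝ × ℝ)) =
      fun u => (p + 1 * (u / (9 / 32)), 15 / 4) := by
    funext u; congr 1 <;> ring
  have t3 : (fun v : ℝ => ((p + ((1 - v) * (9 / 32) + v * (1 * (9 / 32 / (9 / 32)))),
      (1 - v) * (9 / 16 - 9 / 32) + v * (15 / 4)) : ℝ × ℝ)) =
      fun v => (p + ((1 - v) * (9 / 32) + v), (1 - v) * (9 / 32) + v * (15 / 4)) := by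
    funext u; congr 1 <;> ring
  have t4 : (fun v : ℝ => ((p + ((1 - v) * -(9 / 32) + v * (1 * (-(9 / 32) / (9 / 32)))),
      (1 - v) * (9 / 16 - 9 / 32) + v * (15 / 4)) : ℝ × ℝ)) =
      fun v => (p + -((1 - v) * (9 / 32) + v), (1 - v) * (9 / 32) + v * (15 / 4)) := by
    funext u; congr 1 <;> ring
  rw [t1, t2, t3, t4] at hT
  have b1 : (fun u : ℝ => ((p + ((1 - 0) * u + 0 * (1 * (u / (9 / 32)))),
      -((1 - 0) * (9 / 16 - mm u) + 0 * (15 / 4))) : ℝ × ℝ)) =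
      fun x => (p + x, -(9 / 16 - mm x)) := by
    funext u; congr 1 <;> ring
  have b2 : (fun u : ℝ => ((p + ((1 - 1) * u + 1 * (1 * (u / (9 / 32)))),
      -((1 - 1) * (9 / 16 - mm u) + 1 * (15 / 4))) : ℝ × ℝ)) =
      fun u => (p + 1 * (u / (9 / 32)), -(15 / 4)) := by
    funext u; congr 1 <;> ring
  have b3 : (fun v : ℝ => ((p + ((1 - v) * (9 / 32) + v * (1 * (9 / 32 / (9 / 32)))),
      -((1 - v) * (9 / 16 - 9 / 32) + v * (15 / 4))) : ℝ × ℝ)) =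
      fun v => (p + ((1 - v) * (9 / 32) + v), -((1 - v) * (9 / 32) + v * (15 / 4))) := by
    funext u; congr 1 <;> ring
  have b4 : (fun v : ℝ => ((p + ((1 - v) * -(9 / 32) + v * (1 * (-(9 / 32) / (9 / 32)))),
      -((1 - v) * (9 / 16 - 9 / 32) + v * (15 / 4))) : ℝ × ℝ)) =
      fun v => (p + -((1 - v) * (9 / 32) + v), -((1 - v) * (9 / 32) + v * (15 / 4))) := by
    funext u; congr 1 <;> ring
  rw [b1, b2, b3, b4] at hB
  rw [← hcpp, ← hcpm] at hR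
  rw [← hcmp, ← hcmm] at hL
  rw [← hcpp, ← hcmp] at hT
  rw [← hcpm, ← hcmm] at hB
  have hR' := eq_sub_of_add_eq' hR.symm
  have hL' := eq_sub_of_add_eq' hL.symm
  have hT' := eq_sub_of_add_eq' hT.symm
  have hB' := eq_sub_of_add_eq' hB.symm
  rw [hR', hL', hT', hB']
  abel

/-- the boundary of the square is homologous to the sum of the three holes -/
theorem res_square {A : Type} [AddCommGroup A] {c : ℝ} (hc : |c| ≤ 1 / 4) (μ : PF (S2 c) A) :
    μ.Dr (fun x y => (x, y)) (-(15 / 4)) (15 / 4) (-(15 / 4)) (15 / 4) =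
      ∑ j : Fin 3, μ.Gl (fun X Y => (cc j + c + X, Y)) (9 / 16) := by
  have hcb := abs_le.1 hc
  have c0 : cc 0 = -2 := by unfold cc; norm_num
  have c1 : cc 1 = 0 := by unfold cc; norm_num
  have c2 : cc 2 = 2 := by unfold cc; norm_num
  -- horizontal edges
  have hI : (Icc (-(15 / 4) : ℝ) (15 / 4)).OrdConnected := ordConnected_Icc
  have hadd : ∀ h : ℝ, |h| = 15 / 4 → ∀ a ∈ Icc (-(15 / 4) : ℝ) (15 / 4),
      ∀ b ∈ Icc (-(15 / 4) : ℝ) (15 / 4), ∀ d ∈ Icc (-(15 / 4) : ℝ) (15 / 4),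
      μ.L (fun x : ℝ => ((x, h) : ℝ × ℝ)) a b + μ.L (fun x : ℝ => ((x, h) : ℝ × ℝ)) b d =
        μ.L (fun x : ℝ => ((x, h) : ℝ × ℝ)) a d := by
    intro h hh a ha b hb d hd
    refine μ.L_add hI (by apply Continuous.continuousOn; fun_prop) ?_ ha hb hd
    intro t ht
    refine ⟨abs_le.2 ht, hh.le, fun k => ?_⟩
    show 9 / 16 ≤ mm (t - (cc k + c)) + mm h
    have h1 := abs_le_mm h
    have h2 := mm_nonneg (t - (cc k + c))
    linarith
  have hDr : ∀ a ∈ Icc (-(15 / 4) : ℝ) (15 / 4),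
      ∀ b ∈ Icc (-(15 / 4) : ℝ) (15 / 4), ∀ d ∈ Icc (-(15 / 4) : ℝ) (15 / 4),
      μ.Dr (fun x y => (x, y)) a d (-(15 / 4)) (15 / 4) =
        μ.Dr (fun x y => (x, y)) a b (-(15 / 4)) (15 / 4) +
          μ.Dr (fun x y => (x, y)) b d (-(15 / 4)) (15 / 4) := by
    intro a ha b hb d hd
    unfold PF.Dr
    simp only
    rw [← hadd (15 / 4) (by rw [abs_of_pos]; norm_num) a ha b hb d hd,
      ← hadd (-(15 / 4)) (by rw [abs_neg, abs_of_pos]; norm_num) a ha b hb d hd]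
    abel
  -- end strips
  have hstrip : ∀ a b : ℝ, a ≤ b → (∀ x ∈ Icc a b, |x| ≤ 15 / 4 ∧ ∀ k, 1 ≤ |x - (cc k + c)|) →
      μ.Dr (fun x y => (x, y)) a b (-(15 / 4)) (15 / 4) = 0 := by
    intro a b hab hx
    have := μ.L_rect (G := fun x y : ℝ => ((x, y) : ℝ × ℝ)) (a := a) (b := b)
      (c := -(15 / 4)) (d := 15 / 4) (I := Icc a b)
      (J := Icc (-(15 / 4)) (15 / 4)) ordConnected_Icc ordConnected_Icc
      (by apply Continuous.continuousOn; fun_prop)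
      (fun x hx' y hy => mem_far (hx x hx').1 (abs_le.2 hy) (hx x hx').2)
      ⟨le_refl _, hab⟩ ⟨hab, le_refl _⟩ ⟨le_refl _, by norm_num⟩ ⟨by norm_num, le_refl _⟩
    unfold PF.Dr
    rw [this]
    abel
  have s0 : μ.Dr (fun x y => (x, y)) (-(15 / 4)) (cc 0 + c - 1) (-(15 / 4)) (15 / 4) = 0 := by
    refine hstrip _ _ (by rw [c0]; linarith [hcb.1]) fun x hx => ?_
    rw [c0] at hx
    refine ⟨abs_le.2 ⟨hx.1, by linarith [hx.2, hcb.2]⟩, fun k => ?_⟩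
    rw [abs_sub_comm]
    refine le_trans ?_ (le_abs_self _)
    rcases cc_vals k with h | h | h <;> rw [h] <;> linarith [hx.2]
  have s1 : μ.Dr (fun x y => (x, y)) (cc 2 + c + 1) (15 / 4) (-(15 / 4)) (15 / 4) = 0 := by
    refine hstrip _ _ (by rw [c2]; linarith [hcb.2]) fun x hx => ?_
    rw [c2] at hx
    refine ⟨abs_le.2 ⟨by linarith [hx.1, hcb.1], hx.2⟩, fun k => ?_⟩
    refine le_trans ?_ (le_abs_self _)
    rcases cc_vals k with h | h | h <;> rw [h] <;> linarith [hx.1]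
  have e01 : cc 0 + c + 1 = cc 1 + c - 1 := by rw [c0, c1]; ring
  have e12 : cc 1 + c + 1 = cc 2 + c - 1 := by rw [c1, c2]; ring
  have m0 : (-(15 / 4) : ℝ) ∈ Icc (-(15 / 4) : ℝ) (15 / 4) := ⟨le_refl _, by norm_num⟩
  have m5 : (15 / 4 : ℝ) ∈ Icc (-(15 / 4) : ℝ) (15 / 4) := ⟨by norm_num, le_refl _⟩
  have m1 : cc 0 + c - 1 ∈ Icc (-(15 / 4) : ℝ) (15 / 4) := by
    rw [c0]; constructor <;> linarith [hcb.1, hcb.2]
  have m2 : cc 1 + c - 1 ∈ Icc (-(15 / 4) : ℝ) (15 / 4) := by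
    rw [c1]; constructor <;> linarith [hcb.1, hcb.2]
  have m3 : cc 2 + c - 1 ∈ Icc (-(15 / 4) : ℝ) (15 / 4) := by
    rw [c2]; constructor <;> linarith [hcb.1, hcb.2]
  have m4 : cc 2 + c + 1 ∈ Icc (-(15 / 4) : ℝ) (15 / 4) := by
    rw [c2]; constructor <;> linarith [hcb.1, hcb.2]
  rw [Fin.sum_univ_three, ← one_hole hc μ 0, ← one_hole hc μ 1, ← one_hole hc μ 2]
  rw [hDr _ m0 _ m1 _ m5, hDr _ m1 _ m2 _ m5, hDr _ m2 _ m3 _ m5, hDr _ m3 _ m4 _ m5, s0, s1,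
    e01, e12]
  abel

end Pool.Agent.TH553.J255
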