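import Mathlib

set_option autoImplicit false

namespace Pool.Agent.TH553.J618

section

variable {n : ℕ}

/-- functionals -/
abbrev W (n : ℕ) : Type := (Fin n → ℚ) →ₗ[ℚ] ℂ

noncomputable def ev (n : ℕ) : W n →ₗ[ℂ] (Fin n → ℂ) where
  toFun l := fun i => l (Pi.single i 1)
  map_add' _ _ := rfl
  map_smul' _ _ := rfl

lemma ev_inj (n : ℕ) : Function.Injective (ev n) := by
  intro l l' h
  refine LinearMap.pi_ext' fun i => ?_
  ext
  exact congrFun h i

instance : FiniteDimensional ℂ (W n) := FiniteDimensional.of_injective (ev n) (ev_inj n)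

/-- composition with `A` -/
noncomputable def TT (A : (Fin n → ℚ) ≃ₗ[ℚ] (Fin n → ℚ)) : Module.End ℂ (W n) where
  toFun l := l.comp A.toLinearMap
  map_add' _ _ := rfl
  map_smul' _ _ := rfl

lemma TT_apply (A : (Fin n → ℚ) ≃ₗ[ℚ] (Fin n → ℚ)) (l : W n) (x : Fin n → ℚ) :
    TT A l x = l (A x) := rfl

lemma TT_inj (A : (Fin n → ℚ) ≃ₗ[ℚ] (Fin n → ℚ)) {l : W n} (h : TT A l = 0) : l = 0 := by
  refine LinearMap.ext fun x => ?_
  have := LinearMap.congr_fun h (A.symm x)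
  rwa [TT_apply, A.apply_symm_apply] at this

lemma pow_eig (A : (Fin n → ℚ) ≃ₗ[ℚ] (Fin n → ℚ)) {lam : ℂ} (hlam : lam ≠ 0) {l : W n}
    (h : ∀ x, l (A x) = lam * l x) (k : ℤ) : ∀ x, l ((A ^ k) x) = lam ^ k * l x := by
  induction k using Int.induction_on with
  | zero => intro x; simp
  | succ k ih =>
    intro x
    rw [zpow_add_one, LinearEquiv.mul_apply, ih, h, zpow_add_one₀ hlam]
    ring
  | pred k ih =>
    intro x
    rw [zpow_sub_one, LinearEquiv.mul_apply, ih, zpow_sub_one₀ hlam]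
    have h1 : l (A ((A⁻¹ : (Fin n → ℚ) ≃ₗ[ℚ] (Fin n → ℚ)) x)) = lam * l ((A⁻¹ : (Fin n → ℚ) ≃ₗ[ℚ] (Fin n → ℚ)) x) := h _
    have h2 : A ((A⁻¹ : (Fin n → ℚ) ≃ₗ[ℚ] (Fin n → ℚ)) x) = x := by
      rw [← LinearEquiv.mul_apply, mul_inv_cancel]; rfl
    rw [h2] at h1
    rw [h1]
    field_simp

/-- coordinate functional -/
noncomputable def cf (i : Fin n) : W n where
  toFun x := ((x i : ℚ) : ℂ)
  map_add' x y := by simp
  map_smul' c x := by simp [Algebra.smul_def]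

lemma bound_l (l : W n) : ∃ C : ℝ, 0 ≤ C ∧ ∀ x, ‖l x‖ ≤ C * ∑ j, |((x j : ℚ) : ℝ)| := by
  refine ⟨∑ j, ‖l (Pi.single j 1)‖, Finset.sum_nonneg fun _ _ => norm_nonneg _, fun x => ?_⟩
  have h1 : l x = ∑ j, (x j : ℂ) * l (Pi.single j 1) := by
    conv_lhs => rw [LinearMap.pi_apply_eq_sum_univ l x]
    refine Finset.sum_congr rfl fun j _ => ?_
    rw [Algebra.smul_def]
    congr 2
    ext k
    simp [Pi.single_apply, eq_comm]
  rw [h1, Finset.mul_sum]
  refine (norm_sum_le _ _).trans (Finset.sum_le_sum fun j _ => ?_)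
  rw [norm_mul, mul_comm]
  have h2 : ‖(x j : ℂ)‖ = |((x j : ℚ) : ℝ)| := by
    rw [← Complex.ofReal_ratCast, Complex.norm_real, Real.norm_eq_abs]
  rw [h2]
  exact mul_le_mul_of_nonneg_right
    (Finset.single_le_sum (f := fun j => ‖l (Pi.single j 1)‖) (fun _ _ => norm_nonneg _)
      (Finset.mem_univ j)) (abs_nonneg _)

end

theorem la_cases (n : ℕ) (A : (Fin n → ℚ) ≃ₗ[ℚ] (Fin n → ℚ)) (hA : ∀ m : ℕ, 0 < m → A ^ m ≠ 1) :
    (∃ (lam : ℂ) (l : (Fin n → ℚ) →ₗ[ℚ] ℂ), l ≠ 0 ∧ 1 < ‖lam‖ ∧ ∀ x, l (A x) = lam * l x) ∨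
    (∃ (lam : ℂ) (l : (Fin n → ℚ) →ₗ[ℚ] ℂ), l ≠ 0 ∧ 0 < ‖lam‖ ∧ ‖lam‖ < 1 ∧
      ∀ x, l (A x) = lam * l x) ∨
    (∃ (lam : ℂ) (l1 l2 : (Fin n → ℚ) →ₗ[ℚ] ℂ), l1 ≠ 0 ∧ ‖lam‖ = 1 ∧
      (∀ x, l1 (A x) = lam * l1 x) ∧ ∀ x, l2 (A x) = lam * l2 x + l1 x) ∨
    ((∃ C : ℝ, ∀ (k : ℤ) (x : Fin n → ℚ) (i : Fin n),
        |(((A ^ k) x i : ℚ) : ℝ)| ≤ C * ∑ j, |((x j : ℚ) : ℝ)|) ∧
      ∃ (om : ℂ) (l : (Fin n → ℚ) →ₗ[ℚ] ℂ), l ≠ 0 ∧ ‖om‖ = 1 ∧
        (∀ m : ℕ, 0 < m → om ^ m ≠ 1) ∧ ∀ x, l (A x) = om * l x) := by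
  -- eigenvalues
  have heig : ∀ (lam : ℂ) (l : W n), TT A l = lam • l → ∀ x, l (A x) = lam * l x := by
    intro lam l h x
    exact LinearMap.congr_fun h x
  have hne0 : ∀ (lam : ℂ) (l : W n), l ≠ 0 → TT A l = lam • l → lam ≠ 0 := by
    rintro lam l hl h rfl
    rw [zero_smul] at h
    exact hl (TT_inj A h)
  by_cases c1 : ∃ (lam : ℂ) (l : W n), l ≠ 0 ∧ TT A l = lam • l ∧ 1 < ‖lam‖
  · obtain ⟨lam, l, h1, h2, h3⟩ := c1
    exact Or.inl ⟨lam, l, h1, h3, heig lam l h2⟩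
  by_cases c2 : ∃ (lam : ℂ) (l : W n), l ≠ 0 ∧ TT A l = lam • l ∧ ‖lam‖ < 1
  · obtain ⟨lam, l, h1, h2, h3⟩ := c2
    exact Or.inr (Or.inl ⟨lam, l, h1, norm_pos_iff.2 (hne0 lam l h1 h2), h3, heig lam l h2⟩)
  have hone : ∀ (lam : ℂ) (l : W n), l ≠ 0 → TT A l = lam • l → ‖lam‖ = 1 := by
    intro lam l h1 h2
    refine le_antisymm ?_ ?_
    · by_contra h; exact c1 ⟨lam, l, h1, h2, not_le.1 h⟩
    · by_contra h; exact c2 ⟨lam, l, h1, h2, not_le.1 h⟩
  by_cases c3 : ∃ (lam : ℂ) (l : W n), TT A l - lam • l ≠ 0 ∧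
      TT A (TT A l - lam • l) = lam • (TT A l - lam • l)
  · obtain ⟨lam, l, h1, h2⟩ := c3
    refine Or.inr (Or.inr (Or.inl ⟨lam, TT A l - lam • l, l, h1, hone lam _ h1 h2,
      heig lam _ h2, fun x => ?_⟩))
    rw [LinearMap.sub_apply, TT_apply, LinearMap.smul_apply, smul_eq_mul]
    ring
  -- diagonalizable
  have hgen : ∀ (lam : ℂ) (m : ℕ) (l : W n), ((TT A - algebraMap ℂ (Module.End ℂ (W n)) lam) ^ m) l = 0 →
      TT A l = lam • l := by
    intro lam m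
    induction m with
    | zero =>
      intro l h
      have : l = 0 := by simpa using h
      rw [this]; simp
    | succ m ih =>
      intro l h
      rw [pow_succ, Module.End.mul_apply] at h
      have h1 := ih _ h
      by_contra hc
      apply c3
      refine ⟨lam, l, sub_ne_zero.2 hc, ?_⟩
      have e : (TT A - algebraMap ℂ (Module.End ℂ (W n)) lam) l = TT A l - lam • l := by
        rw [LinearMap.sub_apply, Module.algebraMap_end_apply]
      rw [e] at h1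
      exact h1
  have htop : ∀ (S : Submodule ℂ (W n)), (∀ (lam : ℂ) (l : W n), l ≠ 0 → TT A l = lam • l → l ∈ S) →
      ∀ l, l ∈ S := by
    intro S hS l
    have h1 : (⨆ μ : ℂ, Module.End.maxGenEigenspace (TT A) μ) = ⊤ :=
      Module.End.iSup_maxGenEigenspace_eq_top (TT A)
    have h2 : (⨆ μ : ℂ, Module.End.maxGenEigenspace (TT A) μ) ≤ S := by
      refine iSup_le fun μ l hl => ?_
      rw [Module.End.mem_maxGenEigenspace] at hl
      obtain ⟨m, hm⟩ := hl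
      by_cases hl0 : l = 0
      · rw [hl0]; exact S.zero_mem
      · refine hS μ l hl0 (hgen μ m l ?_)
        rw [Algebra.algebraMap_eq_smul_one]
        exact hm
    rw [h1] at h2
    exact h2 trivial
  refine Or.inr (Or.inr (Or.inr ⟨?_, ?_⟩))
  · -- bounded powers
    let S : Submodule ℂ (W n) :=
      { carrier := {l | ∃ C : ℝ, 0 ≤ C ∧ ∀ (k : ℤ) (x : Fin n → ℚ), ‖l ((A ^ k) x)‖ ≤ C * ∑ j, |((x j : ℚ) : ℝ)|}
        zero_mem' := ⟨0, le_rfl, fun k x => by simp⟩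
        add_mem' := by
          rintro l l' ⟨C, hC0, hC⟩ ⟨C', hC0', hC'⟩
          refine ⟨C + C', by positivity, fun k x => ?_⟩
          rw [LinearMap.add_apply, add_mul]
          exact (norm_add_le _ _).trans (add_le_add (hC k x) (hC' k x))
        smul_mem' := by
          rintro c l ⟨C, hC0, hC⟩
          refine ⟨‖c‖ * C, by positivity, fun k x => ?_⟩
          rw [LinearMap.smul_apply, norm_smul, mul_assoc]
          exact mul_le_mul_of_nonneg_left (hC k x) (norm_nonneg _) }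
    have hS : ∀ l, l ∈ S := by
      refine htop S fun lam l h1 h2 => ?_
      obtain ⟨C, hC0, hC⟩ := bound_l l
      refine ⟨C, hC0, fun k x => ?_⟩
      rw [pow_eig A (hne0 lam l h1 h2) (heig lam l h2), norm_mul, norm_zpow, hone lam l h1 h2,
        one_zpow, one_mul]
      exact hC x
    choose C hC0 hC using fun i : Fin n => hS (cf i)
    refine ⟨∑ i, C i, fun k x i => ?_⟩
    have h1 := hC i k x
    have h2 : ‖cf i ((A ^ k) x)‖ = |(((A ^ k) x i : ℚ) : ℝ)| := by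
      change ‖(((A ^ k) x i : ℚ) : ℂ)‖ = _
      rw [← Complex.ofReal_ratCast, Complex.norm_real, Real.norm_eq_abs]
    rw [h2] at h1
    refine h1.trans (mul_le_mul_of_nonneg_right ?_ (Finset.sum_nonneg fun _ _ => abs_nonneg _))
    exact Finset.single_le_sum (f := C) (fun j _ => hC0 j) (Finset.mem_univ i)
  · by_contra hc
    push Not at hc
    let S : Submodule ℂ (W n) :=
      { carrier := {l | ∃ m : ℕ, 0 < m ∧ ∀ (k : ℕ) (x : Fin n → ℚ), l ((A ^ (m * k)) x) = l x}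
        zero_mem' := ⟨1, one_pos, fun k x => by simp⟩
        add_mem' := by
          rintro l l' ⟨m, hm0, hm⟩ ⟨m', hm0', hm'⟩
          refine ⟨m * m', Nat.mul_pos hm0 hm0', fun k x => ?_⟩
          rw [LinearMap.add_apply, LinearMap.add_apply, mul_assoc, hm, ← mul_assoc, mul_comm m m',
            mul_assoc, hm']
        smul_mem' := by
          rintro c l ⟨m, hm0, hm⟩
          refine ⟨m, hm0, fun k x => ?_⟩
          rw [LinearMap.smul_apply, LinearMap.smul_apply, hm] }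
    have hS : ∀ l, l ∈ S := by
      refine htop S fun lam l h1 h2 => ?_
      obtain ⟨m, hm0, hm⟩ : ∃ m : ℕ, 0 < m ∧ lam ^ m = 1 := by
        by_contra hcc
        push Not at hcc
        obtain ⟨x, hx⟩ := hc lam l h1 (hone lam l h1 h2) hcc
        exact hx (heig lam l h2 x)
      refine ⟨m, hm0, fun k x => ?_⟩
      have h3 := pow_eig A (hne0 lam l h1 h2) (heig lam l h2) ((m * k : ℕ) : ℤ) x
      rw [zpow_natCast, zpow_natCast, pow_mul lam, hm, one_pow, one_mul] at h3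
      exact h3
    choose m hm0 hm using fun i : Fin n => hS (cf i)
    apply hA (∏ i, m i) (Finset.prod_pos fun i _ => hm0 i)
    ext1 x
    funext i
    obtain ⟨k, hk⟩ := Finset.dvd_prod_of_mem m (Finset.mem_univ i)
    have h1 := hm i k x
    rw [← hk] at h1
    have h2 : (((A ^ (∏ i, m i)) x i : ℚ) : ℂ) = ((x i : ℚ) : ℂ) := h1
    exact_mod_cast h2

end Pool.Agent.TH553.J618
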