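import Mathlib

set_option autoImplicit false

namespace Pool.Agent.TH553.J619

theorem la_det_lt (n : ℕ) (A : (Fin n → ℚ) ≃ₗ[ℚ] (Fin n → ℚ))
    (h : |LinearMap.det (A : (Fin n → ℚ) →ₗ[ℚ] (Fin n → ℚ))| < 1) :
    ∃ (lam : ℂ) (l : (Fin n → ℚ) →ₗ[ℚ] ℂ), l ≠ 0 ∧ 0 < ‖lam‖ ∧ ‖lam‖ < 1 ∧
      ∀ x, l (A x) = lam * l x := by
  classical
  set M : Matrix (Fin n) (Fin n) ℚ := LinearMap.toMatrix' (A : (Fin n → ℚ) →ₗ[ℚ] (Fin n → ℚ)) with hM
  set MC : Matrix (Fin n) (Fin n) ℂ := M.map (algebraMap ℚ ℂ) with hMC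
  have hdet : MC.det = algebraMap ℚ ℂ M.det := (RingHom.map_det (algebraMap ℚ ℂ) M).symm
  have hdetM : M.det = LinearMap.det (A : (Fin n → ℚ) →ₗ[ℚ] (Fin n → ℚ)) := by
    rw [hM, LinearMap.det_toMatrix']
  have hnorm : ‖MC.det‖ < 1 := by
    rw [hdet, hdetM]
    have e : algebraMap ℚ ℂ (LinearMap.det (A : (Fin n → ℚ) →ₗ[ℚ] (Fin n → ℚ))) =
      ((((LinearMap.det (A : (Fin n → ℚ) →ₗ[ℚ] (Fin n → ℚ)) : ℚ) : ℝ)) : ℂ) := by
      simp
    rw [e, Complex.norm_real, Real.norm_eq_abs]
    exact_mod_cast h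
  have hdet0 : MC.det ≠ 0 := by
    rw [hdet, hdetM]
    have := (LinearEquiv.isUnit_det' A).ne_zero
    simpa using this
  have hroot : ∃ lam ∈ MC.charpoly.roots, ‖lam‖ < 1 := by
    by_contra hc
    push Not at hc
    have h1 := Matrix.det_eq_prod_roots_charpoly MC
    have h2 : 1 ≤ ‖MC.charpoly.roots.prod‖ := by
      have : ∀ s : Multiset ℂ, (∀ z ∈ s, 1 ≤ ‖z‖) → 1 ≤ ‖s.prod‖ := by
        intro s
        induction s using Multiset.induction with
        | empty => intro _; simp
        | cons a s ih =>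
          intro hs
          rw [Multiset.prod_cons, norm_mul]
          have h3 := hs a (Multiset.mem_cons_self a s)
          have h4 := ih fun z hz => hs z (Multiset.mem_cons_of_mem hz)
          nlinarith
      exact this _ hc
    rw [← h1] at h2
    linarith
  obtain ⟨lam, hlam, hlt⟩ := hroot
  have hr : (MC.charpoly).IsRoot lam := Polynomial.isRoot_of_mem_roots hlam
  have hdetl : (Matrix.scalar (Fin n) lam - MC).det = 0 := by
    rw [← Matrix.eval_charpoly]
    exact hr
  obtain ⟨v, hv0, hv⟩ := Matrix.exists_vecMul_eq_zero_iff.2 hdetl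
  have hv' : Matrix.vecMul v MC = lam • v := by
    rw [Matrix.vecMul_sub, sub_eq_zero] at hv
    rw [← hv, Matrix.scalar_apply]
    ext i
    rw [Matrix.vecMul_diagonal, Pi.smul_apply, smul_eq_mul, mul_comm]
  have hlam0 : lam ≠ 0 := by
    rintro rfl
    apply hdet0
    rw [map_zero, zero_sub, Matrix.det_neg] at hdetl
    rcases mul_eq_zero.1 hdetl with h1 | h1
    · exact absurd h1 (pow_ne_zero _ (by norm_num))
    · exact h1
  let l : (Fin n → ℚ) →ₗ[ℚ] ℂ :=
    { toFun := fun x => ∑ i, v i * ((x i : ℚ) : ℂ)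
      map_add' := by
        intro x y
        rw [← Finset.sum_add_distrib]
        refine Finset.sum_congr rfl fun i _ => ?_
        rw [Pi.add_apply]; push_cast; ring
      map_smul' := by
        intro c x
        rw [RingHom.id_apply, Finset.smul_sum]
        refine Finset.sum_congr rfl fun i _ => ?_
        rw [Pi.smul_apply, smul_eq_mul, Algebra.smul_def (A := ℂ)]
        simp
        ring }
  refine ⟨lam, l, ?_, norm_pos_iff.2 hlam0, hlt, ?_⟩
  · intro hl
    apply hv0
    ext i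
    have h1 := LinearMap.congr_fun hl (Pi.single i 1)
    change ∑ j, v j * (((Pi.single i 1 : Fin n → ℚ) j : ℚ) : ℂ) = 0 at h1
    rw [Finset.sum_eq_single i] at h1
    · simpa using h1
    · intro j _ hj
      rw [Pi.single_eq_of_ne hj]; simp
    · intro hi; exact absurd (Finset.mem_univ i) hi
  · intro x
    change ∑ i, v i * (((A x) i : ℚ) : ℂ) = lam * ∑ i, v i * ((x i : ℚ) : ℂ)
    have hA : ∀ i, (A x) i = ∑ j, M i j * x j := by
      intro i
      have h1 : M.mulVec x = A x := by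
        rw [hM, LinearMap.toMatrix'_mulVec]; rfl
      rw [← h1]; rfl
    calc ∑ i, v i * (((A x) i : ℚ) : ℂ) = ∑ i, ∑ j, v i * MC i j * ((x j : ℚ) : ℂ) := by
          refine Finset.sum_congr rfl fun i _ => ?_
          rw [hA, Rat.cast_sum, Finset.mul_sum]
          refine Finset.sum_congr rfl fun j _ => ?_
          rw [hMC, Matrix.map_apply]
          simp
          ring
      _ = ∑ j, ∑ i, v i * MC i j * ((x j : ℚ) : ℂ) := Finset.sum_comm
      _ = ∑ j, (Matrix.vecMul v MC j) * ((x j : ℚ) : ℂ) := by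
          refine Finset.sum_congr rfl fun j _ => ?_
          rw [← Finset.sum_mul]; rfl
      _ = _ := by
          rw [hv', Finset.mul_sum]
          refine Finset.sum_congr rfl fun j _ => ?_
          rw [Pi.smul_apply, smul_eq_mul]; ring

end Pool.Agent.TH553.J619
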