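import Mathlib

set_option autoImplicit false

namespace Pool.Agent.TH553.J621

/-- a finite index subgroup of `ℤ^n` has a basis indexed by `Fin n` -/
lemma exists_basis (n : ℕ) (L : AddSubgroup (Fin n → ℤ)) (hL : L.index ≠ 0) :
    Nonempty (Module.Basis (Fin n) ℤ L) := by
  have hf1 : Module.Finite ℤ L := (inferInstance : Module.Finite ℤ (AddSubgroup.toIntSubmodule L))
  have hf2 : Module.Free ℤ L := (inferInstance : Module.Free ℤ (AddSubgroup.toIntSubmodule L))
  have h1 : Module.finrank ℤ L ≤ n := by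
    have := Submodule.finrank_le (AddSubgroup.toIntSubmodule L)
    rwa [Module.finrank_fin_fun] at this
  have h2 : n ≤ Module.finrank ℤ L := by
    let f : (Fin n → ℤ) →ₗ[ℤ] L :=
      { toFun := fun x => ⟨L.index • x, L.nsmul_index_mem x⟩
        map_add' := fun x y => Subtype.ext (smul_add _ _ _)
        map_smul' := fun c x => Subtype.ext (smul_comm _ _ _) }
    have hf : Function.Injective f := by
      intro x y hxy
      have h3 : L.index • x = L.index • y := congrArg (fun z : L => (z : Fin n → ℤ)) hxy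
      funext i
      have h4 := congrFun h3 i
      simp only [Pi.smul_apply, nsmul_eq_mul] at h4
      exact mul_left_cancel₀ (by exact_mod_cast hL) h4
    have := LinearMap.finrank_le_finrank_of_injective hf
    rwa [Module.finrank_fin_fun] at this
  exact ⟨Module.finBasisOfFinrankEq ℤ L (le_antisymm h1 h2)⟩

/-- `A L' ⊆ ℤ^n` is needed: see `hint` -/
theorem idx_rel (n : ℕ) (A : (Fin n → ℚ) ≃ₗ[ℚ] (Fin n → ℚ)) (L' B : AddSubgroup (Fin n → ℤ))
    (hL : L'.index ≠ 0)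
    (hint : ∀ x ∈ L', ∃ y : Fin n → ℤ,
      (fun i => ((y i : ℤ) : ℚ)) = A (fun i => ((x i : ℤ) : ℚ)))
    (hB : ∀ y : Fin n → ℤ, y ∈ B ↔
      ∃ x ∈ L', (fun i => ((y i : ℤ) : ℚ)) = A (fun i => ((x i : ℤ) : ℚ))) :
    B.index ≠ 0 ∧
      (B.index : ℚ) = |LinearMap.det (A : (Fin n → ℚ) →ₗ[ℚ] (Fin n → ℚ))| * (L'.index : ℚ) := by
  classical
  obtain ⟨b⟩ := exists_basis n L' hL
  have castinj : ∀ x y : Fin n → ℤ, (fun i => ((x i : ℤ) : ℚ)) = (fun i => ((y i : ℤ) : ℚ)) → x = y := by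
    intro x y h
    funext i
    exact_mod_cast congrFun h i
  choose! f hf using hint
  have hfB : ∀ x ∈ L', f x ∈ B := fun x hx => (hB _).2 ⟨x, hx, hf x hx⟩
  have castadd : ∀ x y : Fin n → ℤ, (fun i => (((x + y) i : ℤ) : ℚ)) =
      (fun i => ((x i : ℤ) : ℚ)) + (fun i => ((y i : ℤ) : ℚ)) := by
    intro x y; funext i; simp
  let e : L' ≃+ B := AddEquiv.mk' (Equiv.ofBijective (fun x : L' => (⟨f x, hfB x x.2⟩ : B)) (by
    constructor
    · intro x y hxy
      have h1 : f x = f y := congrArg (fun z : B => (z : Fin n → ℤ)) hxy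
      have h2 := hf x x.2
      rw [h1, hf y y.2] at h2
      exact Subtype.ext (castinj _ _ (A.injective h2.symm))
    · rintro ⟨y, hy⟩
      obtain ⟨x, hx, hxy⟩ := (hB y).1 hy
      refine ⟨⟨x, hx⟩, Subtype.ext (castinj _ _ ?_)⟩
      rw [hxy]; exact hf x hx)) (by
    intro x y
    apply Subtype.ext
    apply castinj
    change (fun i => ((f ((x : Fin n → ℤ) + y) i : ℤ) : ℚ)) = (fun i => (((f x + f y) i : ℤ) : ℚ))
    rw [castadd, hf _ (L'.add_mem x.2 y.2), hf x x.2, hf y y.2, ← map_add, ← castadd])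
  have he : ∀ x : L', (fun i => (((e x : Fin n → ℤ) i : ℤ) : ℚ)) = A (fun i => (((x : Fin n → ℤ) i : ℤ) : ℚ)) :=
    fun x => hf x x.2
  let bB : Module.Basis (Fin n) ℤ B := b.map e.toIntLinearEquiv
  have h1 := AddSubgroup.index_eq_natAbs_det (Pi.basisFun ℤ (Fin n)) L' b
  have h2 := AddSubgroup.index_eq_natAbs_det (Pi.basisFun ℤ (Fin n)) B bB
  set M₁ : Matrix (Fin n) (Fin n) ℤ := Matrix.of fun i j => (b i : Fin n → ℤ) j with hM₁
  set M₂ : Matrix (Fin n) (Fin n) ℤ := Matrix.of fun i j => (bB i : Fin n → ℤ) j with hM₂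
  have h1' : L'.index = M₁.det.natAbs := by
    rw [h1]
    congr 1
    exact Pi.basisFun_det_apply M₁
  have h2' : B.index = M₂.det.natAbs := by
    rw [h2]
    congr 1
    exact Pi.basisFun_det_apply M₂
  set MA : Matrix (Fin n) (Fin n) ℚ := LinearMap.toMatrix' (A : (Fin n → ℚ) →ₗ[ℚ] (Fin n → ℚ)) with hMA
  have hmat : M₂.map (Int.castRingHom ℚ) = M₁.map (Int.castRingHom ℚ) * MA.transpose := by
    ext i j
    rw [Matrix.map_apply, Matrix.mul_apply]
    have h3 := congrFun (he (b i)) j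
    have h4 : A (fun k => (((b i : Fin n → ℤ) k : ℤ) : ℚ)) = MA.mulVec (fun k => (((b i : Fin n → ℤ) k : ℤ) : ℚ)) := by
      rw [hMA, LinearMap.toMatrix'_mulVec]; rfl
    rw [h4] at h3
    change (((e (b i) : Fin n → ℤ) j : ℤ) : ℚ) = _
    rw [h3]
    change ∑ k, MA j k * (((b i : Fin n → ℤ) k : ℤ) : ℚ) = _
    refine Finset.sum_congr rfl fun k _ => ?_
    rw [Matrix.transpose_apply, Matrix.map_apply, mul_comm]
    rfl
  have hdet : ((M₂.det : ℤ) : ℚ) = ((M₁.det : ℤ) : ℚ) * MA.det := by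
    have h5 := congrArg Matrix.det hmat
    rw [Matrix.det_mul, Matrix.det_transpose] at h5
    have h6 : ∀ M : Matrix (Fin n) (Fin n) ℤ, (M.map (Int.castRingHom ℚ)).det = ((M.det : ℤ) : ℚ) :=
      fun M => (RingHom.map_det (Int.castRingHom ℚ) M).symm
    rw [h6, h6] at h5
    exact h5
  have hdetA : MA.det = LinearMap.det (A : (Fin n → ℚ) →ₗ[ℚ] (Fin n → ℚ)) := by
    rw [hMA, LinearMap.det_toMatrix']
  have hfin : (B.index : ℚ) = |LinearMap.det (A : (Fin n → ℚ) →ₗ[ℚ] (Fin n → ℚ))| * (L'.index : ℚ) := by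
    rw [h1', h2', Nat.cast_natAbs, Nat.cast_natAbs, Int.cast_abs, Int.cast_abs, hdet, abs_mul, hdetA,
      mul_comm]
  refine ⟨?_, hfin⟩
  intro h0
  rw [h0] at hfin
  have h7 : |LinearMap.det (A : (Fin n → ℚ) →ₗ[ℚ] (Fin n → ℚ))| ≠ 0 :=
    abs_ne_zero.2 (LinearEquiv.isUnit_det' A).ne_zero
  have h8 : (L'.index : ℚ) ≠ 0 := by exact_mod_cast hL
  exact mul_ne_zero h7 h8 (by rw [← hfin]; simp)

end Pool.Agent.TH553.J621
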