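import Mathlib

set_option autoImplicit false

namespace Pool.Agent.TH553.J622

/-- the rational vector of an integer vector -/
def cst {n : ℕ} (x : Fin n → ℤ) : Fin n → ℚ := fun i => ((x i : ℤ) : ℚ)

lemma cst_inj {n : ℕ} {x y : Fin n → ℤ} (h : cst x = cst y) : x = y := by
  funext i
  have h1 : ((x i : ℤ) : ℚ) = ((y i : ℤ) : ℚ) := congrFun h i
  exact_mod_cast h1

lemma cst_add {n : ℕ} (x y : Fin n → ℤ) : cst (x + y) = cst x + cst y := by
  funext i; simp [cst]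

lemma cst_neg {n : ℕ} (x : Fin n → ℤ) : cst (-x) = - cst x := by
  funext i; simp [cst]

lemma cst_zero {n : ℕ} : cst (0 : Fin n → ℤ) = 0 := by
  funext i; simp [cst]

lemma cst_nsmul {n : ℕ} (m : ℕ) (x : Fin n → ℤ) : cst (m • x) = (m : ℚ) • cst x := by
  funext i; simp [cst]

/-- common denominators -/
lemma common_den {n : ℕ} {ι : Type} (s : Finset ι) (v : ι → Fin n → ℚ) :
    ∃ D : ℕ, 0 < D ∧ ∀ i ∈ s, ∃ y : Fin n → ℤ, cst y = (D : ℚ) • v i := by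
  classical
  refine ⟨∏ i ∈ s, ∏ j, (v i j).den, Finset.prod_pos fun i _ => Finset.prod_pos fun j _ => (v i j).den_pos,
    fun i hi => ?_⟩
  have hdvd : ∀ j, (v i j).den ∣ ∏ i ∈ s, ∏ j, (v i j).den := fun j =>
    (Finset.dvd_prod_of_mem (fun j => (v i j).den) (Finset.mem_univ j)).trans
      (Finset.dvd_prod_of_mem (fun i => ∏ j, (v i j).den) hi)
  choose c hc using hdvd
  refine ⟨fun j => (v i j).num * c j, ?_⟩
  funext j
  change (((v i j).num * (c j : ℤ) : ℤ) : ℚ) = ((∏ i ∈ s, ∏ j, (v i j).den : ℕ) : ℚ) * v i j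
  rw [hc j]
  push_cast
  have h1 : (v i j) * ((v i j).den : ℚ) = (v i j).num := Rat.mul_den_eq_num _
  rw [← h1]; ring

theorem vfin (n : ℕ) (A : (Fin n → ℚ) ≃ₗ[ℚ] (Fin n → ℚ)) (L' : AddSubgroup (Fin n → ℤ))
    (hL : L'.index ≠ 0) :
    ∃ Λ0 : AddSubgroup (Fin n → ℤ), Λ0 ≤ L' ∧
      (∀ x ∈ Λ0, ∃ y ∈ Λ0, (fun i => ((y i : ℤ) : ℚ)) = A (fun i => ((x i : ℤ) : ℚ))) ∧
      (∀ y ∈ Λ0, ∃ x ∈ Λ0, (fun i => ((y i : ℤ) : ℚ)) = A (fun i => ((x i : ℤ) : ℚ))) ∧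
      (∀ x ∈ Λ0, ∃ k : ℤ, k ≠ 0 ∧
        (A ^ k) (fun i => ((x i : ℤ) : ℚ)) = (fun i => ((x i : ℤ) : ℚ))) ∧
      ∀ x : Fin n → ℤ, (∃ k : ℤ, k ≠ 0 ∧
        (A ^ k) (fun i => ((x i : ℤ) : ℚ)) = (fun i => ((x i : ℤ) : ℚ))) →
        ∃ m : ℕ, 0 < m ∧ m • x ∈ Λ0 := by
  have hzmul : ∀ (k l : ℤ) (x : Fin n → ℚ), (A ^ k) x = x → (A ^ (k * l)) x = x := by
    intro k l x h
    have h1 : A ^ k ∈ MulAction.stabilizer ((Fin n → ℚ) ≃ₗ[ℚ] (Fin n → ℚ)) x := h
    have h2 := Subgroup.zpow_mem _ h1 l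
    rw [← zpow_mul] at h2
    exact h2
  -- the exponent
  obtain ⟨q, hq0, hq⟩ : ∃ q : ℕ, 0 < q ∧ ∀ (k : ℤ), k ≠ 0 → ∀ x : Fin n → ℚ, (A ^ k) x = x →
      (A ^ (q : ℤ)) x = x := by
    let V : ℕ → Submodule ℚ (Fin n → ℚ) := fun m =>
      { carrier := {x | (A ^ ((m.factorial : ℕ) : ℤ)) x = x}
        zero_mem' := map_zero _
        add_mem' := by
          intro x y hx hy
          change (A ^ ((m.factorial : ℕ) : ℤ)) (x + y) = x + y
          rw [map_add, hx, hy]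
        smul_mem' := by
          intro c x hx
          change (A ^ ((m.factorial : ℕ) : ℤ)) (c • x) = c • x
          rw [map_smul, hx] }
    have hmono : Monotone V := by
      intro m m' hmm x hx
      obtain ⟨c, hc⟩ := Nat.factorial_dvd_factorial hmm
      change (A ^ ((m'.factorial : ℕ) : ℤ)) x = x
      rw [hc]; push_cast
      exact hzmul _ _ _ hx
    obtain ⟨N, hN⟩ := monotone_stabilizes_iff_noetherian.2
      (inferInstance : IsNoetherian ℚ (Fin n → ℚ)) ⟨V, hmono⟩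
    refine ⟨N.factorial, Nat.factorial_pos N, fun k hk x hx => ?_⟩
    have h1 : x ∈ V (max N k.natAbs) := by
      obtain ⟨c, hc⟩ := Nat.dvd_factorial (Int.natAbs_pos.2 hk) (le_max_right N k.natAbs)
      change (A ^ (((max N k.natAbs).factorial : ℕ) : ℤ)) x = x
      rw [hc]; push_cast
      have h2 : (A ^ |k|) x = x := by
        rcases abs_choice k with h | h
        · rw [h]; exact hx
        · rw [h]
          have := hzmul k (-1) x hx
          rwa [mul_neg_one] at this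
      exact hzmul _ _ _ h2
    have h3 := hN (max N k.natAbs) (le_max_left _ _)
    have h4 : V N = V (max N k.natAbs) := h3
    rw [← h4] at h1
    exact h1
  let Λ0 : AddSubgroup (Fin n → ℤ) :=
    { carrier := {x | (A ^ (q : ℤ)) (cst x) = cst x ∧ ∀ i : ℤ, ∃ y ∈ L', cst y = (A ^ i) (cst x)}
      zero_mem' := ⟨by rw [cst_zero, map_zero], fun i => ⟨0, L'.zero_mem, by rw [cst_zero, map_zero]⟩⟩
      add_mem' := by
        rintro x y ⟨h1, h2⟩ ⟨h3, h4⟩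
        refine ⟨by rw [cst_add, map_add, h1, h3], fun i => ?_⟩
        obtain ⟨a, ha, ha'⟩ := h2 i
        obtain ⟨b, hb, hb'⟩ := h4 i
        exact ⟨a + b, L'.add_mem ha hb, by rw [cst_add, cst_add, map_add, ha', hb']⟩
      neg_mem' := by
        rintro x ⟨h1, h2⟩
        refine ⟨by rw [cst_neg, map_neg, h1], fun i => ?_⟩
        obtain ⟨a, ha, ha'⟩ := h2 i
        exact ⟨-a, L'.neg_mem ha, by rw [cst_neg, cst_neg, map_neg, ha']⟩ }
  have hshift : ∀ (j : ℤ) (x : Fin n → ℤ), x ∈ Λ0 → ∃ y ∈ Λ0, cst y = (A ^ j) (cst x) := by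
    rintro j x ⟨h1, h2⟩
    obtain ⟨y, hy, hy'⟩ := h2 j
    refine ⟨y, ⟨?_, fun i => ?_⟩, hy'⟩
    · rw [hy', ← LinearEquiv.mul_apply, ← zpow_add, add_comm, zpow_add, LinearEquiv.mul_apply, h1]
    · obtain ⟨z, hz, hz'⟩ := h2 (i + j)
      exact ⟨z, hz, by rw [hz', hy', zpow_add, LinearEquiv.mul_apply]⟩
  refine ⟨Λ0, ?_, ?_, ?_, ?_, ?_⟩
  · rintro x ⟨-, h2⟩
    obtain ⟨y, hy, hy'⟩ := h2 0
    have : y = x := cst_inj hy'
    rw [← this]; exact hy
  · intro x hx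
    obtain ⟨y, hy, hy'⟩ := hshift 1 x hx
    rw [zpow_one] at hy'
    exact ⟨y, hy, hy'⟩
  · intro y hy
    obtain ⟨x, hx, hx'⟩ := hshift (-1) y hy
    refine ⟨x, hx, ?_⟩
    change cst y = A (cst x)
    rw [hx']
    have : A ((A ^ (-1 : ℤ)) (cst y)) = (A * A ^ (-1 : ℤ)) (cst y) := rfl
    rw [this, zpow_neg_one, mul_inv_cancel]; rfl
  · rintro x ⟨h1, -⟩
    exact ⟨q, by exact_mod_cast hq0.ne', h1⟩
  · rintro x ⟨k, hk, hx⟩
    have h1 : (A ^ (q : ℤ)) (cst x) = cst x := hq k hk _ hx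
    obtain ⟨D, hD0, hD⟩ := common_den (Finset.range q) (fun i => (A ^ ((i : ℕ) : ℤ)) (cst x))
    have hm0 : 0 < L'.index * D := Nat.mul_pos (Nat.pos_of_ne_zero hL) hD0
    refine ⟨L'.index * D, hm0, ?_, ?_⟩
    · rw [cst_nsmul, map_smul, h1]
    · intro i
      have hq' : (0 : ℤ) < q := by exact_mod_cast hq0
      have hi : (A ^ i) (cst x) = (A ^ ((((i % q).toNat : ℕ)) : ℤ)) (cst x) := by
        rw [Int.toNat_of_nonneg (Int.emod_nonneg i hq'.ne')]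
        conv_lhs => rw [← Int.emod_add_mul_ediv i q]
        rw [zpow_add, LinearEquiv.mul_apply, hzmul _ _ _ h1]
      have hlt : (i % q).toNat < q := by
        have := Int.emod_lt_of_pos i hq'
        have := Int.emod_nonneg i hq'.ne'
        omega
      obtain ⟨y, hy⟩ := hD _ (Finset.mem_range.2 hlt)
      refine ⟨L'.index • y, L'.nsmul_index_mem y, ?_⟩
      rw [cst_nsmul, cst_nsmul, hy, map_smul, hi, smul_smul]
      push_cast
      rfl

end Pool.Agent.TH553.J622
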