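import Mathlib

set_option autoImplicit false

namespace Pool.Agent.TH553.J628

theorem hnn_swap {H : Type} [Group H] (A B : Subgroup H) (φ : A ≃* B) :
    ∃ f : HNNExtension H A B φ ≃* HNNExtension H B A φ.symm,
      (∀ h : H, f (HNNExtension.of h) = HNNExtension.of h) ∧
      f HNNExtension.t = HNNExtension.t⁻¹ := by
  let f : HNNExtension H A B φ →* HNNExtension H B A φ.symm :=
    HNNExtension.lift HNNExtension.of HNNExtension.t⁻¹ (by
      intro a
      have h := HNNExtension.t_mul_of (φ := φ.symm) (φ a)
      rw [MulEquiv.symm_apply_apply] at h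
      rw [inv_mul_eq_iff_eq_mul, ← mul_assoc, h, mul_inv_cancel_right])
  let g : HNNExtension H B A φ.symm →* HNNExtension H A B φ :=
    HNNExtension.lift HNNExtension.of HNNExtension.t⁻¹ (by
      intro b
      have h := HNNExtension.t_mul_of (φ := φ) (φ.symm b)
      rw [MulEquiv.apply_symm_apply] at h
      rw [inv_mul_eq_iff_eq_mul, ← mul_assoc, h, mul_inv_cancel_right])
  have hf : ∀ h : H, f (HNNExtension.of h) = HNNExtension.of h := fun h => HNNExtension.lift_of _ _ _ _
  have hft : f HNNExtension.t = HNNExtension.t⁻¹ := HNNExtension.lift_t _ _ _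
  have hg : ∀ h : H, g (HNNExtension.of h) = HNNExtension.of h := fun h => HNNExtension.lift_of _ _ _ _
  have hgt : g HNNExtension.t = HNNExtension.t⁻¹ := HNNExtension.lift_t _ _ _
  refine ⟨MonoidHom.toMulEquiv f g ?_ ?_, hf, hft⟩
  · apply HNNExtension.hom_ext
    · ext h
      simp [hf, hg]
    · simp [hft, hgt]
  · apply HNNExtension.hom_ext
    · ext h
      simp [hf, hg]
    · simp [hft, hgt]

end Pool.Agent.TH553.J628
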