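import Pool.Agent.TH60.LR.Defs

set_option autoImplicit false

namespace Pool.Agent.TH553.LR

open Pool.Agent.TH60.LR

/-! ### LR-12 -/

theorem retractOfAction : RetractOfAction := by
  intro G _ H P _ hfree hfin Φ y hy
  have hcomm : ∀ (g : G) (h : H) (p : P), (Φ g : Equiv.Perm P) (h • p) = h • (Φ g : Equiv.Perm P) p :=
    fun g h p => (Φ g).2 h p
  have hmul : ∀ (g g' : G) (p : P), (Φ (g * g') : Equiv.Perm P) p =
      (Φ g : Equiv.Perm P) ((Φ g' : Equiv.Perm P) p) := by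
    intro g g' p
    rw [map_mul]; rfl
  have hone : ∀ p : P, (Φ 1 : Equiv.Perm P) p = p := by
    intro p; rw [map_one]; rfl
  have huniq : ∀ (g : G) (h h' : H), (Φ g : Equiv.Perm P) (h • y) = y →
      (Φ g : Equiv.Perm P) (h' • y) = y → h = h' := by
    intro g h h' h1 h2
    have h3 : h • y = h' • y := (Φ g : Equiv.Perm P).injective (h1.trans h2.symm)
    have h4 : (h'⁻¹ * h) • y = y := by rw [mul_smul, h3, inv_smul_smul]
    have h5 := hfree _ _ h4
    rw [inv_mul_eq_one] at h5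
    exact h5.symm
  let K : Subgroup G :=
    { carrier := {g | ∃ h : H, (Φ g : Equiv.Perm P) (h • y) = y}
      one_mem' := ⟨1, by rw [one_smul, hone]⟩
      mul_mem' := by
        rintro g g' ⟨h, hh⟩ ⟨h', hh'⟩
        refine ⟨h * h', ?_⟩
        rw [hmul, mul_smul, hcomm, hh', hh]
      inv_mem' := by
        rintro g ⟨h, hh⟩
        refine ⟨h⁻¹, ?_⟩
        have h1 : (Φ g⁻¹ : Equiv.Perm P) y = h • y := by
          conv_lhs => rw [← hh]
          rw [← hmul, inv_mul_cancel, hone]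
        rw [hcomm, h1, inv_smul_smul] }
  have hKmem : ∀ g, g ∈ K ↔ ∃ h : H, (Φ g : Equiv.Perm P) (h • y) = y := fun g => Iff.rfl
  have hfq : Finite (G ⧸ K) := by
    refine Finite.of_injective (fun q : G ⧸ K =>
      (Quotient.mk'' ((Φ q.out : Equiv.Perm P) y) : Quotient (MulAction.orbitRel H P))) ?_
    intro q q' hqq
    have h1 : (MulAction.orbitRel H P) ((Φ q.out : Equiv.Perm P) y) ((Φ q'.out : Equiv.Perm P) y) :=
      Quotient.exact hqq
    rw [MulAction.orbitRel_apply, MulAction.mem_orbit_iff] at h1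
    obtain ⟨h, hh⟩ := h1
    rw [← QuotientGroup.out_eq' q, ← QuotientGroup.out_eq' q']
    symm
    rw [QuotientGroup.eq, hKmem]
    refine ⟨h⁻¹, ?_⟩
    rw [hmul, hcomm, ← hh, inv_smul_smul, ← hmul, inv_mul_cancel, hone]
  choose r hr using fun k : K => k.2
  refine ⟨K, Subgroup.finiteIndex_of_finite_quotient, ?_, MonoidHom.mk' (fun k => (r k : G)) ?_,
    fun k => (r k).2, ?_⟩
  · intro h hh
    exact ⟨⟨h, hh⟩, hy ⟨h, hh⟩⟩
  · intro a b
    have h1 : r (a * b) = r a * r b := by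
      refine huniq ((a * b : K) : G) _ _ (hr (a * b)) ?_
      change (Φ ((a : G) * (b : G)) : Equiv.Perm P) _ = y
      rw [hmul, mul_smul, hcomm, hr b, hr a]
    change (r (a * b) : G) = r a * r b
    rw [h1]; rfl
  · intro h hk hh
    have h1 : r ⟨h, hk⟩ = ⟨h, hh⟩ := huniq h _ _ (hr ⟨h, hk⟩) (hy ⟨h, hh⟩)
    change (r ⟨h, hk⟩ : G) = h
    rw [h1]

/-! ### LR-9 -/

theorem pathHom (h7a : TreeConnected) (h7b : TreePotential) (h8 : TreeFixedPoint) : PathHom := by
  intro Γ _ T W _ Φ₀ α ω hω hα x₀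
  obtain ⟨f, hf⟩ := h7b Γ T W (fun e => α (T.inv e) * (α e)⁻¹) (by
    intro e
    rw [T.inv_inv]; group)
  let R : T.X → T.X → W := fun x y => (f x)⁻¹ * f y
  have hR : ∀ x y z, R x y * R y z = R x z := by
    intro x y z
    simp only [R]; group
  have hRe : ∀ e, R (T.t (T.inv e)) (T.t e) = α (T.inv e) * (α e)⁻¹ := by
    intro e
    simp only [R]
    rw [hf e]; group
  have hRr : ∀ x, R x x = 1 := by intro x; simp [R]
  have h3 : ∀ g x y, ω g x * R x y = R (g • x) (g • y) * ω g y := by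
    intro g x
    refine h7a Γ T (fun y => ω g x * R x y = R (g • x) (g • y) * ω g y) x ?_ ?_
    · rw [hRr, hRr]; group
    · intro e he
      have e1 := hα g (T.inv e)
      have e2 := hα g e
      have e3 : R (g • T.t (T.inv e)) (g • T.t e) = α (T.inv (g • e)) * (α (g • e))⁻¹ := by
        rw [T.smul_t, T.smul_t, T.smul_inv, hRe]
      rw [T.smul_inv] at e1
      have e4 : ω g (T.t (T.inv e)) = α (T.inv (g • e)) * Φ₀ g * (α (T.inv e))⁻¹ :=
        eq_mul_inv_of_mul_eq e1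
      have e5 : ω g (T.t e) = α (g • e) * Φ₀ g * (α e)⁻¹ := eq_mul_inv_of_mul_eq e2
      rw [← hR x (T.t (T.inv e)) (T.t e), ← hR (g • x) (g • T.t (T.inv e)) (g • T.t e), ← mul_assoc,
        he, hRe, e3, e4, e5]
      group
  have hgen : ∀ g z, R x₀ (g • x₀) * ω g x₀ * R x₀ z = R x₀ (g • z) * ω g z := by
    intro g z
    rw [mul_assoc, h3, ← mul_assoc, hR]
  let Φ : Γ →* W := MonoidHom.mk' (fun g => R x₀ (g • x₀) * ω g x₀) (by
    intro g h
    rw [hω, mul_smul, ← mul_assoc, ← mul_assoc, hgen])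
  refine ⟨Φ, R, hR, hRe, h3, fun g => rfl, ?_⟩
  intro C hC
  rcases h8 Γ T ⟨x₀⟩ C hC with ⟨x, hx⟩ | ⟨e, he⟩
  · right
    refine ⟨x, R x₀ x, hx, fun c hc => ?_⟩
    rw [eq_mul_inv_iff_mul_eq]
    change R x₀ (c • x₀) * ω c x₀ * R x₀ x = _
    rw [hgen, hx c hc]
  · left
    refine ⟨R x₀ (T.t (T.inv e)) * α (T.inv e), fun c hc => ?_⟩
    rw [eq_mul_inv_iff_mul_eq]
    change R x₀ (c • x₀) * ω c x₀ * _ = _
    rw [← mul_assoc, hgen, mul_assoc, hα c (T.inv e), T.smul_t, T.smul_inv]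
    rcases he c hc with h | h
    · rw [h]; group
    · rw [h, T.inv_inv, ← hR x₀ (T.t (T.inv e)) (T.t e), hRe]; group

end Pool.Agent.TH553.LR
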