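import Pool.Agent.TH60.LR.Defs

set_option autoImplicit false

namespace Pool.Agent.TH553.LR

open Pool.Agent.TH60.LR Finsupp

lemma md_sub {A B : Type} (f : A → B) (x y : A →₀ ℤ) :
    mapDomain f (x - y) = mapDomain f x - mapDomain f y :=
  map_sub (mapDomain.addMonoidHom f : (A →₀ ℤ) →+ (B →₀ ℤ)) x y

/-- the boundary map -/
noncomputable def bdm {E V : Type} (o t : E → V) : (E →₀ ℤ) →+ (V →₀ ℤ) :=
  mapDomain.addMonoidHom t - mapDomain.addMonoidHom o

lemma bdm_apply {E V : Type} (o t : E → V) (c : E →₀ ℤ) :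
    bdm o t c = mapDomain t c - mapDomain o c := rfl

lemma bdm_single {E V : Type} (o t : E → V) (e : E) (k : ℤ) :
    bdm o t (single e k) = single (t e) k - single (o e) k := by
  rw [bdm_apply, mapDomain_single, mapDomain_single]

lemma sum_eq_bdm {E V : Type} (o t : E → V) (c : E →₀ ℤ) :
    (c.sum fun e k => single (t e) k - single (o e) k) = bdm o t c := by
  rw [bdm_apply, Finsupp.sum_sub]
  rfl

lemma bdm_mapDomain {E E' V V' : Type} (o t : E → V) (o' t' : E' → V') (f : E → E') (g : V → V')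
    (ho : ∀ e, o' (f e) = g (o e)) (ht : ∀ e, t' (f e) = g (t e)) (c : E →₀ ℤ) :
    bdm o' t' (mapDomain f c) = mapDomain g (bdm o t c) := by
  rw [bdm_apply, bdm_apply, ← mapDomain_comp, ← mapDomain_comp]
  have h1 : t' ∘ f = g ∘ t := funext ht
  have h2 : o' ∘ f = g ∘ o := funext ho
  rw [h1, h2, mapDomain_comp, mapDomain_comp]
  exact (md_sub g _ _).symm

/-- build split data from the operator form of the conditions -/
noncomputable def mkSplit {N V E : Type} [Group N] [MulAction N V] (act : MulAction N E)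
    (o t : E → V) (D : V → V → (E →₀ ℤ)) (free : ∀ (n : N) (e : E), n • e = e → n = 1)
    (o_smul : ∀ (n : N) (e : E), o (n • e) = n • o e)
    (t_smul : ∀ (n : N) (e : E), t (n • e) = n • t e)
    (D_add : ∀ u v w : V, D u v + D v w = D u w)
    (D_smul : ∀ (n : N) (u v : V), D (n • u) (n • v) = mapDomain (fun e => n • e) (D u v))
    (bd : ∀ u v : V, bdm o t (D u v) = single u (1 : ℤ) - single v (1 : ℤ)) : SplitData N V where
  E := E
  act := act
  o := o
  t := t
  D := D
  free := free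
  o_smul := o_smul
  t_smul := t_smul
  D_add := D_add
  D_smul n u v e := by
    rw [D_smul]
    exact mapDomain_apply (MulAction.injective n) (D u v) e
  bd u v := by rw [sum_eq_bdm, bd]

lemma sd_smul {N V : Type} [Group N] [MulAction N V] (d : SplitData N V) (n : N) (u v : V) :
    d.D (n • u) (n • v) = mapDomain (fun e => n • e) (d.D u v) := by
  ext e
  have h1 : d.D (n • u) (n • v) (n • (n⁻¹ • e)) = d.D u v (n⁻¹ • e) := d.D_smul n u v (n⁻¹ • e)
  have h2 : mapDomain (fun e => n • e) (d.D u v) (n • (n⁻¹ • e)) = d.D u v (n⁻¹ • e) :=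
    mapDomain_apply (MulAction.injective n) (d.D u v) (n⁻¹ • e)
  rw [smul_inv_smul] at h1 h2
  rw [h1, h2]

lemma sd_bd {N V : Type} [Group N] [MulAction N V] (d : SplitData N V) (u v : V) :
    bdm d.o d.t (d.D u v) = single u (1 : ℤ) - single v (1 : ℤ) := by
  rw [← sum_eq_bdm, d.bd]

lemma equivariant_choice {N E Y : Type} [Group N] [MulAction N E]
    (free : ∀ (n : N) (e : E), n • e = e → n = 1) (a : N → Y → Y)
    (ham : ∀ m n y, a (m * n) y = a m (a n y)) (Q : E → Y → Prop)
    (hQ : ∀ n e y, Q e y → Q (n • e) (a n y)) (hex : ∀ e, ∃ y, Q e y) :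
    ∃ c : E → Y, (∀ n e, c (n • e) = a n (c e)) ∧ ∀ e, Q e (c e) := by
  classical
  choose y hy using hex
  let r : E → E := fun e => (Quotient.mk'' e : MulAction.orbitRel.Quotient N E).out
  have hr : ∀ e, ∃ n : N, n • r e = e := by
    intro e
    have h1 : (MulAction.orbitRel N E) (r e) e := Quotient.exact (Quotient.out_eq _)
    rw [MulAction.orbitRel_apply, MulAction.mem_orbit_iff] at h1
    obtain ⟨n, hn⟩ := h1
    exact ⟨n⁻¹, by rw [← hn, inv_smul_smul]⟩
  choose n hn using hr
  have hrr : ∀ (m : N) (e : E), r (m • e) = r e := by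
    intro m e
    simp only [r]
    congr 1
    apply Quotient.sound
    rw [← Quotient.eq_iff_equiv, Quotient.eq_iff_equiv]
    exact (MulAction.orbitRel_apply).2 ⟨m, rfl⟩
  refine ⟨fun e => a (n e) (y (r e)), ?_, ?_⟩
  · intro m e
    simp only
    rw [hrr, ← ham]
    congr 1
    have h1 : n (m • e) • r e = m • e := by rw [← hrr m e, hn]
    have h2 : (m * n e) • r e = m • e := by rw [mul_smul, hn]
    have h3 : ((m * n e)⁻¹ * n (m • e)) • r e = r e := by
      rw [mul_smul, h1, ← h2, inv_smul_smul]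
    have h4 := free _ _ h3
    rw [inv_mul_eq_one] at h4
    exact h4.symm
  · intro e
    have := hQ (n e) (r e) (y (r e)) (hy _)
    rwa [hn] at this

/-! ### LR-16 -/

theorem splitOfFreeAction : SplitOfFreeAction := by
  intro N V _ _ hN p hp hV
  obtain ⟨d⟩ := hN
  obtain ⟨v₀⟩ := hV
  let s : N → V := fun n => (n * (p v₀)⁻¹) • v₀
  have hs : ∀ (n m : N), s (n • m) = n • s m := by
    intro n m
    simp only [s, smul_eq_mul, mul_smul]
  have hps : ∀ n, p (s n) = n := by
    intro n
    simp only [s]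
    rw [hp]; group
  have hp' : ∀ (n : N) (v : V), p (n • v) = n • p v := hp
  refine ⟨mkSplit (E := d.E ⊕ V) inferInstance (Sum.elim (fun e => s (d.o e)) (fun v => s (p v)))
    (Sum.elim (fun e => s (d.t e)) (fun v => v))
    (fun u v => mapDomain Sum.inl (d.D (p u) (p v)) + single (Sum.inr u) 1 - single (Sum.inr v) 1)
    ?_ ?_ ?_ ?_ ?_ ?_⟩
  · rintro n (e | v) h
    · rw [Sum.smul_inl] at h
      exact d.free n e (Sum.inl.inj h)
    · rw [Sum.smul_inr] at h
      have h1 := congrArg p (Sum.inr.inj h)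
      rw [hp] at h1
      exact mul_eq_right.1 h1
  · rintro n (e | v)
    · simp only [Sum.smul_inl, Sum.elim_inl, d.o_smul, hs]
    · simp only [Sum.smul_inr, Sum.elim_inr, hp', hs]
  · rintro n (e | v)
    · simp only [Sum.smul_inl, Sum.elim_inl, d.t_smul, hs]
    · simp only [Sum.smul_inr, Sum.elim_inr]
  · intro u v w
    rw [← d.D_add (p u) (p v) (p w), mapDomain_add]
    abel
  · intro n u v
    rw [hp', hp', sd_smul]
    have e1 : mapDomain (fun e : d.E ⊕ V => n • e)
        (mapDomain Sum.inl (d.D (p u) (p v)) + single (Sum.inr u) 1 - single (Sum.inr v) 1) =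
        mapDomain (fun e : d.E ⊕ V => n • e) (mapDomain Sum.inl (d.D (p u) (p v))) +
          mapDomain (fun e : d.E ⊕ V => n • e) (single (Sum.inr u) 1) -
          mapDomain (fun e : d.E ⊕ V => n • e) (single (Sum.inr v) 1) := by
      rw [← mapDomain_add]
      exact md_sub _ _ _
    rw [e1, mapDomain_single, mapDomain_single, Sum.smul_inr, Sum.smul_inr, ← mapDomain_comp,
      ← mapDomain_comp]
    rfl
  · intro u v
    rw [map_sub, map_add, bdm_single, bdm_single,
      bdm_mapDomain d.o d.t _ _ Sum.inl s (fun e => rfl) (fun e => rfl), sd_bd]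
    have e1 : mapDomain s (single (p u) (1 : ℤ) - single (p v) 1) =
        single (s (p u)) 1 - single (s (p v)) 1 := by
      rw [md_sub, mapDomain_single, mapDomain_single]
    rw [e1]
    simp only [Sum.elim_inr]
    abel

/-! ### LR-15 -/

theorem splitProd : SplitProd := by
  intro N V₁ V₂ _ _ _ h1 h2
  obtain ⟨d₁⟩ := h1
  obtain ⟨d₂⟩ := h2
  by_cases hV : Nonempty V₁
  · obtain ⟨b⟩ := hV
    obtain ⟨p, hp, -⟩ := equivariant_choice (Y := V₁) d₂.free (fun n v => n • v)
      (fun m n v => mul_smul m n v) (fun _ _ => True) (fun _ _ _ _ => trivial)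
      (fun _ => ⟨b, trivial⟩)
    let o₁ : d₁.E × V₂ → V₁ × V₂ := fun e => (d₁.o e.1, e.2)
    let t₁ : d₁.E × V₂ → V₁ × V₂ := fun e => (d₁.t e.1, e.2)
    let o₂ : d₂.E → V₁ × V₂ := fun f => (p f, d₂.o f)
    let t₂ : d₂.E → V₁ × V₂ := fun f => (p f, d₂.t f)
    let π : V₁ × V₂ → V₁ × V₂ := fun a => (b, a.2)
    let L : (V₁ × V₂ →₀ ℤ) →+ (d₁.E × V₂ →₀ ℤ) := Finsupp.liftAddHom fun a =>
      (zmultiplesHom (d₁.E × V₂ →₀ ℤ) (mapDomain (fun e => (e, a.2)) (d₁.D a.1 b)) : ℤ →+ _)
    have hL : ∀ (a : V₁ × V₂), L (single a 1) = mapDomain (fun e => (e, a.2)) (d₁.D a.1 b) := by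
      intro a
      simp [L]
    have hI1 : ∀ z, bdm o₁ t₁ (L z) = z - mapDomain π z := by
      intro z
      have : (bdm o₁ t₁).comp L = AddMonoidHom.id _ - mapDomain.addMonoidHom π := by
        refine Finsupp.addHom_ext' fun a => AddMonoidHom.ext_int ?_
        change bdm o₁ t₁ (L (single a 1)) = single a 1 - mapDomain π (single a 1)
        rw [hL, mapDomain_single,
          bdm_mapDomain d₁.o d₁.t o₁ t₁ (fun e => (e, a.2)) (fun v => (v, a.2)) (fun e => rfl)
            (fun e => rfl), sd_bd, md_sub, mapDomain_single, mapDomain_single]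
      exact DFunLike.congr_fun this z
    have hI2 : ∀ (n : N), ∃ M : (V₁ × V₂ →₀ ℤ) →+ (d₁.E × V₂ →₀ ℤ), ∀ z,
        L (mapDomain (fun a => n • a) z) = mapDomain (fun e => n • e) (L z) + M (mapDomain π z) := by
      intro n
      let M : (V₁ × V₂ →₀ ℤ) →+ (d₁.E × V₂ →₀ ℤ) := Finsupp.liftAddHom fun a =>
        (zmultiplesHom (d₁.E × V₂ →₀ ℤ) (mapDomain (fun e => (e, n • a.2)) (d₁.D (n • b) b)) : ℤ →+ _)
      have hM : ∀ (a : V₁ × V₂), M (single a 1) =
          mapDomain (fun e => (e, n • a.2)) (d₁.D (n • b) b) := by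
        intro a
        simp [M]
      refine ⟨M, fun z => ?_⟩
      have : L.comp (mapDomain.addMonoidHom (fun a : V₁ × V₂ => n • a)) =
          (mapDomain.addMonoidHom (fun e : d₁.E × V₂ => n • e)).comp L +
            M.comp (mapDomain.addMonoidHom π) := by
        refine Finsupp.addHom_ext' fun a => AddMonoidHom.ext_int ?_
        change L (mapDomain (fun a : V₁ × V₂ => n • a) (single a 1)) =
          mapDomain (fun e : d₁.E × V₂ => n • e) (L (single a 1)) + M (mapDomain π (single a 1))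
        rw [mapDomain_single, mapDomain_single, hL, hL, hM, ← mapDomain_comp]
        have e1 : (fun e : d₁.E × V₂ => n • e) ∘ (fun e => (e, a.2)) =
          (fun e => (e, n • a.2)) ∘ (fun e : d₁.E => n • e) := rfl
        rw [e1, mapDomain_comp, ← sd_smul, ← mapDomain_add, d₁.D_add]
        rfl
      exact DFunLike.congr_fun this z
    let z : V₁ × V₂ → V₁ × V₂ → (V₁ × V₂ →₀ ℤ) := fun u v =>
      single u 1 - single v 1 - bdm o₂ t₂ (d₂.D u.2 v.2)
    have hz0 : ∀ u v, mapDomain π (z u v) = 0 := by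
      intro u v
      simp only [z]
      rw [md_sub, md_sub, mapDomain_single, mapDomain_single]
      have e1 : mapDomain π (bdm o₂ t₂ (d₂.D u.2 v.2)) =
          mapDomain (fun w => (b, w)) (bdm d₂.o d₂.t (d₂.D u.2 v.2)) := by
        rw [bdm_apply, bdm_apply, md_sub, md_sub, ← mapDomain_comp, ← mapDomain_comp,
          ← mapDomain_comp, ← mapDomain_comp]
        rfl
      rw [e1, sd_bd, md_sub, mapDomain_single, mapDomain_single]
      exact sub_self _
    have hzadd : ∀ u v w, z u v + z v w = z u w := by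
      intro u v w
      simp only [z]
      rw [← d₂.D_add u.2 v.2 w.2, map_add]
      abel
    have hzsmul : ∀ (n : N) u v, z (n • u) (n • v) = mapDomain (fun a => n • a) (z u v) := by
      intro n u v
      simp only [z]
      rw [md_sub, md_sub, mapDomain_single, mapDomain_single]
      congr 1
      change bdm o₂ t₂ (d₂.D (n • u.2) (n • v.2)) = _
      rw [sd_smul]
      refine bdm_mapDomain _ _ _ _ _ _ ?_ ?_ _
      · intro e
        simp only [o₂]
        rw [hp, d₂.o_smul]; rfl
      · intro e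
        simp only [t₂]
        rw [hp, d₂.t_smul]; rfl
    refine ⟨mkSplit (E := (d₁.E × V₂) ⊕ d₂.E) inferInstance (Sum.elim o₁ o₂) (Sum.elim t₁ t₂)
      (fun u v => mapDomain Sum.inl (L (z u v)) + mapDomain Sum.inr (d₂.D u.2 v.2))
      ?_ ?_ ?_ ?_ ?_ ?_⟩
    · rintro n (e | f) h
      · rw [Sum.smul_inl] at h
        exact d₁.free n e.1 (congrArg Prod.fst (Sum.inl.inj h))
      · rw [Sum.smul_inr] at h
        exact d₂.free n f (Sum.inr.inj h)
    · rintro n (e | f)
      · rw [Sum.smul_inl, Sum.elim_inl, Sum.elim_inl]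
        exact Prod.ext (d₁.o_smul n e.1) rfl
      · rw [Sum.smul_inr, Sum.elim_inr, Sum.elim_inr]
        exact Prod.ext (hp n f) (d₂.o_smul n f)
    · rintro n (e | f)
      · rw [Sum.smul_inl, Sum.elim_inl, Sum.elim_inl]
        exact Prod.ext (d₁.t_smul n e.1) rfl
      · rw [Sum.smul_inr, Sum.elim_inr, Sum.elim_inr]
        exact Prod.ext (hp n f) (d₂.t_smul n f)
    · intro u v w
      rw [← d₂.D_add u.2 v.2 w.2, ← hzadd u v w, map_add, mapDomain_add, mapDomain_add]
      abel
    · intro n u v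
      obtain ⟨M, hM⟩ := hI2 n
      rw [hzsmul, hM, hz0, map_zero, add_zero]
      change _ + mapDomain Sum.inr (d₂.D (n • u.2) (n • v.2)) = _
      rw [sd_smul, mapDomain_add, ← mapDomain_comp, ← mapDomain_comp, ← mapDomain_comp,
        ← mapDomain_comp]
      rfl
    · intro u v
      rw [map_add, bdm_mapDomain o₁ t₁ _ _ Sum.inl id (fun e => rfl) (fun e => rfl),
        bdm_mapDomain o₂ t₂ _ _ Sum.inr id (fun e => rfl) (fun e => rfl), mapDomain_id,
        mapDomain_id, hI1, hz0, sub_zero]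
      simp only [z]
      abel
  · have hE : IsEmpty V₁ := not_nonempty_iff.1 hV
    exact ⟨mkSplit (E := d₁.E) d₁.act (fun e => (hE.false (d₁.o e)).elim)
      (fun e => (hE.false (d₁.o e)).elim) (fun _ _ => 0) d₁.free
      (fun n e => (hE.false (d₁.o e)).elim) (fun n e => (hE.false (d₁.o e)).elim)
      (fun u => (hE.false u.1).elim) (fun n u => (hE.false u.1).elim)
      (fun u => (hE.false u.1).elim)⟩

/-! ### LR-17 -/

/-- edges of the new graph -/
def E17 (Γ : Type) (F : Set Γ) : Type := Γ × F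

instance act17 {Γ : Type} [Group Γ] (F : Set Γ) (N : Subgroup Γ) : MulAction N (E17 Γ F) where
  smul n e := ((n : Γ) * e.1, e.2)
  one_smul _ := Prod.ext (one_mul _) rfl
  mul_smul _ _ _ := Prod.ext (mul_assoc _ _ _) rfl

theorem finSplitOfFG : FinSplitOfFG := by
  intro Γ V _ _ N _ hsp v₀ hv₀ F hF hgen
  obtain ⟨d⟩ := hsp
  let o : E17 Γ F → V := fun e => e.1 • v₀
  let t : E17 Γ F → V := fun e => (e.1 * e.2.1) • v₀
  have hB : ∀ (g : Γ) (x : V →₀ ℤ), x ∈ (bdm o t).range → mapDomain (fun v => g • v) x ∈ (bdm o t).range := by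
    rintro g _ ⟨c, rfl⟩
    refine ⟨mapDomain (fun e : E17 Γ F => ((g * e.1, e.2) : E17 Γ F)) c, ?_⟩
    refine bdm_mapDomain _ _ _ _ _ _ ?_ ?_ _
    · intro e
      exact mul_smul _ _ _
    · intro e
      simp only [t]
      rw [mul_assoc, mul_smul]
  let S : Subgroup Γ :=
    { carrier := {g | single (g • v₀) (1 : ℤ) - single v₀ 1 ∈ (bdm o t).range}
      one_mem' := by
        change single ((1 : Γ) • v₀) (1 : ℤ) - single v₀ 1 ∈ (bdm o t).range
        rw [one_smul, sub_self]
        exact zero_mem _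
      mul_mem' := by
        intro g h hg hh
        change single ((g * h) • v₀) (1 : ℤ) - single v₀ 1 ∈ (bdm o t).range
        have h1 := hB g _ hh
        rw [md_sub, mapDomain_single, mapDomain_single, ← mul_smul] at h1
        have h2 := add_mem h1 hg
        rwa [sub_add_sub_cancel] at h2
      inv_mem' := by
        intro g hg
        change single (g⁻¹ • v₀) (1 : ℤ) - single v₀ 1 ∈ (bdm o t).range
        have h1 := neg_mem (hB g⁻¹ _ hg)
        rwa [md_sub, mapDomain_single, mapDomain_single, inv_smul_smul, neg_sub] at h1 }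
  have hS : ∀ g : Γ, g ∈ S := by
    have : (⊤ : Subgroup Γ) ≤ S := by
      rw [← hgen]
      refine sup_le ?_ ((Subgroup.closure_le _).2 ?_)
      · intro g hg
        change single (g • v₀) (1 : ℤ) - single v₀ 1 ∈ (bdm o t).range
        rw [MulAction.mem_stabilizer_iff.1 hg, sub_self]
        exact zero_mem _
      · intro f hf
        change single (f • v₀) (1 : ℤ) - single v₀ 1 ∈ (bdm o t).range
        refine ⟨single (show E17 Γ F from (1, ⟨f, hf⟩)) 1, (bdm_single o t _ 1).trans ?_⟩
        change single (((1 : Γ) * f) • v₀) (1 : ℤ) - single ((1 : Γ) • v₀) 1 = _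
        rw [one_mul, one_smul]
    exact fun g => this trivial
  have hconn : ∀ u v : V, ∃ c, bdm o t c = single u (1 : ℤ) - single v 1 := by
    intro u v
    obtain ⟨g, rfl⟩ := hv₀ u
    obtain ⟨h, rfl⟩ := hv₀ v
    have hS' : ∀ g : Γ, single (g • v₀) (1 : ℤ) - single v₀ 1 ∈ (bdm o t).range := hS
    have h1 := sub_mem (hS' g) (hS' h)
    rw [sub_sub_sub_cancel_right] at h1
    exact h1
  obtain ⟨c, hc1, hc2⟩ := equivariant_choice (Y := E17 Γ F →₀ ℤ) d.free
    (fun n x => mapDomain (fun e => n • e) x)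
    (fun m n x => by
      rw [← mapDomain_comp]
      congr 1
      funext e
      exact mul_smul m n e)
    (fun e y => bdm o t y = single (d.t e) (1 : ℤ) - single (d.o e) 1)
    (fun n e y h => by
      rw [d.t_smul, d.o_smul, bdm_mapDomain o t o t (fun e => n • e) (fun v => (n : Γ) • v) ?_ ?_, h,
        md_sub, mapDomain_single, mapDomain_single]
      · rfl
      · intro e
        exact mul_smul _ _ _
      · intro e
        simp only [t]
        rw [← mul_smul, ← mul_assoc]
        rfl)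
    (fun e => hconn _ _)
  let A : (d.E →₀ ℤ) →+ (E17 Γ F →₀ ℤ) := Finsupp.liftAddHom fun e =>
    (zmultiplesHom (E17 Γ F →₀ ℤ) (c e) : ℤ →+ _)
  have hA : ∀ e, A (single e 1) = c e := by
    intro e; simp [A]
  have hA1 : ∀ x, bdm o t (A x) = bdm d.o d.t x := by
    intro x
    have : (bdm o t).comp A = bdm d.o d.t := by
      refine Finsupp.addHom_ext' fun a => AddMonoidHom.ext_int ?_
      change bdm o t (A (single a 1)) = bdm d.o d.t (single a 1)
      rw [hA, hc2, bdm_single]
    exact DFunLike.congr_fun this x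
  have hA2 : ∀ (n : N) x, A (mapDomain (fun e => n • e) x) = mapDomain (fun e => n • e) (A x) := by
    intro n x
    have : A.comp (mapDomain.addMonoidHom (fun e : d.E => n • e)) =
        (mapDomain.addMonoidHom (fun e : E17 Γ F => n • e)).comp A := by
      refine Finsupp.addHom_ext' fun a => AddMonoidHom.ext_int ?_
      change A (mapDomain (fun e : d.E => n • e) (single a 1)) =
        mapDomain (fun e : E17 Γ F => n • e) (A (single a 1))
      rw [mapDomain_single, hA, hA, hc1]
    exact DFunLike.congr_fun this x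
  refine ⟨mkSplit (E := E17 Γ F) (act17 F N) o t (fun u v => A (d.D u v)) ?_ ?_ ?_ ?_ ?_ ?_,
    {e : E17 Γ F | ∃ q : Γ ⧸ N, e.1 = (q.out)⁻¹}, ?_, ?_⟩
  · intro n e h
    have h1 : (n : Γ) * e.1 = e.1 := congrArg Prod.fst h
    exact Subtype.ext (mul_eq_right.1 h1)
  · intro n e
    exact mul_smul _ _ _
  · intro n e
    simp only [t]
    change ((n : Γ) * e.1 * e.2.1) • v₀ = (n : Γ) • (e.1 * e.2.1) • v₀
    rw [← mul_smul, mul_assoc]
  · intro u v w
    rw [← map_add, d.D_add]
  · intro n u v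
    rw [sd_smul, hA2]
  · intro u v
    rw [hA1, sd_bd]
  · have hfin : Finite F := hF
    have hfq : Finite (Γ ⧸ N) := Subgroup.finite_quotient_of_finiteIndex
    refine Set.Finite.subset (Set.finite_range (fun x : (Γ ⧸ N) × F => (((x.1.out)⁻¹, x.2) : E17 Γ F))) ?_
    rintro ⟨g, f⟩ ⟨q, hq⟩
    exact ⟨(q, f), Prod.ext hq.symm rfl⟩
  · intro e
    have h1 : ((Quotient.out (QuotientGroup.mk (e.1)⁻¹ : Γ ⧸ N) : Γ) : Γ ⧸ N) = ((e.1)⁻¹ : Γ) :=
      QuotientGroup.out_eq' _
    rw [QuotientGroup.eq] at h1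
    refine ⟨⟨_, h1⟩, (QuotientGroup.mk (e.1)⁻¹ : Γ ⧸ N), ?_⟩
    change (Quotient.out (QuotientGroup.mk (e.1)⁻¹ : Γ ⧸ N))⁻¹ * (e.1)⁻¹ * e.1 = _
    group

end Pool.Agent.TH553.LR
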