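import Mathlib

set_option autoImplicit false

namespace Pool.Agent.TH553.J779

set_option linter.unusedSectionVars false

open scoped BigOperators
open SimpleGraph Finset

section split
variable {V : Type}

/-- splitting a walk at the uses of one extra edge -/
theorem split {H H' : SimpleGraph V} {u v : V}
    (hH : ∀ a b, H'.Adj a b → H.Adj a b ∨ (a = u ∧ b = v) ∨ (a = v ∧ b = u)) :
    ∀ {x y : V} (p : H'.Walk x y), (∃ q : H.Walk x y, q.length ≤ p.length) ∨
      (∃ (q1 : H.Walk x u) (q2 : H.Walk v y), q1.length + q2.length + 1 ≤ p.length) ∨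
      (∃ (q1 : H.Walk x v) (q2 : H.Walk u y), q1.length + q2.length + 1 ≤ p.length) := by
  intro x y p
  induction p with
  | nil => exact Or.inl ⟨Walk.nil, by simp⟩
  | @cons x z y h p ih =>
    rw [Walk.length_cons]
    rcases hH _ _ h with h' | ⟨rfl, rfl⟩ | ⟨rfl, rfl⟩
    · rcases ih with ⟨q, hq⟩ | ⟨q1, q2, hq⟩ | ⟨q1, q2, hq⟩
      · exact Or.inl ⟨Walk.cons h' q, by rw [Walk.length_cons]; omega⟩
      · exact Or.inr (Or.inl ⟨Walk.cons h' q1, q2, by rw [Walk.length_cons]; omega⟩)
      · exact Or.inr (Or.inr ⟨Walk.cons h' q1, q2, by rw [Walk.length_cons]; omega⟩)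
    · rcases ih with ⟨q, hq⟩ | ⟨q1, q2, hq⟩ | ⟨q1, q2, hq⟩
      · exact Or.inr (Or.inl ⟨Walk.nil, q, by rw [Walk.length_nil]; omega⟩)
      · exact Or.inr (Or.inl ⟨Walk.nil, q2, by rw [Walk.length_nil]; omega⟩)
      · exact Or.inl ⟨q2, by omega⟩
    · rcases ih with ⟨q, hq⟩ | ⟨q1, q2, hq⟩ | ⟨q1, q2, hq⟩
      · exact Or.inr (Or.inr ⟨Walk.nil, q, by rw [Walk.length_nil]; omega⟩)
      · exact Or.inl ⟨q2, by omega⟩
      · exact Or.inr (Or.inr ⟨Walk.nil, q2, by rw [Walk.length_nil]; omega⟩)

/-- no short cycles, edge version -/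
def NC (G : SimpleGraph V) (g : ℕ) : Prop :=
  ∀ x y, G.Adj x y → ∀ p : (G.deleteEdges {s(x, y)}).Walk x y, g ≤ p.length + 1

theorem NC.cycle {G : SimpleGraph V} {g : ℕ} (h : NC G g) {v : V} (c : G.Walk v v)
    (hc : c.IsCycle) : g ≤ c.length := by
  cases c with
  | nil => exact absurd hc Walk.not_isCycle_nil
  | @cons _ w _ hvw p =>
    rw [Walk.cons_isCycle_iff] at hc
    obtain ⟨_, hp⟩ := hc
    have hmem : ∀ e ∈ p.edges, e ∈ (G.deleteEdges {s(v, w)}).edgeSet := by
      intro e he
      rw [edgeSet_deleteEdges]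
      refine ⟨p.edges_subset_edgeSet he, ?_⟩
      intro h'
      rw [Set.mem_singleton_iff] at h'
      exact hp (h' ▸ he)
    have := h v w hvw (p.transfer _ hmem).reverse
    rw [Walk.length_reverse, Walk.length_transfer] at this
    rw [Walk.length_cons]
    exact this

theorem NC.sup {G : SimpleGraph V} {g : ℕ} (h : NC G g) {u v : V}
    (hsh : ∀ p : G.Walk u v, g ≤ p.length + 1) : NC (G ⊔ edge u v) g := by
  intro x y hxy p
  by_contra hlt
  push Not at hlt
  have hsh' : ∀ p : G.Walk v u, g ≤ p.length + 1 := by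
    intro p
    have := hsh p.reverse
    rwa [Walk.length_reverse] at this
  by_cases he : s(x, y) = s(u, v)
  · have hle : (G ⊔ edge u v).deleteEdges {s(x, y)} ≤ G := by
      intro a b hab
      rw [deleteEdges_adj, sup_adj, edge_adj, Set.mem_singleton_iff, he, Sym2.eq_iff] at hab
      tauto
    rcases Sym2.eq_iff.1 he with ⟨rfl, rfl⟩ | ⟨rfl, rfl⟩
    · have := hsh (p.mapLe hle)
      rw [Walk.length_mapLe] at this
      omega
    · have := hsh' (p.mapLe hle)
      rw [Walk.length_mapLe] at this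
      omega
  · have hxy' : G.Adj x y := by
      rw [sup_adj, edge_adj] at hxy
      rcases hxy with h' | ⟨h', _⟩
      · exact h'
      · exact absurd (Sym2.eq_iff.2 h') he
    have hle : G.deleteEdges {s(x, y)} ≤ G := deleteEdges_le _
    rcases split (H := G.deleteEdges {s(x, y)}) (u := u) (v := v) (by
      intro a b hab
      rw [deleteEdges_adj, sup_adj, edge_adj] at hab
      rw [deleteEdges_adj]
      tauto) p with ⟨q, hq⟩ | ⟨q1, q2, hq⟩ | ⟨q1, q2, hq⟩
    · have := h x y hxy' q
      omega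
    · have := hsh ((q1.mapLe hle).reverse.append (Walk.cons hxy' (q2.mapLe hle).reverse))
      rw [Walk.length_append, Walk.length_cons, Walk.length_reverse, Walk.length_reverse,
        Walk.length_mapLe, Walk.length_mapLe] at this
      omega
    · have := hsh' ((q1.mapLe hle).reverse.append (Walk.cons hxy' (q2.mapLe hle).reverse))
      rw [Walk.length_append, Walk.length_cons, Walk.length_reverse, Walk.length_reverse,
        Walk.length_mapLe, Walk.length_mapLe] at this
      omega

end split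

section fin
open Classical
variable {V : Type} [Fintype V]

theorem ball (G : SimpleGraph V) (hdeg : ∀ v, (univ.filter (G.Adj v)).card ≤ 400) (u0 : V)
    (n : ℕ) : (univ.filter (fun v => ∃ p : G.Walk v u0, p.length ≤ n)).card + 1 ≤ 2 * 400 ^ n := by
  induction n with
  | zero =>
    have : (univ.filter (fun v => ∃ p : G.Walk v u0, p.length ≤ 0)) ⊆ {u0} := by
      intro v hv
      rw [mem_filter] at hv
      obtain ⟨_, p, hp⟩ := hv
      rw [mem_singleton]
      exact Walk.eq_of_length_eq_zero (p := p) (by omega)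
    have := card_le_card this
    rw [card_singleton] at this
    simpa using this
  | succ n ih =>
    have hsub : (univ.filter (fun v => ∃ p : G.Walk v u0, p.length ≤ n + 1)) ⊆
        insert u0 ((univ.filter (fun v => ∃ p : G.Walk v u0, p.length ≤ n)).biUnion
          (fun w => univ.filter (G.Adj w))) := by
      intro v hv
      rw [mem_filter] at hv
      obtain ⟨_, p, hp⟩ := hv
      rw [mem_insert, mem_biUnion]
      cases p with
      | nil => exact Or.inl rfl
      | @cons _ w _ h p =>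
        rw [Walk.length_cons] at hp
        right
        exact ⟨w, mem_filter.2 ⟨mem_univ _, p, by omega⟩, mem_filter.2 ⟨mem_univ _, h.symm⟩⟩
    have h1 := card_le_card hsub
    have h2 := card_insert_le u0 ((univ.filter (fun v => ∃ p : G.Walk v u0, p.length ≤ n)).biUnion
          (fun w => univ.filter (G.Adj w)))
    have h3 := card_biUnion_le_card_mul (univ.filter (fun v => ∃ p : G.Walk v u0, p.length ≤ n))
      (fun w => univ.filter (G.Adj w)) 400 (fun w _ => hdeg w)
    rw [pow_succ]
    omega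

/-- number of ordered adjacent pairs -/
noncomputable def ee (G : SimpleGraph V) (A B : Finset V) : ℕ :=
  ((A ×ˢ B).filter (fun p => G.Adj p.1 p.2)).card

theorem ee_comm (G : SimpleGraph V) (A B : Finset V) : ee G A B = ee G B A := by
  unfold ee
  refine card_bij (fun p _ => (p.2, p.1)) ?_ ?_ ?_
  · rintro ⟨a, b⟩ h
    simp only [mem_filter, mem_product] at h ⊢
    exact ⟨⟨h.1.2, h.1.1⟩, h.2.symm⟩
  · rintro ⟨a, b⟩ _ ⟨c, d⟩ _ h
    simp only [Prod.mk.injEq] at h ⊢
    exact ⟨h.2, h.1⟩
  · rintro ⟨a, b⟩ h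
    simp only [mem_filter, mem_product] at h
    exact ⟨(b, a), by simp only [mem_filter, mem_product]; exact ⟨⟨h.1.2, h.1.1⟩, h.2.symm⟩, rfl⟩

theorem ee_union [DecidableEq V] (G : SimpleGraph V) {A A' : Finset V} (B : Finset V) (h : Disjoint A A') :
    ee G (A ∪ A') B = ee G A B + ee G A' B := by
  unfold ee
  rw [union_product, filter_union, card_union_of_disjoint]
  apply disjoint_filter_filter
  rw [Finset.disjoint_left]
  rintro ⟨a, b⟩ h1 h2
  rw [mem_product] at h1 h2
  exact Finset.disjoint_left.1 h h1.1 h2.1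

theorem ee_sdiff [DecidableEq V] (G : SimpleGraph V) {U W : Finset V} (h : W ⊆ U) :
    ee G U U = ee G (U \ W) (U \ W) + ee G W W + 2 * ee G W (U \ W) := by
  have hd : Disjoint (U \ W) W := sdiff_disjoint
  have e : U = (U \ W) ∪ W := (sdiff_union_of_subset h).symm
  have h1 : ee G U U = ee G (U \ W) U + ee G W U := by
    conv_lhs => rw [show ee G U U = ee G ((U \ W) ∪ W) U by rw [← e]]
    exact ee_union G U hd
  have h2 : ∀ A, ee G A U = ee G A (U \ W) + ee G A W := by
    intro A
    rw [ee_comm G A U, show ee G U A = ee G ((U \ W) ∪ W) A by rw [← e], ee_union G A hd,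
      ee_comm G (U \ W) A, ee_comm G W A]
  rw [h1, h2, h2, ee_comm G (U \ W) W]
  ring

theorem exists_maxgraph (g : ℕ) (hg : 3 ≤ g) :
    ∃ G : SimpleGraph (Fin (4 * 400 ^ g)), (∀ v, (univ.filter (G.Adj v)).card ≤ 400) ∧ NC G g ∧
      200 * (4 * 400 ^ g) < ee G univ univ := by
  obtain ⟨G, ⟨hdeg, hNC⟩, hmax⟩ := Set.Finite.exists_maximal
    (s := {G : SimpleGraph (Fin (4 * 400 ^ g)) |
      (∀ v, (univ.filter (G.Adj v)).card ≤ 400) ∧ NC G g}) (Set.toFinite _)
    ⟨⊥, by
      refine ⟨fun v => ?_, fun x y h => absurd h (by simp)⟩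
      simp⟩
  refine ⟨G, hdeg, hNC, ?_⟩
  -- low degree vertices are close
  have hclose : ∀ u v, (univ.filter (G.Adj u)).card < 400 → (univ.filter (G.Adj v)).card < 400 →
      u ≠ v → ∃ p : G.Walk u v, p.length ≤ g - 2 := by
    intro u v hu hv huv
    by_contra hcon
    push Not at hcon
    have hsh : ∀ p : G.Walk u v, g ≤ p.length + 1 := by
      intro p
      have := hcon p
      omega
    have hnadj : ¬ G.Adj u v := by
      intro h
      have := hsh (Walk.cons h Walk.nil)
      rw [Walk.length_cons, Walk.length_nil] at this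
      omega
    have hNC' := hNC.sup hsh
    obtain ⟨G', hG'⟩ : ∃ G', G' = G ⊔ edge u v := ⟨_, rfl⟩
    have hadj' : ∀ a b, G'.Adj a b ↔ G.Adj a b ∨ (a = u ∧ b = v ∨ a = v ∧ b = u) ∧ a ≠ b := by
      intro a b
      rw [hG', sup_adj, edge_adj]
    rw [← hG'] at hNC'
    have hmem : G' ∈ {G : SimpleGraph (Fin (4 * 400 ^ g)) |
      (∀ v, (univ.filter (G.Adj v)).card ≤ 400) ∧ NC G g} := by
      refine ⟨fun w => ?_, hNC'⟩
      by_cases hwu : w = u
      · subst hwu
        have hs : univ.filter (G'.Adj w) ⊆ insert v (univ.filter (G.Adj w)) := by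
          intro x hx
          rw [mem_filter, hadj'] at hx
          rw [mem_insert, mem_filter]
          rcases hx.2 with h | ⟨⟨_, h⟩ | ⟨h1, h2⟩, h3⟩
          · exact Or.inr ⟨mem_univ _, h⟩
          · exact Or.inl h
          · exact absurd h1 huv
        have h1 := card_le_card hs
        have h2 := card_insert_le v (univ.filter (G.Adj w))
        omega
      · by_cases hwv : w = v
        · subst hwv
          have hs : univ.filter (G'.Adj w) ⊆ insert u (univ.filter (G.Adj w)) := by
            intro x hx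
            rw [mem_filter, hadj'] at hx
            rw [mem_insert, mem_filter]
            rcases hx.2 with h | ⟨⟨h1, h2⟩ | ⟨_, h⟩, h3⟩
            · exact Or.inr ⟨mem_univ _, h⟩
            · exact absurd h1 hwu
            · exact Or.inl h
          have h1 := card_le_card hs
          have h2 := card_insert_le u (univ.filter (G.Adj w))
          omega
        · refine le_trans (card_le_card ?_) (hdeg w)
          intro x hx
          rw [mem_filter, hadj'] at hx
          rw [mem_filter]
          refine ⟨mem_univ _, ?_⟩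
          rcases hx.2 with h | ⟨⟨h1, h2⟩ | ⟨h1, h⟩, h3⟩
          · exact h
          · exact absurd h1 hwu
          · exact absurd h1 hwv
    have hle : G' ≤ G := hmax hmem (hG' ▸ le_sup_left)
    apply hnadj
    apply hle
    rw [hadj']
    exact Or.inr ⟨Or.inl ⟨rfl, rfl⟩, huv⟩
  -- the set of low degree vertices is small
  obtain ⟨L, hL⟩ : ∃ L, L = univ.filter (fun v => (univ.filter (G.Adj v)).card < 400) := ⟨_, rfl⟩
  have hLcard : L.card ≤ 400 ^ g := by
    rcases L.eq_empty_or_nonempty with h0 | ⟨u0, hu0⟩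
    · rw [h0, card_empty]; exact Nat.zero_le _
    · have hs : L ⊆ univ.filter (fun v => ∃ p : G.Walk v u0, p.length ≤ g - 2) := by
        intro v hv
        rw [mem_filter]
        refine ⟨mem_univ _, ?_⟩
        by_cases hvu : v = u0
        · subst hvu; exact ⟨Walk.nil, by simp⟩
        · rw [hL, mem_filter] at hv hu0
          exact hclose v u0 hv.2 hu0.2 hvu
      have h1 := card_le_card hs
      have h2 := ball G hdeg u0 (g - 2)
      have h3 : 2 * 400 ^ (g - 2) ≤ 400 ^ g := by
        obtain ⟨k, rfl⟩ : ∃ k, g = k + 2 := ⟨g - 2, by omega⟩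
        rw [Nat.add_sub_cancel, pow_add]
        have : 0 < 400 ^ k := by positivity
        nlinarith
      omega
  -- count
  have hcount : ee G univ univ = ∑ v, (univ.filter (G.Adj v)).card := by
    unfold ee
    rw [card_filter, sum_product]
    refine sum_congr rfl fun v _ => ?_
    rw [card_filter]
  have h1 : 400 * (univ \ L).card ≤ ∑ v, (univ.filter (G.Adj v)).card := by
    calc 400 * (univ \ L).card = ∑ v ∈ univ \ L, 400 := by rw [sum_const, smul_eq_mul]; ring
      _ ≤ ∑ v ∈ univ \ L, (univ.filter (G.Adj v)).card := by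
          refine sum_le_sum fun v hv => ?_
          rw [mem_sdiff, hL, mem_filter] at hv
          by_contra hc
          exact hv.2 ⟨mem_univ _, by omega⟩
      _ ≤ ∑ v, (univ.filter (G.Adj v)).card :=
          sum_le_sum_of_subset (subset_univ _)
  have h2 : (univ \ L).card = 4 * 400 ^ g - L.card := by
    rw [card_sdiff_of_subset (subset_univ _), card_univ, Fintype.card_fin]
  have h3 : 0 < 400 ^ g := by positivity
  rw [hcount]
  omega

end fin

/-- Existence of graphs of maximal degree 400, girth at least `g`, at most `4 * 400 ^ g`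
vertices, in which every vertex set touches many edges. -/
theorem exists_graph (g : ℕ) (hg : 3 ≤ g) :
    ∃ (n : ℕ) (G : SimpleGraph (Fin n)), 0 < n ∧ n ≤ 4 * 400 ^ g ∧
      (∀ v, (G.neighborSet v).ncard ≤ 400) ∧
      (∀ (v : Fin n) (c : G.Walk v v), c.IsCycle → g ≤ c.length) ∧
      (∀ U : Finset (Fin n), 200 * U.card ≤
        {p : Fin n × Fin n | p.1 ∈ U ∧ p.2 ∈ U ∧ G.Adj p.1 p.2}.ncard +
          2 * {p : Fin n × Fin n | p.1 ∈ U ∧ p.2 ∉ U ∧ G.Adj p.1 p.2}.ncard) := by
  classical
  obtain ⟨G, hdeg, hNC, hE⟩ := exists_maxgraph g hg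
  obtain ⟨U0, -, hU0⟩ := exists_max_image (univ : Finset (Finset (Fin (4 * 400 ^ g))))
    (fun U => (ee G U U : ℤ) - 200 * U.card) ⟨∅, mem_univ _⟩
  have hpos : (0 : ℤ) < (ee G U0 U0 : ℤ) - 200 * U0.card := by
    refine lt_of_lt_of_le ?_ (hU0 univ (mem_univ _))
    rw [card_univ, Fintype.card_fin]
    have : ((200 * (4 * 400 ^ g) : ℕ) : ℤ) < (ee G univ univ : ℤ) := by exact_mod_cast hE
    push_cast at this ⊢
    linarith
  have hW : ∀ W ⊆ U0, 200 * W.card ≤ ee G W W + 2 * ee G W (U0 \ W) := by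
    intro W hW
    have h1 := hU0 (U0 \ W) (mem_univ _)
    have h2 := ee_sdiff G hW
    have h3 : (U0 \ W).card + W.card = U0.card := card_sdiff_add_card_eq_card hW
    zify at h2 h3 ⊢
    linarith
  have hne : U0.Nonempty := by
    rw [nonempty_iff_ne_empty]
    rintro rfl
    simp [ee] at hpos
  obtain ⟨f, hf⟩ : ∃ f : Fin U0.card ↪ Fin (4 * 400 ^ g), ∀ x, x ∈ U0 ↔ ∃ i, f i = x := by
    refine ⟨(U0.equivFin.symm.toEmbedding).trans (Function.Embedding.subtype _), fun x => ?_⟩
    constructor
    · intro hx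
      exact ⟨U0.equivFin ⟨x, hx⟩, by simp⟩
    · rintro ⟨i, rfl⟩
      simp
  refine ⟨U0.card, G.comap f, card_pos.2 hne, ?_, fun v => ?_, fun v c hc => ?_, fun U => ?_⟩
  · have := card_le_univ U0
    rwa [Fintype.card_fin] at this
  · have h1 : f '' ((G.comap f).neighborSet v) ⊆ (univ.filter (G.Adj (f v)) : Finset _) := by
      rintro _ ⟨w, hw, rfl⟩
      simp only [coe_filter, mem_univ, true_and, Set.mem_ofPred_eq]
      exact hw
    have h2 := Set.ncard_le_ncard h1 (Set.toFinite _)
    rw [Set.ncard_image_of_injective _ f.injective, Set.ncard_coe_finset] at h2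
    exact h2.trans (hdeg _)
  · have h1 : (c.map (Hom.comap f G)).IsCycle :=
      (Walk.isCycle_map_iff_of_injective (f := Hom.comap f G) f.injective).2 hc
    have h2 := hNC.cycle _ h1
    rwa [Walk.length_map] at h2
  · have hinj : Function.Injective (fun p : Fin U0.card × Fin U0.card => (f p.1, f p.2)) := by
      rintro ⟨a, b⟩ ⟨c, d⟩ h
      simp only [Prod.mk.injEq] at h ⊢
      exact ⟨f.injective h.1, f.injective h.2⟩
    have hsub : U.map f ⊆ U0 := by
      intro x hx
      rw [mem_map] at hx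
      obtain ⟨i, _, rfl⟩ := hx
      exact (hf _).2 ⟨i, rfl⟩
    have h1 : {p : Fin U0.card × Fin U0.card | p.1 ∈ U ∧ p.2 ∈ U ∧ (G.comap f).Adj p.1 p.2}.ncard =
        ee G (U.map f) (U.map f) := by
      rw [← Set.ncard_image_of_injective _ hinj]
      unfold ee
      refine Eq.trans ?_ (Set.ncard_coe_finset _)
      congr 1
      ext ⟨a, b⟩
      simp only [Set.mem_image, Set.mem_ofPred_eq, coe_filter, mem_product, Prod.mk.injEq,
        Prod.exists, mem_map]
      constructor
      · rintro ⟨i, j, ⟨hi, hj, hij⟩, rfl, rfl⟩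
        exact ⟨⟨⟨i, hi, rfl⟩, ⟨j, hj, rfl⟩⟩, hij⟩
      · rintro ⟨⟨⟨i, hi, rfl⟩, ⟨j, hj, rfl⟩⟩, hij⟩
        exact ⟨i, j, ⟨hi, hj, hij⟩, rfl, rfl⟩
    have h2 : {p : Fin U0.card × Fin U0.card | p.1 ∈ U ∧ p.2 ∉ U ∧ (G.comap f).Adj p.1 p.2}.ncard =
        ee G (U.map f) (U0 \ U.map f) := by
      rw [← Set.ncard_image_of_injective _ hinj]
      unfold ee
      refine Eq.trans ?_ (Set.ncard_coe_finset _)
      congr 1
      ext ⟨a, b⟩
      simp only [Set.mem_image, Set.mem_ofPred_eq, coe_filter, mem_product, Prod.mk.injEq,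
        Prod.exists, mem_sdiff]
      constructor
      · rintro ⟨i, j, ⟨hi, hj, hij⟩, rfl, rfl⟩
        refine ⟨⟨mem_map.2 ⟨i, hi, rfl⟩, (hf _).2 ⟨j, rfl⟩, ?_⟩, hij⟩
        intro h
        rw [mem_map] at h
        obtain ⟨k, hk, hkj⟩ := h
        exact hj (f.injective hkj ▸ hk)
      · rintro ⟨⟨ha, hb, hb'⟩, hij⟩
        obtain ⟨i, hi, rfl⟩ := mem_map.1 ha
        obtain ⟨j, rfl⟩ := (hf _).1 hb
        exact ⟨i, j, ⟨hi, fun h => hb' (mem_map.2 ⟨j, h, rfl⟩), hij⟩, rfl, rfl⟩
    rw [h1, h2]
    have := hW (U.map f) hsub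
    rwa [card_map] at this

/-- In a graph of girth at least `g`, a nonempty vertex set spanning at least as many edges
as vertices has at least `g` elements. -/
theorem card_ge_of_girth {V : Type} [Fintype V] [DecidableEq V] (G : SimpleGraph V)
    [DecidableRel G.Adj] (g : ℕ)
    (hg : ∀ (v : V) (c : G.Walk v v), c.IsCycle → g ≤ c.length)
    (U : Finset V) (hU : U.Nonempty)
    (h : 2 * U.card ≤ ∑ u ∈ U, ∑ v ∈ U, if G.Adj u v then 1 else 0) : g ≤ U.card := by
  by_contra hlt
  push Not at hlt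
  have : Nonempty {x // x ∈ U} := ⟨⟨hU.choose, hU.choose_spec⟩⟩
  obtain ⟨H, hH⟩ : ∃ H : SimpleGraph {x // x ∈ U}, H = G.comap Subtype.val := ⟨_, rfl⟩
  have hadj : ∀ a b : {x // x ∈ U}, H.Adj a b ↔ G.Adj a b := by
    intro a b; rw [hH]; rfl
  have hac : H.IsAcyclic := by
    intro v c hc
    have h1 : (c.map (⟨Subtype.val, fun {a b} h => (hadj a b).1 h⟩ : H →g G)).IsCycle :=
      (Walk.isCycle_map_iff_of_injective
        (f := (⟨Subtype.val, fun {a b} h => (hadj a b).1 h⟩ : H →g G)) Subtype.val_injective).2 hc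
    have h2 := hg _ _ h1
    rw [Walk.length_map] at h2
    have h3 := hc.support_nodup.length_le_card
    rw [List.length_tail, Walk.length_support, Fintype.card_coe] at h3
    omega
  obtain ⟨T, hHT, -, hT⟩ := Connected.exists_isTree_le_of_le_of_isAcyclic
    (G := (⊤ : SimpleGraph {x // x ∈ U})) connected_top (le_top : H ≤ ⊤) hac
  classical
  have h1 := hT.card_edgeFinset
  have h2 : H.edgeFinset.card ≤ T.edgeFinset.card := card_le_card (edgeFinset_mono hHT)
  have h3 := H.sum_degrees_eq_twice_card_edges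
  have h4 : ∑ u ∈ U, ∑ v ∈ U, (if G.Adj u v then 1 else 0) = ∑ u, H.degree u := by
    rw [← sum_coe_sort U (fun u => ∑ v ∈ U, (if G.Adj u v then 1 else 0))]
    refine sum_congr rfl fun u _ => ?_
    rw [← sum_coe_sort U (fun v => (if G.Adj u v then 1 else 0)), ← card_neighborFinset_eq_degree,
      neighborFinset_eq_filter, card_filter]
    refine sum_congr rfl fun v _ => ?_
    by_cases hv : G.Adj u v
    · rw [if_pos hv, if_pos ((hadj u v).2 hv)]
    · rw [if_neg hv, if_neg (fun h' => hv ((hadj u v).1 h'))]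
  rw [Fintype.card_coe] at h1
  rw [h4] at h
  omega

end Pool.Agent.TH553.J779
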