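import Pool.Agent.TH950.FC.Defs

set_option autoImplicit false

namespace Pool.Agent.TH553.J870

open Pool.Agent.TH950.FC

section words
variable {S : Type}

theorem red_rev {w : List S} (h : Red w) : Red w.reverse := by
  rw [Red, List.isChain_reverse]
  exact h.imp fun _ _ h' => h'.symm

theorem red_left {w w' : List S} (h : Red (w ++ w')) : Red w := h.left_of_append
theorem red_right {w w' : List S} (h : Red (w ++ w')) : Red w' := h.right_of_append

theorem red_append {w w' : List S} {s s' : S} (h : Red (w ++ [s])) (h' : Red (s' :: w'))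
    (hne : s ≠ s') : Red ((w ++ [s]) ++ (s' :: w')) := by
  rw [Red, List.isChain_append]
  refine ⟨h, h', ?_⟩
  intro x hx y hy
  simp at hx hy
  subst hx hy
  exact hne

end words

section paths
variable {S V : Type} {X : LG S V}

theorem path_append {w w' : List S} {x y : V} :
    X.Path x (w ++ w') y ↔ ∃ z, X.Path x w z ∧ X.Path z w' y := by
  induction w generalizing x with
  | nil => exact ⟨fun h => ⟨x, rfl, h⟩, fun ⟨z, h, h'⟩ => by cases h; exact h'⟩
  | cons s w ih =>
    constructor
    · rintro ⟨z, hz, h⟩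
      obtain ⟨z', h1, h2⟩ := ih.1 h
      exact ⟨z', ⟨z, hz, h1⟩, h2⟩
    · rintro ⟨z', ⟨z, hz, h1⟩, h2⟩
      exact ⟨z, hz, ih.2 ⟨z', h1, h2⟩⟩

theorem path_single {s : S} {x y : V} : X.Path x [s] y ↔ X.E s x y :=
  ⟨fun ⟨z, h, h'⟩ => by cases h'; exact h, fun h => ⟨y, h, rfl⟩⟩

theorem path_func {w : List S} {x y y' : V} (h : X.Path x w y) (h' : X.Path x w y') : y = y' := by
  induction w generalizing x with
  | nil => exact h.symm.trans h'
  | cons s w ih =>
    obtain ⟨z, hz, h1⟩ := h
    obtain ⟨z', hz', h1'⟩ := h'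
    have := X.func hz hz'
    subst this
    exact ih h1 h1'

theorem path_rev {w : List S} {x y : V} (h : X.Path x w y) : X.Path y w.reverse x := by
  induction w generalizing x with
  | nil => exact Eq.symm h
  | cons s w ih =>
    obtain ⟨z, hz, h1⟩ := h
    rw [List.reverse_cons, path_append]
    exact ⟨z, ih h1, path_single.2 (X.symm hz)⟩

theorem pathIn_path {P : Set V} {w : List S} {x y : V} (h : X.PathIn P x w y) : X.Path x w y := by
  induction w generalizing x with
  | nil => exact h.1
  | cons s w ih =>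
    obtain ⟨_, z, hz, h1⟩ := h
    exact ⟨z, hz, ih h1⟩

theorem pathIn_start {P : Set V} {w : List S} {x y : V} (h : X.PathIn P x w y) : x ∈ P := by
  cases w with
  | nil => exact h.2
  | cons s w => exact h.1

theorem pathIn_end {P : Set V} {w : List S} {x y : V} (h : X.PathIn P x w y) : y ∈ P := by
  induction w generalizing x with
  | nil => obtain ⟨rfl, h⟩ := h; exact h
  | cons s w ih =>
    obtain ⟨_, z, hz, h1⟩ := h
    exact ih h1

theorem pathIn_append {P : Set V} {w w' : List S} {x y : V} :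
    X.PathIn P x (w ++ w') y ↔ ∃ z, X.PathIn P x w z ∧ X.PathIn P z w' y := by
  induction w generalizing x with
  | nil =>
    constructor
    · intro h; exact ⟨x, ⟨rfl, pathIn_start h⟩, h⟩
    · rintro ⟨z, ⟨rfl, _⟩, h⟩; exact h
  | cons s w ih =>
    constructor
    · rintro ⟨hx, z, hz, h⟩
      obtain ⟨z', h1, h2⟩ := ih.1 h
      exact ⟨z', ⟨hx, z, hz, h1⟩, h2⟩
    · rintro ⟨z', ⟨hx, z, hz, h1⟩, h2⟩
      exact ⟨hx, z, hz, ih.2 ⟨z', h1, h2⟩⟩

theorem pathIn_single {P : Set V} {s : S} {x y : V} (hx : x ∈ P) (hy : y ∈ P) (h : X.E s x y) :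
    X.PathIn P x [s] y := ⟨hx, y, h, rfl, hy⟩

theorem pathIn_rev {P : Set V} {w : List S} {x y : V} (h : X.PathIn P x w y) :
    X.PathIn P y w.reverse x := by
  induction w generalizing x with
  | nil => obtain ⟨rfl, h⟩ := h; exact ⟨rfl, h⟩
  | cons s w ih =>
    obtain ⟨hx, z, hz, h1⟩ := h
    rw [List.reverse_cons, pathIn_append]
    exact ⟨z, ih h1, pathIn_single (pathIn_start h1) hx (X.symm hz)⟩

theorem hit_path {D : Set V} {w : List S} {x y : V} (h : X.Hit D x w y) : X.Path x w y := by
  induction w generalizing x with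
  | nil => exact h.1
  | cons s w ih =>
    obtain ⟨_, z, hz, h1⟩ := h
    exact ⟨z, hz, ih h1⟩

theorem hit_end {D : Set V} {w : List S} {x y : V} (h : X.Hit D x w y) : y ∈ D := by
  induction w generalizing x with
  | nil => obtain ⟨rfl, h⟩ := h; exact h
  | cons s w ih =>
    obtain ⟨_, z, hz, h1⟩ := h
    exact ih h1

/-- a path outside `D` followed by a hitting path -/
theorem hit_append {D : Set V} {w u : List S} {x z b : V} (h : X.PathIn Dᶜ x w z)
    (h' : X.Hit D z u b) : X.Hit D x (w ++ u) b := by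
  induction w generalizing x with
  | nil => obtain ⟨rfl, _⟩ := h; exact h'
  | cons s w ih =>
    obtain ⟨hx, z', hz, h1⟩ := h
    exact ⟨hx, z', hz, ih h1⟩

theorem hit_snoc {D : Set V} {w : List S} {s : S} {x b : V} (h : X.Hit D x (w ++ [s]) b) :
    ∃ y, X.PathIn Dᶜ x w y ∧ X.E s y b ∧ b ∈ D := by
  induction w generalizing x with
  | nil =>
    obtain ⟨hx, z, hz, rfl, hb⟩ := h
    exact ⟨x, ⟨rfl, hx⟩, hz, hb⟩
  | cons t w ih =>
    obtain ⟨hx, z, hz, h1⟩ := h
    obtain ⟨y, h2, h3, h4⟩ := ih h1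
    exact ⟨y, ⟨hx, z, hz, h2⟩, h3, h4⟩

theorem readable_append {w w' : List S} {x y : V} (h : X.Path x w y) :
    X.Readable x (w ++ w') ↔ X.Readable y w' := by
  constructor
  · rintro ⟨z, hz⟩
    obtain ⟨y', h1, h2⟩ := path_append.1 hz
    rw [path_func h h1]
    exact ⟨z, h2⟩
  · rintro ⟨z, hz⟩
    exact ⟨z, path_append.2 ⟨y, h, hz⟩⟩

theorem readable_left {w w' : List S} {x : V} (h : X.Readable x (w ++ w')) : X.Readable x w := by
  obtain ⟨z, hz⟩ := h
  obtain ⟨y', h1, _⟩ := path_append.1 hz
  exact ⟨y', h1⟩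

/-- either the path avoids `D` or there is a first vertex in `D` -/
theorem first_hit (D : Set V) {w : List S} {x y : V} (h : X.Path x w y) :
    X.PathIn Dᶜ x w y ∨ ∃ w1 w' b, w = w1 ++ w' ∧ X.Hit D x w1 b ∧ X.Path b w' y := by
  induction w generalizing x with
  | nil =>
    by_cases hx : x ∈ D
    · exact Or.inr ⟨[], [], x, rfl, ⟨rfl, hx⟩, h⟩
    · exact Or.inl ⟨h, hx⟩
  | cons s w ih =>
    by_cases hx : x ∈ D
    · exact Or.inr ⟨[], s :: w, x, rfl, ⟨rfl, hx⟩, h⟩
    · obtain ⟨z, hz, h1⟩ := h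
      rcases ih h1 with h2 | ⟨w1, w', b, rfl, h2, h3⟩
      · exact Or.inl ⟨hx, z, hz, h2⟩
      · exact Or.inr ⟨s :: w1, w', b, rfl, ⟨hx, z, hz, h2⟩, h3⟩

/-- the part of the path which stays in `D` -/
theorem stay (D : Set V) {w : List S} {x y : V} (hx : x ∈ D) (h : X.Path x w y) :
    ∃ w2 w3 b', w = w2 ++ w3 ∧ X.PathIn D x w2 b' ∧ X.Path b' w3 y ∧
      (w3 = [] ∨ ∃ s w4 c, w3 = s :: w4 ∧ X.E s b' c ∧ c ∉ D ∧ X.Path c w4 y) := by
  induction w generalizing x with
  | nil => exact ⟨[], [], x, rfl, ⟨rfl, hx⟩, h, Or.inl rfl⟩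
  | cons s w ih =>
    have h0 := h
    obtain ⟨z, hz, h1⟩ := h
    by_cases hzD : z ∈ D
    · obtain ⟨w2, w3, b', rfl, h2, h3, h4⟩ := ih hzD h1
      exact ⟨s :: w2, w3, b', rfl, ⟨hx, z, hz, h2⟩, h3, h4⟩
    · exact ⟨[], s :: w, x, rfl, ⟨rfl, hx⟩, h0, Or.inr ⟨s, w, z, rfl, hz, hzD, h1⟩⟩

end paths

/-- A graph `X` obtained from its part `D` by attaching copies of covers (the pairs `(x, q)`
with `N x q` are the positions in these new blocks), and a relation `nc` (not charted). -/
structure RelSetup {S Q V : Type} [DecidableEq Q] (T : Theta S Q) (X : LG S V) (D : Set V)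
    (N nc : V → Q → Prop) : Prop where
  N_step : ∀ {s x q q'}, N x q → T.E s q q' → ∃ y, X.E s x y ∧ N y q'
  cover : ∀ {s x y}, X.E s x y → ¬ (x ∈ D ∧ y ∈ D) → ∃ q q', N x q ∧ T.E s q q'
  meet : ∀ {y q q'}, N y q → N y q' → q ≠ q' → ∃ u b, Red u ∧ X.Hit D y u b ∧
    T.Readable q u ∧ T.Readable q' u
  short : ∀ {b b' q q' u}, N b q → b ∈ D → T.Path q u q' → X.Path b u b' → b' ∈ D →
    ∃ z, Red z ∧ X.PathIn D b z b' ∧ T.Path q z q' ∧ 100 * z.length ≤ 4 * T.g q
  nc_step : ∀ {s x y q q'}, nc x q → X.E s x y → T.E s q q' → nc y q'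
  nc_N : ∀ {x q}, nc x q → ¬ N x q

variable {S Q V : Type} [DecidableEq Q] {T : Theta S Q} {X : LG S V} {D : Set V}
  {N nc : V → Q → Prop}

theorem g_path {w : List S} {q q' : Q} (h : T.Path q w q') : T.g q' = T.g q := by
  induction w generalizing q with
  | nil => cases h; rfl
  | cons s w ih =>
    obtain ⟨z, hz, h1⟩ := h
    rw [ih h1, T.g_edge hz]

theorem g_pos (T : Theta S Q) (q : Q) : 0 < T.g q := lt_of_lt_of_le (by norm_num) (T.hundred_le q)

theorem N_path (hR : RelSetup T X D N nc) {w : List S} {x y : V} {q q' : Q} (hN : N x q)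
    (h : T.Path q w q') (h' : X.Path x w y) : N y q' := by
  induction w generalizing q x with
  | nil => cases h; cases h'; exact hN
  | cons s w ih =>
    obtain ⟨z, hz, h1⟩ := h
    obtain ⟨y', hy', h1'⟩ := h'
    obtain ⟨y'', hy'', hN'⟩ := hR.N_step hN hz
    rw [X.func hy'' hy'] at hN'
    exact ih hN' h1 h1'

theorem nc_path (hR : RelSetup T X D N nc) {w : List S} {x y : V} {q q' : Q} (hN : nc x q)
    (h : T.Path q w q') (h' : X.Path x w y) : nc y q' := by
  induction w generalizing q x with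
  | nil => cases h; cases h'; exact hN
  | cons s w ih =>
    obtain ⟨z, hz, h1⟩ := h
    obtain ⟨y', hy', h1'⟩ := h'
    exact ih (hR.nc_step hN hy' hz) h1 h1'

/-- Uniqueness of short paths to `D` inside a new block. -/
theorem rel_unique (hR : RelSetup T X D N nc) {y : V} {q : Q} {u u' : List S} {b b' : V}
    (hN : N y q) (hu : Red u) (hu' : Red u') (h1 : T.Readable q u) (h1' : T.Readable q u')
    (h2 : X.Hit D y u b) (h2' : X.Hit D y u' b') (h3 : 100 * u.length ≤ 3 * T.g q)
    (h3' : 100 * u'.length ≤ 3 * T.g q) : u = u' := by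
  have hg := g_pos T q
  rcases List.eq_nil_or_concat' u with rfl | ⟨v, s, rfl⟩
  · cases u' with
    | nil => rfl
    | cons t u' => obtain ⟨rfl, hy⟩ := h2; exact absurd hy h2'.1
  rcases List.eq_nil_or_concat' u' with rfl | ⟨v', s', rfl⟩
  · obtain ⟨rfl, hy⟩ := h2'
    cases v with
    | nil => exact absurd hy h2.1
    | cons t v => exact absurd hy h2.1
  obtain ⟨qb, hqb⟩ := h1
  obtain ⟨qb', hqb'⟩ := h1'
  have hNb := N_path hR hN hqb (hit_path h2)
  obtain ⟨z, hz, hzD, hzT, hzl⟩ := hR.short (u := (v ++ [s]).reverse ++ (v' ++ [s'])) hNb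
    (hit_end h2) (path_append.2 ⟨q, path_rev hqb, hqb'⟩)
    (path_append.2 ⟨y, path_rev (hit_path h2), hit_path h2'⟩) (hit_end h2')
  obtain ⟨yy, hyy, hE, _⟩ := hit_snoc h2
  obtain ⟨yy', hyy', hE', _⟩ := hit_snoc h2'
  have hyyD : yy ∉ D := pathIn_end hyy
  have hyyD' : yy' ∉ D := pathIn_end hyy'
  rw [g_path hqb] at hzl
  -- the reduced word
  have hred : Red (z ++ (v' ++ [s']).reverse) := by
    rcases List.eq_nil_or_concat' z with rfl | ⟨z0, t, rfl⟩
    · exact red_rev hu'
    · have h4 : Red (v' ++ [s']).reverse := red_rev hu'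
      rw [List.reverse_append, List.reverse_singleton, List.singleton_append] at h4 ⊢
      refine red_append hz h4 ?_
      rintro rfl
      obtain ⟨c, hc, hc'⟩ := pathIn_append.1 hzD
      obtain ⟨hcD, b1, hcE, rfl, _⟩ := hc'
      have := X.func (X.symm hcE) (X.symm hE')
      rw [this] at hcD
      exact hyyD' hcD
  have heq : z ++ (v' ++ [s']).reverse = (v ++ [s]).reverse := by
    refine T.girth hred (red_rev hu) (path_append.2 ⟨_, hzT, path_rev hqb'⟩) (path_rev hqb) ?_
    rw [g_path hqb, List.length_append, List.length_reverse, List.length_reverse]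
    omega
  have hz0 : z = [] := by
    cases z with
    | nil => rfl
    | cons t z =>
      rw [List.reverse_append (as := v), List.reverse_singleton, List.singleton_append,
        List.cons_append] at heq
      obtain ⟨rfl, _⟩ := List.cons.inj heq
      obtain ⟨_, c, hc, hc'⟩ := hzD
      have := X.func hc (X.symm hE)
      have hcD := pathIn_start hc'
      rw [this] at hcD
      exact absurd hcD hyyD
  rw [hz0, List.nil_append] at heq
  exact (List.reverse_injective heq).symm

/-- An uncharted overlap leaving `D` stays in one new block and never returns to `D`. -/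
theorem rel_leave' (hR : RelSetup T X D N nc) {x y : V} {q : Q} {s : S}
    (hnc : nc x q) (hx : x ∈ D) (hE : X.E s x y) (hy : y ∉ D) (w : List S) :
    ∀ z, Red (s :: w) → X.Path y w z → T.Readable q (s :: w) →
    X.PathIn Dᶜ y w z ∧ ∃ q', N x q' ∧ T.Readable q' (s :: w) := by
  have hne : ∀ q', N x q' → q' ≠ q := by
    rintro q' h rfl; exact hR.nc_N hnc h
  induction w using List.reverseRecOn with
  | nil =>
    intro z _ hp _
    cases hp
    refine ⟨⟨rfl, hy⟩, ?_⟩
    obtain ⟨q1, q1', h1, h2⟩ := hR.cover hE (fun h => hy h.2)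
    exact ⟨q1, h1, q1', path_single.2 h2⟩
  | append_singleton w s' ih =>
    intro z hw hp hq
    rw [← List.cons_append] at hw hq
    obtain ⟨z0, hp0, hz0⟩ := path_append.1 hp
    rw [path_single] at hz0
    obtain ⟨hin, q', hNq', hq'⟩ := ih z0 (red_left hw) hp0 (readable_left hq)
    have hz0D : z0 ∉ D := pathIn_end hin
    have hxz0 : X.Path x (s :: w) z0 := ⟨y, hE, hp0⟩
    have hlen : ∀ q'', N x q'' → T.Readable q'' (s :: w) →
        100 * (s :: w).length ≤ T.g q'' := fun q'' h h' =>
      T.piece (hne q'' h) (red_left hw) h' (readable_left hq)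
    -- find a position reading the longer word
    have key : ∃ q'', N x q'' ∧ T.Readable q'' ((s :: w) ++ [s']) := by
      obtain ⟨q0, hq0⟩ := hq'
      have hN0 := N_path hR hNq' hq0 hxz0
      obtain ⟨q2, q2', hN2, hq2⟩ := hR.cover hz0 (fun h => hz0D h.1)
      by_cases h20 : q0 = q2
      · subst h20
        exact ⟨q', hNq', q2', path_append.2 ⟨q0, hq0, path_single.2 hq2⟩⟩
      · obtain ⟨u, b, hu, huH, hu0, hu2⟩ := hR.meet hN0 hN2 h20
        have hg0 : T.g q0 = T.g q' := g_path hq0
        have hul : 100 * u.length ≤ T.g q0 := T.piece h20 hu hu0 hu2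
        have hH : X.Hit D z0 (s :: w).reverse x := by
          rw [List.reverse_cons]
          exact hit_append (pathIn_rev hin) ⟨hy, x, X.symm hE, rfl, hx⟩
        have huu : u = (s :: w).reverse := by
          refine rel_unique hR hN0 hu (red_rev (red_left hw)) hu0 ⟨q', path_rev hq0⟩ huH hH
            (by omega) ?_
          rw [List.length_reverse, hg0]
          have := hlen q' hNq' ⟨q0, hq0⟩
          omega
        rw [huu] at hu2
        obtain ⟨q3, hq3⟩ := hu2
        have hN3 := N_path hR hN2 hq3 (hit_path hH)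
        refine ⟨q3, hN3, q2', path_append.2 ⟨q2, ?_, path_single.2 hq2⟩⟩
        have := path_rev hq3
        rwa [List.reverse_reverse] at this
    obtain ⟨q'', hN'', hq''⟩ := key
    refine ⟨pathIn_append.2 ⟨z0, hin, pathIn_single hz0D ?_ hz0⟩, q'', hN'', by
      rw [← List.cons_append]; exact hq''⟩
    intro hzD
    have hlen' : 100 * ((s :: w) ++ [s']).length ≤ T.g q'' := T.piece (hne q'' hN'') hw hq'' hq
    obtain ⟨qe, hqe⟩ := hq''
    obtain ⟨zz, hzz, hzzD, hzzT, hzzl⟩ := hR.short hN'' hx hqe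
      (path_append.2 ⟨z0, hxz0, path_single.2 hz0⟩) hzD
    have heq : (s :: w) ++ [s'] = zz := by
      refine T.girth hw hzz hqe hzzT ?_
      have := g_pos T q''
      omega
    rw [← heq, List.cons_append] at hzzD
    obtain ⟨_, c, hc, hc'⟩ := hzzD
    have := X.func hc hE
    rw [this] at hc'
    exact hy (pathIn_start hc')

/-- An uncharted overlap leaving `D` stays in one new block and never returns to `D`. -/
theorem rel_leave (hR : RelSetup T X D N nc) {x y z : V} {q : Q} {s : S} {w : List S}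
    (hnc : nc x q) (hx : x ∈ D) (hw : Red (s :: w)) (hE : X.E s x y) (hy : y ∉ D)
    (hp : X.Path y w z) (hq : T.Readable q (s :: w)) :
    z ∉ D ∧ 100 * (w.length + 1) ≤ T.g q ∧ ∃ q', N x q' ∧ T.Readable q' (s :: w) := by
  obtain ⟨h1, q', h2, h3⟩ := rel_leave' hR hnc hx hE hy w z hw hp hq
  refine ⟨pathIn_end h1, ?_, q', h2, h3⟩
  have hne : q ≠ q' := by rintro rfl; exact hR.nc_N hnc h2
  have := T.piece hne hw hq h3
  rwa [List.length_cons] at this

/-- maximal prefix readable from a position of a new block -/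
theorem max_prefix (T : Theta S Q) (P : Q → Prop) (w : List S) (h0 : ∃ q', P q') :
    (∃ q', P q' ∧ T.Readable q' w) ∨ ∃ w0 s1 v', w = w0 ++ s1 :: v' ∧
      (∃ q', P q' ∧ T.Readable q' w0) ∧ ¬ ∃ q', P q' ∧ T.Readable q' (w0 ++ [s1]) := by
  induction w using List.reverseRecOn with
  | nil =>
    obtain ⟨q', hq'⟩ := h0
    exact Or.inl ⟨q', hq', q', rfl⟩
  | append_singleton w s ih =>
    rcases ih with h | ⟨w0, s1, v', rfl, h1, h2⟩
    · by_cases h' : ∃ q', P q' ∧ T.Readable q' (w ++ [s])
      · exact Or.inl h'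
      · exact Or.inr ⟨w, s, [], rfl, h, h'⟩
    · exact Or.inr ⟨w0, s1, v' ++ [s], by simp, h1, h2⟩

/-- the part after a branch point, for a path outside `D` -/
theorem branch (hR : RelSetup T X D N nc) {p b : V} {qp qi q2 : Q} {s1 : S} {u : List S}
    (hnc : nc p qp) (hN2 : N p q2) (hne : qi ≠ q2) (hu : Red u)
    (huH : X.Hit D p u b) (hui : T.Readable qi u) (hu2 : T.Readable q2 u)
    (hq2 : T.Readable q2 [s1]) (hus : ∀ u', u ≠ s1 :: u') (v : List S) :
    ∀ y, Red (s1 :: v) → X.PathIn Dᶜ p (s1 :: v) y → T.Readable qp (s1 :: v) →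
    ∃ q', N p q' ∧ T.Readable q' u ∧ T.Readable q' (s1 :: v) := by
  induction v using List.reverseRecOn with
  | nil => intro _ _ _ _; exact ⟨q2, hN2, hu2, hq2⟩
  | append_singleton v s' ih =>
    intro y hv hp hqp
    rw [← List.cons_append] at hv hp hqp ⊢
    obtain ⟨p0, hp0, hp1⟩ := pathIn_append.1 hp
    obtain ⟨hp0D, y', hE, hyy, hyD⟩ := hp1
    subst hyy
    obtain ⟨q', hN', hu', hq'⟩ := ih p0 (red_left hv) hp0 (readable_left hqp)
    obtain ⟨q0, hq0⟩ := hq'
    have hN0 := N_path hR hN' hq0 (pathIn_path hp0)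
    obtain ⟨q3, q3', hN3, hq3⟩ := hR.cover hE (fun h => hp0D h.1)
    by_cases h30 : q0 = q3
    · subst h30
      exact ⟨q', hN', hu', q3', path_append.2 ⟨q0, hq0, path_single.2 hq3⟩⟩
    · obtain ⟨u2, b2, hu2r, hu2H, hu20, hu23⟩ := hR.meet hN0 hN3 h30
      have hg0 : T.g q0 = T.g q' := g_path hq0
      have hul : 100 * u2.length ≤ T.g q0 := T.piece h30 hu2r hu20 hu23
      have hlu : 100 * u.length ≤ T.g q' := by
        by_cases h : q' = qi
        · exact T.piece (by rw [h]; exact hne) hu hu' hu2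
        · exact T.piece h hu hu' hui
      have hlv : 100 * (s1 :: v).length ≤ T.g q' := by
        have hne' : q' ≠ qp := by rintro rfl; exact hR.nc_N hnc hN'
        exact T.piece hne' (red_left hv) ⟨q0, hq0⟩ (readable_left hqp)
      have hH : X.Hit D p0 ((s1 :: v).reverse ++ u) b := hit_append (pathIn_rev hp0) huH
      have hred : Red ((s1 :: v).reverse ++ u) := by
        cases u with
        | nil => rw [List.append_nil]; exact red_rev (red_left hv)
        | cons t u =>
          have h4 : Red (s1 :: v).reverse := red_rev (red_left hv)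
          rw [List.reverse_cons] at h4 ⊢
          refine red_append h4 hu ?_
          rintro rfl
          exact hus u rfl
      have hread : T.Readable q0 ((s1 :: v).reverse ++ u) :=
        (readable_append (path_rev hq0)).2 hu'
      have huu : u2 = (s1 :: v).reverse ++ u := by
        refine rel_unique hR hN0 hu2r hred hu20 hread hu2H hH (by omega) ?_
        rw [List.length_append, List.length_reverse, hg0]
        omega
      rw [huu] at hu23
      obtain ⟨q4, hq4⟩ := readable_left hu23
      have hN4 := N_path hR hN3 hq4 (path_rev (pathIn_path hp0))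
      have h5 : T.Path q4 (s1 :: v) q3 := by
        have := path_rev hq4
        rwa [List.reverse_reverse] at this
      exact ⟨q4, hN4, (readable_append hq4).1 hu23, q3',
        path_append.2 ⟨q3, h5, path_single.2 hq3⟩⟩

/-- General shape of an uncharted overlap. -/
theorem rel_gen (hR : RelSetup T X D N nc) {x y : V} {q : Q} {w : List S}
    (hnc : nc x q) (hw : Red w) (hp : X.Path x w y) (hq : T.Readable q w) :
    100 * w.length ≤ 2 * T.g q ∨
    ∃ w₁ w₂ w₃ b b', w = w₁ ++ (w₂ ++ w₃) ∧ X.Path x w₁ b ∧ X.PathIn D b w₂ b' ∧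
      X.Path b' w₃ y ∧ 100 * (w₁.length + w₃.length) ≤ 2 * T.g q := by
  rcases first_hit D hp with hin | ⟨w1, w', b, rfl, h1, h2⟩
  · left
    cases w with
    | nil => simp
    | cons s w =>
      have hex : ∃ q', N x q' := by
        obtain ⟨hx, z, hz, _⟩ := hin
        obtain ⟨q1, _, h1, _⟩ := hR.cover hz (fun h => hx h.1)
        exact ⟨q1, h1⟩
      rcases max_prefix T (N x) (s :: w) hex with ⟨q', h1, h2⟩ | ⟨w0, s1, v', hsw, ⟨q', h1, h2⟩, h3⟩
      · have hne : q ≠ q' := by rintro rfl; exact hR.nc_N hnc h1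
        have := T.piece hne hw hq h2
        omega
      · rw [hsw] at hw hp hq hin ⊢
        obtain ⟨p, hp1, hp2⟩ := pathIn_append.1 hin
        obtain ⟨qe, hqe⟩ := hq
        obtain ⟨qp, hqp1, hqp2⟩ := path_append.1 hqe
        have hncp := nc_path hR hnc hqp1 (pathIn_path hp1)
        have hpD : p ∉ D := pathIn_end hp1
        obtain ⟨qi, hqi⟩ := h2
        have hNi := N_path hR h1 hqi (pathIn_path hp1)
        have hp2' := hp2
        obtain ⟨_, p1, hE, _⟩ := hp2'
        obtain ⟨q2, q2', hN2, hq2⟩ := hR.cover hE (fun h => hpD h.1)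
        have hnoti : ¬ T.Readable qi [s1] := by
          intro h
          exact h3 ⟨q', h1, (readable_append hqi).2 h⟩
        have hne : qi ≠ q2 := by
          rintro rfl
          exact hnoti ⟨q2', path_single.2 hq2⟩
        obtain ⟨u, b, hu, huH, hui, hu2⟩ := hR.meet hNi hN2 hne
        obtain ⟨q4, hN4, _, hq4⟩ := branch hR hncp hN2 hne hu huH hui hu2
          ⟨q2', path_single.2 hq2⟩ (by
            rintro u' rfl
            exact hnoti (readable_left (w' := u') (by rw [List.singleton_append]; exact hui)))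
          v' y (red_right hw) hp2 ⟨qe, hqp2⟩
        have hne4 : qp ≠ q4 := by rintro rfl; exact hR.nc_N hncp hN4
        have l2 : 100 * (s1 :: v').length ≤ T.g qp :=
          T.piece hne4 (red_right hw) ⟨qe, hqp2⟩ hq4
        rw [g_path hqp1] at l2
        have hne1 : q ≠ q' := by rintro rfl; exact hR.nc_N hnc h1
        have l1 : 100 * w0.length ≤ T.g q := T.piece hne1 (red_left hw) ⟨qp, hqp1⟩ ⟨qi, hqi⟩
        rw [List.length_append]
        omega
  · right
    obtain ⟨w2, w3, b', rfl, h3, h4, h5⟩ := stay D (hit_end h1) h2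
    refine ⟨w1, w2, w3, b, b', rfl, hit_path h1, h3, h4, ?_⟩
    obtain ⟨qe, hqe⟩ := hq
    obtain ⟨qb, hqb, hqb'⟩ := path_append.1 hqe
    obtain ⟨qb2, hqb2, hqb3⟩ := path_append.1 hqb'
    have hncb := nc_path hR hnc hqb (hit_path h1)
    have hncb' := nc_path hR hncb hqb2 (pathIn_path h3)
    have l1 : 100 * w1.length ≤ T.g q := by
      rcases List.eq_nil_or_concat' w1 with rfl | ⟨v, s, rfl⟩
      · simp
      · obtain ⟨y1, hy1, hE1, hbD⟩ := hit_snoc h1
        have h6 := rel_leave hR (w := v.reverse) hncb hbD (by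
          have := red_rev (red_left hw)
          rwa [List.reverse_append, List.reverse_singleton, List.singleton_append] at this)
          (X.symm hE1) (pathIn_end hy1) (path_rev (pathIn_path hy1)) (by
            have := path_rev hqb
            rw [List.reverse_append, List.reverse_singleton, List.singleton_append] at this
            exact ⟨q, this⟩)
        have h7 := h6.2.1
        rw [g_path hqb, List.length_reverse] at h7
        rw [List.length_append, List.length_singleton]
        exact h7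
    have l3 : 100 * w3.length ≤ T.g q := by
      rcases h5 with rfl | ⟨s, w4, c, rfl, hE, hc, hp4⟩
      · simp
      · have h6 := rel_leave hR hncb' (pathIn_end h3) (red_right (red_right hw)) hE hc hp4
          ⟨qe, hqb3⟩
        have h7 := h6.2.1
        rw [g_path hqb2, g_path hqb] at h7
        rw [List.length_cons]
        exact h7
    omega

end Pool.Agent.TH553.J870
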