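import Pool.Agent.TH239.FF.Gen

set_option autoImplicit false

namespace Pool.Agent.TH553.J941

open Pool.Agent.TH239.FF
open Set Filter Topology MeasureTheory

variable {c : ℕ → ℝ → ℝ}

theorem sum_le_one (h : Sol c) {t : ℝ} (ht : 0 ≤ t) (s : Finset ℕ) : ∑ i ∈ s, c i t ≤ 1 :=
  sum_le_hasSum s (fun i _ => h.nn i t ht) (h.sm t ht)

theorem le_one (h : Sol c) {t : ℝ} (ht : 0 ≤ t) (n : ℕ) : c n t ≤ 1 := by
  have := sum_le_one h ht {n}
  rwa [Finset.sum_singleton] at this

theorem cv_nonneg (h : Sol c) {t : ℝ} (ht : 0 ≤ t) (n : ℕ) :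
    0 ≤ ∑ i ∈ Finset.range n, c i t * c (n - 1 - i) t :=
  Finset.sum_nonneg fun i _ => mul_nonneg (h.nn i t ht) (h.nn _ t ht)

theorem cv_le (h : Sol c) {t : ℝ} (ht : 0 ≤ t) (n : ℕ) :
    ∑ i ∈ Finset.range n, c i t * c (n - 1 - i) t ≤ 1 := by
  refine le_trans (Finset.sum_le_sum fun i _ => ?_) (sum_le_one h ht (Finset.range n))
  exact mul_le_of_le_one_right (h.nn i t ht) (le_one h ht _)

theorem dr_bound (h : Sol c) {t : ℝ} (ht : 0 ≤ t) (n : ℕ) : |dr c n t| ≤ (n : ℝ) + 1 := by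
  have h1 := cv_nonneg h ht n
  have h2 := cv_le h ht n
  have h3 := h.nn n t ht
  have h4 := le_one h ht n
  have hn : (0 : ℝ) ≤ n := Nat.cast_nonneg n
  unfold dr
  rw [abs_le]
  constructor <;> nlinarith [mul_nonneg hn h1, mul_nonneg hn h3,
    mul_nonneg hn (sub_nonneg.2 h2), mul_nonneg hn (sub_nonneg.2 h4)]

theorem dr_cont (h : Sol c) (n : ℕ) : ContinuousOn (dr c n) (Ici 0) := by
  unfold dr
  refine ContinuousOn.add (continuousOn_const.mul (h.ct n)) (continuousOn_const.mul ?_)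
  exact continuousOn_finsetSum _ fun i _ => (h.ct i).mul (h.ct _)

theorem uIcc_sub {s t : ℝ} (hs : 0 ≤ s) (hst : s ≤ t) : uIcc s t ⊆ Ici 0 := by
  rw [uIcc_of_le hst]
  exact fun r hr => hs.trans hr.1

theorem dr_int (h : Sol c) (n : ℕ) {s t : ℝ} (hs : 0 ≤ s) (hst : s ≤ t) :
    IntervalIntegrable (dr c n) volume s t :=
  ((dr_cont h n).mono (uIcc_sub hs hst)).intervalIntegrable

theorem inc (h : Sol c) {n : ℕ} (hn : 1 ≤ n) {s t : ℝ} (hs : 0 ≤ s) (hst : s ≤ t) :
    c n t - c n s = ∫ r in s..t, dr c n r := by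
  symm
  refine intervalIntegral.integral_eq_sub_of_hasDerivAt_of_le hst
    ((h.ct n).mono fun r hr => hs.trans hr.1) (fun r hr => h.dv n hn r (hs.trans_lt hr.1))
    (dr_int h n hs hst)

theorem Ph_sub (h : Sol c) {s t : ℝ} (hs : 0 ≤ s) (hst : s ≤ t) :
    Ph c t - Ph c s = c 0 t - c 0 s + ∫ r in s..t, c 0 r := by
  have h1 : IntervalIntegrable (c 0) volume 0 t :=
    ((h.ct 0).mono (uIcc_sub le_rfl (hs.trans hst))).intervalIntegrable
  have h2 : IntervalIntegrable (c 0) volume 0 s :=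
    ((h.ct 0).mono (uIcc_sub le_rfl hs)).intervalIntegrable
  have h3 := intervalIntegral.integral_interval_sub_left h1 h2
  unfold Ph
  rw [← h3]
  ring

theorem dr_zero (t : ℝ) : dr c 0 t = - c 0 t := by
  unfold dr
  simp

/-- the integrated equation for all `n` -/
theorem inc' (h : Sol c) (n : ℕ) {s t : ℝ} (hs : 0 ≤ s) (hst : s ≤ t) :
    c n t - c n s - (if n = 0 then Ph c t - Ph c s else 0) = ∫ r in s..t, dr c n r := by
  rcases Nat.eq_zero_or_pos n with rfl | hn
  · rw [if_pos rfl, Ph_sub h hs hst]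
    have : (dr c 0) = fun r => - c 0 r := funext dr_zero
    rw [this, intervalIntegral.integral_neg]
    ring
  · rw [if_neg (by omega), sub_zero, inc h hn hs hst]

/-- symmetrization -/
theorem cv_symm (t : ℝ) (n : ℕ) :
    (((n : ℝ) + 1) / 2) * ∑ i ∈ Finset.range n, c i t * c (n - 1 - i) t =
      ∑ i ∈ Finset.range n, ((i : ℝ) + 1) * c i t * c (n - 1 - i) t := by
  have h1 := Finset.sum_range_reflect (fun i => ((i : ℝ) + 1) * c i t * c (n - 1 - i) t) n
  have h2 : ∑ i ∈ Finset.range n, (((n - 1 - i : ℕ) : ℝ) + 1) * c (n - 1 - i) t *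
      c (n - 1 - (n - 1 - i)) t =
      ∑ i ∈ Finset.range n, ((n : ℝ) - i) * (c i t * c (n - 1 - i) t) := by
    refine Finset.sum_congr rfl fun i hi => ?_
    rw [Finset.mem_range] at hi
    have e1 : n - 1 - (n - 1 - i) = i := by omega
    have e2 : ((n - 1 - i : ℕ) : ℝ) = (n : ℝ) - 1 - i := by
      rw [Nat.cast_sub (by omega), Nat.cast_sub (by omega), Nat.cast_one]
    rw [e1, e2]
    ring
  rw [h2] at h1
  have h3 : ∑ i ∈ Finset.range n, ((n : ℝ) - i) * (c i t * c (n - 1 - i) t) +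
      ∑ i ∈ Finset.range n, ((i : ℝ) + 1) * c i t * c (n - 1 - i) t =
      ((n : ℝ) + 1) * ∑ i ∈ Finset.range n, c i t * c (n - 1 - i) t := by
    rw [← Finset.sum_add_distrib, Finset.mul_sum]
    refine Finset.sum_congr rfl fun i _ => ?_
    ring
  linarith

theorem sum_dr_nonpos (h : Sol c) {t : ℝ} (ht : 0 ≤ t) (N : ℕ) :
    ∑ n ∈ Finset.range N, dr c n t ≤ 0 := by
  have h1 : ∑ n ∈ Finset.range N, dr c n t =
      - ∑ n ∈ Finset.range N, ((n : ℝ) + 1) * c n t +
        ∑ n ∈ Finset.range N, ∑ i ∈ Finset.range n, ((i : ℝ) + 1) * c i t * c (n - 1 - i) t := by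
    rw [← Finset.sum_neg_distrib, ← Finset.sum_add_distrib]
    refine Finset.sum_congr rfl fun n _ => ?_
    unfold dr
    rw [cv_symm]
    ring
  have h2 : ∑ n ∈ Finset.range N, ∑ i ∈ Finset.range n, ((i : ℝ) + 1) * c i t * c (n - 1 - i) t =
      ∑ i ∈ Finset.range N, ∑ n ∈ Finset.Ico (i + 1) N, ((i : ℝ) + 1) * c i t *
        c (n - 1 - i) t := by
    simp only [Finset.range_eq_Ico]
    exact (Finset.sum_Ico_Ico_comm' 0 N (fun i n => ((i : ℝ) + 1) * c i t * c (n - 1 - i) t)).symm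
  have h3 : ∑ i ∈ Finset.range N, ∑ n ∈ Finset.Ico (i + 1) N, ((i : ℝ) + 1) * c i t *
        c (n - 1 - i) t ≤ ∑ i ∈ Finset.range N, ((i : ℝ) + 1) * c i t := by
    refine Finset.sum_le_sum fun i _ => ?_
    rw [← Finset.mul_sum]
    have h4 : ∑ n ∈ Finset.Ico (i + 1) N, c (n - 1 - i) t ≤ 1 := by
      rw [Finset.sum_Ico_eq_sum_range]
      have e1 : ∀ k ∈ Finset.range (N - (i + 1)), c (i + 1 + k - 1 - i) t = c k t := by
        intro k _
        congr 1
        omega
      rw [Finset.sum_congr rfl e1]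
      exact sum_le_one h ht _
    have h5 : 0 ≤ ((i : ℝ) + 1) * c i t := mul_nonneg (by positivity) (h.nn i t ht)
    exact mul_le_of_le_one_right h5 h4
  rw [h1, h2]
  linarith

theorem Ph_mono (h : Sol c) {s t : ℝ} (hs : 0 ≤ s) (hst : s ≤ t) : Ph c s ≤ Ph c t := by
  have ht := hs.trans hst
  have key : ∀ N : ℕ, ∑ n ∈ Finset.range (N + 1), c n t - ∑ n ∈ Finset.range (N + 1), c n s ≤
      Ph c t - Ph c s := by
    intro N
    have h1 : ∑ n ∈ Finset.range (N + 1), c n t - ∑ n ∈ Finset.range (N + 1), c n s -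
        (Ph c t - Ph c s) = ∫ r in s..t, ∑ n ∈ Finset.range (N + 1), dr c n r := by
      rw [intervalIntegral.integral_finsetSum (fun n _ => dr_int h n hs hst)]
      rw [← Finset.sum_congr rfl (fun n _ => inc' h n hs hst)]
      rw [Finset.sum_sub_distrib, Finset.sum_sub_distrib]
      congr 1
      rw [Finset.sum_ite_eq' (Finset.range (N + 1)) 0 (fun _ => Ph c t - Ph c s)]
      simp
    have h2 : ∫ r in s..t, ∑ n ∈ Finset.range (N + 1), dr c n r ≤ 0 := by
      have h3 : 0 ≤ ∫ r in s..t, -∑ n ∈ Finset.range (N + 1), dr c n r := by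
        refine intervalIntegral.integral_nonneg hst fun r hr => ?_
        have := sum_dr_nonpos h (hs.trans hr.1) (N + 1)
        linarith
      rw [intervalIntegral.integral_neg] at h3
      linarith
    linarith
  have hlim : Tendsto (fun N : ℕ => ∑ n ∈ Finset.range (N + 1), c n t -
      ∑ n ∈ Finset.range (N + 1), c n s) atTop (𝓝 (1 - 1)) := by
    refine Tendsto.sub ?_ ?_
    · exact ((h.sm t ht).tendsto_sum_nat).comp (tendsto_add_atTop_nat 1)
    · exact ((h.sm s hs).tendsto_sum_nat).comp (tendsto_add_atTop_nat 1)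
  have := le_of_tendsto' hlim key
  linarith

theorem Ph_cont (h : Sol c) : ContinuousOn (Ph c) (Ici 0) := by
  have h1 : Continuous (fun s : ℝ => c 0 (max s 0)) :=
    (h.ct 0).comp_continuous (continuous_id.max continuous_const) (fun s => le_max_right s 0)
  have h2 : Continuous (fun t : ℝ => ∫ s in (0 : ℝ)..t, c 0 (max s 0)) :=
    intervalIntegral.continuous_primitive (fun a b => h1.intervalIntegrable a b) 0
  have h3 : ContinuousOn (fun t : ℝ => ∫ s in (0 : ℝ)..t, c 0 s) (Ici 0) := by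
    refine h2.continuousOn.congr fun t ht => ?_
    refine intervalIntegral.integral_congr fun s hs => ?_
    have hs' : 0 ≤ s := uIcc_sub le_rfl ht hs
    show c 0 s = c 0 (max s 0)
    rw [max_eq_left hs']
  unfold Ph
  exact ((h.ct 0).sub continuousOn_const).add h3

theorem lip (h : Sol c) (n : ℕ) {s t : ℝ} (hs : 0 ≤ s) (hst : s ≤ t) :
    |c n t - c n s| ≤ ((n : ℝ) + 1) * ((t - s) + (Ph c t - Ph c s)) := by
  have hP := Ph_mono h hs hst
  have h1 := inc' h n hs hst
  have h2 : |∫ r in s..t, dr c n r| ≤ ((n : ℝ) + 1) * |t - s| := by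
    have := intervalIntegral.norm_integral_le_of_norm_le_const (a := s) (b := t)
      (C := (n : ℝ) + 1) (f := dr c n) (fun r hr => by
        rw [uIoc_of_le hst] at hr
        exact dr_bound h (hs.trans hr.1.le) n)
    exact this
  rw [abs_of_nonneg (sub_nonneg.2 hst)] at h2
  have hn : (0 : ℝ) ≤ n := Nat.cast_nonneg n
  have h3 : |if n = 0 then Ph c t - Ph c s else 0| ≤ Ph c t - Ph c s := by
    split_ifs
    · rw [abs_of_nonneg (sub_nonneg.2 hP)]
    · rw [abs_zero]; linarith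
  have h4 : c n t - c n s = (∫ r in s..t, dr c n r) +
      (if n = 0 then Ph c t - Ph c s else 0) := by linarith
  rw [h4]
  refine (abs_add_le _ _).trans ?_
  nlinarith [mul_nonneg hn (sub_nonneg.2 hP)]

theorem dr_lip (h : Sol c) (n : ℕ) {s t : ℝ} (hs : 0 ≤ s) (hst : s ≤ t) :
    |dr c n s - dr c n t| ≤ 2 * ((n : ℝ) + 1) ^ 2 * ((t - s) + (Ph c t - Ph c s)) := by
  obtain ⟨δ, hδ⟩ : ∃ δ, δ = (t - s) + (Ph c t - Ph c s) := ⟨_, rfl⟩
  have hP := Ph_mono h hs hst
  have ht := hs.trans hst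
  have hδ0 : 0 ≤ δ := by rw [hδ]; linarith
  have hl : ∀ n, |c n s - c n t| ≤ ((n : ℝ) + 1) * δ := by
    intro n
    rw [abs_sub_comm, hδ]
    exact lip h n hs hst
  rw [← hδ]
  have hn : (0 : ℝ) ≤ n := Nat.cast_nonneg n
  have e : dr c n s - dr c n t = -((n : ℝ) + 1) * (c n s - c n t) +
      (((n : ℝ) + 1) / 2) * ∑ i ∈ Finset.range n,
        (c i s * c (n - 1 - i) s - c i t * c (n - 1 - i) t) := by
    unfold dr
    rw [Finset.sum_sub_distrib]
    ring
  have h1 : |∑ i ∈ Finset.range n, (c i s * c (n - 1 - i) s - c i t * c (n - 1 - i) t)| ≤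
      2 * (n * δ) := by
    refine (Finset.abs_sum_le_sum_abs _ _).trans ?_
    have h2 : ∀ i ∈ Finset.range n, |c i s * c (n - 1 - i) s - c i t * c (n - 1 - i) t| ≤
        (n * δ) * c i s + (n * δ) * c (n - 1 - i) t := by
      intro i hi
      rw [Finset.mem_range] at hi
      have e1 : c i s * c (n - 1 - i) s - c i t * c (n - 1 - i) t =
        c i s * (c (n - 1 - i) s - c (n - 1 - i) t) + c (n - 1 - i) t * (c i s - c i t) := by ring
      rw [e1]
      refine (abs_add_le _ _).trans ?_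
      rw [abs_mul, abs_mul, abs_of_nonneg (h.nn i s hs), abs_of_nonneg (h.nn (n - 1 - i) t ht)]
      have k1 := hl (n - 1 - i)
      have k2 := hl i
      have k3 : ((n - 1 - i : ℕ) : ℝ) + 1 ≤ n := by
        have : (n - 1 - i) + 1 ≤ n := by omega
        exact_mod_cast this
      have k4 : ((i : ℕ) : ℝ) + 1 ≤ n := by
        have : i + 1 ≤ n := by omega
        exact_mod_cast this
      have k5 : |c (n - 1 - i) s - c (n - 1 - i) t| ≤ n * δ :=
        k1.trans (mul_le_mul_of_nonneg_right k3 hδ0)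
      have k6 : |c i s - c i t| ≤ n * δ := k2.trans (mul_le_mul_of_nonneg_right k4 hδ0)
      have k7 := mul_le_mul_of_nonneg_left k5 (h.nn i s hs)
      have k8 := mul_le_mul_of_nonneg_left k6 (h.nn (n - 1 - i) t ht)
      linarith
    refine (Finset.sum_le_sum h2).trans ?_
    rw [Finset.sum_add_distrib, ← Finset.mul_sum, ← Finset.mul_sum]
    have h3 := sum_le_one h hs (Finset.range n)
    have h4 : ∑ i ∈ Finset.range n, c (n - 1 - i) t ≤ 1 := by
      rw [Finset.sum_range_reflect (fun i => c i t) n]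
      exact sum_le_one h ht _
    have h5 : 0 ≤ (n : ℝ) * δ := mul_nonneg hn hδ0
    nlinarith
  rw [e]
  refine (abs_add_le _ _).trans ?_
  rw [abs_mul, abs_mul, abs_neg, abs_of_nonneg (by linarith : (0 : ℝ) ≤ (n : ℝ) + 1),
    abs_of_nonneg (by linarith : (0 : ℝ) ≤ ((n : ℝ) + 1) / 2)]
  have h6 := mul_le_mul_of_nonneg_left (hl n) (by linarith : (0 : ℝ) ≤ (n : ℝ) + 1)
  have h7 := mul_le_mul_of_nonneg_left h1 (by linarith : (0 : ℝ) ≤ ((n : ℝ) + 1) / 2)
  have h8 : 0 ≤ ((n : ℝ) + 1) * δ := by positivity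
  nlinarith

theorem bas_of_sol {c : ℕ → ℝ → ℝ} (h : Sol c) : Bas c where
  c1 n t ht := le_one h ht n
  inc n s t hn hs hst := inc h hn hs hst
  drc n := dr_cont h n
  drb n t ht := dr_bound h ht n
  pm s t hs hst := Ph_mono h hs hst
  pc := Ph_cont h
  lip n s t hs hst := lip h n hs hst
  exp n s t hs hst := by
    have hP := Ph_mono h hs hst
    have h1 := inc' h n hs hst
    have h2 : c n t - c n s - (t - s) * dr c n t - (if n = 0 then Ph c t - Ph c s else 0) =
        ∫ r in s..t, (dr c n r - dr c n t) := by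
      rw [intervalIntegral.integral_sub (dr_int h n hs hst) intervalIntegrable_const,
        intervalIntegral.integral_const, smul_eq_mul, ← h1]
      ring
    rw [h2]
    have h3 := intervalIntegral.norm_integral_le_of_norm_le_const (a := s) (b := t)
      (C := 2 * ((n : ℝ) + 1) ^ 2 * ((t - s) + (Ph c t - Ph c s)))
      (f := fun r => dr c n r - dr c n t) (fun r hr => by
        rw [uIoc_of_le hst] at hr
        have hr0 : 0 ≤ r := hs.trans hr.1.le
        refine (dr_lip h n hr0 hr.2).trans ?_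
        refine mul_le_mul_of_nonneg_left ?_ (by positivity)
        have := Ph_mono h hs hr.1.le
        linarith [hr.1])
    rw [Real.norm_eq_abs, abs_of_nonneg (sub_nonneg.2 hst)] at h3
    refine h3.trans (le_of_eq ?_)
    ring

end Pool.Agent.TH553.J941
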