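import Pool.Agent.TH451.BK.Greedy

set_option autoImplicit false

namespace Pool.Agent.TH553.BK

open Finset
open scoped Classical
open Pool.Agent.TH451.BK

variable {V : Type} [Fintype V]

/-- JOB DENSE -/
theorem dense_clique (G : SimpleGraph V) (k t : ℕ) (hG : MinCex k G) (ht : 1 ≤ t)
    (hk : 100 * (t + 1) ≤ k) (v : V) (hv : 8 * prs G v < t * (k + 1)) :
    ∃ C : Finset V, G.IsClique (C : Set V) ∧ v ∈ C ∧ k + 1 ≤ C.card + t := by
  set L : Finset V := (nb G v).filter (fun x => 8 * (nn G v x).card ≤ k + 1) with hL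
  have memL : ∀ x ∈ L, G.Adj v x ∧ 8 * (nn G v x).card ≤ k + 1 := by
    intro x hx
    rw [hL, Finset.mem_filter, mem_nb] at hx
    exact hx
  have hvL : v ∉ L := fun h => G.loopless.irrefl _ (memL v h).1
  -- few vertices of `nb v` outside `L`
  have hout : ((nb G v).filter (fun x => ¬ 8 * (nn G v x).card ≤ k + 1)).card < t := by
    by_contra hlt
    rw [not_lt] at hlt
    have h1 : ∑ x ∈ (nb G v).filter (fun x => ¬ 8 * (nn G v x).card ≤ k + 1), (k + 1) ≤
        ∑ x ∈ (nb G v).filter (fun x => ¬ 8 * (nn G v x).card ≤ k + 1), 8 * (nn G v x).card := by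
      apply Finset.sum_le_sum
      intro x hx
      have := (Finset.mem_filter.1 hx).2
      omega
    have h2 : ∑ x ∈ (nb G v).filter (fun x => ¬ 8 * (nn G v x).card ≤ k + 1),
        8 * (nn G v x).card ≤ ∑ x ∈ nb G v, 8 * (nn G v x).card :=
      Finset.sum_le_sum_of_subset (Finset.filter_subset _ _)
    rw [Finset.sum_const, smul_eq_mul] at h1
    have h2' : ∑ x ∈ nb G v, 8 * (nn G v x).card = 8 * ∑ x ∈ nb G v, (nn G v x).card :=
      (Finset.mul_sum _ _ _).symm
    have h3 := Nat.mul_le_mul_right (k + 1) hlt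
    have h4 : 8 * prs G v = 8 * ∑ x ∈ nb G v, (nn G v x).card := rfl
    omega
  have hLcard : k + 1 ≤ L.card + t := by
    have h1 := Finset.card_filter_add_card_filter_not (s := nb G v)
      (fun x => 8 * (nn G v x).card ≤ k + 1)
    have h2 := hG.mindeg v
    have h3 : L.card = ((nb G v).filter (fun x => 8 * (nn G v x).card ≤ k + 1)).card := rfl
    omega
  set D : Finset V := insert v L with hD
  have hDcard : D.card = L.card + 1 := Finset.card_insert_of_notMem hvL
  have hLD : L ⊆ D := Finset.subset_insert _ _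
  -- outside degree
  have hdeg : ∀ x ∈ L, 8 * (nb G x \ D).card ≤ 8 * t + (k + 1) := by
    intro x hx
    obtain ⟨hx1, hx2⟩ := memL x hx
    have h1 : insert v ((L \ {x}) \ nn G v x) ⊆ nb G x ∩ D := by
      intro w hw
      rw [Finset.mem_insert] at hw
      rcases hw with rfl | hw
      · exact Finset.mem_inter.2 ⟨mem_nb.2 hx1.symm, Finset.mem_insert_self _ _⟩
      · obtain ⟨hw1, hw2⟩ := Finset.mem_sdiff.1 hw
        obtain ⟨hw3, hw4⟩ := Finset.mem_sdiff.1 hw1
        refine Finset.mem_inter.2 ⟨?_, hLD hw3⟩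
        rw [mem_nb]
        by_contra hcon
        apply hw2
        simp only [nn, Finset.mem_filter, Finset.mem_univ, true_and]
        exact ⟨(memL w hw3).1, fun h => hw4 (Finset.mem_singleton.2 h), hcon⟩
    have h2 := Finset.card_le_card h1
    rw [Finset.card_insert_of_notMem (by
      intro h
      exact hvL (Finset.mem_sdiff.1 (Finset.mem_sdiff.1 h).1).1)] at h2
    have h3 := Finset.le_card_sdiff (nn G v x) (L \ {x})
    have h4 := Finset.le_card_sdiff ({x} : Finset V) L
    rw [Finset.card_singleton] at h4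
    have h5 := Finset.card_sdiff_add_card_inter (nb G x) D
    have h6 := hG.deg x
    omega
  -- common neighbours
  have keyA : ∀ P : Finset V, P ⊆ L → P.card ≤ 4 → ∀ u ∈ D \ P, ¬ P ⊆ nb G u →
      2 ≤ (nb G u ∩ (D \ P).filter (fun w => P ⊆ nb G w)).card := by
    intro P hP hP4 u hu hPu
    obtain ⟨huD, huP⟩ := Finset.mem_sdiff.1 hu
    have huL : u ∈ L := by
      rcases Finset.mem_insert.1 huD with h | h
      · exfalso
        apply hPu
        intro p hp
        rw [h, mem_nb]
        exact (memL p (hP hp)).1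
      · exact h
    have h1 : D \ (insert u (nn G v u) ∪ (P ∪ P.biUnion (nn G v))) ⊆
        nb G u ∩ (D \ P).filter (fun w => P ⊆ nb G w) := by
      intro w hw
      obtain ⟨hw1, hw2⟩ := Finset.mem_sdiff.1 hw
      simp only [Finset.mem_union, Finset.mem_insert, Finset.mem_biUnion, not_or, not_exists,
        not_and] at hw2
      obtain ⟨⟨hwu, hwnu⟩, hwP, hwb⟩ := hw2
      rcases Finset.mem_insert.1 hw1 with h | h
      · subst h
        refine Finset.mem_inter.2 ⟨mem_nb.2 (memL u huL).1.symm, ?_⟩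
        refine Finset.mem_filter.2 ⟨Finset.mem_sdiff.2 ⟨hw1, hwP⟩, ?_⟩
        intro p hp
        exact mem_nb.2 (memL p (hP hp)).1
      · refine Finset.mem_inter.2 ⟨?_, ?_⟩
        · rw [mem_nb]
          by_contra hcon
          apply hwnu
          simp only [nn, Finset.mem_filter, Finset.mem_univ, true_and]
          exact ⟨(memL w h).1, hwu, hcon⟩
        · refine Finset.mem_filter.2 ⟨Finset.mem_sdiff.2 ⟨hw1, hwP⟩, ?_⟩
          intro p hp
          rw [mem_nb]
          by_contra hcon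
          apply hwb p hp
          simp only [nn, Finset.mem_filter, Finset.mem_univ, true_and]
          exact ⟨(memL w h).1, fun h' => hwP (h' ▸ hp), fun h' => hcon h'.symm⟩
    have h2 := Finset.card_le_card h1
    have h3 := Finset.le_card_sdiff (insert u (nn G v u) ∪ (P ∪ P.biUnion (nn G v))) D
    have h4 := Finset.card_union_le (insert u (nn G v u)) (P ∪ P.biUnion (nn G v))
    have h5 := Finset.card_union_le P (P.biUnion (nn G v))
    have h6 := Finset.card_insert_le u (nn G v u)
    have h7 : 8 * (P.biUnion (nn G v)).card ≤ 4 * (k + 1) := by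
      have h8 : (P.biUnion (nn G v)).card ≤ ∑ p ∈ P, (nn G v p).card := Finset.card_biUnion_le
      have h9 : ∑ p ∈ P, 8 * (nn G v p).card ≤ ∑ p ∈ P, (k + 1) :=
        Finset.sum_le_sum fun p hp => (memL p (hP hp)).2
      rw [Finset.sum_const, smul_eq_mul, ← Finset.mul_sum] at h9
      have h10 := Nat.mul_le_mul_right (k + 1) hP4
      omega
    have h11 := (memL u huL).2
    omega
  have noT : ∀ x ∈ L, ∀ y ∈ L, ∀ z ∈ L, x ≠ y → x ≠ z → y ≠ z → ¬ G.Adj x y → ¬ G.Adj x z →
      ¬ G.Adj y z → False := by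
    intro x hx y hy z hz hxy hxz hyz nxy nxz nyz
    refine hG.no_triple D x y z (hLD hx) (hLD hy) (hLD hz) hxy hxz hyz nxy nxz nyz ?_ ?_
    · have h1 := hdeg x hx
      have h2 := hdeg y hy
      have h3 := hdeg z hz
      omega
    · refine keyA {x, y, z} ?_ ?_
      · intro p hp
        simp only [Finset.mem_insert, Finset.mem_singleton] at hp
        rcases hp with rfl | rfl | rfl <;> assumption
      · exact Finset.card_le_three.trans (by norm_num)
  have noP : ∀ x ∈ L, ∀ y ∈ L, ∀ z ∈ L, ∀ w ∈ L, x ≠ y → x ≠ z → x ≠ w → y ≠ z → y ≠ w → z ≠ w →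
      ¬ G.Adj x y → ¬ G.Adj z w → False := by
    intro x hx y hy z hz w hw hxy hxz hxw hyz hyw hzw nxy nzw
    refine hG.no_pairs D x y z w (hLD hx) (hLD hy) (hLD hz) (hLD hw) hxy hxz hxw hyz hyw hzw
      nxy nzw ?_ ?_ ?_
    · have h1 := hdeg x hx
      have h2 := hdeg y hy
      omega
    · have h1 := hdeg z hz
      have h2 := hdeg w hw
      omega
    · refine keyA {x, y, z, w} ?_ ?_
      · intro p hp
        simp only [Finset.mem_insert, Finset.mem_singleton] at hp
        rcases hp with rfl | rfl | rfl | rfl <;> assumption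
      · exact Finset.card_le_four
  -- a vertex whose removal leaves a clique
  have hclq : ∀ S : Finset V, S ⊆ L → (∀ x ∈ S, ∀ y ∈ S, x ≠ y → G.Adj x y) →
      G.IsClique ((insert v S : Finset V) : Set V) := by
    intro S hS hSc x hx y hy hxy
    rw [Finset.mem_coe, Finset.mem_insert] at hx hy
    rcases hx with rfl | hx
    · rcases hy with rfl | hy
      · exact absurd rfl hxy
      · exact (memL y (hS hy)).1
    · rcases hy with rfl | hy
      · exact (memL x (hS hx)).1.symm
      · exact hSc x hx y hy hxy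
  by_cases hall : ∀ x ∈ L, ∀ y ∈ L, x ≠ y → G.Adj x y
  · refine ⟨insert v L, hclq L (Finset.Subset.refl _) hall, Finset.mem_insert_self _ _, ?_⟩
    rw [Finset.card_insert_of_notMem hvL]
    omega
  push Not at hall
  obtain ⟨a, ha, b, hb, hab, nab⟩ := hall
  have hfin : ∀ z ∈ L, (∀ x ∈ L, ∀ y ∈ L, x ≠ z → y ≠ z → x ≠ y → G.Adj x y) →
      ∃ C : Finset V, G.IsClique (C : Set V) ∧ v ∈ C ∧ k + 1 ≤ C.card + t := by
    intro z hz h
    refine ⟨insert v (L.erase z), hclq _ (Finset.erase_subset _ _) ?_, Finset.mem_insert_self _ _,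
      ?_⟩
    · intro x hx y hy hxy
      exact h x (Finset.mem_of_mem_erase hx) y (Finset.mem_of_mem_erase hy)
        (Finset.ne_of_mem_erase hx) (Finset.ne_of_mem_erase hy) hxy
    · rw [Finset.card_insert_of_notMem (fun h => hvL (Finset.mem_of_mem_erase h)),
        Finset.card_erase_of_mem hz]
      omega
  by_cases h1 : ∀ x ∈ L, ∀ y ∈ L, x ≠ a → y ≠ a → x ≠ y → G.Adj x y
  · exact hfin a ha h1
  by_cases h2 : ∀ x ∈ L, ∀ y ∈ L, x ≠ b → y ≠ b → x ≠ y → G.Adj x y
  · exact hfin b hb h2
  exfalso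
  push Not at h1 h2
  have h1' : ∃ c ∈ L, c ≠ a ∧ c ≠ b ∧ ¬ G.Adj b c := by
    obtain ⟨x, hx, y, hy, hxa, hya, hxy, nxy⟩ := h1
    by_cases hxb : x = b
    · subst hxb
      exact ⟨y, hy, hya, fun h => hxy h.symm, nxy⟩
    · by_cases hyb : y = b
      · subst hyb
        exact ⟨x, hx, hxa, hxb, fun h => nxy h.symm⟩
      · exact (noP a ha b hb x hx y hy hab (Ne.symm hxa) (Ne.symm hya) (Ne.symm hxb) (Ne.symm hyb)
          hxy nab nxy).elim
  have h2' : ∃ c ∈ L, c ≠ b ∧ c ≠ a ∧ ¬ G.Adj a c := by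
    obtain ⟨x, hx, y, hy, hxa, hya, hxy, nxy⟩ := h2
    by_cases hxb : x = a
    · subst hxb
      exact ⟨y, hy, hya, fun h => hxy h.symm, nxy⟩
    · by_cases hyb : y = a
      · subst hyb
        exact ⟨x, hx, hxa, hxb, fun h => nxy h.symm⟩
      · exact (noP b hb a ha x hx y hy (Ne.symm hab) (Ne.symm hxa) (Ne.symm hya) (Ne.symm hxb)
          (Ne.symm hyb) hxy (fun h => nab h.symm) nxy).elim
  obtain ⟨c, hc, hca, hcb, nbc⟩ := h1'
  obtain ⟨c', hc', hcb', hca', nac⟩ := h2'
  by_cases hcc : c = c'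
  · subst hcc
    exact noT a ha b hb c hc hab (Ne.symm hca) (Ne.symm hcb) nab nac nbc
  · exact noP a ha c' hc' b hb c hc (Ne.symm hca') hab (Ne.symm hca) hcb' (fun h => hcc h.symm)
      (Ne.symm hcb) nac nbc

end Pool.Agent.TH553.BK
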