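import Pool.Agent.TH553.CR_LAMINV

set_option autoImplicit false

namespace Pool.Agent.TH553.CR

open Set MeasureTheory Topology

section

variable {N : ℕ → ℕ} {Z : Type} [TopologicalSpace Z]

/-- restriction to the first `k` coordinates -/
def res (k : ℕ) (x : ∀ k, Fin (N k)) : ∀ i : Fin k, Fin (N i) := fun i => x i

lemma res_tau (k : ℕ) (a : ∀ i : Fin k, Fin (N i)) (x : ∀ k, Fin (N k)) :
    res k (tau k a x) = a := by
  funext i
  exact tau_of_lt i.2

lemma tau_tau' (k : ℕ) (a b : ∀ i : Fin k, Fin (N i)) (x : ∀ k, Fin (N k)) :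
    tau k a (tau k b x) = tau k a x := by
  funext i
  by_cases h : i < k
  · rw [tau_of_lt h, tau_of_lt h]
  · rw [tau_of_le (not_lt.1 h), tau_of_le (not_lt.1 h), tau_of_le (not_lt.1 h)]

lemma tau_res (k : ℕ) (x : ∀ k, Fin (N k)) : tau k (res k x) x = x := by
  funext i
  by_cases h : i < k
  · rw [tau_of_lt h]; rfl
  · rw [tau_of_le (not_lt.1 h)]

lemma ev_res (k : ℕ) (x : ∀ k, Fin (N k)) : ∀ᶠ y in 𝓝 x, res k y = res k x := by
  have h : ∀ i : Fin k, ∀ᶠ y in 𝓝 x, y i = x i := by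
    intro i
    have hc : Continuous (fun y : ∀ k, Fin (N k) => y i) := continuous_apply _
    have h2 : {a : Fin (N i) | a = x i} ∈ 𝓝 (x i) := (isOpen_discrete _).mem_nhds rfl
    exact hc.continuousAt h2
  filter_upwards [Filter.eventually_all.2 h] with y hy
  funext i
  exact hy i

lemma open_cyl {V : Set (∀ k, Fin (N k))} (hV : IsOpen V) {x : ∀ k, Fin (N k)} (hx : x ∈ V) :
    ∃ k, ∀ y : ∀ k, Fin (N k), (∀ i, i < k → y i = x i) → y ∈ V := by
  rw [isOpen_pi_iff] at hV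
  obtain ⟨I, u, hu, hsub⟩ := hV x hx
  refine ⟨I.sup id + 1, fun y hy => hsub ?_⟩
  intro i hi
  have : i < I.sup id + 1 := Nat.lt_succ_of_le (Finset.le_sup (f := id) hi)
  rw [hy i this]
  exact (hu i hi).2

/-- membership in a clopen set depends on finitely many coordinates of the second component -/
lemma clopen_dep [CompactSpace Z] {P : Set (Z × ∀ k, Fin (N k))} (hP : IsClopen P) :
    ∃ k, ∀ (z : Z) (x y : ∀ k, Fin (N k)), (∀ i, i < k → y i = x i) →
      ((z, x) ∈ P ↔ (z, y) ∈ P) := by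
  let O : ℕ → Set (Z × ∀ k, Fin (N k)) := fun k => {p | ∃ U : Set Z, IsOpen U ∧ p.1 ∈ U ∧
    ∀ z ∈ U, ∀ y : ∀ k, Fin (N k), (∀ i, i < k → y i = p.2 i) → ((z, y) ∈ P ↔ p ∈ P)}
  have hO : ∀ k, IsOpen (O k) := by
    intro k
    rw [isOpen_iff_mem_nhds]
    rintro ⟨z, x⟩ ⟨U, hU, hz, h⟩
    have h1 : ∀ᶠ p : Z × ∀ k, Fin (N k) in 𝓝 (z, x), p.1 ∈ U ∧ res k p.2 = res k x := by
      rw [nhds_prod_eq]
      exact Filter.Eventually.prod_mk (hU.mem_nhds hz) (ev_res k x)
    filter_upwards [h1] with p hp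
    have hpx : ∀ i, i < k → p.2 i = x i := fun i hi => congrFun hp.2 ⟨i, hi⟩
    refine ⟨U, hU, hp.1, fun z' hz' y hy => ?_⟩
    have e1 := h z' hz' y (fun i hi => (hy i hi).trans (hpx i hi))
    have e2 := h p.1 hp.1 p.2 hpx
    exact e1.trans e2.symm
  have hmono : Monotone O := by
    intro k l hkl p hp
    obtain ⟨U, hU, hz, h⟩ := hp
    exact ⟨U, hU, hz, fun z hz y hy => h z hz y fun i hi => hy i (lt_of_lt_of_le hi hkl)⟩
  have hcov : (univ : Set (Z × ∀ k, Fin (N k))) ⊆ ⋃ k, O k := by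
    rintro ⟨z, x⟩ -
    have key : ∀ R : Set (Z × ∀ k, Fin (N k)), IsOpen R → (z, x) ∈ R → ∃ k, ∃ U : Set Z, IsOpen U ∧
        z ∈ U ∧ ∀ z' ∈ U, ∀ y : ∀ k, Fin (N k), (∀ i, i < k → y i = x i) → (z', y) ∈ R := by
      intro R hR hzx
      rw [isOpen_prod_iff] at hR
      obtain ⟨U, V, hU, hV, hzU, hxV, hsub⟩ := hR z x hzx
      obtain ⟨k, hk⟩ := open_cyl hV hxV
      exact ⟨k, U, hU, hzU, fun z' hz' y hy => hsub ⟨hz', hk y hy⟩⟩
    rw [mem_iUnion]
    by_cases hzx : (z, x) ∈ P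
    · obtain ⟨k, U, hU, hzU, h⟩ := key P hP.isOpen hzx
      exact ⟨k, U, hU, hzU, fun z' hz' y hy => ⟨fun _ => hzx, fun _ => h z' hz' y hy⟩⟩
    · obtain ⟨k, U, hU, hzU, h⟩ := key Pᶜ hP.compl.isOpen hzx
      exact ⟨k, U, hU, hzU, fun z' hz' y hy => ⟨fun h' => absurd h' (h z' hz' y hy),
        fun h' => absurd h' hzx⟩⟩
  obtain ⟨k, hk⟩ := isCompact_univ.elim_directed_cover O hO hcov hmono.directed_le
  refine ⟨k, fun z x y hxy => ?_⟩
  obtain ⟨U, hU, hz, h⟩ := hk (mem_univ (z, x))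
  exact (h z hz y hxy).symm

/-- the homeomorphism given by a locally constant family of permutations of the prefixes -/
lemma cont_T (k : ℕ) (σ : Z → Equiv.Perm (∀ i : Fin k, Fin (N i)))
    (hσ : ∀ z, ∀ᶠ z' in 𝓝 z, σ z' = σ z) :
    Continuous (fun p : Z × ∀ k, Fin (N k) => (p.1, tau k (σ p.1 (res k p.2)) p.2)) := by
  refine continuous_fst.prodMk ?_
  rw [continuous_pi_iff]
  intro i
  by_cases h : i < k
  · rw [continuous_iff_continuousAt]
    rintro ⟨z, x⟩
    have h1 : ∀ᶠ p : Z × ∀ k, Fin (N k) in 𝓝 (z, x), σ p.1 = σ z ∧ res k p.2 = res k x := by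
      rw [nhds_prod_eq]
      exact Filter.Eventually.prod_mk (hσ z) (ev_res k x)
    have h2 : (fun p : Z × ∀ k, Fin (N k) => tau k (σ p.1 (res k p.2)) p.2 i) =ᶠ[𝓝 (z, x)]
        fun _ => σ z (res k x) ⟨i, h⟩ := by
      filter_upwards [h1] with p hp
      rw [tau_of_lt h, hp.1, hp.2]
    exact (continuousAt_const).congr h2.symm
  · have : (fun p : Z × ∀ k, Fin (N k) => tau k (σ p.1 (res k p.2)) p.2 i) = fun p => p.2 i := by
      funext p
      exact tau_of_le (not_lt.1 h)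
    rw [this]
    exact (continuous_apply i).comp continuous_snd

def TT (k : ℕ) (σ : Z → Equiv.Perm (∀ i : Fin k, Fin (N i)))
    (hσ : ∀ z, ∀ᶠ z' in 𝓝 z, σ z' = σ z) : (Z × ∀ k, Fin (N k)) ≃ₜ (Z × ∀ k, Fin (N k)) where
  toFun p := (p.1, tau k (σ p.1 (res k p.2)) p.2)
  invFun p := (p.1, tau k ((σ p.1).symm (res k p.2)) p.2)
  left_inv p := by
    obtain ⟨z, x⟩ := p
    simp only [res_tau, tau_tau', Equiv.symm_apply_apply, tau_res]
  right_inv p := by
    obtain ⟨z, x⟩ := p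
    simp only [res_tau, tau_tau', Equiv.apply_symm_apply, tau_res]
  continuous_toFun := cont_T k σ hσ
  continuous_invFun := cont_T k (fun z => (σ z).symm) (fun z => by
    filter_upwards [hσ z] with z' h
    rw [h])

lemma exists_perm {α : Type} [Finite α] (A B : Set α) (h : A.ncard ≤ B.ncard) :
    ∃ σ : Equiv.Perm α, ∀ a ∈ A, σ a ∈ B := by
  classical
  have := Fintype.ofFinite α
  obtain ⟨C, hCB, hC⟩ := Set.exists_subset_card_eq h
  have e : Nonempty ({a // a ∈ A} ≃ {a // a ∈ C}) := by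
    rw [← Cardinal.eq]
    rw [← Nat.cast_inj (R := Cardinal)] at hC
    have h1 : Cardinal.mk A = (A.ncard : Cardinal) := by
      rw [Set.cast_ncard (Set.toFinite A)]
    have h2 : Cardinal.mk C = (C.ncard : Cardinal) := by
      rw [Set.cast_ncard (Set.toFinite C)]
    exact h1.trans (hC.symm.trans h2.symm)
  obtain ⟨e⟩ := e
  refine ⟨e.extendSubtype, fun a ha => hCB ?_⟩
  exact e.extendSubtype_mem a ha

lemma card_meas (lam : Measure (∀ k, Fin (N k))) [IsProbabilityMeasure lam]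
    (hlam : ∀ (k : ℕ) (u : ∀ k, Fin (N k)),
      lam {x | ∀ i, i < k → x i = u i} = (∏ i ∈ Finset.range k, (N i : ENNReal))⁻¹)
    (k : ℕ) (A : Set (∀ i : Fin k, Fin (N i))) :
    lam {x | res k x ∈ A} = (A.ncard : ENNReal) * (∏ i ∈ Finset.range k, (N i : ENNReal))⁻¹ := by
  classical
  obtain ⟨x0⟩ : Nonempty (∀ k, Fin (N k)) := by
    by_contra hne
    rw [not_nonempty_iff] at hne
    have := measure_univ (μ := lam)
    rw [Set.univ_eq_empty_iff.2 hne, measure_empty] at this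
    exact zero_ne_one this
  have hfin : A.Finite := Set.toFinite A
  have e : {x : ∀ k, Fin (N k) | res k x ∈ A} = ⋃ a ∈ hfin.toFinset, Cyl k a := by
    ext x
    simp only [mem_iUnion, Set.Finite.mem_toFinset, exists_prop]
    constructor
    · intro h
      exact ⟨_, h, fun i => rfl⟩
    · rintro ⟨a, ha, hx⟩
      have : res k x = a := funext hx
      change res k x ∈ A
      rw [this]; exact ha
  rw [e, measure_biUnion_finset]
  · have : ∀ a ∈ hfin.toFinset, lam (Cyl k a) = (∏ i ∈ Finset.range k, (N i : ENNReal))⁻¹ := by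
      intro a _
      rw [← hlam k (tau k a x0)]
      congr 1
      ext x
      constructor
      · intro h i hi
        rw [tau_of_lt hi]; exact h ⟨i, hi⟩
      · intro h i
        rw [h i i.2, tau_of_lt i.2]
    rw [Finset.sum_congr rfl this, Finset.sum_const, nsmul_eq_mul, Set.ncard_eq_toFinset_card A hfin]
  · intro a _ b _ hab
    refine Set.disjoint_left.2 fun x hx hy => hab ?_
    funext i
    exact (hx i).symm.trans (hy i)
  · intro a _
    exact measurableSet_Cyl k a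

end

/-- comparison of clopen sets by fibre measures -/
theorem af_cmp {Z : Type} [TopologicalSpace Z] [CompactSpace Z] [T2Space Z]
    [TotallyDisconnectedSpace Z] (N : ℕ → ℕ) (lam : Measure (∀ k, Fin (N k)))
    [IsProbabilityMeasure lam]
    (hlam : ∀ (k : ℕ) (u : ∀ k, Fin (N k)),
      lam {x | ∀ i, i < k → x i = u i} = (∏ i ∈ Finset.range k, (N i : ENNReal))⁻¹)
    (P Q : Set (Z × ∀ k, Fin (N k))) (hP : IsClopen P) (hQ : IsClopen Q)
    (h : ∀ z, lam {x | (z, x) ∈ P} ≤ lam {x | (z, x) ∈ Q}) :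
    ∃ T : (Z × ∀ k, Fin (N k)) ≃ₜ (Z × ∀ k, Fin (N k)),
      (∀ p, p.1 = (T p).1 ∧ ∃ k, ∀ i, k ≤ i → p.2 i = (T p).2 i) ∧ T '' P ⊆ Q := by
  classical
  obtain ⟨x0⟩ : Nonempty (∀ k, Fin (N k)) := by
    by_contra hne
    rw [not_nonempty_iff] at hne
    have := measure_univ (μ := lam)
    rw [Set.univ_eq_empty_iff.2 hne, measure_empty] at this
    exact zero_ne_one this
  obtain ⟨k1, hk1⟩ := clopen_dep hP
  obtain ⟨k2, hk2⟩ := clopen_dep hQ
  obtain ⟨k, hkP, hkQ⟩ : ∃ k, (∀ (z : Z) (x y : ∀ k, Fin (N k)), (∀ i, i < k → y i = x i) →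
      ((z, x) ∈ P ↔ (z, y) ∈ P)) ∧ (∀ (z : Z) (x y : ∀ k, Fin (N k)), (∀ i, i < k → y i = x i) →
      ((z, x) ∈ Q ↔ (z, y) ∈ Q)) :=
    ⟨max k1 k2, fun z x y hxy => hk1 z x y fun i hi => hxy i (lt_max_iff.2 (Or.inl hi)),
      fun z x y hxy => hk2 z x y fun i hi => hxy i (lt_max_iff.2 (Or.inr hi))⟩
  let pp : Set (Z × ∀ k, Fin (N k)) → Z → Set (∀ i : Fin k, Fin (N i)) :=
    fun R z => {a | (z, tau k a x0) ∈ R}
  have hpp : ∀ R : Set (Z × ∀ k, Fin (N k)), (∀ (z : Z) (x y : ∀ k, Fin (N k)),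
      (∀ i, i < k → y i = x i) → ((z, x) ∈ R ↔ (z, y) ∈ R)) →
      ∀ z x, (z, x) ∈ R ↔ res k x ∈ pp R z := by
    intro R hR z x
    refine hR z x _ ?_
    intro i hi
    rw [tau_of_lt hi]; rfl
  have hloc : ∀ R : Set (Z × ∀ k, Fin (N k)), IsClopen R → ∀ z, ∀ᶠ z' in 𝓝 z, pp R z' = pp R z := by
    intro R hR z
    have h1 : ∀ a : ∀ i : Fin k, Fin (N i), ∀ᶠ z' in 𝓝 z,
        ((z', tau k a x0) ∈ R ↔ (z, tau k a x0) ∈ R) := by
      intro a
      have hc : IsClopen ((fun z' : Z => (z', tau k a x0)) ⁻¹' R) :=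
        hR.preimage (Continuous.prodMk continuous_id continuous_const)
      by_cases hz : (z, tau k a x0) ∈ R
      · filter_upwards [hc.isOpen.mem_nhds hz] with z' hz'
        exact ⟨fun _ => hz, fun _ => hz'⟩
      · filter_upwards [hc.compl.isOpen.mem_nhds hz] with z' hz'
        exact ⟨fun h => absurd h hz', fun h => absurd h hz⟩
    filter_upwards [Filter.eventually_all.2 h1] with z' hz'
    ext a
    exact hz' a
  have hcard : ∀ z, (pp P z).ncard ≤ (pp Q z).ncard := by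
    intro z
    have h1 := h z
    have e1 : {x | (z, x) ∈ P} = {x | res k x ∈ pp P z} := by
      ext x; exact hpp P hkP z x
    have e2 : {x | (z, x) ∈ Q} = {x | res k x ∈ pp Q z} := by
      ext x; exact hpp Q hkQ z x
    rw [e1, e2, card_meas lam hlam, card_meas lam hlam] at h1
    have hN0 : (∏ i ∈ Finset.range k, (N i : ENNReal)) ≠ ⊤ :=
      ENNReal.prod_ne_top fun i _ => ENNReal.natCast_ne_top _
    have hN1 : (∏ i ∈ Finset.range k, (N i : ENNReal)) ≠ 0 := by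
      rw [Finset.prod_ne_zero_iff]
      intro i _ h0
      have h3 : N i = 0 := by exact_mod_cast h0
      have := (x0 i).2
      omega
    have h2 : ((pp P z).ncard : ENNReal) ≤ ((pp Q z).ncard : ENNReal) := by
      rwa [ENNReal.mul_le_mul_iff_left (ENNReal.inv_ne_zero.2 hN0) (ENNReal.inv_ne_top.2 hN1)] at h1
    exact_mod_cast h2
  let F : Set (∀ i : Fin k, Fin (N i)) → Set (∀ i : Fin k, Fin (N i)) →
      Equiv.Perm (∀ i : Fin k, Fin (N i)) := fun A B =>
    if hAB : A.ncard ≤ B.ncard then (exists_perm A B hAB).choose else 1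
  have hF : ∀ z, ∀ a ∈ pp P z, F (pp P z) (pp Q z) a ∈ pp Q z := by
    intro z a ha
    have : F (pp P z) (pp Q z) = (exists_perm _ _ (hcard z)).choose := dif_pos (hcard z)
    rw [this]
    exact (exists_perm _ _ (hcard z)).choose_spec a ha
  have hσ : ∀ z, ∀ᶠ z' in 𝓝 z, F (pp P z') (pp Q z') = F (pp P z) (pp Q z) := by
    intro z
    filter_upwards [hloc P hP z, hloc Q hQ z] with z' h1 h2
    rw [h1, h2]
  refine ⟨TT k (fun z => F (pp P z) (pp Q z)) hσ, ?_, ?_⟩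
  · rintro ⟨z, x⟩
    refine ⟨rfl, k, fun i hi => ?_⟩
    exact (tau_of_le hi).symm
  · rintro _ ⟨⟨z, x⟩, hp, rfl⟩
    change (z, tau k (F (pp P z) (pp Q z) (res k x)) x) ∈ Q
    rw [hpp Q hkQ, res_tau]
    exact hF z _ ((hpp P hkP z x).1 hp)

end Pool.Agent.TH553.CR
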