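import Mathlib

set_option autoImplicit false

namespace Pool.Agent.TH553.CR

open Set MeasureTheory

variable {N : ℕ → ℕ}

/-- replace the first `k` coordinates by `b` -/
def tau (k : ℕ) (b : ∀ i : Fin k, Fin (N i)) (x : ∀ k, Fin (N k)) : ∀ k, Fin (N k) :=
  fun i => if h : i < k then b ⟨i, h⟩ else x i

/-- the points with prefix `a` -/
def Cyl (k : ℕ) (a : ∀ i : Fin k, Fin (N i)) : Set (∀ k, Fin (N k)) :=
  {x | ∀ i : Fin k, x i = a i}

lemma tau_of_lt {k : ℕ} {b : ∀ i : Fin k, Fin (N i)} {x : ∀ k, Fin (N k)} {i : ℕ} (h : i < k) :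
    tau k b x i = b ⟨i, h⟩ := by simp [tau, h]

lemma tau_of_le {k : ℕ} {b : ∀ i : Fin k, Fin (N i)} {x : ∀ k, Fin (N k)} {i : ℕ} (h : k ≤ i) :
    tau k b x i = x i := by simp [tau, not_lt.2 h]

lemma tau_mem (k : ℕ) (b : ∀ i : Fin k, Fin (N i)) (x : ∀ k, Fin (N k)) : tau k b x ∈ Cyl k b := by
  intro i
  exact tau_of_lt i.2

lemma tau_tau (k : ℕ) (a b : ∀ i : Fin k, Fin (N i)) {x : ∀ k, Fin (N k)} (hx : x ∈ Cyl k a) :
    tau k a (tau k b x) = x := by
  funext i
  by_cases h : i < k
  · rw [tau_of_lt h]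
    exact (hx ⟨i, h⟩).symm
  · rw [tau_of_le (not_lt.1 h), tau_of_le (not_lt.1 h)]

lemma measurable_tau (k : ℕ) (b : ∀ i : Fin k, Fin (N i)) : Measurable (tau k b) := by
  rw [measurable_pi_iff]
  intro i
  by_cases h : i < k
  · have : (fun x : ∀ k, Fin (N k) => tau k b x i) = fun _ => b ⟨i, h⟩ := by
      funext x; exact tau_of_lt h
    rw [this]
    exact measurable_const
  · have : (fun x : ∀ k, Fin (N k) => tau k b x i) = fun x => x i := by
      funext x; exact tau_of_le (not_lt.1 h)
    rw [this]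
    exact measurable_pi_apply i

lemma measurableSet_Cyl (k : ℕ) (a : ∀ i : Fin k, Fin (N i)) : MeasurableSet (Cyl k a) := by
  have : Cyl k a = ⋂ i : Fin k, (fun x : ∀ k, Fin (N k) => x i) ⁻¹' {a i} := by
    ext x; simp [Cyl]
  rw [this]
  exact MeasurableSet.iInter fun i => measurable_pi_apply _ (MeasurableSet.singleton _)

/-- the cylinders of length at least `k`, and the empty set -/
def CC (N : ℕ → ℕ) (k : ℕ) : Set (Set (∀ k, Fin (N k))) :=
  {s | s = ∅ ∨ ∃ (l : ℕ) (u : ∀ k, Fin (N k)), k ≤ l ∧ s = {x | ∀ i, i < l → x i = u i}}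

lemma CC_pi (k : ℕ) : IsPiSystem (CC N k) := by
  rintro s (rfl | ⟨l, u, hl, rfl⟩) t (rfl | ⟨m, v, hm, rfl⟩) hne
  · left; simp
  · left; simp
  · left; simp
  right
  obtain ⟨w, hw1, hw2⟩ := hne
  refine ⟨max l m, w, le_trans hl (le_max_left _ _), ?_⟩
  ext x
  simp only [mem_inter_iff, mem_ofPred_eq] at hw1 hw2 ⊢
  constructor
  · rintro ⟨h1, h2⟩ i hi
    rcases lt_max_iff.1 hi with h | h
    · rw [h1 i h, hw1 i h]
    · rw [h2 i h, hw2 i h]
  · intro h
    refine ⟨fun i hi => ?_, fun i hi => ?_⟩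
    · rw [h i (lt_max_iff.2 (Or.inl hi)), hw1 i hi]
    · rw [h i (lt_max_iff.2 (Or.inr hi)), hw2 i hi]

lemma CC_meas (k : ℕ) {s : Set (∀ k, Fin (N k))} (hs : s ∈ CC N k) : MeasurableSet s := by
  rcases hs with rfl | ⟨l, u, hl, rfl⟩
  · exact MeasurableSet.empty
  · have : {x : ∀ k, Fin (N k) | ∀ i, i < l → x i = u i} = Cyl l (fun i => u i) := by
      ext x
      exact ⟨fun h i => h i i.2, fun h i hi => h ⟨i, hi⟩⟩
    rw [this]
    exact measurableSet_Cyl _ _

lemma CC_gen (k : ℕ) : (inferInstance : MeasurableSpace (∀ k, Fin (N k))) =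
    MeasurableSpace.generateFrom (CC N k) := by
  apply le_antisymm
  · change MeasurableSpace.pi ≤ _
    rw [MeasurableSpace.pi]
    apply iSup_le
    intro i
    rintro t ⟨s, -, rfl⟩
    -- finite union of cylinders of length `max (i + 1) k`
    set l := max (i + 1) k with hl
    have hil : i < l := lt_of_lt_of_le (Nat.lt_succ_self i) (le_max_left _ _)
    have : (fun x : ∀ k, Fin (N k) => x i) ⁻¹' s =
        ⋃ a : {a : ∀ i : Fin l, Fin (N i) // a ⟨i, hil⟩ ∈ s}, Cyl l a.1 := by
      ext x
      simp only [mem_preimage, mem_iUnion, Subtype.exists, exists_prop]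
      constructor
      · intro hx
        exact ⟨fun j => x j, hx, fun j => rfl⟩
      · rintro ⟨a, ha, hx⟩
        have := hx ⟨i, hil⟩
        rw [← this] at ha
        exact ha
    rw [this]
    refine MeasurableSet.iUnion fun a => ?_
    by_cases hne : (Cyl l a.1).Nonempty
    · obtain ⟨u, hu⟩ := hne
      apply MeasurableSpace.measurableSet_generateFrom
      right
      refine ⟨l, u, le_max_right _ _, ?_⟩
      ext x
      constructor
      · intro h j hj
        rw [h ⟨j, hj⟩, hu ⟨j, hj⟩]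
      · intro h j
        rw [← hu j]
        exact h j j.2
    · rw [not_nonempty_iff_eq_empty] at hne
      rw [hne]
      exact @MeasurableSet.empty _ (MeasurableSpace.generateFrom _)
  · apply MeasurableSpace.generateFrom_le
    intro s hs
    exact CC_meas k hs

section

variable (lam : Measure (∀ k, Fin (N k))) [IsProbabilityMeasure lam]
    (hlam : ∀ (k : ℕ) (u : ∀ k, Fin (N k)),
      lam {x | ∀ i, i < k → x i = u i} = (∏ i ∈ Finset.range k, (N i : ENNReal))⁻¹)

include hlam

lemma meas_eq (k : ℕ) (a b : ∀ i : Fin k, Fin (N i)) :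
    lam.restrict (Cyl k a) = (lam.restrict (Cyl k b)).map (tau k a) := by
  have hne : Nonempty (∀ k, Fin (N k)) := by
    by_contra hcon
    rw [not_nonempty_iff] at hcon
    have h1 : lam univ = 1 := measure_univ
    have h2 : (univ : Set (∀ k, Fin (N k))) = ∅ := univ_eq_empty_iff.2 hcon
    rw [h2, measure_empty] at h1
    exact zero_ne_one h1
  obtain ⟨x0⟩ := hne
  have hcyl : ∀ c : ∀ i : Fin k, Fin (N i), lam (Cyl k c) =
      (∏ i ∈ Finset.range k, (N i : ENNReal))⁻¹ := by
    intro c
    rw [← hlam k (tau k c x0)]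
    congr 1
    ext x
    constructor
    · intro h i hi
      rw [tau_of_lt hi]
      exact h ⟨i, hi⟩
    · intro h i
      have := h i i.2
      rwa [tau_of_lt i.2] at this
  refine ext_of_generate_finite (CC N k) (CC_gen k) (CC_pi k) ?_ ?_
  · intro s hs
    have hsm := CC_meas k hs
    rw [Measure.map_apply (measurable_tau k a) hsm, Measure.restrict_apply hsm,
      Measure.restrict_apply (measurable_tau k a hsm)]
    rcases hs with rfl | ⟨l, u, hl, rfl⟩
    · simp
    by_cases hu : u ∈ Cyl k a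
    · have e1 : {x : ∀ k, Fin (N k) | ∀ i, i < l → x i = u i} ∩ Cyl k a =
          {x | ∀ i, i < l → x i = u i} := by
        apply inter_eq_left.2
        intro x hx i
        rw [hx i (lt_of_lt_of_le i.2 hl)]
        exact hu i
      have e2 : tau k a ⁻¹' {x : ∀ k, Fin (N k) | ∀ i, i < l → x i = u i} ∩ Cyl k b =
          {x | ∀ i, i < l → x i = tau k b u i} := by
        ext x
        constructor
        · rintro ⟨h1, h2⟩ i hi
          by_cases hik : i < k
          · rw [tau_of_lt hik]
            exact h2 ⟨i, hik⟩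
          · have := h1 i hi
            rw [tau_of_le (not_lt.1 hik)] at this ⊢
            exact this
        · intro h
          refine ⟨fun i hi => ?_, fun i => ?_⟩
          · by_cases hik : i < k
            · rw [tau_of_lt hik]
              exact (hu ⟨i, hik⟩).symm
            · rw [tau_of_le (not_lt.1 hik), h i hi, tau_of_le (not_lt.1 hik)]
          · rw [h i (lt_of_lt_of_le i.2 hl), tau_of_lt i.2]
      rw [e1, e2, hlam, hlam]
    · have e1 : {x : ∀ k, Fin (N k) | ∀ i, i < l → x i = u i} ∩ Cyl k a = ∅ := by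
        rw [eq_empty_iff_forall_notMem]
        rintro x ⟨h1, h2⟩
        apply hu
        intro i
        rw [← h1 i (lt_of_lt_of_le i.2 hl)]
        exact h2 i
      have e2 : tau k a ⁻¹' {x : ∀ k, Fin (N k) | ∀ i, i < l → x i = u i} ∩ Cyl k b = ∅ := by
        rw [eq_empty_iff_forall_notMem]
        rintro x ⟨h1, h2⟩
        apply hu
        intro i
        rw [← h1 i (lt_of_lt_of_le i.2 hl), tau_of_lt i.2]
      rw [e1, e2]
  · rw [Measure.map_apply (measurable_tau k a) MeasurableSet.univ, preimage_univ,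
      Measure.restrict_apply_univ, Measure.restrict_apply_univ, hcyl, hcyl]

omit hlam [IsProbabilityMeasure lam] in
lemma image_eq (k : ℕ) (a b : ∀ i : Fin k, Fin (N i)) {S : Set (∀ k, Fin (N k))}
    (hS : S ⊆ Cyl k a) : tau k b '' S = tau k a ⁻¹' S ∩ Cyl k b := by
  ext y
  constructor
  · rintro ⟨x, hx, rfl⟩
    refine ⟨?_, tau_mem k b x⟩
    rw [mem_preimage, tau_tau k a b (hS hx)]
    exact hx
  · rintro ⟨h1, h2⟩
    exact ⟨tau k a y, h1, tau_tau k b a h2⟩

lemma lam_tau (k : ℕ) (a b : ∀ i : Fin k, Fin (N i)) {S : Set (∀ k, Fin (N k))}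
    (hS : S ⊆ Cyl k a) (hm : MeasurableSet S) : lam (tau k b '' S) = lam S := by
  rw [image_eq k a b hS]
  have h : lam.restrict (Cyl k a) S = ((lam.restrict (Cyl k b)).map (tau k a)) S := by
    rw [← meas_eq lam hlam k a b]
  rw [Measure.restrict_apply hm, inter_eq_left.2 hS, Measure.map_apply (measurable_tau k a) hm,
    Measure.restrict_apply (measurable_tau k a hm)] at h
  exact h.symm

/-- JOB LAMINV: the uniform product measure is invariant under injections that change only
finitely many coordinates of each point. -/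
theorem lam_inv' 
    (S : Set (∀ k, Fin (N k))) (hS : MeasurableSet S) (f : (∀ k, Fin (N k)) → ∀ k, Fin (N k))
    (hf : Measurable f) (hfi : InjOn f S) (hfE : ∀ x ∈ S, ∃ k, ∀ i, k ≤ i → x i = f x i) :
    lam (f '' S) = lam S := by
  classical
  -- countable index
  let ι : Type := Σ k : ℕ, (∀ i : Fin k, Fin (N i)) × (∀ i : Fin k, Fin (N i))
  let A : ι → Set (∀ k, Fin (N k)) := fun j =>
    {x | x ∈ S ∧ x ∈ Cyl j.1 j.2.1 ∧ f x ∈ Cyl j.1 j.2.2 ∧ ∀ i, j.1 ≤ i → x i = f x i}
  have hA : ∀ j, MeasurableSet (A j) := by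
    intro j
    refine hS.inter ((measurableSet_Cyl _ _).inter (((measurableSet_Cyl _ _).preimage hf).inter ?_))
    have : {x : ∀ k, Fin (N k) | ∀ i, j.1 ≤ i → x i = f x i} =
        ⋂ i : ℕ, ⋂ _ : j.1 ≤ i, {x | x i = f x i} := by
      ext x; simp
    change MeasurableSet {x : ∀ k, Fin (N k) | ∀ i, j.1 ≤ i → x i = f x i}
    rw [this]
    refine MeasurableSet.iInter fun i => MeasurableSet.iInter fun _ => ?_
    exact measurableSet_eq_fun (measurable_pi_apply i) ((measurable_pi_apply i).comp hf)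
  have hcov : ∀ x ∈ S, ∃ j, x ∈ A j := by
    intro x hx
    obtain ⟨k, hk⟩ := hfE x hx
    exact ⟨⟨k, fun i => x i, fun i => f x i⟩, hx, fun i => rfl, fun i => rfl, hk⟩
  have hft : ∀ j, ∀ x ∈ A j, f x = tau j.1 j.2.2 x := by
    intro j x hx
    funext i
    by_cases h : i < j.1
    · rw [tau_of_lt h]
      exact hx.2.2.1 ⟨i, h⟩
    · rw [tau_of_le (not_lt.1 h)]
      exact (hx.2.2.2 i (not_lt.1 h)).symm
  obtain ⟨enc, henc⟩ := exists_injective_nat ι
  -- disjoint pieces
  let B : ℕ → Set (∀ k, Fin (N k)) := fun n => ⋃ j : ι, ⋃ _ : enc j = n, A j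
  have hB : ∀ n, MeasurableSet (B n) := fun n =>
    MeasurableSet.iUnion fun j => MeasurableSet.iUnion fun _ => hA j
  have hD : ∀ n, MeasurableSet (disjointed B n) := fun n => MeasurableSet.disjointed hB n
  have hU : ⋃ n, disjointed B n = S := by
    rw [iUnion_disjointed]
    ext x
    simp only [B, mem_iUnion, exists_prop]
    constructor
    · rintro ⟨n, j, -, hx⟩
      exact hx.1
    · intro hx
      obtain ⟨j, hj⟩ := hcov x hx
      exact ⟨enc j, j, rfl, hj⟩
  have hpiece : ∀ n, MeasurableSet (f '' (disjointed B n)) ∧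
      lam (f '' (disjointed B n)) = lam (disjointed B n) := by
    intro n
    by_cases hn : ∃ j, enc j = n
    · obtain ⟨j, hj⟩ := hn
      have hsub : disjointed B n ⊆ A j := by
        intro x hx
        have h1 : x ∈ B n := disjointed_subset B n hx
        simp only [B, mem_iUnion, exists_prop] at h1
        obtain ⟨j', hj', hx'⟩ := h1
        have : j' = j := henc (hj'.trans hj.symm)
        rwa [this] at hx'
      have himg : f '' (disjointed B n) = tau j.1 j.2.2 '' (disjointed B n) :=
        image_congr fun x hx => hft j x (hsub hx)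
      have hc : disjointed B n ⊆ Cyl j.1 j.2.1 := fun x hx => (hsub hx).2.1
      rw [himg]
      refine ⟨?_, lam_tau lam hlam _ _ _ hc (hD n)⟩
      rw [image_eq _ _ _ hc]
      exact (measurable_tau _ _ (hD n)).inter (measurableSet_Cyl _ _)
    · have : disjointed B n = ∅ := by
        apply subset_eq_empty (disjointed_subset B n)
        rw [eq_empty_iff_forall_notMem]
        intro x hx
        simp only [B, mem_iUnion, exists_prop] at hx
        obtain ⟨j, hj, -⟩ := hx
        exact hn ⟨j, hj⟩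
      rw [this, image_empty]
      exact ⟨MeasurableSet.empty, rfl⟩
  have hDS : ∀ n, disjointed B n ⊆ S := fun n => by
    rw [← hU]; exact subset_iUnion _ n
  rw [← hU, image_iUnion, measure_iUnion _ (fun n => (hpiece n).1),
    measure_iUnion (disjoint_disjointed B) hD]
  · exact tsum_congr fun n => (hpiece n).2
  · intro m n hmn
    have hd := disjoint_disjointed B hmn
    change Disjoint (f '' _) (f '' _)
    rw [Set.disjoint_left]
    rintro y ⟨x, hx, rfl⟩ ⟨x', hx', he⟩
    have := hfi (hDS n hx') (hDS m hx) he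
    rw [this] at hx'
    exact (Set.disjoint_left.1 hd) hx hx'

end

theorem lam_inv (N : ℕ → ℕ) (lam : Measure (∀ k, Fin (N k))) [IsProbabilityMeasure lam]
    (hlam : ∀ (k : ℕ) (u : ∀ k, Fin (N k)),
      lam {x | ∀ i, i < k → x i = u i} = (∏ i ∈ Finset.range k, (N i : ENNReal))⁻¹)
    (S : Set (∀ k, Fin (N k))) (hS : MeasurableSet S) (f : (∀ k, Fin (N k)) → ∀ k, Fin (N k))
    (hf : Measurable f) (hfi : InjOn f S) (hfE : ∀ x ∈ S, ∃ k, ∀ i, k ≤ i → x i = f x i) :
    lam (f '' S) = lam S :=
  lam_inv' lam hlam S hS f hf hfi hfE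

end Pool.Agent.TH553.CR
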