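import Pool.Agent.TH547.Arc.NH
set_option autoImplicit false

/-! Sub and quotient complexes of the complex of a predicate. -/
namespace Pool.Agent.TH553.J769
open Pool.Agent.TH547.Arc Pool.Agent.TH547.Arc.Sys
open Finset Equiv Classical

variable {S : Sys}

theorem Ch_mono {F : Finset ℕ} {P R : S.C → Prop} (h : ∀ X, R X → P X) {i : ℕ}
    {z : S.Q F →₀ ℤ} (hz : z ∈ Ch F R i) : z ∈ Ch F P i := by
  rw [mem_Ch] at hz ⊢
  intro q hq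
  obtain ⟨X, hX, hR, hd⟩ := hz q hq
  exact ⟨X, hX, h X hR, hd⟩

theorem pr_mem {F : Finset ℕ} {P R : S.C → Prop} (hR : Inv F R) {i : ℕ}
    {z : S.Q F →₀ ℤ} (hz : z ∈ Ch F P i) : pr F R z ∈ Ch F R i := by
  rw [mem_Ch] at hz ⊢
  intro q hq
  rw [pr_apply] at hq
  by_cases h : pq F R q
  · rw [if_pos h] at hq
    obtain ⟨X, hX, _, hd⟩ := hz q hq
    refine ⟨X, hX, ?_, hd⟩
    rw [← hX, pq_cl hR] at h
    exact h
  · rw [if_neg h] at hq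
    exact absurd rfl hq

theorem pr_of_mem {F : Finset ℕ} {R : S.C → Prop} {i : ℕ}
    {z : S.Q F →₀ ℤ} (hz : z ∈ Ch F R i) : pr F R z = z := by
  ext q
  rw [pr_apply]
  by_cases h : z q = 0
  · rw [h]; split_ifs <;> rfl
  · obtain ⟨X, hX, hR, _⟩ := mem_Ch.1 hz q h
    rw [if_pos ⟨X, hX, hR⟩]

theorem pr_of_disj {F : Finset ℕ} {P R : S.C → Prop} (hR : Inv F R) (h : ∀ X, P X → ¬ R X)
    {i : ℕ} {z : S.Q F →₀ ℤ} (hz : z ∈ Ch F P i) : pr F R z = 0 := by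
  ext q
  rw [pr_apply]
  by_cases hq : z q = 0
  · rw [hq]; split_ifs <;> rfl
  · obtain ⟨X, hX, hP, _⟩ := mem_Ch.1 hz q hq
    rw [if_neg]
    · rfl
    · rw [← hX, pq_cl hR]
      exact h X hP

theorem pr_D0 {F : Finset ℕ} {P R : S.C → Prop} (hR : Inv F R) (h : ∀ X, R X → P X) (X : S.C) :
    pr F R (D0 F P X) = D0 F R X := by
  unfold D0
  rw [map_sum, Finset.sum_filter, Finset.sum_filter]
  refine Finset.sum_congr rfl fun a _ => ?_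
  rw [pr_single]
  by_cases h1 : R (S.dl X a)
  · rw [if_pos h1, if_pos (h _ h1), if_pos ((pq_cl hR _).2 h1)]
  · rw [if_neg h1, if_neg (fun h' => h1 ((pq_cl hR _).1 h'))]
    split_ifs <;> rfl

section
variable {F : Finset ℕ} {P P1 P2 : S.C → Prop}

theorem D0_sub (hor : ∀ X, P X ↔ P1 X ∨ P2 X)
    (hsub : ∀ X, P1 X → ∀ a ∈ S.nm X \ F, P (S.dl X a) → P1 (S.dl X a)) {X : S.C} (hX : P1 X) :
    D0 F P X = D0 F P1 X := by
  unfold D0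
  congr 1
  ext a
  simp only [Finset.mem_filter]
  constructor
  · rintro ⟨ha, h⟩
    exact ⟨ha, hsub X hX a ha h⟩
  · rintro ⟨ha, h⟩
    exact ⟨ha, (hor _).2 (Or.inl h)⟩

theorem D_sub (hP : Inv F P) (h1 : Inv F P1) (hor : ∀ X, P X ↔ P1 X ∨ P2 X)
    (hsub : ∀ X, P1 X → ∀ a ∈ S.nm X \ F, P (S.dl X a) → P1 (S.dl X a)) {i : ℕ}
    {z : S.Q F →₀ ℤ} (hz : z ∈ Ch F P1 i) : D F P z = D F P1 z := by
  refine Ch_induction (p := fun z => D F P z = D F P1 z) ?_ ?_ ?_ z hz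
  · simp
  · intro x y hx hy; rw [map_add, map_add, hx, hy]
  · intro X n hX _
    rw [D_single hP, D_single h1, D0_sub hor hsub hX]

theorem D_quot (hP : Inv F P) (h2 : Inv F P2) (hor : ∀ X, P X ↔ P1 X ∨ P2 X)
    (hdis : ∀ X, P1 X → ¬ P2 X)
    (hsub : ∀ X, P1 X → ∀ a ∈ S.nm X \ F, P (S.dl X a) → P1 (S.dl X a)) {i : ℕ}
    {z : S.Q F →₀ ℤ} (hz : z ∈ Ch F P i) : D F P2 (pr F P2 z) = pr F P2 (D F P z) := by
  refine Ch_induction (p := fun z => D F P2 (pr F P2 z) = pr F P2 (D F P z)) ?_ ?_ ?_ z hz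
  · simp
  · intro x y hx hy; rw [map_add, map_add, map_add, map_add, hx, hy]
  · intro X n hX _
    rw [pr_single, D_single hP, map_smul]
    by_cases hX2 : P2 X
    · rw [if_pos ((pq_cl h2 X).2 hX2), D_single h2, pr_D0 h2 (fun X h => (hor X).2 (Or.inr h))]
    · rw [if_neg (fun h => hX2 ((pq_cl h2 X).1 h)), map_zero]
      have hX1 : P1 X := ((hor X).1 hX).resolve_right hX2
      rw [D0_sub hor hsub hX1]
      unfold D0
      rw [map_sum, Finset.sum_eq_zero, smul_zero]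
      intro a ha
      rw [Finset.mem_filter] at ha
      rw [pr_single, if_neg]
      intro h
      exact hdis _ ha.2 ((pq_cl h2 _).1 h)

theorem mem_sub (hor : ∀ X, P X ↔ P1 X ∨ P2 X) {i : ℕ}
    {z : S.Q F →₀ ℤ} (hz : z ∈ Ch F P i) (h : pr F P2 z = 0) : z ∈ Ch F P1 i := by
  rw [mem_Ch]
  intro q hq
  obtain ⟨X, hX, hPX, hd⟩ := mem_Ch.1 hz q hq
  refine ⟨X, hX, ?_, hd⟩
  refine ((hor X).1 hPX).resolve_right fun h2X => hq ?_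
  have := DFunLike.congr_fun h q
  rwa [pr_apply, if_pos ⟨X, hX, h2X⟩] at this

theorem Ex_of_NH (hP : Inv F P) (_h1 : Inv F P1)
    (h2 : Inv F P2) (hc : Cvx F P) (hor : ∀ X, P X ↔ P1 X ∨ P2 X) (hdis : ∀ X, P1 X → ¬ P2 X)
    (hsub : ∀ X, P1 X → ∀ a ∈ S.nm X \ F, P (S.dl X a) → P1 (S.dl X a)) {i : ℕ}
    (e1 : NH F P P1 i) (e2 : Ex F P2 i) : Ex F P i := by
  intro z hz hDz
  obtain ⟨w2, hw2, hD2⟩ := e2 (pr F P2 z) (pr_mem h2 hz) (by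
    rw [D_quot hP h2 hor hdis hsub hz, hDz, map_zero])
  have hw2' : w2 ∈ Ch F P (i + 1) := Ch_mono (fun X h => (hor X).2 (Or.inr h)) hw2
  have hz' : z - D F P w2 ∈ Ch F P1 i := by
    refine mem_sub hor (Submodule.sub_mem _ hz (D_mem hP hw2')) ?_
    rw [map_sub, ← D_quot hP h2 hor hdis hsub hw2', pr_of_mem hw2, hD2, sub_self]
  obtain ⟨w1, hw1, hD1⟩ := e1 _ hz' (by rw [map_sub, hDz, D_D hP hc hw2', sub_zero])
  refine ⟨w1 + w2, Submodule.add_mem _ hw1 hw2', ?_⟩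
  rw [map_add, hD1, sub_add_cancel]

theorem Ex_of_sub_quot (hP : Inv F P) (h1 : Inv F P1)
    (h2 : Inv F P2) (hc : Cvx F P) (hor : ∀ X, P X ↔ P1 X ∨ P2 X) (hdis : ∀ X, P1 X → ¬ P2 X)
    (hsub : ∀ X, P1 X → ∀ a ∈ S.nm X \ F, P (S.dl X a) → P1 (S.dl X a)) {i : ℕ}
    (e1 : Ex F P1 i) (e2 : Ex F P2 i) : Ex F P i := by
  refine Ex_of_NH hP h1 h2 hc hor hdis hsub (fun z hz hDz => ?_) e2
  obtain ⟨w, hw, hDw⟩ := e1 z hz (by rw [← D_sub hP h1 hor hsub hz, hDz])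
  exact ⟨w, Ch_mono (fun X h => (hor X).2 (Or.inl h)) hw, by rw [D_sub hP h1 hor hsub hw, hDw]⟩

theorem Ex_quot (hP : Inv F P) (h1 : Inv F P1)
    (h2 : Inv F P2) (hc : Cvx F P) (hor : ∀ X, P X ↔ P1 X ∨ P2 X) (hdis : ∀ X, P1 X → ¬ P2 X)
    (hsub : ∀ X, P1 X → ∀ a ∈ S.nm X \ F, P (S.dl X a) → P1 (S.dl X a)) {i : ℕ}
    (e : Ex F P i) (e1 : ∀ j, j + 1 = i → Ex F P1 j) : Ex F P2 i := by
  intro z hz hDz
  have hz' : z ∈ Ch F P i := Ch_mono (fun X h => (hor X).2 (Or.inr h)) hz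
  cases i with
  | zero =>
    obtain ⟨w, hw, hDw⟩ := e z hz' (D_zero_deg hP hz')
    exact ⟨pr F P2 w, pr_mem h2 hw, by rw [D_quot hP h2 hor hdis hsub hw, hDw, pr_of_mem hz]⟩
  | succ j =>
    have hDz1 : D F P z ∈ Ch F P1 j := by
      refine mem_sub hor (D_mem hP hz') ?_
      rw [← D_quot hP h2 hor hdis hsub hz', pr_of_mem hz, hDz]
    obtain ⟨w1, hw1, hDw1⟩ := e1 j rfl _ hDz1 (by
      rw [← D_sub hP h1 hor hsub hDz1, D_D hP hc hz'])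
    obtain ⟨w, hw, hDw⟩ := e (z - w1)
      (Submodule.sub_mem _ hz' (Ch_mono (fun X h => (hor X).2 (Or.inl h)) hw1))
      (by rw [map_sub, D_sub hP h1 hor hsub hw1, hDw1, sub_self])
    refine ⟨pr F P2 w, pr_mem h2 hw, ?_⟩
    rw [D_quot hP h2 hor hdis hsub hw, hDw, map_sub, pr_of_mem hz, pr_of_disj h2 hdis hw1,
      sub_zero]

end

end Pool.Agent.TH553.J769

/- the exact statements -/
namespace Pool.Agent.TH553.J769.Final
open Pool.Agent.TH547.Arc Pool.Agent.TH547.Arc.Sys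
open Finset Equiv
variable {S : Sys}

theorem Ex_of_sub_quot {F : Finset ℕ} {P P1 P2 : S.C → Prop} (hP : Inv F P) (h1 : Inv F P1)
    (h2 : Inv F P2) (hc : Cvx F P) (hor : ∀ X, P X ↔ P1 X ∨ P2 X) (hdis : ∀ X, P1 X → ¬ P2 X)
    (hsub : ∀ X, P1 X → ∀ a ∈ S.nm X \ F, P (S.dl X a) → P1 (S.dl X a)) {i : ℕ}
    (e1 : Ex F P1 i) (e2 : Ex F P2 i) : Ex F P i :=
  J769.Ex_of_sub_quot hP h1 h2 hc hor hdis hsub e1 e2

theorem Ex_quot {F : Finset ℕ} {P P1 P2 : S.C → Prop} (hP : Inv F P) (h1 : Inv F P1)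
    (h2 : Inv F P2) (hc : Cvx F P) (hor : ∀ X, P X ↔ P1 X ∨ P2 X) (hdis : ∀ X, P1 X → ¬ P2 X)
    (hsub : ∀ X, P1 X → ∀ a ∈ S.nm X \ F, P (S.dl X a) → P1 (S.dl X a)) {i : ℕ}
    (e : Ex F P i) (e1 : ∀ j, j + 1 = i → Ex F P1 j) : Ex F P2 i :=
  J769.Ex_quot hP h1 h2 hc hor hdis hsub e e1

theorem Ex_of_NH {F : Finset ℕ} {P P1 P2 : S.C → Prop} (hP : Inv F P) (h1 : Inv F P1)
    (h2 : Inv F P2) (hc : Cvx F P) (hor : ∀ X, P X ↔ P1 X ∨ P2 X) (hdis : ∀ X, P1 X → ¬ P2 X)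
    (hsub : ∀ X, P1 X → ∀ a ∈ S.nm X \ F, P (S.dl X a) → P1 (S.dl X a)) {i : ℕ}
    (e1 : NH F P P1 i) (e2 : Ex F P2 i) : Ex F P i :=
  J769.Ex_of_NH hP h1 h2 hc hor hdis hsub e1 e2

end Pool.Agent.TH553.J769.Final
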