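import Pool.Agent.TH547.Arc.Mark2
import Pool.Agent.TH628.J873
import Pool.Agent.TH558.J890
import Pool.Agent.TH745.J772
import Pool.Agent.TH286.J795
import Pool.Agent.TH110.J874
import Pool.Agent.TH628.J905
set_option autoImplicit false

/-!
Job 907 (helper547, MP_e5080e_gt): lifting cycles of tight cells along the resolution by closed
corners.
-/

open Finset Equiv
open Pool.Agent.TH547.Arc Pool.Agent.TH547.Arc.Sys
open Pool.Agent.TH628.J873 Pool.Agent.TH286.J795 Pool.Agent.TH628.J905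
open Pool.Agent.TH110.J874 hiding mem_of_mu own_self

namespace Pool.Agent.TH553.J907

/-! ### signs -/

/-- the sign of `j` in `J` -/
def sgJ (J : Finset ℕ) (j : ℕ) : ℤ := (-1) ^ (J.filter (fun l => j < l)).card

theorem sgJ_lt {J : Finset ℕ} {j l : ℕ} (hl : l ∈ J) (h : j < l) :
    sgJ J j = - sgJ (J.erase l) j := by
  unfold sgJ
  have h1 : (J.filter (fun l => j < l)) = insert l ((J.erase l).filter (fun l => j < l)) := by
    ext n
    simp only [Finset.mem_filter, Finset.mem_insert, Finset.mem_erase]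
    constructor
    · rintro ⟨h1, h2⟩
      by_cases hn : n = l
      · exact Or.inl hn
      · exact Or.inr ⟨⟨hn, h1⟩, h2⟩
    · rintro (rfl | ⟨⟨_, h1⟩, h2⟩)
      · exact ⟨hl, h⟩
      · exact ⟨h1, h2⟩
  rw [h1, Finset.card_insert_of_notMem (by simp), pow_succ]
  ring

theorem sgJ_gt {J : Finset ℕ} {j l : ℕ} (h : l ≤ j) : sgJ (J.erase l) j = sgJ J j := by
  unfold sgJ
  congr 2
  ext n
  simp only [Finset.mem_filter, Finset.mem_erase]
  constructor
  · rintro ⟨⟨_, h1⟩, h2⟩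
    exact ⟨h1, h2⟩
  · rintro ⟨h1, h2⟩
    exact ⟨⟨by omega, h1⟩, h2⟩

theorem sgJ_anti {J : Finset ℕ} {j l : ℕ} (hj : j ∈ J) (hl : l ∈ J) (h : j ≠ l) :
    sgJ J j * sgJ (J.erase j) l = -(sgJ J l * sgJ (J.erase l) j) := by
  rcases lt_or_gt_of_ne h with h | h
  · rw [sgJ_gt h.le, sgJ_lt hl h]; ring
  · rw [sgJ_gt (J := J) (j := j) (l := l) h.le, sgJ_lt (J := J) (j := l) (l := j) hj h]; ring

theorem sgJ_top {J : Finset ℕ} {n : ℕ} (h : ∀ j ∈ J, j < n) : sgJ (insert n J) n = 1 := by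
  unfold sgJ
  rw [Finset.filter_eq_empty_iff.2, Finset.card_empty, pow_zero]
  intro j hj
  rcases Finset.mem_insert.1 hj with rfl | hj
  · exact lt_irrefl _
  · exact not_lt.2 (h j hj).le

theorem sgJ_ins {J : Finset ℕ} {n : ℕ} (h : ∀ j ∈ J, j < n) {j : ℕ} (hj : j ∈ J) :
    sgJ (insert n J) j = - sgJ J j := by
  have hn : n ∉ J := fun hn => lt_irrefl _ (h n hn)
  rw [sgJ_lt (Finset.mem_insert_self n J) (h j hj), Finset.erase_insert hn]

/-! ### the general argument -/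

/-- cells with markers -/
structure Mk (S : Sys) (J : S.C → Finset ℕ) (del : ℕ → S.C → S.C) : Prop where
  rn : ∀ π X j, del j (S.rn π X) = S.rn π (del j X)
  Jrn : ∀ π X, J (S.rn π X) = J X
  Jdl : ∀ X a, J (S.dl X a) = J X
  Jdel : ∀ X j, J (del j X) = (J X).erase j
  comm : ∀ X j l, del l (del j X) = del j (del l X)
  ord : ∀ X j, S.ord (del j X) = S.ord X
  dl : ∀ X j a, S.dl (del j X) a = del j (S.dl X a)

section gen
variable {S : Sys} {F : Finset ℕ}

/-- linear extension of a function on cells, invariant under renaming -/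
noncomputable def lft (F : Finset ℕ) (g : S.C → (S.Q F →₀ ℤ))
    (hg : ∀ π : Perm ℕ, (∀ a ∈ F, π a = a) → ∀ X, g (S.rn π X) = g X) :
    (S.Q F →₀ ℤ) →ₗ[ℤ] (S.Q F →₀ ℤ) :=
  Finsupp.lsum ℤ fun q => (LinearMap.toSpanSingleton ℤ _
    (Quotient.lift (s := S.st F) g (by
      rintro X Y ⟨π, h, rfl⟩
      exact (hg π h X).symm) q))

theorem lft_single (g : S.C → (S.Q F →₀ ℤ))
    (hg : ∀ π : Perm ℕ, (∀ a ∈ F, π a = a) → ∀ X, g (S.rn π X) = g X) (X : S.C) (n : ℤ) :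
    lft F g hg (Finsupp.single (S.cl F X) n) = n • g X := by
  unfold lft
  rw [Finsupp.lsum_single]
  rfl

variable {J : S.C → Finset ℕ} {del : ℕ → S.C → S.C}

/-- alternating sum over the markers -/
noncomputable def dd0 (F : Finset ℕ) (J : S.C → Finset ℕ) (del : ℕ → S.C → S.C) (X : S.C) :
    S.Q F →₀ ℤ :=
  ∑ j ∈ J X, Finsupp.single (S.cl F (del j X)) (sgJ (J X) j)

theorem dd0_rn (hM : Mk S J del) (π : Perm ℕ) (hπ : ∀ a ∈ F, π a = a) (X : S.C) :
    dd0 F J del (S.rn π X) = dd0 F J del X := by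
  unfold dd0
  rw [hM.Jrn]
  refine Finset.sum_congr rfl fun j _ => ?_
  rw [hM.rn, cl_rn hπ]

/-- the boundary map in the direction of the markers -/
noncomputable def dd (F : Finset ℕ) (hM : Mk S J del) : (S.Q F →₀ ℤ) →ₗ[ℤ] (S.Q F →₀ ℤ) :=
  lft F (dd0 F J del) (dd0_rn hM)

theorem dd_single (hM : Mk S J del) (X : S.C) (n : ℤ) :
    dd F hM (Finsupp.single (S.cl F X) n) = n • dd0 F J del X := lft_single _ _ X n

theorem dd_dd0 (hM : Mk S J del) (X : S.C) : dd F hM (dd0 F J del X) = 0 := by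
  conv_lhs => rw [dd0]
  rw [map_sum]
  simp only [dd_single, dd0, hM.Jdel, Finset.smul_sum]
  rw [Finset.sum_sigma']
  refine Finset.sum_involution (fun p _ => ⟨p.2, p.1⟩) ?_ ?_ ?_ ?_
  · rintro ⟨a, b⟩ h
    simp only [Finset.mem_sigma, Finset.mem_erase] at h
    obtain ⟨ha, hba, hb⟩ := h
    dsimp only
    rw [hM.comm X a b, Finsupp.smul_single, Finsupp.smul_single, ← Finsupp.single_add,
      smul_eq_mul, smul_eq_mul, sgJ_anti ha hb (Ne.symm hba)]
    simp
  · rintro ⟨a, b⟩ h _ heq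
    simp only [Finset.mem_sigma, Finset.mem_erase] at h
    have : b = a := by simpa using congrArg Sigma.fst heq
    exact h.2.1 this
  · rintro ⟨a, b⟩ h
    simp only [Finset.mem_sigma, Finset.mem_erase] at h ⊢
    exact ⟨h.2.2, Ne.symm h.2.1, h.1⟩
  · rintro ⟨a, b⟩ _
    rfl

theorem dd_dd (hM : Mk S J del) (z : S.Q F →₀ ℤ) : dd F hM (dd F hM z) = 0 := by
  induction z using Finsupp.induction_linear with
  | zero => simp
  | add x y hx hy => rw [map_add, map_add, hx, hy, add_zero]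
  | single q n =>
    obtain ⟨X, rfl⟩ := cl_surj q
    rw [dd_single, map_smul, dd_dd0, smul_zero]

theorem sg_del (hM : Mk S J del) (X : S.C) (j a : ℕ) : S.sg (del j X) a = S.sg X a := by
  unfold Sys.sg
  rw [hM.ord]

theorem nm_del (hM : Mk S J del) (X : S.C) (j : ℕ) : S.nm (del j X) = S.nm X := by
  unfold Sys.nm
  rw [hM.ord]

theorem deg_del (hM : Mk S J del) (X : S.C) (j : ℕ) : deg F (del j X) = deg F X := by
  unfold Sys.deg
  rw [nm_del hM]

theorem dd_mem (hM : Mk S J del) {P R : S.C → Prop}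
    (h : ∀ X, P X → ∀ j ∈ J X, R (del j X)) {i : ℕ} {z : S.Q F →₀ ℤ}
    (hz : z ∈ Ch F P i) : dd F hM z ∈ Ch F R i := by
  refine Ch_induction (p := fun z => dd F hM z ∈ Ch F R i) ?_ ?_ ?_ z hz
  · rw [map_zero]; exact Submodule.zero_mem _
  · intro x y hx hy; rw [map_add]; exact Submodule.add_mem _ hx hy
  · intro X n hX hd
    rw [dd_single]
    refine Submodule.smul_mem _ _ ?_
    unfold dd0
    refine Submodule.sum_mem _ fun j hj => ?_
    exact single_mem_Ch (h X hX j hj) (by rw [deg_del hM]; exact hd) _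

theorem dd_D (hM : Mk S J del) {P R : S.C → Prop} (hP : Inv F P) (hR : Inv F R)
    (h : ∀ X, P X → ∀ a ∈ S.nm X \ F, ∀ j ∈ J X, (R (del j (S.dl X a)) ↔ P (S.dl X a))) {i : ℕ}
    {z : S.Q F →₀ ℤ} (hz : z ∈ Ch F P i) :
    D F R (dd F hM z) = dd F hM (D F P z) := by
  classical
  refine Ch_induction (p := fun z => D F R (dd F hM z) = dd F hM (D F P z)) ?_ ?_ ?_ z hz
  · simp
  · intro x y hx hy
    rw [map_add, map_add, map_add, map_add, hx, hy]
  · intro X n hX hd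
    rw [dd_single, map_smul, D_single hP, map_smul]
    congr 1
    unfold dd0 D0
    rw [map_sum, map_sum]
    have e1 : ∀ j ∈ J X, D F R (Finsupp.single (S.cl F (del j X)) (sgJ (J X) j)) =
        ∑ a ∈ (S.nm X \ F).filter (fun a => P (S.dl X a)),
          Finsupp.single (S.cl F (del j (S.dl X a))) (sgJ (J X) j * S.sg X a) := by
      intro j hj
      rw [D_single hR]
      unfold D0
      rw [Finset.smul_sum, nm_del hM]
      refine Finset.sum_congr (TH558.J890.fil_congr _ _ fun a ha => ?_) fun a ha => ?_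
      · rw [hM.dl]
        exact h X hX a ha j hj
      · rw [hM.dl, Finsupp.smul_single, smul_eq_mul, sg_del hM]
    rw [Finset.sum_congr rfl e1, Finset.sum_comm]
    refine Finset.sum_congr (TH558.J890.fil_congr _ _ fun a ha => Iff.rfl) fun a ha => ?_
    rw [dd_single]
    unfold dd0
    rw [hM.Jdl, Finset.smul_sum]
    refine Finset.sum_congr rfl fun j _ => ?_
    rw [Finsupp.smul_single, smul_eq_mul, mul_comm]

/-- the contraction: insertion of the marker `n` -/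
noncomputable def ss (F : Finset ℕ) (ins : ℕ → S.C → S.C)
    (hins : ∀ n (π : Perm ℕ), (∀ a ∈ F, π a = a) → ∀ X, ins n (S.rn π X) = S.rn π (ins n X))
    (n : ℕ) : (S.Q F →₀ ℤ) →ₗ[ℤ] (S.Q F →₀ ℤ) :=
  lft F (fun X => Finsupp.single (S.cl F (ins n X)) 1) (by
    intro π hπ X
    rw [hins n π hπ, cl_rn hπ])

theorem ss_single {ins : ℕ → S.C → S.C}
    (hins : ∀ n (π : Perm ℕ), (∀ a ∈ F, π a = a) → ∀ X, ins n (S.rn π X) = S.rn π (ins n X))
    (n : ℕ) (X : S.C) (m : ℤ) :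
    ss F ins hins n (Finsupp.single (S.cl F X) m) = m • Finsupp.single (S.cl F (ins n X)) 1 :=
  lft_single _ _ X m

theorem ss_mem {ins : ℕ → S.C → S.C}
    (hins : ∀ n (π : Perm ℕ), (∀ a ∈ F, π a = a) → ∀ X, ins n (S.rn π X) = S.rn π (ins n X))
    {n : ℕ} {P R : S.C → Prop} (h : ∀ X, P X → R (ins n X) ∧ deg F (ins n X) = deg F X) {i : ℕ}
    {z : S.Q F →₀ ℤ} (hz : z ∈ Ch F P i) : ss F ins hins n z ∈ Ch F R i := by
  refine Ch_induction (p := fun z => ss F ins hins n z ∈ Ch F R i) ?_ ?_ ?_ z hz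
  · rw [map_zero]; exact Submodule.zero_mem _
  · intro x y hx hy; rw [map_add]; exact Submodule.add_mem _ hx hy
  · intro X m hX hd
    rw [ss_single]
    refine Submodule.smul_mem _ _ ?_
    exact single_mem_Ch (h X hX).1 (by rw [(h X hX).2]; exact hd) _

theorem ss_dd (hM : Mk S J del) {ins : ℕ → S.C → S.C}
    (hins : ∀ n (π : Perm ℕ), (∀ a ∈ F, π a = a) → ∀ X, ins n (S.rn π X) = S.rn π (ins n X))
    {n : ℕ} {P : S.C → Prop} (h1 : ∀ X, P X → J (ins n X) = insert n (J X))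
    (h2 : ∀ X, P X → ∀ j ∈ J X, j < n) (h3 : ∀ X, P X → del n (ins n X) = X)
    (h4 : ∀ X, P X → ∀ j ∈ J X, del j (ins n X) = ins n (del j X)) {i : ℕ}
    {z : S.Q F →₀ ℤ} (hz : z ∈ Ch F P i) :
    dd F hM (ss F ins hins n z) + ss F ins hins n (dd F hM z) = z := by
  refine Ch_induction (p := fun z => dd F hM (ss F ins hins n z) + ss F ins hins n (dd F hM z) = z)
    ?_ ?_ ?_ z hz
  · simp
  · intro x y hx hy
    rw [map_add, map_add, map_add, map_add]
    conv_rhs => rw [← hx, ← hy]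
    abel
  · intro X m hX hd
    rw [ss_single, map_smul, dd_single, dd_single, map_smul, one_smul, ← smul_add]
    have hn : n ∉ J X := fun hn => lt_irrefl _ (h2 X hX n hn)
    have e1 : dd0 F J del (ins n X) = Finsupp.single (S.cl F X) 1 -
        ∑ j ∈ J X, Finsupp.single (S.cl F (ins n (del j X))) (sgJ (J X) j) := by
      unfold dd0
      rw [h1 X hX, Finset.sum_insert hn, h3 X hX, sgJ_top (h2 X hX), sub_eq_add_neg]
      congr 1
      rw [← Finset.sum_neg_distrib]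
      refine Finset.sum_congr rfl fun j hj => ?_
      rw [h4 X hX j hj, sgJ_ins (h2 X hX) hj, Finsupp.single_neg]
    have e2 : ss F ins hins n (dd0 F J del X) =
        ∑ j ∈ J X, Finsupp.single (S.cl F (ins n (del j X))) (sgJ (J X) j) := by
      unfold dd0
      rw [map_sum]
      refine Finset.sum_congr rfl fun j hj => ?_
      rw [ss_single, Finsupp.smul_single, smul_eq_mul, mul_one]
    rw [e1, e2, sub_add_cancel, Finsupp.smul_single, smul_eq_mul, mul_one]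

/-- the lifting argument -/
theorem lift_gen (hM : Mk S J del) {RM : ℕ → S.C → Prop} {N0 Nb : ℕ} {ins : ℕ → S.C → S.C}
    (hins : ∀ n (π : Perm ℕ), (∀ a ∈ F, π a = a) → ∀ X, ins n (S.rn π X) = S.rn π (ins n X))
    (hInv : ∀ m, Inv F (RM m)) (hCvx : ∀ m, Cvx F (RM m))
    (hdel : ∀ m X, RM (m + 1) X → ∀ j ∈ J X, RM m (del j X))
    (hdl : ∀ m X, RM (m + 1) X → ∀ a ∈ S.nm X \ F, ∀ j ∈ J X,
      (RM m (del j (S.dl X a)) ↔ RM (m + 1) (S.dl X a)))
    (hJ0 : ∀ X, RM 0 X → J X = ∅)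
    (hI : ∀ m n X, RM m X → (m = 0 → deg F X ≤ Nb) → N0 ≤ n → (∀ j ∈ J X, j < n) →
      RM (m + 1) (ins n X) ∧ deg F (ins n X) = deg F X ∧ J (ins n X) = insert n (J X) ∧
      del n (ins n X) = X ∧ ∀ j ∈ J X, del j (ins n X) = ins n (del j X))
    (hex : ∀ m i, i < Nb → Ex F (RM (m + 2)) i)
    {i : ℕ} (hi : i ≤ Nb) {z : S.Q F →₀ ℤ} (hz : z ∈ Ch F (RM 0) i) (hdz : D F (RM 0) z = 0) :
    ∃ w ∈ Ch F (RM 1) i, dd F hM w = z ∧ D F (RM 1) w = 0 := by
  -- bound for the markers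
  have hbd : ∀ m i, ∀ z ∈ Ch F (RM m) i, ∃ n, N0 ≤ n ∧
      z ∈ Ch F (fun X => RM m X ∧ (∀ j ∈ J X, j < n) ∧ deg F X = i) i := by
    intro m i
    refine Ch_induction ?_ ?_ ?_
    · exact ⟨N0, le_rfl, Submodule.zero_mem _⟩
    · rintro x y ⟨n1, h1, hx⟩ ⟨n2, h2, hy⟩
      have mono : ∀ n n' : ℕ, n ≤ n' → ∀ u ∈ Ch F (fun X => RM m X ∧ (∀ j ∈ J X, j < n) ∧
          deg F X = i) i, u ∈ Ch F (fun X => RM m X ∧ (∀ j ∈ J X, j < n') ∧ deg F X = i) i := by
        intro n n' hnn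
        refine Ch_induction ?_ ?_ ?_
        · exact Submodule.zero_mem _
        · intro x y hx hy; exact Submodule.add_mem _ hx hy
        · intro X k hX hd
          exact single_mem_Ch (P := fun X => RM m X ∧ (∀ j ∈ J X, j < n') ∧ deg F X = i)
            ⟨hX.1, fun j hj => (hX.2.1 j hj).trans_le hnn, hX.2.2⟩ hd k
      exact ⟨max n1 n2, h1.trans (le_max_left _ _), Submodule.add_mem _
        (mono n1 _ (le_max_left _ _) x hx) (mono n2 _ (le_max_right _ _) y hy)⟩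
    · intro X k hX hd
      refine ⟨max N0 ((J X).sup id + 1), le_max_left _ _, ?_⟩
      refine single_mem_Ch (P := fun Y => RM m Y ∧ (∀ j ∈ J Y, j < max N0 ((J X).sup id + 1)) ∧
        deg F Y = i) ⟨hX, fun j hj => ?_, hd⟩ hd k
      have : id j ≤ (J X).sup id := Finset.le_sup hj
      exact lt_of_lt_of_le (Nat.lt_succ_of_le this) (le_max_right _ _)
  -- rows
  have hrow : ∀ m i, (m = 0 → i ≤ Nb) → ∀ z ∈ Ch F (RM m) i, dd F hM z = 0 →
      ∃ w ∈ Ch F (RM (m + 1)) i, dd F hM w = z := by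
    intro m i hmi z hz hdz
    obtain ⟨n, hn, hzn⟩ := hbd m i z hz
    have hI' : ∀ X, (RM m X ∧ (∀ j ∈ J X, j < n) ∧ deg F X = i) →
        RM (m + 1) (ins n X) ∧ deg F (ins n X) = deg F X ∧ J (ins n X) = insert n (J X) ∧
        del n (ins n X) = X ∧ ∀ j ∈ J X, del j (ins n X) = ins n (del j X) := by
      rintro X ⟨h1, h2, h3⟩
      exact hI m n X h1 (fun hm => by rw [h3]; exact hmi hm) hn h2
    refine ⟨ss F ins hins n z, ss_mem hins (fun X hX => ⟨(hI' X hX).1, (hI' X hX).2.1⟩) hzn, ?_⟩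
    have e := ss_dd hM hins (fun X hX => (hI' X hX).2.2.1) (fun X hX => hX.2.1)
      (fun X hX => (hI' X hX).2.2.2.1) (fun X hX => (hI' X hX).2.2.2.2) hzn
    rw [hdz, map_zero, add_zero] at e
    exact e
  have hJ0 : ∀ i, ∀ z ∈ Ch F (RM 0) i, dd F hM z = 0 := by
    intro i
    refine Ch_induction ?_ ?_ ?_
    · rw [map_zero]
    · intro x y hx hy; rw [map_add, hx, hy, add_zero]
    · intro X n hX _
      rw [dd_single]
      unfold dd0
      rw [hJ0 X hX, Finset.sum_empty, smul_zero]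
  have key := TH745.J772.lift_cycle (M := S.Q F →₀ ℤ) (fun n i => Ch F (RM (n + 1)) i)
    (fun i => Ch F (RM 0) i) (fun n => D F (RM (n + 1))) (D F (RM 0)) (fun _ => dd F hM)
    (dd F hM) Nb
    (fun n i z hz => D_mem (hInv _) hz)
    (fun n z hz => D_zero_deg (hInv _) hz)
    (fun n i z hz => D_D (hInv _) (hCvx _) hz)
    (fun n i z hz => dd_mem hM (hdel (n + 1)) hz)
    (fun i z hz => dd_mem hM (hdel 0) hz)
    (fun n i z hz => dd_D hM (hInv _) (hInv _) (hdl (n + 1)) hz)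
    (fun i z hz => dd_D hM (hInv _) (hInv _) (hdl 0) hz)
    (fun n i z _ => dd_dd hM z)
    (fun i z _ => dd_dd hM z)
    (fun i z hz h => hrow 1 i (fun h => absurd h (by omega)) z hz h)
    (fun n i z hz h => hrow (n + 2) i (fun h => absurd h (by omega)) z hz h)
    (fun i z hi hz => hrow 0 i (fun _ => hi) z hz (hJ0 i z hz))
    (fun n i z hi hz hd => hex n i hi z hz hd)
    hi hz hdz
  exact key

end gen

/-! ### words with auxiliary markers -/

theorem mem_JJ {N0 : ℕ} {X : PW} {n : ℕ} : n ∈ JJ N0 X ↔ N0 ≤ n ∧ mr n ∈ X.x := by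
  unfold JJ
  rw [List.mem_toFinset, List.mem_filterMap]
  constructor
  · rintro ⟨s, hs, h⟩
    rcases s with m | ⟨a, e⟩
    · simp only at h
      split_ifs at h with h1
      have h2 : m = n := by simpa using h
      subst h2
      exact ⟨h1, hs⟩
    · simp at h
  · rintro ⟨h1, h2⟩
    exact ⟨_, h2, by simp [h1]⟩

theorem JJ_dl (N0 : ℕ) (X : PW) (a : ℕ) : JJ N0 (X.dl a) = JJ N0 X := by
  ext n
  rw [mem_JJ, mem_JJ]
  unfold PW.dl
  simp

theorem JJ_rn (N0 : ℕ) (X : PW) (π : Perm ℕ) : JJ N0 (X.rn π) = JJ N0 X := by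
  ext n
  rw [mem_JJ, mem_JJ]
  refine and_congr Iff.rfl ?_
  unfold PW.rn
  rw [List.mem_map]
  constructor
  · rintro ⟨s, hs, h⟩
    rcases s with m | ⟨a, e⟩
    · rw [rnS_mr] at h; rw [← h]; exact hs
    · simp at h
  · intro h
    exact ⟨_, h, rfl⟩

theorem JJ_delM (N0 : ℕ) (X : PW) (j : ℕ) : JJ N0 (delM j X) = (JJ N0 X).erase j := by
  ext n
  rw [mem_JJ, Finset.mem_erase, mem_JJ]
  unfold delM
  simp only [List.mem_filter, decide_eq_true_eq, ne_eq, Sy.mr.injEq]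
  tauto

theorem delM_comm (X : PW) (j l : ℕ) : delM l (delM j X) = delM j (delM l X) := by
  ext1
  unfold delM
  simp only [List.filter_filter]
  congr 1
  ext s
  rw [Bool.and_comm]

theorem mkW (N0 : ℕ) : Mk W (JJ N0) delM where
  rn := fun π X j => (rn_delM j X π).symm
  Jrn := fun π X => JJ_rn N0 X π
  Jdl := fun X a => JJ_dl N0 X a
  Jdel := fun X j => JJ_delM N0 X j
  comm := fun X j l => delM_comm X j l
  ord := fun X j => ord_delM j X
  dl := fun X j a => dl_delM j X a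

theorem find_first {q : Sy → Bool} {x : List Sy} {t s : Sy} (h : x.find? q = some t)
    (hs : s ∈ x) (hq : q s = true) : t = s ∨ [t, s].Sublist x := by
  obtain ⟨_, l1, l2, rfl, h2⟩ := List.find?_eq_some_iff_append.1 h
  rcases List.mem_append.1 hs with h3 | h3
  · have := h2 s h3
    rw [hq] at this
    exact absurd this (by simp)
  · rcases List.mem_cons.1 h3 with h4 | h4
    · exact Or.inl h4.symm
    · right
      have h5 : [t, s] = [] ++ [t, s] := rfl
      rw [h5]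
      exact (List.nil_sublist l1).append ((List.singleton_sublist.2 h4).cons_cons t)

section
variable (θ : Perm Sy) (μ : PW) (p : Sy)

/-- good symbols -/
def gd (X : PW) (t : Sy) : Prop :=
  own μ.x X.x t = some p ∧ ¬ (fp θ X.x).SameCycle t p

open Classical in
/-- the first good symbol -/
noncomputable def tst (X : PW) : Option Sy := X.x.find? (fun t => decide (gd θ μ p X t))

/-- insert the marker `n` before the first good symbol -/
noncomputable def insT (n : ℕ) (X : PW) : PW :=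
  match tst θ μ p X with
  | some t => insM t n X
  | none => X

variable {θ μ p}

theorem tst_spec {X : PW} {t : Sy} (h : tst θ μ p X = some t) :
    t ∈ X.x ∧ gd θ μ p X t ∧ ∀ s ∈ X.x, gd θ μ p X s → t = s ∨ [t, s].Sublist X.x := by
  classical
  unfold tst at h
  have h1 := List.find?_some h
  have h2 := List.mem_of_find?_eq_some h
  refine ⟨h2, by simpa using h1, fun s hs hg => ?_⟩
  exact find_first h hs (by simpa using hg)

theorem tst_ex {X : PW} {s : Sy} (hs : s ∈ X.x) (hg : gd θ μ p X s) :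
    ∃ t, tst θ μ p X = some t := by
  classical
  cases h : tst θ μ p X with
  | some t => exact ⟨t, rfl⟩
  | none =>
    unfold tst at h
    rw [List.find?_eq_none] at h
    exact absurd (by simpa using hg) (h s hs)

theorem insT_eq {X : PW} {t : Sy} (h : tst θ μ p X = some t) (n : ℕ) :
    insT θ μ p n X = insM t n X := by
  unfold insT
  rw [h]

variable {Dd : Finset Sy} {P : Finset Sy}

theorem mu_map {π : Perm ℕ} (hπ : ∀ a ∈ W.nm μ, π a = a) : μ.x.map (rnS π) = μ.x := by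
  conv_rhs => rw [← List.map_id μ.x]
  exact List.map_congr_left fun t ht => rn_fix hπ ht

theorem gd_rn (hE : Env θ μ P Dd) (hp : p ∈ μ.x) {π : Perm ℕ} (hπ : ∀ a ∈ W.nm μ, π a = a)
    (X : PW) (t : Sy) : gd θ μ p (X.rn π) (rnS π t) ↔ gd θ μ p X t := by
  unfold gd
  have hpf : rnS π p = p := rn_fix hπ hp
  have h1 := Env.rn_sc hE hπ X t p
  rw [hpf] at h1
  rw [h1]
  refine and_congr ?_ Iff.rfl
  have h2 : own μ.x (X.rn π).x (rnS π t) = (own μ.x X.x t).map (rnS π) := by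
    have := own_map (μ := μ.x) (x := X.x) (rnS π).injective t
    rw [mu_map hπ] at this
    exact this
  rw [h2]
  cases own μ.x X.x t with
  | none => simp
  | some m =>
    simp only [Option.map_some, Option.some.injEq]
    constructor
    · intro h
      rw [← hpf] at h
      exact (rnS π).injective h
    · rintro rfl; exact hpf

theorem tst_rn (hE : Env θ μ P Dd) (hp : p ∈ μ.x) {π : Perm ℕ} (hπ : ∀ a ∈ W.nm μ, π a = a)
    (X : PW) : tst θ μ p (X.rn π) = (tst θ μ p X).map (rnS π) := by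
  classical
  unfold tst
  rw [show (X.rn π).x = X.x.map (rnS π) from rfl, List.find?_map]
  congr 2
  funext t
  simp only [Function.comp_apply]
  rw [decide_eq_decide]
  exact gd_rn hE hp hπ X t

theorem insT_rn (hE : Env θ μ P Dd) (hp : p ∈ μ.x) (n : ℕ) {π : Perm ℕ}
    (hπ : ∀ a ∈ W.nm μ, π a = a) (X : PW) :
    insT θ μ p n (X.rn π) = (insT θ μ p n X).rn π := by
  unfold insT
  rw [tst_rn hE hp hπ]
  cases tst θ μ p X with
  | none => rfl
  | some t =>
    simp only [Option.map_some]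
    rw [rn_insM]

end

section
variable (θ : Perm Sy) (μ : PW) (p : Sy) (Dd : Finset Sy) (c N0 : ℕ)

/-- tight cells with `m` auxiliary markers in closed boundary cycles -/
def RM (m : ℕ) (X : PW) : Prop :=
  ∃ J : Finset ℕ, (∀ j ∈ J, N0 ≤ j) ∧ J.card = m ∧ RJ θ μ p Dd c J X

end

section
variable {θ : Perm Sy} {μ : PW} {p : Sy} {Dd : Finset Sy} {c N0 : ℕ}

theorem mem_mrs {J : Finset ℕ} {s : Sy} : s ∈ mrs J ↔ ∃ j ∈ J, s = mr j := by
  unfold mrs
  rw [Finset.mem_image]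
  constructor
  · rintro ⟨j, hj, rfl⟩; exact ⟨j, hj, rfl⟩
  · rintro ⟨j, hj, rfl⟩; exact ⟨j, hj, rfl⟩

theorem JJ_ge {X : PW} : ∀ j ∈ JJ N0 X, N0 ≤ j := fun _ hj => (mem_JJ.1 hj).1

variable (hE : Env θ μ {p} Dd) (hθ : ∀ n, mr n ∉ μ.x → θ (mr n) = mr n)
  (hN : ∀ n, N0 ≤ n → mr n ∉ μ.x)

include hE in
theorem p_mem : p ∈ μ.x := (hE.sub p (Finset.mem_singleton_self p)).1
include hE in
theorem p_nD : p ∉ Dd := (hE.sub p (Finset.mem_singleton_self p)).2

include hE hθ hN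

theorem muJ_p {J : Finset ℕ} (hJ : ∀ j ∈ J, N0 ≤ j) : p ∈ (muJ p μ J).x :=
  ((Env.muJ hE hθ hN hJ).sub p (Finset.mem_insert_self _ _)).1

theorem muJ_mr {J : Finset ℕ} (hJ : ∀ j ∈ J, N0 ≤ j) {j : ℕ} (hj : j ∈ J) :
    mr j ∈ (muJ p μ J).x :=
  ((Env.muJ hE hθ hN hJ).sub _ (Finset.mem_insert_of_mem (mem_mrs.2 ⟨j, hj, rfl⟩))).1

omit hθ in
theorem mr_nD {j : ℕ} (hj : N0 ≤ j) : mr j ∉ Dd := fun h => hN j hj (hE.dsub _ h)

theorem RM_iff {m : ℕ} {X : PW} : RM θ μ p Dd c N0 m X ↔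
    (JJ N0 X).card = m ∧ RJ θ μ p Dd c (JJ N0 X) X := by
  constructor
  · rintro ⟨J, hJ, hc, hR⟩
    have := (Env.muJ_clr hE hθ hN hJ hR.1).2.1
    rw [this]
    exact ⟨hc, hR⟩
  · rintro ⟨h1, h2⟩
    exact ⟨_, JJ_ge, h1, h2⟩

theorem nf_del {J : Finset ℕ} (hJ : ∀ j ∈ J, N0 ≤ j) {X : PW}
    (hX : OvP (muJ p μ J) (insert p (mrs J)) X) {j : ℕ} (hj : j ∈ J) :
    nf θ Dd (delM j X).x = nf θ Dd X.x := by
  have hEJ := Env.muJ hE hθ hN hJ
  refine delM_nf (Env.theta_mem hEJ hX) (hθ j (hN j (hJ j hj))) (mr_nD hE hN (hJ j hj))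
    (fun s hs hsD => (Env.fp_inv hEJ hX s hs hsD).2) ⟨p, mem_of_mu hX (muJ_p hE hθ hN hJ), ?_⟩
  rintro rfl
  exact hN j (hJ j hj) (p_mem hE)

theorem sc_del {J : Finset ℕ} (hJ : ∀ j ∈ J, N0 ≤ j) {X : PW}
    (hX : OvP (muJ p μ J) (insert p (mrs J)) X) {j : ℕ} (hj : j ∈ J) {s t : Sy}
    (hs : s ∈ X.x) (hs' : s ≠ mr j) (ht : t ∈ X.x) (ht' : t ≠ mr j) :
    (fp θ (delM j X).x).SameCycle s t ↔ (fp θ X.x).SameCycle s t :=
  delM_sc (Env.theta_mem (Env.muJ hE hθ hN hJ) hX) (hθ j (hN j (hJ j hj)))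
    (mem_delM.2 ⟨hs, hs'⟩) (mem_delM.2 ⟨ht, ht'⟩)

omit hθ in
theorem p_ne {j : ℕ} (hj : N0 ≤ j) : p ≠ mr j := by
  rintro rfl
  exact hN j hj (p_mem hE)

theorem RJ_del {J : Finset ℕ} (hJ : ∀ j ∈ J, N0 ≤ j) {X : PW}
    (hX : OvP (muJ p μ J) (insert p (mrs J)) X) {j : ℕ} (hj : j ∈ J) :
    RJ θ μ p Dd c (J.erase j) (delM j X) ↔ nf θ Dd X.x + X.ord.length = c ∧
      ∀ l ∈ J.erase j, ¬ (fp θ X.x).SameCycle p (mr l) := by
  unfold RJ PA
  rw [nf_del hE hθ hN hJ hX hj, ord_delM]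
  have h1 := Env.muJ_delM hE hθ hN hJ hX hj
  have hpX : p ∈ X.x := mem_of_mu hX (muJ_p hE hθ hN hJ)
  constructor
  · rintro ⟨_, h2, h3⟩
    refine ⟨h2, fun l hl h => h3 (mr l) (mem_mrs.2 ⟨l, hl, rfl⟩) ?_⟩
    have hl' := Finset.mem_erase.1 hl
    rw [sc_del hE hθ hN hJ hX hj hpX (p_ne hE hN (hJ j hj))
      (mem_of_mu hX (muJ_mr hE hθ hN hJ hl'.2)) (by simpa using hl'.1)]
    exact h
  · rintro ⟨h2, h3⟩
    refine ⟨h1, h2, fun s hs h => ?_⟩
    obtain ⟨l, hl, rfl⟩ := mem_mrs.1 hs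
    have hl' := Finset.mem_erase.1 hl
    rw [sc_del hE hθ hN hJ hX hj hpX (p_ne hE hN (hJ j hj))
      (mem_of_mu hX (muJ_mr hE hθ hN hJ hl'.2)) (by simpa using hl'.1)] at h
    exact h3 l hl h

theorem RM_del {m : ℕ} {X : PW} (hX : RM θ μ p Dd c N0 (m + 1) X) {j : ℕ} (hj : j ∈ JJ N0 X) :
    RM θ μ p Dd c N0 m (delM j X) := by
  obtain ⟨hc, hR⟩ := (RM_iff hE hθ hN).1 hX
  refine (RM_iff hE hθ hN).2 ?_
  rw [JJ_delM]
  refine ⟨by rw [Finset.card_erase_of_mem hj, hc]; rfl, ?_⟩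
  rw [RJ_del hE hθ hN JJ_ge hR.1 hj]
  exact ⟨hR.2.1, fun l hl => hR.2.2 _ (mem_mrs.2 ⟨l, (Finset.mem_erase.1 hl).2, rfl⟩)⟩

theorem RM_dl {m : ℕ} {X : PW} (hX : RM θ μ p Dd c N0 (m + 1) X) {a : ℕ} (ha : a ∈ X.ord)
    (haμ : a ∉ μ.ord) {j : ℕ} (hj : j ∈ JJ N0 X) :
    RM θ μ p Dd c N0 m (delM j (X.dl a)) ↔ RM θ μ p Dd c N0 (m + 1) (X.dl a) := by
  constructor
  · intro h
    obtain ⟨hc, hR⟩ := (RM_iff hE hθ hN).1 hX
    obtain ⟨hc', hR'⟩ := (RM_iff hE hθ hN).1 h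
    have hJ : ∀ j ∈ JJ N0 X, N0 ≤ j := JJ_ge
    have hEJ := Env.muJ hE hθ hN hJ
    have haJ : a ∉ (muJ p μ (JJ N0 X)).ord := by rw [Env.muJ_ord hE hθ hN _ hJ]; exact haμ
    have hO : OvP (muJ p μ (JJ N0 X)) (insert p (mrs (JJ N0 X))) (X.dl a) := OvP.dl hR.1 haJ
    rw [JJ_delM, JJ_dl] at hR' hc'
    rw [RJ_del hE hθ hN hJ hO hj] at hR'
    refine (RM_iff hE hθ hN).2 ?_
    rw [JJ_dl]
    refine ⟨hc, hO, hR'.1, fun s hs hsc => ?_⟩
    have h1 := hR.2.1
    have h2 := hR'.1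
    have h3 : (X.dl a).ord.length + 1 = X.ord.length := Env.length_dl ha
    have h4 : (fp θ X.x).SameCycle (en a false) (en a true) := by
      by_contra h5
      have h6 := Env.nf_dl_diff hEJ hR.1 ha haJ h5
      omega
    obtain ⟨l, hl, rfl⟩ := mem_mrs.1 hs
    refine hR.2.2 _ hs (Env.sc_dl_same hEJ hR.1 ha haJ h4 ?_ ?_ (p_nD hE)
      (mr_nD hE hN (hJ l hl)) hsc)
    · exact mem_of_mu hO (muJ_p hE hθ hN hJ)
    · exact mem_of_mu hO (muJ_mr hE hθ hN hJ hl)
  · intro h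
    exact RM_del hE hθ hN h (by rw [JJ_dl]; exact hj)

theorem nm_muJ {J : Finset ℕ} (hJ : ∀ j ∈ J, N0 ≤ j) : W.nm (muJ p μ J) = W.nm μ := by
  unfold Sys.nm
  rw [show W.ord (muJ p μ J) = W.ord μ from Env.muJ_ord hE hθ hN J hJ]

theorem RJ_inv {J : Finset ℕ} (hJ : ∀ j ∈ J, N0 ≤ j) :
    Inv (S := W) (W.nm μ) (RJ θ μ p Dd c J) := by
  have := PA_inv (Env.muJ hE hθ hN hJ) c (B := p) (muJ_p hE hθ hN hJ) (A := mrs J) (by
    intro s hs
    obtain ⟨j, hj, rfl⟩ := mem_mrs.1 hs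
    exact muJ_mr hE hθ hN hJ hj)
  rw [nm_muJ hE hθ hN hJ] at this
  exact this

theorem RM_inv (m : ℕ) : Inv (S := W) (W.nm μ) (RM θ μ p Dd c N0 m) := by
  rintro π hπ X ⟨J, hJ, hc, hR⟩
  exact ⟨J, hJ, hc, RJ_inv hE hθ hN hJ π hπ X hR⟩

theorem RM_cvx (m : ℕ) : Cvx (S := W) (W.nm μ) (RM θ μ p Dd c N0 m) := by
  intro X hX a ha b hb hab h
  obtain ⟨hc, hR⟩ := (RM_iff hE hθ hN).1 hX
  obtain ⟨hc', hR'⟩ := (RM_iff hE hθ hN).1 h
  have hJ : ∀ j ∈ JJ N0 X, N0 ≤ j := JJ_ge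
  have e1 : JJ N0 (W.dl (W.dl X a) b) = JJ N0 X := (JJ_dl N0 _ b).trans (JJ_dl N0 X a)
  rw [e1] at hR'
  refine (RM_iff hE hθ hN).2 ?_
  have e2 : JJ N0 (W.dl X a) = JJ N0 X := JJ_dl N0 X a
  rw [e2]
  refine ⟨hc, ?_⟩
  have hcv := PA_cvx (Env.muJ hE hθ hN hJ) c (B := p) (muJ_p hE hθ hN hJ) (p_nD hE)
    (A := mrs (JJ N0 X)) (by
      intro s hs
      obtain ⟨j, hj, rfl⟩ := mem_mrs.1 hs
      exact ⟨muJ_mr hE hθ hN hJ hj, mr_nD hE hN (hJ j hj)⟩)
  rw [nm_muJ hE hθ hN hJ] at hcv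
  exact hcv X hR a ha b hb hab hR'

omit hE hθ hN in
theorem RM_zero {X : PW} : RM θ μ p Dd c N0 0 X ↔ PT θ μ {p} Dd c X := by
  have h0 : mrs (∅ : Finset ℕ) = ∅ := rfl
  have h1 : muJ p μ ∅ = μ := by unfold muJ; simp [muL]
  constructor
  · rintro ⟨J, hJ, hc, hR⟩
    rw [Finset.card_eq_zero] at hc
    subst hc
    unfold RJ PA at hR
    rw [h1, h0] at hR
    exact ⟨by simpa using hR.1, hR.2.1⟩
  · rintro ⟨h2, h3⟩
    refine ⟨∅, by simp, rfl, ?_⟩
    unfold RJ PA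
    rw [h1, h0]
    exact ⟨by simpa using h2, h3, by simp⟩

omit hE hθ hN in
theorem RM_one {X : PW} : RM θ μ p Dd c N0 1 X ↔ R0 θ μ p Dd c N0 X := by
  constructor
  · rintro ⟨J, hJ, hc, hR⟩
    obtain ⟨j, rfl⟩ := Finset.card_eq_one.1 hc
    exact ⟨j, hJ j (Finset.mem_singleton_self j), hR⟩
  · rintro ⟨j, hj, hR⟩
    exact ⟨{j}, by simpa using hj, Finset.card_singleton j, hR⟩

end

theorem nm_iff (Y : PW) (a : ℕ) : a ∈ W.nm Y ↔ a ∈ Y.ord := mem_nm (S := W) (X := Y)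

theorem mem_im' {α β : Type} {inst : DecidableEq β} {s : Finset α} {f : α → β} {b : β} :
    b ∈ @Finset.image α β inst f s ↔ ∃ a ∈ s, f a = b := Finset.mem_image

theorem mem_fl' {α : Type} {p : α → Prop} {inst : DecidablePred p} {s : Finset α} {a : α} :
    a ∈ @Finset.filter α p inst s ↔ a ∈ s ∧ p a := Finset.mem_filter

theorem ncy_two {σ : Perm Sy} {A : Finset Sy} {p : Sy} (h : 2 ≤ ncy σ A) :
    ∃ s ∈ A, ¬ σ.SameCycle s p := by
  by_contra hcon
  push Not at hcon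
  have h2 : ncy σ A ≤ 1 := by
    unfold ncy
    rw [Finset.card_le_one]
    intro x hx y hy
    obtain ⟨s, hs, rfl⟩ := mem_im'.1 hx
    obtain ⟨t, ht, rfl⟩ := mem_im'.1 hy
    ext u
    rw [mem_fl', mem_fl']
    exact and_congr_right fun _ =>
      ⟨fun h => ((hcon t ht).trans (hcon s hs).symm).trans h,
        fun h => ((hcon s hs).trans (hcon t ht).symm).trans h⟩
  omega

section
variable {θ : Perm Sy} {μ : PW} {p : Sy} {Dd : Finset Sy} {c N0 : ℕ}
  (hE : Env θ μ {p} Dd) (hθ : ∀ n, mr n ∉ μ.x → θ (mr n) = mr n)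
  (hN : ∀ n, N0 ≤ n → mr n ∉ μ.x)

include hE in
theorem gd_PT {X : PW} (hX : PT θ μ {p} Dd c X)
    (hd : deg (S := W) (W.nm μ) X + μ.ord.length + 1 < c) : ∃ s ∈ X.x, gd θ μ p X s := by
  have h1 : W.nm μ ⊆ W.nm X := by
    intro a ha
    rw [nm_iff] at ha ⊢
    exact (PW.mem_ord).2 (mem_of_mu hX.1 ((PW.mem_ord).1 ha))
  have h2 : (W.nm X).card = X.ord.length := List.toFinset_card_of_nodup X.ord_nodup
  have h3 : (W.nm μ).card = μ.ord.length := List.toFinset_card_of_nodup μ.ord_nodup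
  have h4 : deg (S := W) (W.nm μ) X = (W.nm X).card - (W.nm μ).card :=
    Finset.card_sdiff_of_subset h1
  have h5 := Finset.card_le_card h1
  have h6 := hX.2
  have h7 : 2 ≤ ncy (fp θ X.x) (X.x.toFinset \ Dd) := by
    change 2 ≤ nf θ Dd X.x
    omega
  obtain ⟨s, hs, hsp⟩ := ncy_two (p := p) h7
  rw [Finset.mem_sdiff, List.mem_toFinset] at hs
  obtain ⟨t, ht, hst, q, hq, hto⟩ := Env.live_own hE hX.1 hs.1 hs.2
  rw [Finset.mem_singleton] at hq
  subst hq
  exact ⟨t, ht, hto, fun h => hsp (hst.trans h)⟩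

include hE hθ hN

theorem gd_mr {J : Finset ℕ} (hJ : ∀ j ∈ J, N0 ≤ j) {X : PW} (hX : RJ θ μ p Dd c J X) {j : ℕ}
    (hj : j ∈ J) : gd θ μ p X (mr j) := by
  refine ⟨(Env.muJ_clr hE hθ hN hJ hX.1).2.2.2.2 j hj, fun h => ?_⟩
  exact hX.2.2 _ (mem_mrs.2 ⟨j, hj, rfl⟩) h.symm

theorem gd_del {J : Finset ℕ} (hJ : ∀ j ∈ J, N0 ≤ j) {X : PW}
    (hX : OvP (muJ p μ J) (insert p (mrs J)) X) {j : ℕ} (hj : j ∈ J) {s : Sy} (hs : s ∈ X.x)
    (hsj : s ≠ mr j) : gd θ μ p (delM j X) s ↔ gd θ μ p X s := by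
  unfold gd
  rw [sc_del hE hθ hN hJ hX hj hs hsj (mem_of_mu hX (muJ_p hE hθ hN hJ))
    (p_ne hE hN (hJ j hj))]
  refine and_congr ?_ Iff.rfl
  have : own μ.x (delM j X).x s = own μ.x X.x s := by
    refine own_filter (fun t ht _ => ?_) (by simpa using hsj)
    have : t ≠ mr j := by rintro rfl; exact hN j (hJ j hj) ht
    simpa using this
  rw [this]

/-- removing a marker and the contraction -/
theorem del_ins {J : Finset ℕ} (hJ : ∀ j ∈ J, N0 ≤ j) {X : PW} (hX : RJ θ μ p Dd c J X) {n : ℕ}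
    (hn : N0 ≤ n) (hnJ : ∀ j ∈ J, j < n) (hJX : JJ N0 X = J) {j : ℕ} (hj : j ∈ J) :
    delM j (insT θ μ p n X) = insT θ μ p n (delM j X) := by
  classical
  have hEJ := Env.muJ hE hθ hN hJ
  have hmrX : mr j ∈ X.x := mem_of_mu hX.1 (muJ_mr hE hθ hN hJ hj)
  obtain ⟨t, ht⟩ := tst_ex hmrX (gd_mr hE hθ hN hJ hX hj)
  obtain ⟨h1, h2, h3⟩ := tst_spec ht
  have hnX : mr n ∉ X.x := by
    intro h
    have : n ∈ J := by rw [← hJX]; exact mem_JJ.2 ⟨hn, h⟩
    exact lt_irrefl _ (hnJ n this)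
  have hnj : n ≠ j := by rintro rfl; exact lt_irrefl _ (hnJ n hj)
  have hnX' : mr n ∉ (delM j X).x := fun h => hnX (mem_delM.1 h).1
  rw [insT_eq ht]
  unfold tst at ht
  obtain ⟨hgt, l1, l2, hx, hl1⟩ := List.find?_eq_some_iff_append.1 ht
  have hgl1 : ∀ s ∈ l1, ¬ gd θ μ p X s := by
    intro s hs
    simpa using hl1 s hs
  have hnd : (l1 ++ t :: l2).Nodup := hx ▸ X.nd
  have hfl : (delM j X).x = X.x.filter (fun s => decide (s ≠ mr j)) := rfl
  have htl1 : t ∉ l1 := fun h => hgl1 t h h2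
  have htl2 : t ∉ l2 := (List.nodup_cons.1 (List.Nodup.of_append_right hnd)).1
  by_cases htj : t = mr j
  · subst htj
    -- the next symbol
    have hsplit : ∃ u l3, l2 = u :: l3 := by
      rcases l2 with _ | ⟨u, l3⟩
      · exfalso
        have h4 := h2.1
        rw [hx, own_mid μ.x _ htl1, List.find?_cons_of_neg (by simpa using hN j (hJ j hj))] at h4
        simp at h4
      · exact ⟨u, l3, rfl⟩
    obtain ⟨u, l3, rfl⟩ := hsplit
    have hju : mr j ≠ u := fun h => htl2 (by rw [h]; exact List.mem_cons_self)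
    have hjl3 : mr j ∉ l3 := fun h => htl2 (List.mem_cons_of_mem _ h)
    have huX : u ∈ X.x := by rw [hx]; simp
    have hfp : fp θ X.x (mr j) = u := by
      unfold fp
      rw [Perm.mul_apply, hθ j (hN j (hJ j hj)), hx]
      exact next_of hnd (t := u) (r := l3 ++ l1) rfl
    have hgu : gd θ μ p X u := by
      refine ⟨?_, fun h => h2.2 ?_⟩
      · rw [← h2.1, hx, own_mid μ.x _ htl1,
          List.find?_cons_of_neg (by simpa using hN j (hJ j hj))]
        have e1 : l1 ++ mr j :: u :: l3 = (l1 ++ [mr j]) ++ u :: l3 := by simp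
        have hul1 : u ∉ l1 ++ [mr j] := by
          rw [e1] at hnd
          intro hm
          exact (List.nodup_append.1 hnd).2.2 u hm u List.mem_cons_self rfl
        rw [e1, own_mid μ.x _ hul1]
      · have h4 : (fp θ X.x).SameCycle (mr j) u := ⟨1, by rw [zpow_one]; exact hfp⟩
        exact h4.trans h
    have hx' : (delM j X).x = l1 ++ u :: l3 := by
      rw [hfl, hx, List.filter_append, List.filter_cons_of_neg (by simp),
        List.filter_cons_of_pos (by simpa using Ne.symm hju), List.filter_eq_self.2,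
        List.filter_eq_self.2]
      · intro s hs
        have : s ≠ mr j := by rintro rfl; exact hjl3 hs
        simpa using this
      · intro s hs
        have : s ≠ mr j := by rintro rfl; exact htl1 hs
        simpa using this
    have hul1' : u ∉ l1 := fun h => hgl1 u h hgu
    have hul3 : u ∉ l3 := by
      have := (List.nodup_cons.1 (List.nodup_cons.1 (List.Nodup.of_append_right hnd)).2).1
      exact this
    have ht' : tst θ μ p (delM j X) = some u := by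
      unfold tst
      rw [List.find?_eq_some_iff_append]
      refine ⟨?_, l1, l3, hx', fun s hs => ?_⟩
      · simpa using (gd_del hE hθ hN hJ hX.1 hj huX (Ne.symm hju)).2 hgu
      · have h5 : s ∈ X.x := by rw [hx]; simp [hs]
        have h6 : s ≠ mr j := by rintro rfl; exact htl1 hs
        have := fun h => hgl1 s hs ((gd_del hE hθ hN hJ hX.1 hj h5 h6).1 h)
        simpa using this
    rw [insT_eq ht']
    ext1
    rw [insM_x hnX', hx', insB_split _ hul1' hul3]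
    change (insM (mr j) n X).x.filter (fun s => decide (s ≠ mr j)) = _
    rw [insM_x hnX, hx, insB_split _ htl1 htl2, List.filter_append,
      List.filter_cons_of_pos (by simpa using hnj), List.filter_cons_of_neg (by simp),
      List.filter_cons_of_pos (by simpa using Ne.symm hju), List.filter_eq_self.2,
        List.filter_eq_self.2]
    · intro s hs
      have : s ≠ mr j := by rintro rfl; exact hjl3 hs
      simpa using this
    · intro s hs
      have : s ≠ mr j := by rintro rfl; exact htl1 hs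
      simpa using this
  · have ht' : tst θ μ p (delM j X) = some t := by
      unfold tst
      rw [List.find?_eq_some_iff_append]
      refine ⟨?_, l1.filter (fun s => decide (s ≠ mr j)), l2.filter (fun s => decide (s ≠ mr j)),
        ?_, fun s hs => ?_⟩
      · simpa using (gd_del hE hθ hN hJ hX.1 hj h1 htj).2 h2
      · rw [hfl, hx, List.filter_append, List.filter_cons_of_pos (by simpa using htj)]
      · rw [List.mem_filter] at hs
        have h5 : s ∈ X.x := by rw [hx]; simp [hs.1]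
        have h6 : s ≠ mr j := by simpa using hs.2
        have := fun h => hgl1 s hs.1 ((gd_del hE hθ hN hJ hX.1 hj h5 h6).1 h)
        simpa using this
    rw [insT_eq ht']
    ext1
    rw [insM_x hnX']
    change (insM t n X).x.filter (fun s => decide (s ≠ mr j)) = _
    rw [insM_x hnX, insB_filter_pos _ _ (by simpa using htj) (by simpa using hnj)]
    rfl

/-- the contraction -/
theorem RM_ins {m n : ℕ} {X : PW} (hX : RM θ μ p Dd c N0 m X) (hg : ∃ s ∈ X.x, gd θ μ p X s)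
    (hn : N0 ≤ n) (hnJ : ∀ j ∈ JJ N0 X, j < n) :
    RM θ μ p Dd c N0 (m + 1) (insT θ μ p n X) ∧
      deg (S := W) (W.nm μ) (insT θ μ p n X) = deg (S := W) (W.nm μ) X ∧
      JJ N0 (insT θ μ p n X) = insert n (JJ N0 X) ∧ delM n (insT θ μ p n X) = X ∧
      ∀ j ∈ JJ N0 X, delM j (insT θ μ p n X) = insT θ μ p n (delM j X) := by
  obtain ⟨hc, hR⟩ := (RM_iff hE hθ hN).1 hX
  have hJ : ∀ j ∈ JJ N0 X, N0 ≤ j := JJ_ge
  obtain ⟨s, hs, hsg⟩ := hg
  obtain ⟨t, ht⟩ := tst_ex hs hsg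
  obtain ⟨h1, h2, h3⟩ := tst_spec ht
  have hnJX : n ∉ JJ N0 X := fun h => lt_irrefl _ (hnJ n h)
  have hnX : mr n ∉ X.x := fun h => hnJX (mem_JJ.2 ⟨hn, h⟩)
  have hJJ : JJ N0 (insT θ μ p n X) = insert n (JJ N0 X) := by
    rw [insT_eq ht]
    ext k
    rw [mem_JJ, mem_insM h1, Finset.mem_insert, mem_JJ, Sy.mr.injEq]
    constructor
    · rintro ⟨h4, h5 | h5⟩
      · exact Or.inr ⟨h4, h5⟩
      · exact Or.inl h5
    · rintro (rfl | ⟨h4, h5⟩)
      · exact ⟨hn, Or.inr rfl⟩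
      · exact ⟨h4, Or.inl h5⟩
  have hdel : delM n (insT θ μ p n X) = X := by
    rw [insT_eq ht]
    exact delM_insM t n hnX
  refine ⟨?_, ?_, hJJ, hdel, fun j hj => del_ins hE hθ hN hJ hR hn hnJ rfl hj⟩
  · refine (RM_iff hE hθ hN).2 ?_
    rw [hJJ]
    refine ⟨by rw [Finset.card_insert_of_notMem hnJX, hc], ?_⟩
    have hJ' : ∀ j ∈ insert n (JJ N0 X), N0 ≤ j := by
      intro j hj
      rcases Finset.mem_insert.1 hj with rfl | hj
      · exact hn
      · exact hJ j hj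
    have hO : OvP (muJ p μ (insert n (JJ N0 X))) (insert p (mrs (insert n (JJ N0 X))))
        (insT θ μ p n X) := by
      rw [insT_eq ht]
      refine Env.muJ_insM hE hθ hN hJ hR.1 hn hnJ h1 h2.1 fun j hj => ?_
      exact h3 (mr j) (mem_of_mu hR.1 (muJ_mr hE hθ hN hJ hj)) (gd_mr hE hθ hN hJ hR hj)
    have hnfe := nf_del hE hθ hN hJ' hO (Finset.mem_insert_self n _)
    rw [hdel] at hnfe
    have hsc : ∀ u v, u ∈ X.x → v ∈ X.x →
        ((fp θ (insT θ μ p n X).x).SameCycle u v → (fp θ X.x).SameCycle u v) := by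
      intro u v hu hv h
      have e1 : u ∈ (insT θ μ p n X).x := by rw [insT_eq ht]; exact (mem_insM h1).2 (Or.inl hu)
      have e2 : v ∈ (insT θ μ p n X).x := by rw [insT_eq ht]; exact (mem_insM h1).2 (Or.inl hv)
      have e3 : u ≠ mr n := by rintro rfl; exact hnX hu
      have e4 : v ≠ mr n := by rintro rfl; exact hnX hv
      have := (sc_del hE hθ hN hJ' hO (Finset.mem_insert_self n _) e1 e3 e2 e4).2 h
      rwa [hdel] at this
    have hpX : p ∈ X.x := mem_of_mu hR.1 (muJ_p hE hθ hN hJ)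
    refine ⟨hO, ?_, fun s hs hsc' => ?_⟩
    · rw [← hnfe, insT_eq ht, ord_insM]
      exact hR.2.1
    · obtain ⟨l, hl, rfl⟩ := mem_mrs.1 hs
      rcases Finset.mem_insert.1 hl with rfl | hl
      · have h4 : (fp θ (insT θ μ p l X).x).SameCycle (mr l) t := by
          rw [insT_eq ht]
          exact insM_sc h1 hnX (hθ l (hN l hn))
        exact h2.2 (hsc p t hpX h1 (hsc'.trans h4)).symm
      · exact hR.2.2 _ (mem_mrs.2 ⟨l, hl, rfl⟩)
          (hsc p (mr l) hpX (mem_of_mu hR.1 (muJ_mr hE hθ hN hJ hl)) hsc')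
  · unfold Sys.deg Sys.nm
    rw [show W.ord (insT θ μ p n X) = W.ord X from by rw [insT_eq ht]; exact ord_insM t n X]

theorem RM_Ex
    (hA : ∀ J : Finset ℕ, (∀ j ∈ J, N0 ≤ j) → 2 ≤ J.card → ∀ i, i + μ.ord.length + 2 < c →
      Sys.Ex (S := W) (W.nm μ) (RJ θ μ p Dd c J) i) (m i : ℕ) (hi : i + μ.ord.length + 2 < c) :
    Ex (S := W) (W.nm μ) (RM θ μ p Dd c N0 (m + 2)) i := by
  refine TH558.J890.Ex_of_decomp (RM_inv hE hθ hN (m + 2)) (JJ N0)
    (fun X _ π _ => JJ_rn N0 X π) (fun X _ a _ _ => JJ_dl N0 X a) fun J => ?_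
  by_cases hJ : (∀ j ∈ J, N0 ≤ j) ∧ J.card = m + 2
  · have e : (fun X : PW => RM θ μ p Dd c N0 (m + 2) X ∧ JJ N0 X = J) = RJ θ μ p Dd c J := by
      funext X
      apply propext
      constructor
      · rintro ⟨h1, h2⟩
        have := ((RM_iff hE hθ hN).1 h1).2
        rwa [h2] at this
      · intro h
        exact ⟨⟨J, hJ.1, hJ.2, h⟩, (Env.muJ_clr hE hθ hN hJ.1 h.1).2.1⟩
    have := hA J hJ.1 (by omega) i hi
    rw [← e] at this
    exact this
  · intro z hz _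
    have : z = 0 := by
      by_contra hz0
      obtain ⟨q, hq⟩ := Finsupp.ne_iff.1 hz0
      obtain ⟨X, _, ⟨h1, h2⟩, _⟩ := mem_Ch.1 hz q (by simpa using hq)
      apply hJ
      obtain ⟨h3, _⟩ := (RM_iff hE hθ hN).1 h1
      rw [h2] at h3
      exact ⟨fun j hj => JJ_ge (X := X) j (by rw [h2]; exact hj), h3⟩
    rw [this]
    exact ⟨0, Submodule.zero_mem _, map_zero _⟩

/-- cycles of tight cells lift to cycles of tight cells with one marked closed corner -/
theorem lift_tight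
    (hA : ∀ J : Finset ℕ, (∀ j ∈ J, N0 ≤ j) → 2 ≤ J.card → ∀ i, i + μ.ord.length + 2 < c →
      Sys.Ex (S := W) (W.nm μ) (RJ θ μ p Dd c J) i)
    {i : ℕ} (hi : i + μ.ord.length + 1 < c) {z : W.Q (W.nm μ) →₀ ℤ}
    (hz : z ∈ Sys.Ch (S := W) (W.nm μ) (PT θ μ {p} Dd c) i)
    (hdz : Sys.D (S := W) (W.nm μ) (PT θ μ {p} Dd c) z = 0) :
    ∃ w ∈ Sys.Ch (S := W) (W.nm μ) (R0 θ μ p Dd c N0) i,
      Sys.push (S := W) (W.nm μ) (R0 θ μ p Dd c N0) (clrM N0) w = z ∧
      Sys.D (S := W) (W.nm μ) (R0 θ μ p Dd c N0) w = 0 := by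
  have e0 : RM θ μ p Dd c N0 0 = PT θ μ {p} Dd c := by
    funext X; exact propext (RM_zero)
  have e1 : RM θ μ p Dd c N0 1 = R0 θ μ p Dd c N0 := by
    funext X; exact propext RM_one
  have key := lift_gen (F := W.nm μ) (mkW N0) (RM := RM θ μ p Dd c N0) (N0 := N0)
    (Nb := c - 2 - μ.ord.length) (ins := insT θ μ p)
    (fun n π hπ X => insT_rn hE (p_mem hE) n hπ X)
    (RM_inv hE hθ hN) (RM_cvx hE hθ hN)
    (fun m X hX j hj => RM_del hE hθ hN hX hj)
    (fun m X hX a ha j hj => by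
      have ha' := Finset.mem_sdiff.1 ha
      exact RM_dl hE hθ hN hX ((nm_iff X a).1 ha'.1) (fun h => ha'.2 ((nm_iff μ a).2 h)) hj)
    (fun X hX => by
      have := ((RM_iff hE hθ hN).1 hX).1
      exact Finset.card_eq_zero.1 this)
    (fun m n X hX hd hn hnJ => by
      refine RM_ins hE hθ hN hX ?_ hn hnJ
      rcases Nat.eq_zero_or_pos m with rfl | hm
      · refine gd_PT hE ((RM_zero).1 hX) ?_
        have := hd rfl
        omega
      · obtain ⟨h1, h2⟩ := (RM_iff hE hθ hN).1 hX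
        obtain ⟨j, hj⟩ := Finset.card_pos.1 (by rw [h1]; exact hm)
        exact ⟨mr j, (mem_JJ.1 hj).2, gd_mr hE hθ hN JJ_ge h2 hj⟩)
    (fun m i hi => RM_Ex hE hθ hN hA m i (by omega))
    (i := i) (by omega) (z := z) (by rw [e0]; exact hz) (by rw [e0]; exact hdz)
  rw [e1] at key
  obtain ⟨w, hw, hwz, hwD⟩ := key
  refine ⟨w, hw, ?_, hwD⟩
  rw [← hwz]
  have hInv : Inv (S := W) (W.nm μ) (R0 θ μ p Dd c N0) := e1 ▸ RM_inv hE hθ hN 1
  have hnat : Nat (S := W) (W.nm μ) (R0 θ μ p Dd c N0) (clrM N0) :=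
    ⟨fun X _ => ord_clrM N0 X, fun X _ a _ => dl_clrM N0 X a, fun X _ π _ => (rn_clrM N0 X π).symm⟩
  refine Ch_induction (p := fun w => Sys.push (S := W) (W.nm μ) (R0 θ μ p Dd c N0) (clrM N0) w =
    dd (W.nm μ) (mkW N0) w) ?_ ?_ ?_ w hw
  · rw [map_zero, map_zero]
  · intro x y hx hy; rw [map_add, map_add, hx, hy]
  · intro X k hX _
    refine (TH558.J890.push_single hInv hnat hX k).trans
      (Eq.trans ?_ (dd_single (F := W.nm μ) (mkW N0) X k).symm)
    obtain ⟨j, hj, hR⟩ := hX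
    have hJ : ∀ l ∈ ({j} : Finset ℕ), N0 ≤ l := by simpa using hj
    have hJX : JJ N0 X = {j} := (Env.muJ_clr hE hθ hN hJ hR.1).2.1
    have hcl : clrM N0 X = delM j X := by
      ext1
      change X.x.filter (nax N0) = X.x.filter (fun s => decide (s ≠ mr j))
      refine List.filter_congr fun s hs => ?_
      rcases s with l | ⟨a, e⟩
      · by_cases hl : N0 ≤ l
        · have : l ∈ JJ N0 X := mem_JJ.2 ⟨hl, hs⟩
          rw [hJX, Finset.mem_singleton] at this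
          subst this
          simp [nax, hl]
        · have : l ≠ j := by rintro rfl; exact hl hj
          simp [nax, this, not_le.1 hl]
      · simp [nax]
    have hdd0 : dd0 (S := W) (W.nm μ) (JJ N0) delM X =
        Finsupp.single (W.cl (W.nm μ) (delM j X)) 1 := by
      unfold dd0
      rw [hJX, Finset.sum_singleton]
      have : sgJ {j} j = 1 := by
        unfold sgJ
        rw [Finset.filter_eq_empty_iff.2 (by simp), Finset.card_empty, pow_zero]
      rw [this]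
    rw [hdd0, hcl, Finsupp.smul_single, smul_eq_mul, mul_one]

end

end Pool.Agent.TH553.J907
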