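import Pool.Agent.TH27.FS.Cross
set_option autoImplicit false
namespace Pool.Agent.TH27.FS
open Equiv

lemma k3_occ {A : Type} (S : MS A) (a : Fin 5) (x : ℤ → A) (p q : ℤ) (h : q = 1 - S.μ - p) :
    S.rev.occ a x p ↔ S.occ a (FS.rev x) q := by
  subst h
  constructor
  · intro h i h1 h2
    have := h (S.μ - 1 - i) (by omega) (by change (S.μ : ℤ) - 1 - i < S.μ; omega)
    change x (p + (S.μ - 1 - i)) = S.wd a (S.μ - 1 - (S.μ - 1 - i)) at this
    rw [show (S.μ : ℤ) - 1 - (S.μ - 1 - i) = i by ring] at this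
    rw [← this]
    change x (-(1 - S.μ - p + i)) = _
    congr 1; ring
  · intro h i h1 h2
    change i < (S.μ : ℤ) at h2
    have := h (S.μ - 1 - i) (by omega) (by omega)
    change x (-(1 - S.μ - p + (S.μ - 1 - i))) = S.wd a (S.μ - 1 - i) at this
    change x (p + i) = S.wd a (S.μ - 1 - i)
    rw [← this]
    congr 1; ring

lemma k3_cont {A : Type} (l : ℕ) (x : ℤ → A) (p q : ℤ) (h : q = 1 - l - p) :
    cont l (FS.rev x) q = cont l x p ∘ Fin.rev := by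
  subst h
  funext i
  change x (-(1 - l - p + i)) = x (p + ((Fin.rev i : Fin l) : ℕ))
  congr 1
  rw [Fin.val_rev]
  have := i.2
  omega

lemma k3_revrev {A : Type} {l : ℕ} (z : Fin l → A) : (z ∘ Fin.rev) ∘ Fin.rev = z := by
  funext i; simp

theorem TB.rev_site {A : Type} (T : TB A) (x : ℤ → A) (p : ℤ) :
    T.rev.site x p ↔ T.site (FS.rev x) (1 - T.n - p) := by
  have e1 : T.rev.S.occ T.rev.M x (p - 2 * T.rev.S.μ) ↔
      T.S.occ T.M (FS.rev x) (1 - T.n - p + T.n + T.S.μ) :=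
    k3_occ T.S T.M x _ _ (by change _ = 1 - (T.S.μ : ℤ) - (p - 2 * T.S.μ); ring)
  have e2 : T.rev.S.occ T.rev.u x (p - T.rev.S.μ) ↔ T.S.occ T.v (FS.rev x) (1 - T.n - p + T.n) :=
    k3_occ T.S T.v x _ _ (by change _ = 1 - (T.S.μ : ℤ) - (p - T.S.μ); ring)
  have e3 : T.rev.S.occ T.rev.v x (p + T.rev.n) ↔ T.S.occ T.u (FS.rev x) (1 - T.n - p - T.S.μ) :=
    k3_occ T.S T.u x _ _ (by change _ = 1 - (T.S.μ : ℤ) - (p + T.n); ring)
  have e4 : T.rev.S.occ T.rev.M x (p + T.rev.n + T.rev.S.μ) ↔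
      T.S.occ T.M (FS.rev x) (1 - T.n - p - 2 * T.S.μ) :=
    k3_occ T.S T.M x _ _ (by change _ = 1 - (T.S.μ : ℤ) - (p + T.n + T.S.μ); ring)
  have e5 : cont T.rev.n x p ∈ T.rev.Z ↔ cont T.n (FS.rev x) (1 - T.n - p) ∈ T.Z := by
    rw [k3_cont T.n x p _ rfl]
    rfl
  unfold TB.site
  rw [e1, e2, e3, e4, e5]
  tauto

lemma k3_uniq {A : Type} {l : ℕ} (F : Fam A l) (C : (ℤ → A) → ℤ → Prop) (π : Perm (Fin l → A))
    (x : ℤ → A) : Uniq x (move (F.ctl C π) x) := by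
  classical
  have hne : ∀ p j, move (F.ctl C π) x p j ≠ x j → F.site x p ∧ p ≤ j ∧ j < p + l := by
    intro p j h
    constructor
    · by_contra hs
      apply h
      rw [move_one]
      simp only [Fam.ctl]
      rw [if_neg (fun h' => hs h'.1)]; rfl
    · by_contra hs
      exact h (move_out hs)
  intro p q j hp hq
  obtain ⟨h1, h2⟩ := hne p j hp
  obtain ⟨h3, h4⟩ := hne q j hq
  by_cases hpq : p = q
  · rw [hpq]
  · rcases F.disj' h1 h3 hpq with h | h <;> omega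

lemma k3_ovr {A : Type} {l : ℕ} (x : ℤ → A) (p j : ℤ) (z : Fin l → A) :
    ovr l (FS.rev x) (1 - l - p) (z ∘ Fin.rev) (-j) = ovr l x p z j := by
  by_cases h : p ≤ j ∧ j < p + l
  · obtain ⟨i, rfl⟩ := exists_fin h
    rw [ovr_in]
    have e : -(p + (i : ℤ)) = (1 - l - p) + ((Fin.rev i : Fin l) : ℕ) := by
      rw [Fin.val_rev]
      have := i.2
      omega
    rw [e, ovr_in]
    simp
  · rw [ovr_out h, ovr_out (by omega)]
    change x (- -j) = x j
    rw [neg_neg]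

lemma k3_actf {A : Type} {l : ℕ} (F G : Fam A l) (C D : (ℤ → A) → ℤ → Prop)
    (π ρ : Perm (Fin l → A))
    (h : ∀ x p, (G.site (FS.rev x) (1 - l - p) ∧ D (FS.rev x) (1 - l - p)) ↔ (F.site x p ∧ C x p))
    (hπ : ∀ z, ρ (z ∘ Fin.rev) = π z ∘ Fin.rev) (x : ℤ → A) :
    FS.rev (actf (G.ctl D ρ) (FS.rev x)) = actf (F.ctl C π) x := by
  classical
  have hmove : ∀ p j, move (G.ctl D ρ) (FS.rev x) (1 - l - p) (-j) = move (F.ctl C π) x p j := by
    intro p j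
    unfold move
    rw [k3_cont l x p _ rfl]
    have e : G.ctl D ρ (FS.rev x) (1 - l - p) (cont l x p ∘ Fin.rev) =
        F.ctl C π x p (cont l x p) ∘ Fin.rev := by
      simp only [Fam.ctl]
      by_cases h1 : F.site x p ∧ C x p
      · rw [if_pos h1, if_pos ((h x p).2 h1), hπ]
      · rw [if_neg h1, if_neg (fun h2 => h1 ((h x p).1 h2))]; rfl
    rw [e, k3_ovr]
  funext j
  change amalg (FS.rev x) (move (G.ctl D ρ) (FS.rev x)) (-j) = amalg x (move (F.ctl C π) x) j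
  have hxj : FS.rev x (-j) = x j := by
    change x (- -j) = x j
    rw [neg_neg]
  by_cases hj : ∃ p, move (F.ctl C π) x p j ≠ x j
  · obtain ⟨p, hp⟩ := hj
    rw [amalg_eq (k3_uniq F C π x) hp]
    have hp' : move (G.ctl D ρ) (FS.rev x) (1 - l - p) (-j) ≠ FS.rev x (-j) := by
      rw [hmove, hxj]; exact hp
    rw [amalg_eq (k3_uniq G D ρ (FS.rev x)) hp', hmove]
  · push Not at hj
    rw [amalg_not hj, amalg_not, hxj]
    intro q
    have := hmove (1 - l - q) j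
    rw [show 1 - (l : ℤ) - (1 - l - q) = q by ring] at this
    rw [this, hxj]
    exact hj _

/-- REVERSAL: right index to left index -/
theorem InN_LI_of_rev {A : Type} (T : TB A) {N : Subgroup (AutG A)} {i : ℕ}
    {a b c : Fin T.n → A} (ha : a ∈ T.Z) (hb : b ∈ T.Z) (hc : c ∈ T.Z) (habc : D3 a b c)
    (h : InN (revN N) (actf (T.rev.F.ctl (T.rev.RI i)
      (tc (a ∘ Fin.rev) (b ∘ Fin.rev) (c ∘ Fin.rev))))) :
    InN N (actf (T.F.ctl (T.LI i) (tc a b c))) := by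
  obtain ⟨g, hg, hgx⟩ := h
  refine ⟨revG g, hg, fun x => ?_⟩
  rw [revG_apply, hgx]
  have hinj : Function.Injective (fun z : Fin T.n → A => z ∘ Fin.rev) := by
    intro z z' hz
    have := congrArg (fun y : Fin T.n → A => y ∘ Fin.rev) hz
    simp only [k3_revrev] at this
    exact this
  refine k3_actf T.F T.rev.F (T.LI i) (T.rev.RI i) _ _ ?_ ?_ x
  · intro x p
    have hs : ∀ q : ℤ, T.rev.site (FS.rev x) (1 - T.n - q) ↔ T.site x q := by
      intro q
      rw [TB.rev_site, rev_rev, show 1 - (T.n : ℤ) - (1 - T.n - q) = q by ring]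
    have hk : ∀ k : ℤ, T.rev.site (FS.rev x) (1 - T.n - p + k * T.rev.d) ↔ T.site x (p - k * T.d) := by
      intro k
      rw [← hs (p - k * T.d), TB.rev_d, show 1 - (T.n : ℤ) - (p - k * T.d) = 1 - T.n - p + k * T.d by ring]
    refine and_congr (hs p) ?_
    unfold TB.RI TB.LI
    rw [hk]
    refine and_congr (forall_congr' fun k => forall_congr' fun _ => forall_congr' fun _ => hk k) Iff.rfl
  · intro z
    exact tc_map hinj habc z

theorem TB.rev_five {A : Type} {T : TB A} (h : T.Five) : T.rev.Five := by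
  have hinj : ∀ {x y : Fin T.n → A}, x ≠ y → x ∘ Fin.rev ≠ y ∘ Fin.rev := by
    intro x y hxy h1
    apply hxy
    rw [← k3_revrev x, ← k3_revrev y, h1]
  have hinj' : ∀ {x y : Fin T.n → A}, x ∘ Fin.rev ≠ y → x ≠ y ∘ Fin.rev := by
    rintro x y hxy rfl
    exact hxy (k3_revrev y)
  intro a b c ha hb hc habc
  obtain ⟨d, hd, e, he, h1, h2, h3⟩ := h (a ∘ Fin.rev) (b ∘ Fin.rev) (c ∘ Fin.rev) ha hb hc
    ⟨hinj habc.1, hinj habc.2.1, hinj habc.2.2⟩
  refine ⟨d ∘ Fin.rev, ?_, e ∘ Fin.rev, ?_, ?_, ?_, ?_⟩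
  · change (d ∘ Fin.rev) ∘ Fin.rev ∈ T.Z
    rw [k3_revrev]; exact hd
  · change (e ∘ Fin.rev) ∘ Fin.rev ∈ T.Z
    rw [k3_revrev]; exact he
  · exact ⟨hinj' h1.1, hinj' h1.2.1, hinj h1.2.2⟩
  · exact ⟨hinj' h2.1, hinj' h2.2.1, hinj h2.2.2⟩
  · exact ⟨hinj' h3.1, hinj' h3.2.1, hinj h3.2.2⟩

end Pool.Agent.TH27.FS
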