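import Pool.Agent.TH27.FS.Defs

set_option autoImplicit false

namespace Pool.Agent.TH27.FS

open Topology

/-- a continuous shift commuting map is local -/
lemma chl_local {n : ℕ} (g : (ℤ → Fin n) → (ℤ → Fin n)) (hg : Continuous g)
    (hs : ∀ (m : ℤ) (x : ℤ → Fin n), g (sh m x) = sh m (g x)) : LocalMap g := by
  let O : ℕ → Set (ℤ → Fin n) := fun r =>
    {x | ∀ y, (∀ i : ℤ, -r ≤ i → i ≤ r → x i = y i) → g x 0 = g y 0}
  have hev : ∀ (r : ℕ) (x : ℤ → Fin n), ∀ᶠ y in 𝓝 x, ∀ i : ℤ, -r ≤ i → i ≤ r → x i = y i := by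
    intro r x
    have h : ∀ i ∈ Finset.Icc (-(r : ℤ)) r, ∀ᶠ y in 𝓝 x, x i = y i := by
      intro i _
      have hc : Continuous (fun y : ℤ → Fin n => y i) := continuous_apply _
      have h2 : {a : Fin n | x i = a} ∈ 𝓝 (x i) := (isOpen_discrete _).mem_nhds rfl
      exact hc.continuousAt h2
    filter_upwards [(Filter.eventually_all_finset _).2 h] with y hy
    exact fun i h1 h2 => hy i (Finset.mem_Icc.2 ⟨h1, h2⟩)
  have hO : ∀ r, IsOpen (O r) := by
    intro r
    rw [isOpen_iff_mem_nhds]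
    intro x hx
    filter_upwards [hev r x] with x' hx' y hy
    have h1 := hx x' hx'
    have h2 := hx y fun i hi1 hi2 => (hx' i hi1 hi2).trans (hy i hi1 hi2)
    exact h1.symm.trans h2
  have hmono : Monotone O := by
    intro r s hrs x hx y hy
    refine hx y fun i h1 h2 => hy i ?_ ?_
    · have : (r : ℤ) ≤ s := by exact_mod_cast hrs
      linarith
    · have : (r : ℤ) ≤ s := by exact_mod_cast hrs
      linarith
  have hcov : (Set.univ : Set (ℤ → Fin n)) ⊆ ⋃ r, O r := by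
    intro x _
    have hc : Continuous (fun y : ℤ → Fin n => g y 0) := (continuous_apply _).comp hg
    have h2 : {a : Fin n | g x 0 = a} ∈ 𝓝 (g x 0) := (isOpen_discrete _).mem_nhds rfl
    have h3 : (fun y : ℤ → Fin n => g y 0) ⁻¹' {a : Fin n | g x 0 = a} ∈ 𝓝 x := hc.continuousAt h2
    obtain ⟨V, hV, hVo, hxV⟩ := mem_nhds_iff.1 h3
    rw [isOpen_pi_iff] at hVo
    obtain ⟨I, u, hu, hsub⟩ := hVo x hxV
    refine Set.mem_iUnion.2 ⟨I.sup Int.natAbs, fun y hy => ?_⟩
    apply hV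
    apply hsub
    intro i hi
    have h4 : i.natAbs ≤ I.sup Int.natAbs := Finset.le_sup (f := Int.natAbs) hi
    rw [← hy i (by omega) (by omega)]
    exact (hu i hi).2
  obtain ⟨r, hr⟩ := isCompact_univ.elim_directed_cover O hO hcov hmono.directed_le
  refine ⟨r, fun x y m h => ?_⟩
  have h1 : g x m = g (sh m x) 0 := by rw [hs]; simp
  have h2 : g y m = g (sh m y) 0 := by rw [hs]; simp
  rw [h1, h2]
  refine hr (Set.mem_univ (sh m x)) (sh m y) fun i hi1 hi2 => ?_
  simp only [sh_apply]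
  exact h _ (by linarith) (by linarith)

lemma chl_comm {n : ℕ} (f : (ℤ → Fin n) → (ℤ → Fin n))
    (hf : ∀ x : ℤ → Fin n, f (fun i => x (i + 1)) = fun i => f x (i + 1)) (m : ℤ)
    (x : ℤ → Fin n) : f (sh m x) = sh m (f x) := by
  have h1 : ∀ (m : ℕ) (x : ℤ → Fin n), f (sh m x) = sh m (f x) := by
    intro m
    induction m with
    | zero => intro x; simp
    | succ m ih =>
      intro x
      have e1 : ((m + 1 : ℕ) : ℤ) = 1 + m := by push_cast; ring
      rw [e1, ← sh_sh, ← sh_sh, ← ih]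
      exact hf _
  obtain ⟨k, rfl | rfl⟩ := Int.eq_nat_or_neg m
  · exact h1 k x
  · have := h1 k (sh (-(k : ℤ)) x)
    rw [sh_sh, add_neg_cancel, sh_zero] at this
    rw [this, sh_sh, neg_add_cancel, sh_zero]

/-- Curtis-Hedlund-Lyndon: a shift commuting homeomorphism is local. -/
theorem homeo_local {n : ℕ} (f : (ℤ → Fin n) ≃ₜ (ℤ → Fin n))
    (hf : ∀ x : ℤ → Fin n, f (fun i => x (i + 1)) = fun i => f x (i + 1)) :
    f.toEquiv ∈ AutG (Fin n) := by
  have h1 := chl_comm f hf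
  refine ⟨h1, chl_local f f.continuous h1, chl_local f.symm f.symm.continuous ?_⟩
  intro m x
  apply f.injective
  rw [h1, f.apply_symm_apply, f.apply_symm_apply]

lemma chl_cont {n : ℕ} (g : (ℤ → Fin n) → (ℤ → Fin n)) (hg : LocalMap g) : Continuous g := by
  obtain ⟨r, hr⟩ := hg
  rw [continuous_pi_iff]
  intro m
  rw [continuous_iff_continuousAt]
  intro x
  have h : ∀ i ∈ Finset.Icc (m - (r : ℤ)) (m + r), ∀ᶠ y in 𝓝 x, x i = y i := by
    intro i _
    have hc : Continuous (fun y : ℤ → Fin n => y i) := continuous_apply _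
    have h2 : {a : Fin n | x i = a} ∈ 𝓝 (x i) := (isOpen_discrete _).mem_nhds rfl
    exact hc.continuousAt h2
  have h3 : (fun _ => g x m) =ᶠ[𝓝 x] fun y => g y m := by
    filter_upwards [(Filter.eventually_all_finset _).2 h] with y hy
    exact hr x y m fun i h1 h2 => hy i (Finset.mem_Icc.2 ⟨h1, h2⟩)
  exact continuousAt_const.congr h3

/-- the frozen group and `AutG` -/
noncomputable def chlEquiv (n : ℕ) : {f : (ℤ → Fin n) ≃ₜ (ℤ → Fin n) //
    ∀ x : ℤ → Fin n, f (fun i => x (i + 1)) = fun i => f x (i + 1)} ≃ AutG (Fin n) where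
  toFun f := ⟨f.1.toEquiv, homeo_local f.1 f.2⟩
  invFun g := ⟨{ toEquiv := g.1
                 continuous_toFun := chl_cont _ g.2.2.1
                 continuous_invFun := chl_cont _ g.2.2.2 }, fun x => g.2.1 1 x⟩
  left_inv f := by
    apply Subtype.ext
    apply Homeomorph.ext
    intro x
    rfl
  right_inv g := by
    apply Subtype.ext
    apply Equiv.ext
    intro x
    rfl

/-- The frozen form of an isomorphism gives an isomorphism of the groups `AutG`. -/
theorem transfer_iso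
    (h : ∃ Φ : {f : (ℤ → Fin 2) ≃ₜ (ℤ → Fin 2) //
            ∀ x : ℤ → Fin 2, f (fun i => x (i + 1)) = fun i => f x (i + 1)} ≃
          {g : (ℤ → Fin 3) ≃ₜ (ℤ → Fin 3) //
            ∀ x : ℤ → Fin 3, g (fun i => x (i + 1)) = fun i => g x (i + 1)},
      ∀ a b c : {f : (ℤ → Fin 2) ≃ₜ (ℤ → Fin 2) //
            ∀ x : ℤ → Fin 2, f (fun i => x (i + 1)) = fun i => f x (i + 1)},
        (∀ x : ℤ → Fin 2, c.1 x = a.1 (b.1 x)) →
          ∀ y : ℤ → Fin 3, (Φ c).1 y = (Φ a).1 ((Φ b).1 y)) :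
    Nonempty (AutG (Fin 2) ≃* AutG (Fin 3)) := by
  obtain ⟨Φ, hΦ⟩ := h
  refine ⟨MulEquiv.mk' ((chlEquiv 2).symm.trans (Φ.trans (chlEquiv 3))) ?_⟩
  intro a b
  apply AutG.ext'
  intro y
  exact hΦ ((chlEquiv 2).symm a) ((chlEquiv 2).symm b) ((chlEquiv 2).symm (a * b))
    (fun x => rfl) y

end Pool.Agent.TH27.FS
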