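import Pool.Agent.TH27.FS.Cross
set_option autoImplicit false
namespace Pool.Agent.TH27.FS
open Equiv

/-- the configuration `w | 4 t 4 | ρ` -/
noncomputable def k1cfg {A : Type} (S : MS A) (m : ℕ) (w : Fin 5) (ρ : Fin S.μ → A)
    (t : Fin m → Bool) : ℤ → A := fun j =>
  if j < 0 then S.wd w (j + S.μ)
  else if j < S.μ then S.wd 4 j
  else if h : 0 ≤ j - S.μ ∧ j - S.μ < m then
    (if t ⟨(j - S.μ).toNat, by omega⟩ then S.o else S.e)
  else if j < m + 2 * S.μ then S.wd 4 (j - S.μ - m)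
  else if h : 0 ≤ j - (m + 2 * S.μ) ∧ j - (m + 2 * S.μ) < S.μ then
    ρ ⟨(j - (m + 2 * S.μ)).toNat, by omega⟩
  else S.o

section

variable {A : Type} (S : MS A) (m : ℕ) (w : Fin 5) (ρ : Fin S.μ → A) (t : Fin m → Bool)

lemma k1_w : S.occ w (k1cfg S m w ρ t) (-S.μ) := by
  intro i h0 h1
  unfold k1cfg
  rw [if_pos (by omega)]
  congr 1; ring

lemma k1_4 : S.occ 4 (k1cfg S m w ρ t) 0 := by
  intro i h0 h1
  unfold k1cfg
  rw [if_neg (by omega), if_pos (by omega)]
  congr 1; ring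

lemma k1_mid (i : Fin m) : k1cfg S m w ρ t (S.μ + i) = if t i then S.o else S.e := by
  have := i.2
  unfold k1cfg
  rw [if_neg (by omega), if_neg (by omega), dif_pos (by omega)]
  congr 3
  apply Fin.ext
  simp

lemma k1_44 : S.occ 4 (k1cfg S m w ρ t) (S.μ + m) := by
  intro i h0 h1
  unfold k1cfg
  rw [if_neg (by omega), if_neg (by omega), dif_neg (by omega), if_pos (by omega)]
  congr 1; ring

lemma k1_rho : cont S.μ (k1cfg S m w ρ t) (m + 2 * S.μ) = ρ := by
  funext i
  have := i.2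
  change k1cfg S m w ρ t (m + 2 * S.μ + i) = ρ i
  unfold k1cfg
  rw [if_neg (by omega), if_neg (by omega), dif_neg (by omega), if_neg (by omega),
    dif_pos (by omega)]
  congr 1
  apply Fin.ext
  simp

lemma k1_site (hw : w ≠ 4) : S.siteA w (m + 2 * S.μ) ρ (k1cfg S m w ρ t) 0 := by
  have hμ := S.hμ
  refine ⟨?_, ?_, ?_⟩
  · rw [zero_sub]; exact k1_w S m w ρ t
  · intro q h1 h2 h3
    push_cast at h2
    have e1 := MS.occ_no (k1_w S m w ρ t) h3 (by omega)
    by_cases e2 : q = 0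
    · subst e2
      exact hw (MS.occ_inj h3 (k1_4 S m w ρ t))
    have e3 : (S.μ : ℤ) + m ≤ q := by
      refine MS.occ_clean (p := (S.μ : ℤ)) (n := m) (a := 4) (b := 4) (by rw [sub_self]; exact k1_4 S m w ρ t)
        (k1_44 S m w ρ t) ?_ h3 (by omega)
      intro i
      change ¬ S.bad (k1cfg S m w ρ t (S.μ + i))
      rw [k1_mid]
      split_ifs
      · exact S.ho
      · exact S.he
    by_cases e4 : q = S.μ + m
    · subst e4
      exact hw (MS.occ_inj h3 (k1_44 S m w ρ t))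
    have e5 := MS.occ_no (k1_44 S m w ρ t) h3 (by omega)
    omega
  · have := k1_rho S m w ρ t
    rw [zero_add]
    push_cast
    exact this

end

/-- many contents of gap boxes -/
theorem FA_many {A : Type} (S : MS A) (m : ℕ) {w : Fin 5} (hw : w ≠ 4) (ρ : Fin S.μ → A) :
    ∃ φ : (Fin m → Bool) → (Fin (m + 2 * S.μ) → A), Function.Injective φ ∧
      ∀ t, φ t ∈ (S.FA w (m + 2 * S.μ) ρ).Z := by
  refine ⟨fun t => cont (m + 2 * S.μ) (k1cfg S m w ρ t) 0, ?_, ?_⟩
  · intro t t' h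
    funext i
    have h1 := (cont_eq_iff.1 h) (S.μ + i) (by positivity) (by have := i.2; push_cast; omega)
    rw [zero_add, k1_mid, k1_mid] at h1
    have hoe := S.hoe
    cases h2 : t i <;> cases h3 : t' i <;> simp [h2, h3] at h1 ⊢
    · exact hoe h1.symm
    · exact hoe h1
  · intro t
    exact ⟨_, 0, k1_site S m w ρ t hw, rfl⟩

/-- SIZE LEMMA -/
theorem KR_of_large {A H : Type} [Group H] [Finite H] (S : MS A) (ψ : AutG A →* H) :
    ∃ L : ℕ, ∀ l, L ≤ l → KR S ψ.ker l := by
  classical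
  refine ⟨(Nat.card H + 5) + 2 * S.μ, fun l hl => ?_⟩
  obtain ⟨m, rfl⟩ : ∃ m, l = m + 2 * S.μ := ⟨l - 2 * S.μ, by omega⟩
  have hm : Nat.card H + 5 ≤ m := by omega
  intro w ρ hw a b c ha hb hc habc
  obtain ⟨φ, hφ, hφZ⟩ := FA_many S m hw ρ
  set F := S.FA w (m + 2 * S.μ) ρ with hF
  let X := Fin m → Bool
  have hX : Nat.card X = 2 ^ m := by
    simp [X]
  have hXl : m < Nat.card X := by rw [hX]; exact Nat.lt_two_pow_self
  let ι : X ↪ (Fin (m + 2 * S.μ) → A) := ⟨φ, hφ⟩
  have hOK : ∀ π : Perm X, F.OK (Perm.viaEmbeddingHom ι π) := by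
    intro π z
    by_cases hz : z ∈ Set.range ι
    · obtain ⟨t, rfl⟩ := hz
      rw [Perm.viaEmbeddingHom_apply, Perm.viaEmbedding_apply]
      exact ⟨fun _ => hφZ t, fun _ => hφZ _⟩
    · rw [Perm.viaEmbeddingHom_apply, Perm.viaEmbedding_apply_of_notMem _ _ _ hz]
  let θ : Perm X →* AutG A :=
    { toFun := fun π => F.act ⟨F.ctl (fun _ _ => True) (Perm.viaEmbeddingHom ι π),
        Fam.ctl_mem F.good_true (hOK π)⟩
      map_one' := by
        rw [← map_one F.act]
        congr 1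
        apply Subtype.ext
        change F.ctl (fun _ _ => True) (Perm.viaEmbeddingHom ι 1) = 1
        funext x p
        rw [map_one]
        simp only [Fam.ctl]
        split_ifs <;> rfl
      map_mul' := by
        intro π π'
        rw [← map_mul F.act]
        congr 1
        apply Subtype.ext
        change F.ctl (fun _ _ => True) (Perm.viaEmbeddingHom ι (π * π')) =
          F.ctl (fun _ _ => True) (Perm.viaEmbeddingHom ι π) *
            F.ctl (fun _ _ => True) (Perm.viaEmbeddingHom ι π')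
        rw [Fam.ctl_mul, map_mul] }
  have hnt : Nontrivial (ψ.comp θ).ker := by
    rw [Subgroup.nontrivial_iff_ne_bot]
    intro hc
    have hinj : Function.Injective (ψ.comp θ) := (MonoidHom.ker_eq_bot_iff _).1 hc
    have h1 := Nat.card_le_card_of_injective _ hinj
    rw [Nat.card_perm] at h1
    have h2 := Nat.self_le_factorial (Nat.card X)
    omega
  have hle : alternatingGroup X ≤ (ψ.comp θ).ker :=
    Perm.alternatingGroup_le_of_normal (by omega) hnt
  -- three points
  have hcard : 2 < Fintype.card X := by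
    rw [← Nat.card_eq_fintype_card]; omega
  obtain ⟨x, y, z, hxy, hxz, hyz⟩ := Fintype.two_lt_card_iff.1 hcard
  have hD : D3 x y z := ⟨hxy, hxz, hyz⟩
  have hmem : tc x y z ∈ alternatingGroup X := by
    have e1 : tc x y z = swap x y * swap y z := by
      unfold tc
      congr <;> exact Subsingleton.elim _ _
    rw [e1, Perm.mem_alternatingGroup, map_mul, Perm.sign_swap hxy, Perm.sign_swap hyz]
    rfl
  have h3 := hle hmem
  rw [MonoidHom.mem_ker, MonoidHom.comp_apply] at h3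
  have h4 : θ (tc x y z) ∈ ψ.ker := h3
  have hvia : Perm.viaEmbeddingHom ι (tc x y z) = tc (φ x) (φ y) (φ z) := by
    ext1 u
    by_cases hu : u ∈ Set.range ι
    · obtain ⟨s, rfl⟩ := hu
      rw [Perm.viaEmbeddingHom_apply, Perm.viaEmbedding_apply]
      exact (tc_map hφ hD s).symm
    · rw [Perm.viaEmbeddingHom_apply, Perm.viaEmbedding_apply_of_notMem _ _ _ hu, tc_of_ne]
      · rintro rfl; exact hu ⟨x, rfl⟩
      · rintro rfl; exact hu ⟨y, rfl⟩
      · rintro rfl; exact hu ⟨z, rfl⟩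
  refine InN_tc F.good_true (hφZ x) (hφZ y) (hφZ z) ha hb hc ⟨hφ.ne hxy, hφ.ne hxz, hφ.ne hyz⟩
    habc ⟨θ (tc x y z), h4, fun v => ?_⟩
  rw [← hvia]
  rfl

end Pool.Agent.TH27.FS
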