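import Pool.Agent.TH27.FS.Cross
set_option autoImplicit false
namespace Pool.Agent.TH27.FS
open Equiv

/-- STEP LEMMA -/
theorem KR_step {A : Type} [Finite A] (S : MS A) {N : Subgroup (AutG A)} {l : ℕ}
    (h : KR S N (l + 1)) {w : Fin 5} (hw : w ≠ 4) {ρ : Fin S.μ → A}
    (hρ : ρ ≠ fun i : Fin S.μ => S.wd w (i : ℕ)) {a b c : Fin l → A} (ha : a ∈ (S.FA w l ρ).Z)
    (hb : b ∈ (S.FA w l ρ).Z) (hc : c ∈ (S.FA w l ρ).Z) (habc : D3 a b c) :
    InN N (actf ((S.FA w l ρ).ctl (fun _ _ => True) (tc a b c))) := by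
  have hμ := S.hμ
  have hnow : ∀ (x : ℤ → A) (p : ℤ), cont S.μ x p = ρ → ¬ S.occ w x p := by
    intro x p h1 h2
    apply hρ
    rw [← h1]
    funext i
    exact h2 i (by positivity) (by exact_mod_cast i.2)
  have hgood : ∀ r : A, (S.FA w l ρ).Good (fun x p => True ∧ x (p + l + S.μ) = r) := by
    intro r
    refine ⟨?_, ⟨l + S.μ, ?_⟩, ?_⟩
    · intro x n p _
      rw [sh_apply, show p + l + S.μ + n = p + n + l + S.μ by ring]
    · rintro x y p hxy _ ⟨_, h2⟩
      refine ⟨trivial, ?_⟩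
      rw [← h2]
      push_cast at hxy
      exact (hxy _ (by omega) (by omega)).symm
    · rintro x y hm p hp ⟨_, h2⟩
      refine ⟨trivial, ?_⟩
      rw [← h2]
      apply hm.1
      rintro q hq ⟨h3, h4⟩
      have hp' : S.siteA w l ρ x p := hp
      have hq' : S.siteA w l ρ x q := hq
      by_cases e1 : q ≤ p
      · omega
      · have e2 : ¬ q - S.μ < p + l := by
          intro e3
          exact hp'.2.1 (q - S.μ) (by omega) e3 hq'.1
        by_cases e4 : q - S.μ = p + l
        · have e5 := hq'.1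
          rw [e4] at e5
          exact hnow x _ hp'.2.2 e5
        · omega
  refine InN_label (fun x p => x (p + l + S.μ)) hgood (Fam.ok_tc ha hb hc) fun r => ?_
  let ρ' : Fin S.μ → A := fun i => if h : i.1 + 1 < S.μ then ρ ⟨i.1 + 1, h⟩ else r
  let y : ℤ → A := fun _ => ρ ⟨0, hμ⟩
  have hl : 0 + l ≤ l + 1 := by omega
  have hE := emb_inj (A := A) (l := l) (l' := l + 1) (s := 0) (y := y) hl
  refine cross_InN (F := S.FA w l ρ) (F' := S.FA w (l + 1) ρ') (s := 0) (y := y)
    (C' := fun _ _ => True) hl habc (hgood r) (Fam.good_true _) ha hb hc ?_ ?_ ?_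
  · rintro x p ⟨k1, k2, k3⟩ ⟨_, k4⟩ _
    rw [Nat.cast_zero, sub_zero]
    have k3' : ∀ i : ℕ, (hi : i < S.μ) → x (p + l + i) = ρ ⟨i, hi⟩ := fun i hi => congrFun k3 ⟨i, hi⟩
    refine ⟨⟨k1, ?_, ?_⟩, trivial, ?_⟩
    · intro q h1 h2 h3
      push_cast at h2
      by_cases e1 : q = p + l
      · subst e1
        exact hnow x _ k3 h3
      · exact k2 q h1 (by omega) h3
    · funext i
      change x (p + ((l + 1 : ℕ) : ℤ) + i) = ρ' i
      simp only [ρ']
      by_cases hi : i.1 + 1 < S.μ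
      · rw [dif_pos hi, ← k3' _ hi]
        congr 1; push_cast; ring
      · rw [dif_neg hi, ← k4]
        congr 1
        have := i.2
        push_cast; omega
    · refine cont_emb hl ?_ ?_
      · rw [Nat.cast_zero, add_zero]
      · intro i h1 h2 h3
        have e1 : i = l := by push_cast at h2 h3; omega
        rw [e1]
        have := k3' 0 hμ
        rw [Nat.cast_zero, add_zero] at this
        exact this
  · rintro x p h1 _ h3 _
    rw [Nat.cast_zero, sub_zero] at h1 h3
    obtain ⟨k1, k2, k3⟩ := h1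
    have k3' : ∀ i : ℕ, (hi : i < S.μ) → x (p + ((l + 1 : ℕ) : ℤ) + i) = ρ' ⟨i, hi⟩ :=
      fun i hi => congrFun k3 ⟨i, hi⟩
    have h4 := (emb_cont hl h3).2 l (by positivity) (by push_cast; omega) (by push_cast; omega)
    refine ⟨⟨k1, ?_, ?_⟩, trivial, ?_⟩
    · intro q e1 e2
      exact k2 q e1 (by push_cast; omega)
    · funext i
      change x (p + l + i) = ρ i
      by_cases hi : i.1 = 0
      · have e1 : i = ⟨0, hμ⟩ := Fin.ext hi
        rw [e1]
        change x (p + l + ((0 : ℕ) : ℤ)) = ρ ⟨0, hμ⟩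
        rw [Nat.cast_zero, add_zero]
        exact h4
      · have hi2 := i.2
        have e1 := k3' (i.1 - 1) (by omega)
        simp only [ρ'] at e1
        rw [dif_pos (by omega)] at e1
        have e2 : (⟨i.1 - 1 + 1, by omega⟩ : Fin S.μ) = i := Fin.ext (by simp; omega)
        rw [e2] at e1
        rw [← e1]
        congr 1
        omega
    · have e1 := k3' (S.μ - 1) (by omega)
      simp only [ρ'] at e1
      rw [dif_neg (by omega)] at e1
      rw [← e1]
      congr 1
      omega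
  · intro ea eb ec
    exact h w ρ' hw _ _ _ ea eb ec ⟨hE.ne habc.1, hE.ne habc.2.1, hE.ne habc.2.2⟩

/-- the configuration `M u a v M` -/
noncomputable def k2cfg {A : Type} (T : TB A) (a : Fin T.n → A) : ℤ → A := fun j =>
  if j < -T.S.μ then T.S.wd T.M (j + 2 * T.S.μ)
  else if j < 0 then T.S.wd T.u (j + T.S.μ)
  else if h : 0 ≤ j ∧ j < T.n then a ⟨j.toNat, by omega⟩
  else if j < T.n + T.S.μ then T.S.wd T.v (j - T.n)
  else T.S.wd T.M (j - T.n - T.S.μ)

lemma k2_site {A : Type} (T : TB A) (a : Fin T.n → A) (ha : a ∈ T.Z) :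
    T.site (k2cfg T a) 0 ∧ cont T.n (k2cfg T a) 0 = a := by
  have hμ := T.S.hμ
  have hc : cont T.n (k2cfg T a) 0 = a := by
    funext i
    have := i.2
    change k2cfg T a (0 + i) = a i
    unfold k2cfg
    rw [if_neg (by omega), if_neg (by omega), dif_pos (by omega)]
    congr 1
    apply Fin.ext
    simp
  refine ⟨⟨?_, ?_, ?_, ?_, ?_⟩, hc⟩
  · intro i h1 h2
    unfold k2cfg
    rw [if_pos (by omega)]
    congr 1; ring
  · intro i h1 h2
    unfold k2cfg
    rw [if_neg (by omega), if_pos (by omega)]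
    congr 1; ring
  · rw [hc]; exact ha
  · intro i h1 h2
    unfold k2cfg
    rw [if_neg (by omega), if_neg (by omega), dif_neg (by omega), if_pos (by omega)]
    congr 1; ring
  · intro i h1 h2
    unfold k2cfg
    rw [if_neg (by omega), if_neg (by omega), dif_neg (by omega), if_neg (by omega)]
    congr 1; ring

/-- MARKED BOXES INSIDE GAP BOXES -/
theorem TB_of_FA {A : Type} (T : TB A) {N : Subgroup (AutG A)} [N.Normal] {a b c : Fin T.n → A}
    (ha : a ∈ T.Z) (hb : b ∈ T.Z) (hc : c ∈ T.Z) (habc : D3 a b c) (hN : T.g ha hb hc ∈ N)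
    {a' b' c' : Fin (T.n + 2 * T.S.μ) → A}
    (ha' : a' ∈ (T.S.FA T.M (T.n + 2 * T.S.μ) (fun i : Fin T.S.μ => T.S.wd T.M (i : ℕ))).Z)
    (hb' : b' ∈ (T.S.FA T.M (T.n + 2 * T.S.μ) (fun i : Fin T.S.μ => T.S.wd T.M (i : ℕ))).Z)
    (hc' : c' ∈ (T.S.FA T.M (T.n + 2 * T.S.μ) (fun i : Fin T.S.μ => T.S.wd T.M (i : ℕ))).Z)
    (habc' : D3 a' b' c') :
    InN N (actf ((T.S.FA T.M (T.n + 2 * T.S.μ) (fun i : Fin T.S.μ => T.S.wd T.M (i : ℕ))).ctl (fun _ _ => True)
      (tc a' b' c'))) := by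
  have hμ := T.S.hμ
  set F' := T.S.FA T.M (T.n + 2 * T.S.μ) (fun i : Fin T.S.μ => T.S.wd T.M (i : ℕ)) with hF'
  let y : ℤ → A := fun i => if i < T.S.μ then T.S.wd T.u i else T.S.wd T.v (i - T.S.μ - T.n)
  have hl : T.S.μ + T.n ≤ T.n + 2 * T.S.μ := by omega
  have hE := emb_inj (A := A) (l := T.n) (l' := T.n + 2 * T.S.μ) (s := T.S.μ) (y := y) hl
  have H1 : ∀ x p, T.site x p → F'.site x (p - T.S.μ) ∧
      cont (T.n + 2 * T.S.μ) x (p - T.S.μ) = emb T.n (T.n + 2 * T.S.μ) T.S.μ y (cont T.n x p) := by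
    intro x p hs
    have hs' := hs
    obtain ⟨k1, k2, k3, k4, k5⟩ := hs
    refine ⟨⟨?_, ?_, ?_⟩, ?_⟩
    · rw [show p - T.S.μ - T.S.μ = p - 2 * T.S.μ by ring]
      exact k1
    · intro q h1 h2 h3
      push_cast at h2
      rcases TB.site_occ hs' h3 (by omega) (by omega) with ⟨e1, e2⟩ | ⟨e1, e2⟩ | ⟨e1, e2⟩ | ⟨e1, e2⟩
      · omega
      · exact T.hMu e2
      · exact T.hMv e2
      · omega
    · funext i
      have h1 := k5 i (by positivity) (by exact_mod_cast i.2)
      rw [← h1]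
      change x (p - T.S.μ + ((T.n + 2 * T.S.μ : ℕ) : ℤ) + i) = _
      congr 1; push_cast; ring
    · refine cont_emb hl ?_ ?_
      · rw [sub_add_cancel]
      · intro i h1 h2 h3
        simp only [y]
        by_cases e1 : i < T.S.μ
        · rw [if_pos e1]
          exact k2 i h1 e1
        · rw [if_neg e1]
          have := k4 (i - T.S.μ - T.n) (by omega) (by push_cast at h2; omega)
          rw [← this]
          congr 1; ring
  have key : ∀ z ∈ T.Z, emb T.n (T.n + 2 * T.S.μ) T.S.μ y z ∈ F'.Z := by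
    intro z hz
    obtain ⟨s1, s2⟩ := k2_site T z hz
    obtain ⟨s3, s4⟩ := H1 _ _ s1
    rw [s2] at s4
    rw [← s4]
    exact F'.memZ _ _ s3
  have hcross := cross (F := T.F) (F' := F') (C := fun _ _ => True) (C' := fun _ _ => True)
    (s := T.S.μ) (y := y) hl habc F'.good_true (key a ha) (key b hb) (key c hc)
    (fun x p hs _ _ => ⟨(H1 x p hs).1, trivial, (H1 x p hs).2⟩) (by
      rintro x p ⟨k1, k2, k3⟩ _ h3 h4
      obtain ⟨_, e2⟩ := emb_cont hl h3
      refine ⟨⟨?_, ?_, ?_, ?_, ?_⟩, trivial⟩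
      · rw [show p - 2 * T.S.μ = p - T.S.μ - T.S.μ by ring]
        exact k1
      · intro i h5 h6
        have := e2 i h5 (by push_cast; omega) (by omega)
        simp only [y] at this
        rw [if_pos h6] at this
        exact this
      · rcases h4 with h4 | h4 | h4 <;> rw [h4] <;> assumption
      · intro i h5 h6
        have := e2 (i + T.S.μ + T.n) (by omega) (by push_cast; omega) (by omega)
        simp only [y] at this
        rw [if_neg (by omega)] at this
        rw [show i + T.S.μ + T.n - T.S.μ - T.n = i by ring] at this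
        rw [← this]
        congr 1; ring
      · intro i h5 h6
        have := congrFun k3 ⟨i.toNat, by omega⟩
        change x (p - T.S.μ + ((T.n + 2 * T.S.μ : ℕ) : ℤ) + ((i.toNat : ℕ) : ℤ)) =
          T.S.wd T.M ((i.toNat : ℕ) : ℤ) at this
        rw [Int.toNat_of_nonneg h5] at this
        rw [← this]
        congr 1; push_cast; ring)
  refine InN_tc F'.good_true (key a ha) (key b hb) (key c hc) ha' hb' hc'
    ⟨hE.ne habc.1, hE.ne habc.2.1, hE.ne habc.2.2⟩ habc' ?_
  rw [← hcross]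
  exact ⟨T.g ha hb hc, hN, fun x => rfl⟩

end Pool.Agent.TH27.FS
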