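import Pool.Agent.TH27.FS.Defs

set_option autoImplicit false

namespace Pool.Agent.TH27.FS

/-- points with period `k` -/
def OcPer (A : Type) (k : ℕ) : Type := {x : ℤ → A // ∀ i, x (i + k) = x i}

lemma oc_zmul {A : Type} {k : ℕ} {x : ℤ → A} (h : ∀ i, x (i + k) = x i) (m i : ℤ) :
    x (i + m * k) = x i := by
  induction m using Int.induction_on with
  | zero => simp
  | succ m ih =>
    rw [← ih, ← h (i + m * k)]
    congr 1; ring
  | pred m ih =>
    rw [← ih, ← h (i + (-m - 1) * k)]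
    congr 1; ring

lemma oc_emod {A : Type} {k : ℕ} {x : ℤ → A} (h : ∀ i, x (i + k) = x i) (i : ℤ) :
    x (i % k) = x i := by
  rw [← oc_zmul h (i / k) (i % k)]
  congr 1
  rw [mul_comm]
  exact Int.emod_add_mul_ediv i k

noncomputable def ocEquiv (A : Type) (k : ℕ) : OcPer A k ≃ (ZMod k → A) where
  toFun x := fun c => x.1 (ZMod.cast c : ℤ)
  invFun u := ⟨fun i => u (i : ZMod k), by intro i; simp⟩
  left_inv x := by
    apply Subtype.ext
    funext i
    change x.1 (ZMod.cast (i : ZMod k) : ℤ) = x.1 i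
    rw [ZMod.coe_intCast, oc_emod x.2]
  right_inv u := by
    funext c
    change u ((ZMod.cast c : ℤ) : ZMod k) = u c
    rw [ZMod.intCast_zmod_cast]

lemma oc_card (A : Type) [Finite A] (k : ℕ) (hk : 0 < k) :
    Nat.card (OcPer A k) = Nat.card A ^ k := by
  have : NeZero k := ⟨hk.ne'⟩
  rw [Nat.card_congr (ocEquiv A k), Nat.card_fun, Nat.card_zmod]

lemma oc_finite (A : Type) [Finite A] {k : ℕ} (hk : 0 < k) : Finite (OcPer A k) := by
  have : NeZero k := ⟨hk.ne'⟩
  exact Finite.of_equiv _ (ocEquiv A k).symm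

def ocInc (A : Type) (k : ℕ) (x : PP A k) : OcPer A k := ⟨x.1, x.2.1⟩

lemma ocInc_inj (A : Type) (k : ℕ) : Function.Injective (ocInc A k) := by
  intro x y h
  exact Subtype.ext (congrArg (fun z : OcPer A k => z.1) h)

lemma pp_finite (A : Type) [Finite A] {k : ℕ} (hk : 0 < k) : Finite (PP A k) := by
  have := oc_finite A hk
  exact Finite.of_injective _ (ocInc_inj A k)

theorem orb_finite (A : Type) [Finite A] {k : ℕ} (hk : 0 < k) : Finite (Orb A k) := by
  have := pp_finite A hk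
  exact Quotient.finite _

lemma pp_card (A : Type) [Finite A] {k : ℕ} (hk : 0 < k) :
    Nat.card (PP A k) = k * Nat.card (Orb A k) := by
  have e : Fin k × Orb A k ≃ PP A k := by
    refine Equiv.ofBijective (fun p => (⟨sh (p.1 : ℕ) (Quotient.out p.2).1, ?_⟩ : PP A k)) ⟨?_, ?_⟩
    · have h := (Quotient.out p.2).2
      refine ⟨fun i => ?_, fun s h1 h2 => ?_⟩
      · simp only [sh_apply]
        rw [← h.1 (i + (p.1 : ℕ))]
        ring_nf
      · obtain ⟨i, hi⟩ := h.2 s h1 h2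
        refine ⟨i - (p.1 : ℕ), ?_⟩
        simp only [sh_apply]
        have e1 : i - ((p.1 : ℕ) : ℤ) + s + (p.1 : ℕ) = i + s := by ring
        have e2 : i - ((p.1 : ℕ) : ℤ) + (p.1 : ℕ) = i := by ring
        rw [e1, e2]; exact hi
    · rintro ⟨j, o⟩ ⟨j', o'⟩ h
      have h1 : sh (j : ℕ) (Quotient.out o).1 = sh (j' : ℕ) (Quotient.out o').1 :=
        congrArg (fun z : PP A k => z.1) h
      have ho : o = o' := by
        rw [← Quotient.out_eq o, ← Quotient.out_eq o']
        apply Quotient.sound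
        refine ⟨(j : ℕ) - (j' : ℕ), ?_⟩
        have := congrArg (sh (-((j' : ℕ) : ℤ))) h1
        rw [sh_sh, sh_sh, neg_add_cancel, sh_zero] at this
        rw [← this]
        congr 1; ring
      subst ho
      have key : ∀ a b : Fin k, a < b → sh (a : ℕ) (Quotient.out o).1 = sh (b : ℕ) (Quotient.out o).1 →
          False := by
        intro a b hab h2
        have h3 := (Quotient.out o).2
        have hab' : (a : ℕ) < b := hab
        obtain ⟨i, hi⟩ := h3.2 (b - a) (by omega) (by have := b.2; omega)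
        apply hi
        have h4 := congrFun h2 (i - (a : ℕ))
        simp only [sh_apply] at h4
        have e2 : i - ((a : ℕ) : ℤ) + (a : ℕ) = i := by ring
        rw [e2] at h4
        rw [h4, Nat.cast_sub hab'.le]
        ring_nf
      rcases lt_trichotomy j j' with h2 | h2 | h2
      · exact (key _ _ h2 h1).elim
      · rw [h2]
      · exact (key _ _ h2 h1.symm).elim
    · intro y
      let o : Orb A k := Quotient.mk _ y
      have : Quotient.out o ≈ y := Quotient.exact (Quotient.out_eq o)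
      obtain ⟨n, hn⟩ := this
      have hk' : (0 : ℤ) < k := by exact_mod_cast hk
      have hlt : (n % k).toNat < k := by
        have := Int.emod_lt_of_pos n hk'
        have := Int.emod_nonneg n hk'.ne'
        omega
      refine ⟨(⟨(n % k).toNat, hlt⟩, o), ?_⟩
      apply Subtype.ext
      change sh (((n % k).toNat : ℕ) : ℤ) (Quotient.out o).1 = y.1
      rw [hn]
      funext i
      simp only [sh_apply]
      rw [Int.toNat_of_nonneg (Int.emod_nonneg n hk'.ne')]
      rw [← oc_zmul (Quotient.out o).2.1 (n / k) (i + n % k)]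
      have h5 := Int.emod_add_mul_ediv n k
      have h6 : i + n % (k : ℤ) + n / (k : ℤ) * (k : ℤ) = i + n := by linarith
      rw [h6]
  rw [← Nat.card_congr e, Nat.card_prod, Nat.card_fin]

lemma oc_gcd {A : Type} {k s : ℕ} {x : ℤ → A} (hk : ∀ i, x (i + k) = x i)
    (hs : ∀ i, x (i + s) = x i) : ∀ i, x (i + (Nat.gcd s k : ℕ)) = x i := by
  intro i
  have h := Nat.gcd_eq_gcd_ab s k
  rw [h, ← add_assoc, mul_comm (k : ℤ), oc_zmul hk, mul_comm (s : ℤ), oc_zmul hs]

lemma oc_cover {A : Type} {k : ℕ} {x : ℤ → A} (hk : ∀ i, x (i + k) = x i) (h0 : 0 < k) :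
    LP k x ∨ ∃ j : Fin (k / 2), ∀ i, x (i + ((j : ℕ) + 1 : ℕ)) = x i := by
  by_cases h : LP k x
  · exact Or.inl h
  · right
    have : ∃ s : ℕ, 0 < s ∧ s < k ∧ ∀ i, x (i + s) = x i := by
      by_contra hc
      apply h
      refine ⟨hk, fun s h1 h2 => ?_⟩
      by_contra h3
      push Not at h3
      exact hc ⟨s, h1, h2, h3⟩
    obtain ⟨s, h1, h2, h3⟩ := this
    have hg := oc_gcd hk h3
    have hpos : 0 < Nat.gcd s k := Nat.gcd_pos_of_pos_left _ h1
    have hle : Nat.gcd s k ≤ s := Nat.gcd_le_left _ h1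
    obtain ⟨c, hc⟩ := Nat.gcd_dvd_right s k
    have hc2 : 2 ≤ c := by
      by_contra hcc
      interval_cases c
      · omega
      · omega
    have : Nat.gcd s k ≤ k / 2 := by
      rw [Nat.le_div_iff_mul_le (by norm_num)]
      calc Nat.gcd s k * 2 ≤ Nat.gcd s k * c := Nat.mul_le_mul_left _ hc2
        _ = k := hc.symm
    refine ⟨⟨Nat.gcd s k - 1, by omega⟩, ?_⟩
    have e : Nat.gcd s k - 1 + 1 = Nat.gcd s k := by omega
    simpa [e] using hg

lemma oc_geom (q : ℕ) (hq : 2 ≤ q) (m : ℕ) : ∑ j ∈ Finset.range m, q ^ (j + 1) ≤ q ^ (m + 1) := by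
  induction m with
  | zero => simp
  | succ m ih =>
    rw [Finset.sum_range_succ]
    calc _ ≤ q ^ (m + 1) + q ^ (m + 1) := Nat.add_le_add_right ih _
      _ = 2 * q ^ (m + 1) := by ring
      _ ≤ q * q ^ (m + 1) := Nat.mul_le_mul_right _ hq
      _ = q ^ (m + 1 + 1) := by ring

lemma orb_upper (A : Type) [Finite A] {k : ℕ} (hk : 0 < k) :
    k * Nat.card (Orb A k) ≤ Nat.card A ^ k := by
  have := oc_finite A hk
  rw [← pp_card A hk, ← oc_card A k hk]
  exact Nat.card_le_card_of_injective _ (ocInc_inj A k)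

lemma orb_lower (A : Type) [Finite A] (hA : 2 ≤ Nat.card A) {k : ℕ} (hk : 0 < k) :
    Nat.card A ^ k ≤ k * Nat.card (Orb A k) + Nat.card A ^ (k / 2 + 1) := by
  have := pp_finite A hk
  have : ∀ j : Fin (k / 2), Finite (OcPer A ((j : ℕ) + 1)) := fun j => oc_finite A (Nat.succ_pos _)
  let T : Type := PP A k ⊕ (Σ j : Fin (k / 2), OcPer A ((j : ℕ) + 1))
  let g : T → (ℤ → A) := Sum.elim (fun x => x.1) (fun x => x.2.1)
  have hex : ∀ x : OcPer A k, ∃ y : T, g y = x.1 := by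
    intro x
    rcases oc_cover x.2 hk with h | ⟨j, h⟩
    · exact ⟨Sum.inl ⟨x.1, h⟩, rfl⟩
    · exact ⟨Sum.inr ⟨j, ⟨x.1, h⟩⟩, rfl⟩
  choose f hf using hex
  have hinj : Function.Injective f := by
    intro x y h
    apply Subtype.ext
    rw [← hf x, ← hf y, h]
  have h1 := Nat.card_le_card_of_injective f hinj
  rw [oc_card A k hk] at h1
  have h2 : Nat.card T = k * Nat.card (Orb A k) + ∑ j ∈ Finset.range (k / 2), Nat.card A ^ (j + 1) := by
    rw [Nat.card_sum, Nat.card_sigma, pp_card A hk]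
    congr 1
    rw [← Fin.sum_univ_eq_sum_range (fun j => Nat.card A ^ (j + 1))]
    exact Finset.sum_congr rfl fun j _ => oc_card A _ (Nat.succ_pos _)
  rw [h2] at h1
  exact h1.trans (Nat.add_le_add_left (oc_geom _ hA _) _)

lemma oc_dom2 (k : ℕ) (hk : 10 ≤ k) : (k + 1) * 2 ^ ((k + 1) / 2 + 1) ≤ 2 ^ k := by
  obtain ⟨l, rfl⟩ := Nat.exists_eq_add_of_le hk
  induction l using Nat.twoStepInduction with
  | zero => norm_num
  | one => norm_num
  | more l ih _ =>
    have ih := ih (by omega)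
    have e : (10 + (l + 2) + 1) / 2 + 1 = ((10 + l + 1) / 2 + 1) + 1 := by omega
    rw [e, pow_succ]
    have e2 : 2 ^ (10 + (l + 2)) = 4 * 2 ^ (10 + l) := by ring
    rw [e2]
    nlinarith [ih, Nat.zero_le (2 ^ ((10 + l + 1) / 2 + 1) * l), Nat.pow_pos (n := (10 + l + 1) / 2 + 1) (a := 2) (by norm_num)]

lemma oc_dom3 (k : ℕ) (hk : 10 ≤ k) : (k + 1) * 3 ^ ((k + 1) / 2 + 1) ≤ 3 ^ k := by
  obtain ⟨l, rfl⟩ := Nat.exists_eq_add_of_le hk
  induction l using Nat.twoStepInduction with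
  | zero => norm_num
  | one => norm_num
  | more l ih _ =>
    have ih := ih (by omega)
    have e : (10 + (l + 2) + 1) / 2 + 1 = ((10 + l + 1) / 2 + 1) + 1 := by omega
    rw [e, pow_succ]
    have e2 : 3 ^ (10 + (l + 2)) = 9 * 3 ^ (10 + l) := by ring
    rw [e2]
    nlinarith [ih, Nat.zero_le (3 ^ ((10 + l + 1) / 2 + 1) * l), Nat.pow_pos (n := (10 + l + 1) / 2 + 1) (a := 3) (by norm_num)]

lemma oc_large (A : Type) [Finite A] (hA : 2 ≤ Nat.card A) {k : ℕ} (hk : 10 ≤ k)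
    (hD : (k + 1) * Nat.card A ^ ((k + 1) / 2 + 1) ≤ Nat.card A ^ k) : 6 ≤ Nat.card (Orb A k) := by
  by_contra h
  push Not at h
  have h1 := orb_lower A hA (k := k) (by omega)
  have h2 : Nat.card A ^ (k / 2 + 1) ≤ Nat.card A ^ ((k + 1) / 2 + 1) :=
    Nat.pow_le_pow_right (by omega) (by omega)
  have h3 : k * Nat.card (Orb A k) ≤ k * 5 := Nat.mul_le_mul_left _ (by omega)
  have h4 : 2 ^ 6 ≤ Nat.card A ^ ((k + 1) / 2 + 1) :=
    (Nat.pow_le_pow_left hA 6).trans (Nat.pow_le_pow_right (by omega) (by omega))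
  nlinarith

theorem orb_two_large (k : ℕ) (hk : 10 ≤ k) : 6 ≤ Nat.card (Orb (Fin 2) k) := by
  refine oc_large (Fin 2) (by simp) hk ?_
  rw [Nat.card_fin]
  exact oc_dom2 k hk

theorem orb_three_large (k : ℕ) (hk : 10 ≤ k) : 6 ≤ Nat.card (Orb (Fin 3) k) := by
  refine oc_large (Fin 3) (by simp) hk ?_
  rw [Nat.card_fin]
  exact oc_dom3 k hk

lemma oc_b_lt (k : ℕ) (hk : 10 ≤ k) : Nat.card (Orb (Fin 2) k) < Nat.card (Orb (Fin 2) (k + 1)) := by
  by_contra h
  push Not at h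
  have h1 := orb_lower (Fin 2) (by simp) (k := k + 1) (by omega)
  have h2 := orb_upper (Fin 2) (k := k) (by omega)
  rw [Nat.card_fin] at h1 h2
  have hD := oc_dom2 k hk
  have h3 : (k + 1) * Nat.card (Orb (Fin 2) (k + 1)) ≤ (k + 1) * Nat.card (Orb (Fin 2) k) :=
    Nat.mul_le_mul_left _ h
  have h4 : 2 ^ (k + 1) ≤ (k + 1) * Nat.card (Orb (Fin 2) k) + 2 ^ ((k + 1) / 2 + 1) := by omega
  have h5 : k * 2 ^ (k + 1) ≤ (k + 1) * 2 ^ k + k * 2 ^ ((k + 1) / 2 + 1) := by
    calc k * 2 ^ (k + 1) ≤ k * ((k + 1) * Nat.card (Orb (Fin 2) k) + 2 ^ ((k + 1) / 2 + 1)) :=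
          Nat.mul_le_mul_left _ h4
      _ = (k + 1) * (k * Nat.card (Orb (Fin 2) k)) + k * 2 ^ ((k + 1) / 2 + 1) := by ring
      _ ≤ _ := Nat.add_le_add_right (Nat.mul_le_mul_left _ h2) _
  have h6 : 0 < 2 ^ k := by positivity
  rw [pow_succ] at h5
  have h7 : k * 2 ^ ((k + 1) / 2 + 1) ≤ 2 ^ k :=
    (Nat.mul_le_mul_right _ (Nat.le_succ k)).trans hD
  have h8 : 10 * 2 ^ k ≤ k * 2 ^ k := Nat.mul_le_mul_right _ hk
  linarith

lemma oc_b_le (k : ℕ) (hk : 10 ≤ k) : Nat.card (Orb (Fin 2) (k + 1)) ≤ 2 * Nat.card (Orb (Fin 2) k) := by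
  by_contra h
  push Not at h
  have h1 := orb_lower (Fin 2) (by simp) (k := k) (by omega)
  have h2 := orb_upper (Fin 2) (k := k + 1) (by omega)
  rw [Nat.card_fin] at h1 h2
  have hD := oc_dom2 k hk
  have h7 : 2 ^ (k / 2 + 1) ≤ 2 ^ ((k + 1) / 2 + 1) :=
    Nat.pow_le_pow_right (by omega) (by omega)
  have h3 : (k + 1) * (2 * Nat.card (Orb (Fin 2) k)) < (k + 1) * Nat.card (Orb (Fin 2) (k + 1)) :=
    Nat.mul_lt_mul_of_pos_left h (by omega)
  have h4 : (k + 1) * (2 * Nat.card (Orb (Fin 2) k)) < 2 ^ (k + 1) := lt_of_lt_of_le h3 h2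
  rw [pow_succ] at h4
  nlinarith

lemma oc_a_lt (k : ℕ) (hk : 10 ≤ k) : 2 * Nat.card (Orb (Fin 3) k) < Nat.card (Orb (Fin 3) (k + 1)) := by
  by_contra h
  push Not at h
  have h1 := orb_lower (Fin 3) (by simp) (k := k + 1) (by omega)
  have h2 := orb_upper (Fin 3) (k := k) (by omega)
  rw [Nat.card_fin] at h1 h2
  have hD := oc_dom3 k hk
  have h3 : (k + 1) * Nat.card (Orb (Fin 3) (k + 1)) ≤ (k + 1) * (2 * Nat.card (Orb (Fin 3) k)) :=
    Nat.mul_le_mul_left _ h
  have h4 : 3 ^ (k + 1) ≤ (k + 1) * (2 * Nat.card (Orb (Fin 3) k)) + 3 ^ ((k + 1) / 2 + 1) := by omega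
  have h5 : k * 3 ^ (k + 1) ≤ 2 * (k + 1) * 3 ^ k + k * 3 ^ ((k + 1) / 2 + 1) := by
    calc k * 3 ^ (k + 1) ≤ k * ((k + 1) * (2 * Nat.card (Orb (Fin 3) k)) + 3 ^ ((k + 1) / 2 + 1)) :=
          Nat.mul_le_mul_left _ h4
      _ = 2 * (k + 1) * (k * Nat.card (Orb (Fin 3) k)) + k * 3 ^ ((k + 1) / 2 + 1) := by ring
      _ ≤ _ := Nat.add_le_add_right (Nat.mul_le_mul_left _ h2) _
  have h6 : 0 < 3 ^ k := by positivity
  rw [pow_succ] at h5
  have h7 : k * 3 ^ ((k + 1) / 2 + 1) ≤ 3 ^ k :=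
    (Nat.mul_le_mul_right _ (Nat.le_succ k)).trans hD
  have h8 : 10 * 3 ^ k ≤ k * 3 ^ k := Nat.mul_le_mul_right _ hk
  linarith

/-- The orbit counting functions of the full 2-shift and of the full 3-shift: not all
large values of the first are values of the second. -/
theorem no_common_orbit_counts :
    ¬ ∃ k₀ : ℕ, ∀ k ≥ k₀, ∃ m : ℕ, 1 ≤ m ∧
      Nat.card (Orb (Fin 2) k) = Nat.card (Orb (Fin 3) m) := by
  rintro ⟨k₀, h⟩
  set b : ℕ → ℕ := fun k => Nat.card (Orb (Fin 2) k) with hb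
  set a : ℕ → ℕ := fun k => Nat.card (Orb (Fin 3) k) with ha
  have hb1 : ∀ k, 10 ≤ k → b k < b (k + 1) := oc_b_lt
  have hb2 : ∀ k, 10 ≤ k → b (k + 1) ≤ 2 * b k := oc_b_le
  have ha1 : ∀ k, 10 ≤ k → 2 * a k < a (k + 1) := oc_a_lt
  have hbk : ∀ l, l ≤ b (10 + l) := by
    intro l
    induction l with
    | zero => simp
    | succ l ih =>
      have := hb1 (10 + l) (by omega)
      have e : 10 + (l + 1) = 10 + l + 1 := by omega
      rw [e]; omega
  have hamono : ∀ m n, 10 ≤ m → m ≤ n → a m ≤ a n := by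
    intro m n hm hmn
    induction n, hmn using Nat.le_induction with
    | base => exact le_rfl
    | succ n hn ih =>
      have := ha1 n (by omega)
      omega
  obtain ⟨M, hM⟩ : ∃ M, ∀ m, m < 10 → a m ≤ M :=
    ⟨∑ m ∈ Finset.range 10, a m, fun m hm =>
      Finset.single_le_sum (f := a) (fun _ _ => Nat.zero_le _) (Finset.mem_range.2 hm)⟩
  set k := 10 + (M + 1 + k₀) with hk
  have hbM : M < b k := by
    have : M + 1 + k₀ ≤ b k := hbk (M + 1 + k₀)
    omega
  have hbM' : M < b (k + 1) := lt_trans hbM (hb1 k (by omega))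
  obtain ⟨m, -, hm⟩ := h k (by omega)
  obtain ⟨m', -, hm'⟩ := h (k + 1) (by omega)
  change b k = a m at hm
  change b (k + 1) = a m' at hm'
  have h10 : 10 ≤ m := by
    by_contra hc
    have := hM m (by omega)
    omega
  have h10' : 10 ≤ m' := by
    by_contra hc
    have := hM m' (by omega)
    omega
  have h1 := hb1 k (by omega)
  have h2 := hb2 k (by omega)
  have hlt : m < m' := by
    by_contra hc
    have := hamono m' m h10' (by omega)
    omega
  have h3 := hamono (m + 1) m' (by omega) hlt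
  have h4 := ha1 m h10
  omega

end Pool.Agent.TH27.FS
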