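import Pool.Agent.TH86.IL.Defs

set_option autoImplicit false

namespace Pool.Agent.TH86.IL

universe u

section

open scoped Classical in
/-- the certificate given by a ball -/
theorem QF_ball {X : Type u} (E : GM X) (o : X) (r N : ℕ) (hN : 2 * N ≤ E.V r) :
    QF E (2 * r) N := by
  have hpar : ∀ x, ∃ z, (x = o → z = o) ∧ (x ≠ o → E.d o z + 1 = E.d o x ∧ E.d z x = 1) := by
    intro x
    by_cases hx : x = o
    · exact ⟨o, fun _ => rfl, fun h => absurd hx h⟩
    · obtain ⟨m, hm⟩ : ∃ m, E.d o x = m + 1 := by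
        rcases Nat.eq_zero_or_pos (E.d o x) with h0 | h0
        · exact absurd (E.d_eq _ _ h0).symm hx
        · exact ⟨E.d o x - 1, by omega⟩
      obtain ⟨z, h1, h2⟩ := E.d_geo o x m hm
      exact ⟨z, fun h => absurd h hx, fun _ => ⟨by omega, h2⟩⟩
  choose par hpar0 hpar1 using hpar
  have hd : ∀ x, E.d o (par x) = E.d o x - 1 := by
    intro x
    by_cases hx : x = o
    · rw [hpar0 x hx, hx, E.d_self]
    · have := (hpar1 x hx).1
      omega
  have hdk : ∀ k x, E.d o (par^[k] x) = E.d o x - k := by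
    intro k
    induction k with
    | zero => intro x; simp
    | succ k ih =>
      intro x
      rw [Function.iterate_succ_apply', hd, ih]
      omega
  set F : Finset X := (E.ball_fin o r).toFinset with hF
  have memF : ∀ x, x ∈ F ↔ E.d o x ≤ r := by intro x; simp [hF]
  have hFc : F.card = E.V r := by
    rw [← E.ball_card o r, Set.ncard_eq_toFinset_card _ (E.ball_fin o r)]
  have hFpar : ∀ k x, x ∈ F → par^[k] x ∈ F := by
    intro k x hx
    rw [memF] at hx ⊢
    rw [hdk]; omega
  set P : Finset (X × ℕ) := (F ×ˢ Finset.range r).filter (fun p => p.2 < E.d o p.1) with hP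
  let f : X × ℕ → X × X := fun p => (par^[p.2] p.1, par^[p.2 + 1] p.1)
  let cnt : X → X → ℕ := fun x y => (P.filter (fun p => f p = (x, y))).card
  have hcnt : ∀ A B : Finset X, ∑ x ∈ A, ∑ y ∈ B, cnt x y =
      (P.filter (fun p => f p ∈ A ×ˢ B)).card := by
    intro A B
    have H : ∀ p ∈ P.filter (fun p => f p ∈ A ×ˢ B), f p ∈ A ×ˢ B :=
      fun p hp => (Finset.mem_filter.1 hp).2
    rw [Finset.card_eq_sum_card_fiberwise (s := P.filter (fun p => f p ∈ A ×ˢ B)) (f := f)
      (t := A ×ˢ B) H, Finset.sum_product]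
    refine Finset.sum_congr rfl fun x hx => Finset.sum_congr rfl fun y hy => ?_
    change (P.filter (fun p => f p = (x, y))).card = _
    congr 1
    ext p
    simp only [Finset.mem_filter]
    constructor
    · rintro ⟨h1, h2⟩
      refine ⟨⟨h1, ?_⟩, h2⟩
      rw [h2]; exact Finset.mem_product.2 ⟨hx, hy⟩
    · rintro ⟨⟨h1, -⟩, h2⟩
      exact ⟨h1, h2⟩
  have hPc : P.card ≤ r * F.card := by
    calc P.card ≤ (F ×ˢ Finset.range r).card := Finset.card_filter_le _ _
      _ = r * F.card := by rw [Finset.card_product, Finset.card_range, mul_comm]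
  have hcnt_ne : ∀ x y, cnt x y ≠ 0 → E.d x y ≤ 1 := by
    intro x y h
    obtain ⟨p, hp⟩ := Finset.card_pos.1 (Nat.pos_of_ne_zero h)
    rw [Finset.mem_filter] at hp
    obtain ⟨h1, h2⟩ := hp
    have h3 : p.2 < E.d o p.1 := (Finset.mem_filter.1 h1).2
    have hx : x = par^[p.2] p.1 := (congrArg Prod.fst h2).symm
    have hy : y = par^[p.2 + 1] p.1 := (congrArg Prod.snd h2).symm
    have hxo : x ≠ o := by
      intro h4
      have := hdk p.2 p.1
      rw [← hx, h4, E.d_self] at this
      omega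
    rw [Function.iterate_succ_apply', ← hx] at hy
    rw [hy, E.d_symm, (hpar1 x hxo).2]
  refine ⟨F, fun x y => (cnt x y : ℝ) + cnt y x, ⟨o, ?_⟩, ?_, ?_, ?_, ?_⟩
  · rw [memF, E.d_self]; exact Nat.zero_le _
  · intro x y; positivity
  · intro x y h
    by_cases h1 : cnt x y = 0
    · have h2 : cnt y x ≠ 0 := by
        intro h2
        apply h
        simp [h1, h2]
      rw [E.d_symm]; exact hcnt_ne y x h2
    · exact hcnt_ne x y h1
  · have h1 : ∑ x ∈ F, ∑ y ∈ F, cnt x y ≤ P.card := by
      rw [hcnt]; exact Finset.card_filter_le _ _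
    have h2 : ∑ x ∈ F, ∑ y ∈ F, cnt y x ≤ P.card := by
      rw [Finset.sum_comm]; exact h1
    have h3 : ∑ x ∈ F, ∑ y ∈ F, ((cnt x y : ℝ) + cnt y x) =
        ((∑ x ∈ F, ∑ y ∈ F, cnt x y : ℕ) : ℝ) + ((∑ x ∈ F, ∑ y ∈ F, cnt y x : ℕ) : ℝ) := by
      push_cast
      rw [← Finset.sum_add_distrib]
      exact Finset.sum_congr rfl fun x _ => Finset.sum_add_distrib
    rw [h3]
    have h4 : (∑ x ∈ F, ∑ y ∈ F, cnt x y) + (∑ x ∈ F, ∑ y ∈ F, cnt y x) ≤ 2 * (r * F.card) := by
      omega
    calc _ = (((∑ x ∈ F, ∑ y ∈ F, cnt x y) + (∑ x ∈ F, ∑ y ∈ F, cnt y x) : ℕ) : ℝ) := by push_cast; rfl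
      _ ≤ ((2 * (r * F.card) : ℕ) : ℝ) := by exact_mod_cast h4
      _ = 2 * r * F.card := by push_cast; ring
  · intro S hS hSN
    -- first change
    have hfirst : ∀ (Q : X → Prop) (a : X), Q a → ¬ Q o → ∃ k, k < E.d o a ∧ Q (par^[k] a) ∧
        ¬ Q (par^[k + 1] a) := by
      intro Q a ha ho
      by_contra hc
      push Not at hc
      have : ∀ k, k ≤ E.d o a → Q (par^[k] a) := by
        intro k
        induction k with
        | zero => intro _; exact ha
        | succ k ih => intro hk; exact hc k (by omega) (ih (by omega))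
      apply ho
      have h1 := this _ le_rfl
      have h2 := hdk (E.d o a) a
      rw [Nat.sub_self] at h2
      rwa [← E.d_eq _ _ h2] at h1
    have key : ∀ (A : Finset X), A ⊆ F → ∀ (C D : Finset X), (∀ a ∈ A, ∃ k, k < E.d o a ∧ f (a, k) ∈ C ×ˢ D) →
        A.card ≤ ∑ x ∈ C, ∑ y ∈ D, cnt x y := by
      intro A hAF C D hA
      choose! k hk1 hk2 using hA
      rw [hcnt]
      refine Finset.card_le_card_of_injOn (fun a => (a, k a)) ?_ ?_
      · intro a ha
        have ha' : a ∈ A := ha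
        have h1 := hk1 a ha'
        have h2 := hAF ha'
        have h3 := (memF a).1 h2
        simp only [Finset.coe_filter, Set.mem_ofPred_eq, hP, Finset.mem_filter, Finset.mem_product,
          Finset.mem_range]
        exact ⟨⟨⟨h2, by omega⟩, h1⟩, Finset.mem_product.1 (hk2 a ha')⟩
      · intro a _ b _ hab
        exact congrArg Prod.fst hab
    by_cases ho : o ∈ S
    · have h1 : (F.filter (fun y => y ∉ S)).card ≤ ∑ x ∈ F.filter (fun y => y ∉ S), ∑ y ∈ S, cnt x y := by
        refine key _ (Finset.filter_subset _ _) _ _ ?_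
        intro a ha
        rw [Finset.mem_filter] at ha
        obtain ⟨k, hk1, hk2, hk3⟩ := hfirst (fun x => x ∉ S) a ha.2 (by simpa using ho)
        refine ⟨k, hk1, Finset.mem_product.2 ⟨Finset.mem_filter.2 ⟨hFpar k a ha.1, hk2⟩, ?_⟩⟩
        exact not_not.1 hk3
      have h2 : S.card + (F.filter (fun y => y ∉ S)).card = F.card := by
        have := Finset.card_filter_add_card_filter_not (s := F) (fun y => y ∈ S)
        have h3 : F.filter (fun y => y ∈ S) = S := by
          ext x
          rw [Finset.mem_filter]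
          exact ⟨fun h => h.2, fun h => ⟨hS h, h⟩⟩
        rw [h3] at this
        exact this
      have h3 : S.card ≤ (F.filter (fun y => y ∉ S)).card := by omega
      rw [Finset.sum_comm] at h1
      calc (S.card : ℝ) ≤ ((∑ x ∈ S, ∑ y ∈ F.filter (fun y => y ∉ S), cnt y x : ℕ) : ℝ) := by
            exact_mod_cast h3.trans h1
        _ = ∑ x ∈ S, ∑ y ∈ F.filter (fun y => y ∉ S), (cnt y x : ℝ) := by push_cast; rfl
        _ ≤ _ := Finset.sum_le_sum fun x _ => Finset.sum_le_sum fun y _ => by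
            have : (0 : ℝ) ≤ cnt x y := Nat.cast_nonneg _
            linarith
    · have h1 : S.card ≤ ∑ x ∈ S, ∑ y ∈ F.filter (fun y => y ∉ S), cnt x y := by
        refine key _ hS _ _ ?_
        intro a ha
        obtain ⟨k, hk1, hk2, hk3⟩ := hfirst (fun x => x ∈ S) a ha ho
        exact ⟨k, hk1, Finset.mem_product.2 ⟨hk2, Finset.mem_filter.2 ⟨hFpar (k + 1) a (hS ha), hk3⟩⟩⟩
      calc (S.card : ℝ) ≤ ((∑ x ∈ S, ∑ y ∈ F.filter (fun y => y ∉ S), cnt x y : ℕ) : ℝ) := by
            exact_mod_cast h1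
        _ = ∑ x ∈ S, ∑ y ∈ F.filter (fun y => y ∉ S), (cnt x y : ℝ) := by push_cast; rfl
        _ ≤ _ := Finset.sum_le_sum fun x _ => Finset.sum_le_sum fun y _ => by
            have : (0 : ℝ) ≤ cnt y x := Nat.cast_nonneg _
            linarith

end

end Pool.Agent.TH86.IL
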