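import Pool.Agent.TH86.IL.Defs

set_option autoImplicit false

namespace Pool.Agent.TH86.IL

universe u

/-- a point on a geodesic at prescribed distance -/
lemma il_geo {X : Type u} (E : GM X) (x y : X) (k : ℕ) (hk : k ≤ E.d x y) :
    ∃ z, E.d x z = k ∧ E.d x z + E.d z y = E.d x y := by
  obtain ⟨l, hl⟩ := Nat.exists_eq_add_of_le hk
  induction l generalizing y with
  | zero => exact ⟨y, by omega, by rw [E.d_self]; omega⟩
  | succ l ih =>
    obtain ⟨z, h1, h2⟩ := E.d_geo x y (k + l) (by omega)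
    obtain ⟨w, h3, h4⟩ := ih z (by omega) (by omega)
    refine ⟨w, h3, ?_⟩
    have h5 := E.d_tri x w y
    have h6 := E.d_tri w z y
    omega

/-- walking back to the origin along a geodesic -/
lemma il_walk {X : Type u} (E : GM X) (o m y : X) (Δ : ℕ) :
    ∀ (n : ℕ) (z : X), E.d o z = n → E.d o z + E.d z y = E.d o y →
      (∃ w, E.d o w + E.d w y = E.d o y ∧ E.d m w ≤ Δ) ∨ Conn E m Δ z o := by
  intro n
  induction n with
  | zero =>
    intro z hz _
    right
    rw [E.d_eq _ _ hz]
    exact Relation.ReflTransGen.refl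
  | succ n ih =>
    intro z hz hzy
    obtain ⟨z', h1, h2⟩ := E.d_geo o z n hz
    have h3 : E.d o z' + E.d z' y = E.d o y := by
      have h5 := E.d_tri o z' y
      have h6 := E.d_tri z' z y
      omega
    by_cases hz1 : E.d m z ≤ Δ
    · exact Or.inl ⟨z, hzy, hz1⟩
    by_cases hz2 : E.d m z' ≤ Δ
    · exact Or.inl ⟨z', h3, hz2⟩
    rcases ih z' h1 h3 with h | h
    · exact Or.inl h
    · right
      refine Relation.ReflTransGen.head ⟨?_, by omega, by omega⟩ h
      rw [E.d_symm]; omega

/-- the component of `x` outside the ball of radius less than `j` -/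
def ilComp {X : Type u} (E : GM X) (o : X) (j : ℤ) (x : X) : Set X :=
  {y | Relation.ReflTransGen (fun a b => E.d a b ≤ 1 ∧ j ≤ E.d o a ∧ j ≤ E.d o b) x y}

lemma il_comp_eq {X : Type u} (E : GM X) (o : X) (j : ℤ) (x y : X) (hxy : E.d x y ≤ 1)
    (hx : j ≤ E.d o x) (hy : j ≤ E.d o y) : ilComp E o j x = ilComp E o j y := by
  ext z
  constructor
  · intro h
    refine Relation.ReflTransGen.head ⟨?_, hy, hx⟩ h
    rw [E.d_symm]; exact hxy
  · intro h
    exact Relation.ReflTransGen.head ⟨hxy, hx, hy⟩ h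

/-- Covering families on tree-like spaces. -/
theorem PF_of_treeLike {X : Type u} (E : GM X) (o : X) {Δ : ℕ} (hT : TreeLike E Δ) (n : ℕ) :
    PF E n 1 (E.V (2 * n + 4 * Δ + 2)) := by
  let S : ℤ × Set X → Set X := fun i =>
    {x | (E.d o x : ℤ) - n < i.1 ∧ i.1 ≤ E.d o x ∧ ilComp E o i.1 x = i.2}
  refine ⟨ℤ × Set X, S, ?_, ?_, ?_⟩
  · rintro ⟨j, C⟩
    by_cases hne : (S (j, C)).Nonempty
    · obtain ⟨x, hx1, hx2, hx3⟩ := hne
      have hsub : S (j, C) ⊆ {y | E.d x y ≤ 2 * n + 4 * Δ + 2} := by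
        rintro y ⟨hy1, hy2, hy3⟩
        simp only at hx1 hx2 hx3 hy1 hy2 hy3
        change E.d x y ≤ 2 * n + 4 * Δ + 2
        have htri := E.d_tri x o y
        rw [E.d_symm x o] at htri
        by_cases hj : j ≤ 2 * Δ + 1
        · omega
        · -- a point on a geodesic from o to x
          have hchain : y ∈ ilComp E o j x := by
            rw [hx3, ← hy3]
            exact Relation.ReflTransGen.refl
          obtain ⟨m, hm1, hm2⟩ := il_geo E o x (j - Δ - 1).toNat (by omega)
          have hmo : Δ < E.d m o := by rw [E.d_symm]; omega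
          have hmx : Δ < E.d m x := by omega
          have hfar : ∀ z, j ≤ E.d o z → Δ < E.d m z := by
            intro z hz
            have := E.d_tri o m z
            omega
          have hc1 : Conn E m Δ x y := by
            refine Relation.ReflTransGen.mono ?_ x y hchain
            rintro a b ⟨h1, h2, h3⟩
            exact ⟨h1, hfar a h2, hfar b h3⟩
          rcases il_walk E o m y Δ (E.d o y) y rfl (by rw [E.d_self, add_zero]) with
            ⟨w, hw1, hw2⟩ | hc2
          · have t1 := E.d_tri x m y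
            have t2 := E.d_tri m w y
            have t3 := E.d_tri o w m
            rw [E.d_symm x m] at t1
            rw [E.d_symm w m] at t3
            omega
          · exact (hT x m o hmx hmo (by rw [E.d_symm x m, E.d_symm m o, E.d_symm x o]; omega)
              (hc1.trans hc2)).elim
      refine ⟨(E.ball_fin x _).subset hsub, ?_⟩
      rw [← E.ball_card x]
      exact Set.ncard_le_ncard hsub (E.ball_fin x _)
    · rw [Set.not_nonempty_iff_eq_empty] at hne
      rw [hne]
      exact ⟨Set.finite_empty, by simp⟩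
  · intro x
    have himg : {i | x ∈ S i} = (fun j : ℤ => (j, ilComp E o j x)) ''
        (Set.Ioc ((E.d o x : ℤ) - n) (E.d o x)) := by
      ext ⟨j, C⟩
      constructor
      · rintro ⟨h1, h2, h3⟩
        exact ⟨j, ⟨h1, h2⟩, Prod.ext rfl h3⟩
      · rintro ⟨j', ⟨h1, h2⟩, h3⟩
        have e1 : j' = j := congrArg Prod.fst h3
        have e2 : ilComp E o j' x = C := congrArg Prod.snd h3
        subst e1
        exact ⟨h1, h2, e2⟩
    rw [himg]
    refine ⟨(Set.finite_Ioc _ _).image _, ?_⟩
    rw [Set.ncard_image_of_injective _ (fun a b h => congrArg Prod.fst h)]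
    rw [← Finset.coe_Ioc, Set.ncard_coe_finset, Int.card_Ioc]
    omega
  · intro x y hxy
    have h1 := E.d_tri o x y
    have h2 := E.d_tri o y x
    rw [E.d_symm y x] at h2
    have hmem : ∀ i, x ∈ S i ∧ y ∉ S i → i = (i.1, ilComp E o i.1 x) ∧
        (E.d o x : ℤ) - n < i.1 ∧ i.1 ≤ E.d o x ∧ ((E.d o y : ℤ) < i.1 ∨ i.1 ≤ (E.d o y : ℤ) - n) := by
      rintro ⟨j, C⟩ ⟨⟨h3, h4, h5⟩, h6⟩
      refine ⟨Prod.ext rfl h5.symm, h3, h4, ?_⟩
      by_contra hc
      push Not at hc
      apply h6
      refine ⟨hc.2, hc.1, ?_⟩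
      rw [← il_comp_eq E o j x y hxy h4 hc.1]
      exact h5
    have hss : {i | x ∈ S i ∧ y ∉ S i}.Subsingleton := by
      intro i hi i' hi'
      obtain ⟨e1, a1, a2, a3⟩ := hmem i hi
      obtain ⟨e2, b1, b2, b3⟩ := hmem i' hi'
      have : i.1 = i'.1 := by omega
      rw [e1, e2, this]
    exact (Set.ncard_le_one hss.finite).2 (fun a ha b hb => hss ha hb)

end Pool.Agent.TH86.IL
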