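import Pool.Agent.TH86.IL.Defs

set_option autoImplicit false

namespace Pool.Agent.TH86.IL

universe u

open scoped Classical in
/-- Covering families pass to the lamplighter. -/
theorem PF_lamp {K X : Type u} {E : GM K} {E' : GM X} (T : LampOver E E') {n L N : ℕ}
    (h : PF E n L N) : PF E' n L (N * 2 ^ N) := by
  obtain ⟨ι, S, hS, hx, hadj⟩ := h
  let S' : ι × (K → ZMod 2) → Set X := fun i =>
    {g | T.pos g ∈ S i.1 ∧ (∀ k, k ∉ S i.1 → T.lam g k = i.2 k) ∧ ∀ k, k ∈ S i.1 → i.2 k = 0}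
  have hmem : ∀ g i, g ∈ S' i ↔ T.pos g ∈ S i.1 ∧ i.2 = fun k => if k ∈ S i.1 then 0 else T.lam g k := by
    intro g i
    constructor
    · rintro ⟨h1, h2, h3⟩
      refine ⟨h1, ?_⟩
      funext k
      by_cases hk : k ∈ S i.1
      · rw [if_pos hk, h3 k hk]
      · rw [if_neg hk, h2 k hk]
    · rintro ⟨h1, h2⟩
      refine ⟨h1, fun k hk => ?_, fun k hk => ?_⟩
      · rw [h2]; exact (if_neg hk).symm
      · rw [h2]; exact if_pos hk
  have himg : ∀ g, {i | g ∈ S' i} = (fun i => (i, fun k => if k ∈ S i then 0 else T.lam g k)) ''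
      {i | T.pos g ∈ S i} := by
    intro g
    ext ⟨i, φ⟩
    simp only [Set.mem_ofPred_eq, Set.mem_image, hmem, Prod.mk.injEq]
    constructor
    · rintro ⟨h1, h2⟩
      exact ⟨i, h1, rfl, h2.symm⟩
    · rintro ⟨j, h1, rfl, h2⟩
      exact ⟨h1, h2.symm⟩
  refine ⟨ι × (K → ZMod 2), S', ?_, ?_, ?_⟩
  · rintro ⟨i, φ⟩
    obtain ⟨hfin, hcard⟩ := hS i
    have : Finite (S i) := hfin
    let F : S' (i, φ) → S i × (S i → ZMod 2) := fun g => (⟨T.pos g.1, g.2.1⟩, fun k => T.lam g.1 k.1)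
    have hF : Function.Injective F := by
      intro g g' hgg
      apply Subtype.ext
      have h1 : T.pos g.1 = T.pos g'.1 := congrArg (fun p => p.1.1) hgg
      refine T.ext _ _ h1 ?_
      funext k
      by_cases hk : k ∈ S i
      · exact congrFun (congrArg (fun p => p.2) hgg) ⟨k, hk⟩
      · exact (g.2.2.1 k hk).trans (g'.2.2.1 k hk).symm
    have hfin' : Finite (S' (i, φ)) := Finite.of_injective F hF
    refine ⟨hfin', ?_⟩
    have h2 := Nat.card_le_card_of_injective F hF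
    rw [Nat.card_prod, Nat.card_fun, Nat.card_zmod, Nat.card_coe_set_eq, Nat.card_coe_set_eq] at h2
    calc _ ≤ _ := h2
      _ ≤ N * 2 ^ N := Nat.mul_le_mul hcard (Nat.pow_le_pow_right (by norm_num) hcard)
  · intro g
    rw [himg]
    refine ⟨(hx _).1.image _, ?_⟩
    rw [Set.ncard_image_of_injective]
    · exact (hx _).2
    · intro i j hij
      exact congrArg Prod.fst hij
  · intro g g' hgg
    rcases (T.adj g g').1 hgg with ⟨h1, h2⟩ | ⟨h1, h2, h3⟩
    · have hsub : {i | g ∈ S' i ∧ g' ∉ S' i} ⊆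
          (fun i => (i, fun k => if k ∈ S i then 0 else T.lam g k)) ''
            {i | T.pos g ∈ S i ∧ T.pos g' ∉ S i} := by
        rintro ⟨i, φ⟩ ⟨h4, h5⟩
        rw [hmem] at h4 h5
        refine ⟨i, ⟨h4.1, fun h6 => h5 ⟨h6, ?_⟩⟩, ?_⟩
        · rw [← h1]; exact h4.2
        · rw [Prod.mk.injEq]
          exact ⟨rfl, h4.2.symm⟩
      have hfin : {i | T.pos g ∈ S i ∧ T.pos g' ∉ S i}.Finite :=
        (hx (T.pos g)).1.subset fun i hi => hi.1
      calc _ ≤ _ := Set.ncard_le_ncard hsub (hfin.image _)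
        _ ≤ _ := Set.ncard_image_le hfin
        _ ≤ L := hadj _ _ h2
    · have : {i | g ∈ S' i ∧ g' ∉ S' i} = ∅ := by
        rw [Set.eq_empty_iff_forall_notMem]
        rintro ⟨i, φ⟩ ⟨h4, h5⟩
        apply h5
        obtain ⟨h6, h7, h8⟩ := h4
        refine ⟨?_, fun k hk => ?_, h8⟩
        · rw [← h1]; exact h6
        · have hne : k ≠ T.pos g := by
            rintro rfl
            exact hk h6
          rw [h2 k hne]
          exact h7 k hk
      rw [this, Set.ncard_empty]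
      exact Nat.zero_le _

open scoped Classical in
/-- Covering families can be pulled back. -/
theorem PF_pull {X Y : Type u} (E : GM X) (E' : GM Y) (f : X → Y) {L B n L' N : ℕ}
    (hL : ∀ x y, E.d x y ≤ 1 → E'.d (f x) (f y) ≤ L)
    (hB : ∀ y, {x | f x = y}.Finite ∧ {x | f x = y}.ncard ≤ B)
    (h : PF E' n L' N) : PF E n (L * L') (B * N) := by
  obtain ⟨ι, S, hS, hx, hadj⟩ := h
  have hchain : ∀ (l : ℕ) (y y' : Y), E'.d y y' ≤ l → {i | y ∈ S i ∧ y' ∉ S i}.ncard ≤ l * L' := by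
    intro l
    induction l with
    | zero =>
      intro y y' hyy
      have : y = y' := E'.d_eq _ _ (Nat.le_zero.1 hyy)
      subst this
      have : {i | y ∈ S i ∧ y ∉ S i} = ∅ := by
        rw [Set.eq_empty_iff_forall_notMem]
        rintro i ⟨h1, h2⟩
        exact h2 h1
      rw [this]; simp
    | succ l ih =>
      intro y y' hyy
      by_cases hl : E'.d y y' ≤ l
      · exact (ih y y' hl).trans (Nat.mul_le_mul_right _ (Nat.le_succ l))
      · obtain ⟨z, h1, h2⟩ := E'.d_geo y y' l (by omega)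
        have hsub : {i | y ∈ S i ∧ y' ∉ S i} ⊆ {i | y ∈ S i ∧ z ∉ S i} ∪ {i | z ∈ S i ∧ y' ∉ S i} := by
          rintro i ⟨h3, h4⟩
          by_cases hz : z ∈ S i
          · exact Or.inr ⟨hz, h4⟩
          · exact Or.inl ⟨h3, hz⟩
        have hf1 : {i | y ∈ S i ∧ z ∉ S i}.Finite := (hx y).1.subset fun i hi => hi.1
        have hf2 : {i | z ∈ S i ∧ y' ∉ S i}.Finite := (hx z).1.subset fun i hi => hi.1
        calc _ ≤ _ := Set.ncard_le_ncard hsub (hf1.union hf2)
          _ ≤ _ := Set.ncard_union_le _ _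
          _ ≤ l * L' + L' := Nat.add_le_add (ih y z h1.le) (hadj z y' h2.le)
          _ = (l + 1) * L' := by ring
  refine ⟨ι, fun i => f ⁻¹' (S i), ?_, fun x => hx (f x), fun x y hxy => hchain L _ _ (hL x y hxy)⟩
  intro i
  obtain ⟨hfin, hcard⟩ := hS i
  have hfin' : (f ⁻¹' (S i)).Finite := by
    refine Set.Finite.preimage' hfin fun b _ => ?_
    exact (hB b).1
  refine ⟨hfin', ?_⟩
  have h1 : hfin'.toFinset.card ≤ B * (hfin'.toFinset.image f).card := by
    refine Finset.card_le_mul_card_image _ B fun b _ => ?_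
    rw [← Set.ncard_coe_finset]
    refine (Set.ncard_le_ncard ?_ (hB b).1).trans (hB b).2
    intro x hx
    exact (Finset.mem_filter.1 hx).2
  have h2 : (hfin'.toFinset.image f).card ≤ N := by
    rw [← Set.ncard_coe_finset]
    refine (Set.ncard_le_ncard ?_ hfin).trans hcard
    intro y hy
    obtain ⟨x, hx, rfl⟩ := Finset.mem_image.1 hy
    exact hfin'.mem_toFinset.1 hx
  rw [Set.ncard_eq_toFinset_card _ hfin']
  exact h1.trans (Nat.mul_le_mul_left _ h2)

end Pool.Agent.TH86.IL
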