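import Pool.Agent.TH82.BS.NSMax

set_option autoImplicit false

namespace Pool.Agent.TH82.BS

open scoped Pointwise commutatorElement

universe u

section NA

variable {M : Type u} [Group M]

/-- A subgroup normalised by `D` and by `C` with `D ⊔ C = ⊤` is normal. -/
theorem j80_normal_of_sup {C D A : Subgroup M} (hDC : D ⊔ C = ⊤)
    (hD : ∀ d ∈ D, ∀ a ∈ A, d * a * d⁻¹ ∈ A) (hC : ∀ c ∈ C, ∀ a ∈ A, c * a * c⁻¹ ∈ A) :
    A.Normal := by
  have key : ∀ g ∈ D ⊔ C, ∀ a ∈ A, g * a * g⁻¹ ∈ A := by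
    intro g hg
    rw [Subgroup.sup_eq_closure] at hg
    induction hg using Subgroup.closure_induction'' with
    | mem g hg =>
      rcases hg with hg | hg
      · exact hD g hg
      · exact hC g hg
    | inv_mem g hg =>
      rcases hg with hg | hg
      · exact hD _ (D.inv_mem hg)
      · exact hC _ (C.inv_mem hg)
    | one => intro a ha; simpa using ha
    | mul g g' _ _ h1 h2 =>
      intro a ha
      have := h1 _ (h2 a ha)
      simpa [mul_assoc] using this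
  constructor
  intro a ha g
  exact key g (by rw [hDC]; exact Subgroup.mem_top g) a ha

/-- Elements of `D ⊔ C` with `C` normal. -/
theorem j80_mem_sup_normal {D C : Subgroup M} (hC : C.Normal) {x : M} (hx : x ∈ D ⊔ C) :
    ∃ d ∈ D, ∃ c ∈ C, x = d * c := by
  rw [Subgroup.mem_sup_of_normal_right] at hx
  obtain ⟨d, hd, c, hc, h⟩ := hx
  exact ⟨d, hd, c, hc, h.symm⟩

/-- a subgroup normalised by `D`, not below `C`, generates everything together with `C`. -/
theorem NSMax.j80_sup_top {C D A : Subgroup M} (h : NSMax C) (hDC : D ⊔ C = ⊤)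
    (hD : ∀ d ∈ D, ∀ a ∈ A, d * a * d⁻¹ ∈ A) (hA : ¬ A ≤ C) : A ⊔ C = ⊤ := by
  have hCn := h.normal
  have h1 : (A ⊔ C).Normal := by
    refine j80_normal_of_sup hDC ?_ ?_
    · intro d hd x hx
      obtain ⟨a, ha, c, hc, rfl⟩ := j80_mem_sup_normal hCn hx
      have : d * (a * c) * d⁻¹ = (d * a * d⁻¹) * (d * c * d⁻¹) := by group
      rw [this]
      exact Subgroup.mul_mem_sup (hD d hd a ha) (hCn.conj_mem c hc d)
    · intro c' hc' x hx
      exact (A ⊔ C).mul_mem ((A ⊔ C).mul_mem (le_sup_right (a := A) hc') hx)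
        ((A ⊔ C).inv_mem (le_sup_right (a := A) hc'))
  rcases h.maximal _ h1 le_sup_right with h2 | h2
  · exfalso
    exact hA (by rw [← h2]; exact le_sup_left)
  · exact h2

/-- primeness -/
theorem NSMax.j80_prime {C A B : Subgroup M} (h : NSMax C) (hA : A ⊔ C = ⊤) (hB : B ⊔ C = ⊤) :
    ¬ (⁅A, B⁆ ≤ C) := by
  intro hAB
  have hCn := h.normal
  apply h.nonab
  rw [Subgroup.commutator_le]
  intro x _ y _
  obtain ⟨a, ha, c, hc, rfl⟩ := j80_mem_sup_normal (D := A) hCn (by rw [hA]; exact Subgroup.mem_top x)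
  obtain ⟨b, hb, c', hc', rfl⟩ := j80_mem_sup_normal (D := B) hCn
    (by rw [hB]; exact Subgroup.mem_top y)
  have h1 : ⁅a, b⁆ ∈ C := hAB (Subgroup.commutator_mem_commutator ha hb)
  rw [← QuotientGroup.eq_one_iff] at h1 hc hc' ⊢
  rw [commutatorElement_def] at h1 ⊢
  simp only [QuotientGroup.mk_mul, QuotientGroup.mk_inv] at h1 ⊢
  rw [hc, hc', mul_one, mul_one]
  exact h1

theorem NSMax.j80_finset {C D : Subgroup M} (h : NSMax C) (hDC : D ⊔ C = ⊤) {ι : Type*}
    (s : Finset ι) (A : ι → Subgroup M) (hn : ∀ i ∈ s, ∀ d ∈ D, ∀ a ∈ A i, d * a * d⁻¹ ∈ A i)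
    (hA : ∀ i ∈ s, ¬ (D ⊓ A i ≤ C)) : ¬ (D ⊓ s.inf A ≤ C) := by
  classical
  induction s using Finset.induction_on with
  | empty =>
    intro h1
    simp only [Finset.inf_empty, inf_top_eq] at h1
    exact h.ne_top (by rw [← hDC]; exact (sup_eq_right.mpr h1).symm)
  | insert i s hi ih =>
    have h1 := ih (fun j hj => hn j (Finset.mem_insert_of_mem hj))
      (fun j hj => hA j (Finset.mem_insert_of_mem hj))
    have h2 := hA i (Finset.mem_insert_self i s)
    have hs : ∀ d ∈ D, ∀ a ∈ s.inf A, d * a * d⁻¹ ∈ s.inf A := by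
      intro k hk a ha
      rw [Finset.inf_eq_iInf] at ha ⊢
      simp only [Subgroup.mem_iInf] at ha ⊢
      intro j hj
      exact hn j (Finset.mem_insert_of_mem hj) k hk a (ha j hj)
    have e1 : (D ⊓ A i) ⊔ C = ⊤ := by
      refine h.j80_sup_top hDC ?_ h2
      rintro d hd a ⟨ha, ha'⟩
      exact ⟨D.mul_mem (D.mul_mem hd ha) (D.inv_mem hd), hn i (Finset.mem_insert_self i s) d hd a ha'⟩
    have e2 : (D ⊓ s.inf A) ⊔ C = ⊤ := by
      refine h.j80_sup_top hDC ?_ h1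
      rintro d hd a ⟨ha, ha'⟩
      exact ⟨D.mul_mem (D.mul_mem hd ha) (D.inv_mem hd), hs d hd a ha'⟩
    intro h3
    refine h.j80_prime e1 e2 (le_trans ?_ h3)
    rw [Finset.inf_insert, Subgroup.commutator_le]
    rintro a ⟨ha, ha'⟩ b ⟨hb, hb'⟩
    refine ⟨?_, ?_, ?_⟩
    · rw [commutatorElement_def]
      exact D.mul_mem (D.mul_mem (D.mul_mem ha hb) (D.inv_mem ha)) (D.inv_mem hb)
    · have : ⁅a, b⁆ = a * (b * a⁻¹ * b⁻¹) := by rw [commutatorElement_def]; group
      rw [this]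
      exact (A i).mul_mem ha' (hn i (Finset.mem_insert_self i s) b hb _ ((A i).inv_mem ha'))
    · have : ⁅a, b⁆ = (a * b * a⁻¹) * b⁻¹ := by rw [commutatorElement_def]
      rw [this]
      exact (s.inf A).mul_mem (hs a ha b hb') ((s.inf A).inv_mem hb')

variable {𝒞 : Set (Subgroup M)}

theorem j80_not_le_of_ne {C C' : Subgroup M} (h : NSMax C) (h' : NSMax C') (hne : C' ≠ C) :
    ¬ C' ≤ C := by
  intro hle
  rcases h'.maximal C h.normal hle with h1 | h1
  · exact hne h1.symm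
  · exact h.ne_top h1

/-- Fact 0 -/
theorem j80_fact0 [Finite M] (h𝒞 : ∀ C ∈ 𝒞, NSMax C) {C : Subgroup M} (hC : C ∈ 𝒞) :
    (sInf {C' | C' ∈ 𝒞 ∧ C' ≠ C}) ⊔ C = ⊤ := by
  classical
  have hfin : ({C' | C' ∈ 𝒞 ∧ C' ≠ C} : Set (Subgroup M)).Finite := Set.toFinite _
  have hb : ∀ i ∈ hfin.toFinset, ∀ d ∈ (⊤ : Subgroup M), ∀ a ∈ i, d * a * d⁻¹ ∈ i := by
    intro i hi d _ a ha
    rw [Set.Finite.mem_toFinset] at hi
    exact (h𝒞 i hi.1).normal.conj_mem a ha d
  have h1 := (h𝒞 C hC).j80_finset (D := ⊤) (by simp) hfin.toFinset id hb (by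
    intro i hi
    rw [Set.Finite.mem_toFinset] at hi
    simp only [id, top_inf_eq]
    exact j80_not_le_of_ne (h𝒞 C hC) (h𝒞 i hi.1) hi.2)
  have e : hfin.toFinset.inf id = sInf {C' | C' ∈ 𝒞 ∧ C' ≠ C} := by
    rw [Finset.inf_id_eq_sInf, Set.Finite.coe_toFinset]
  rw [e, top_inf_eq] at h1
  refine (h𝒞 C hC).j80_sup_top (D := ⊤) (by simp) ?_ h1
  intro d _ a ha
  rw [Subgroup.mem_sInf] at ha ⊢
  intro p hp
  exact (h𝒞 p hp.1).normal.conj_mem a (ha p hp) d

/-- Fact 1: Chinese remainder theorem -/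
theorem j80_crt [Finite M] (h𝒞 : ∀ C ∈ 𝒞, NSMax C) (y : Subgroup M → M) :
    ∃ x : M, ∀ C ∈ 𝒞, (y C)⁻¹ * x ∈ C := by
  classical
  have hfin : 𝒞.Finite := Set.toFinite _
  have key : ∀ s : Finset (Subgroup M), (∀ C ∈ s, C ∈ 𝒞) →
      ∃ x : M, (∀ C ∈ s, (y C)⁻¹ * x ∈ C) ∧ ∀ C ∈ 𝒞, C ∉ s → x ∈ C := by
    intro s
    induction s using Finset.induction_on with
    | empty =>
      intro _
      exact ⟨1, by simp, fun C _ _ => C.one_mem⟩
    | insert C₀ s hs ih =>
      intro hsub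
      obtain ⟨x, hx1, hx2⟩ := ih (fun C hC => hsub C (Finset.mem_insert_of_mem hC))
      have hC0 := hsub C₀ (Finset.mem_insert_self _ _)
      have hn := (h𝒞 C₀ hC0).normal
      have h1 : y C₀ ∈ (sInf {C' | C' ∈ 𝒞 ∧ C' ≠ C₀}) ⊔ C₀ := by
        rw [j80_fact0 h𝒞 hC0]; exact Subgroup.mem_top _
      obtain ⟨l, hl, c, hc, hlc⟩ := j80_mem_sup_normal hn h1
      refine ⟨x * l, ?_, ?_⟩
      · intro C hC
        rw [Finset.mem_insert] at hC
        by_cases hCC : C = C₀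
        · subst hCC
          have e : (y C)⁻¹ * (x * l) = ((y C)⁻¹ * x * ((y C)⁻¹)⁻¹) * ((y C)⁻¹ * l) := by group
          rw [e]
          refine C.mul_mem (hn.conj_mem x (hx2 C hC0 hs) _) ?_
          have e2 : (y C)⁻¹ * l = c⁻¹ := by rw [hlc]; group
          rw [e2]
          exact C.inv_mem hc
        · have hC' : C ∈ s := by
            rcases hC with h | h
            · exact absurd h hCC
            · exact h
          rw [← mul_assoc]
          refine C.mul_mem (hx1 C hC') ?_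
          rw [Subgroup.mem_sInf] at hl
          exact hl C ⟨hsub C (Finset.mem_insert_of_mem hC'), hCC⟩
      · intro C hC hCs
        rw [Finset.mem_insert, not_or] at hCs
        refine C.mul_mem (hx2 C hC hCs.2) ?_
        rw [Subgroup.mem_sInf] at hl
        exact hl C ⟨hC, hCs.1⟩
  obtain ⟨x, hx, -⟩ := key hfin.toFinset (fun C hC => by simpa using hC)
  exact ⟨x, fun C hC => hx C (by simpa using hC)⟩

/-- Fact 2 -/
theorem j80_fact2 [Finite M] (h𝒞 : ∀ C ∈ 𝒞, NSMax C) {D : Subgroup M}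
    (hcore : ∀ K : Subgroup M, K.Normal → K ≤ D → ∀ C ∈ 𝒞, K ≤ C)
    (hZD : ∀ z : M, (∀ C ∈ 𝒞, z ∈ C) → z ∈ D) {C : Subgroup M} (hC : C ∈ 𝒞) (hDC : D ⊔ C = ⊤) :
    ∃ C' ∈ 𝒞, C' ≠ C ∧ D ⊓ C' ≤ D ⊓ C := by
  classical
  by_contra hcon
  push Not at hcon
  have hfin : ({C' | C' ∈ 𝒞 ∧ C' ≠ C} : Set (Subgroup M)).Finite := Set.toFinite _
  have hb : ∀ i ∈ hfin.toFinset, ∀ d ∈ D, ∀ a ∈ i, d * a * d⁻¹ ∈ i := by
    intro i hi d _ a ha
    rw [Set.Finite.mem_toFinset] at hi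
    exact (h𝒞 i hi.1).normal.conj_mem a ha d
  have h1 := (h𝒞 C hC).j80_finset hDC hfin.toFinset id hb (by
    intro i hi hle
    rw [Set.Finite.mem_toFinset] at hi
    exact hcon i hi.1 hi.2 (le_inf inf_le_left hle))
  have e : hfin.toFinset.inf id = sInf {C' | C' ∈ 𝒞 ∧ C' ≠ C} := by
    rw [Finset.inf_id_eq_sInf, Set.Finite.coe_toFinset]
  rw [e] at h1
  apply h1
  refine hcore _ ?_ inf_le_left C hC
  have hLn : (sInf {C' | C' ∈ 𝒞 ∧ C' ≠ C}).Normal := by
    constructor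
    intro a ha d
    rw [Subgroup.mem_sInf] at ha ⊢
    intro p hp
    exact (h𝒞 p hp.1).normal.conj_mem a (ha p hp) d
  refine j80_normal_of_sup hDC ?_ ?_
  · rintro d hd a ⟨ha, ha'⟩
    exact ⟨D.mul_mem (D.mul_mem hd ha) (D.inv_mem hd), hLn.conj_mem a ha' d⟩
  · rintro c hc a ⟨ha, ha'⟩
    refine ⟨?_, hLn.conj_mem a ha' c⟩
    have e3 : c * a * c⁻¹ = (c * a * c⁻¹ * a⁻¹) * a := by group
    rw [e3]
    refine D.mul_mem (hZD _ ?_) ha
    intro C' hC'
    by_cases hCC : C' = C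
    · subst hCC
      have e4 : c * a * c⁻¹ * a⁻¹ = c * (a * c⁻¹ * a⁻¹) := by group
      rw [e4]
      exact C'.mul_mem hc ((h𝒞 C' hC').normal.conj_mem _ (C'.inv_mem hc) a)
    · have hm : a ∈ C' := by
        have ha2 : a ∈ sInf {C' | C' ∈ 𝒞 ∧ C' ≠ C} := ha'
        rw [Subgroup.mem_sInf] at ha2
        exact ha2 C' ⟨hC', hCC⟩
      exact C'.mul_mem ((h𝒞 C' hC').normal.conj_mem a hm c) (C'.inv_mem hm)

/-- comparability -/
theorem j80_comp_eq {C C' D : Subgroup M} (h : NSMax C) (h' : NSMax C') (hDC : D ⊔ C = ⊤)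
    (hDC' : D ⊔ C' = ⊤) (hle : D ⊓ C' ≤ D ⊓ C) : D ⊓ C' = D ⊓ C := by
  refine le_antisymm hle ?_
  by_contra hcon
  have hn : ¬ (D ⊓ C ≤ C') := fun h1 => hcon (le_inf inf_le_left h1)
  have h2 := h'.j80_sup_top hDC' (A := D ⊓ C) (by
    rintro d hd a ⟨ha, ha'⟩
    exact ⟨D.mul_mem (D.mul_mem hd ha) (D.inv_mem hd), h.normal.conj_mem a ha' d⟩) hn
  have h3 : D ≤ C := by
    intro d hd
    obtain ⟨a, ha, c, hc, hx⟩ := j80_mem_sup_normal (D := D ⊓ C) h'.normal
      (by rw [h2]; exact Subgroup.mem_top d)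
    have hcm : c ∈ D ⊓ C' := by
      refine ⟨?_, hc⟩
      have : c = a⁻¹ * d := by rw [hx]; group
      rw [this]
      exact D.mul_mem (D.inv_mem ha.1) hd
    rw [hx]
    exact C.mul_mem ha.2 (hle hcm).2
  exact h.ne_top (by rw [← hDC]; exact (sup_eq_right.mpr h3).symm)

variable {R : Type u} [Group R] [MulDistribMulAction R M]

theorem j80_inv_lemma {D : Subgroup M} (hD : ∀ r : R, r • D = D) {x : M} {r : R}
    (h : x⁻¹ * (r • x) ∈ D) (Q : Subgroup M) : x ∈ D ⊔ (r • Q) ↔ x ∈ D ⊔ Q := by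
  have e : D ⊔ (r • Q) = r • (D ⊔ Q) := by
    rw [Subgroup.smul_sup, hD]
  have h1 : x⁻¹ * (r • x) ∈ D ⊔ (r • Q) := le_sup_left (a := D) h
  rw [← Subgroup.smul_mem_pointwise_smul_iff (a := r) (S := D ⊔ Q), ← e]
  constructor
  · intro hx
    have := (D ⊔ (r • Q)).mul_mem hx h1
    simpa using this
  · intro hx
    have := (D ⊔ (r • Q)).mul_mem hx ((D ⊔ (r • Q)).inv_mem h1)
    simpa using this

/-- The intersection of all `C ∈ 𝒞` with `D ⊓ C ≤ E`. -/
def j80_QQ (𝒞 : Set (Subgroup M)) (D E : Subgroup M) : Subgroup M :=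
  sInf {C | C ∈ 𝒞 ∧ D ⊓ C ≤ E}

theorem j80_mem_QQ {D E : Subgroup M} {m : M} : m ∈ j80_QQ 𝒞 D E ↔ ∀ C ∈ 𝒞, D ⊓ C ≤ E → m ∈ C := by
  unfold j80_QQ
  rw [Subgroup.mem_sInf]
  exact ⟨fun h C hC hCE => h C ⟨hC, hCE⟩, fun h C hC => h C hC.1 hC.2⟩

theorem j80_QQ_normal (h𝒞 : ∀ C ∈ 𝒞, NSMax C) (D E : Subgroup M) : (j80_QQ 𝒞 D E).Normal := by
  constructor
  intro a ha g
  rw [j80_mem_QQ] at ha ⊢
  intro C hC hCE
  exact (h𝒞 C hC).normal.conj_mem a (ha C hC hCE) g

theorem j80_smul_QQ (hinv : ∀ r : R, ∀ C ∈ 𝒞, r • C ∈ 𝒞) {D : Subgroup M} (hD : ∀ r : R, r • D = D)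
    (E : Subgroup M) (r : R) : r • j80_QQ 𝒞 D E = j80_QQ 𝒞 D (r • E) := by
  ext m
  rw [Subgroup.mem_pointwise_smul_iff_inv_smul_mem, j80_mem_QQ, j80_mem_QQ]
  constructor
  · intro h C hC hCE
    have h1 := h (r⁻¹ • C) (hinv _ C hC) (by
      rw [← hD r⁻¹, ← Subgroup.smul_inf, Subgroup.pointwise_smul_subset_iff, inv_inv]
      exact hCE)
    rw [← Subgroup.mem_pointwise_smul_iff_inv_smul_mem, smul_inv_smul] at h1
    exact h1
  · intro h C hC hCE
    rw [← Subgroup.mem_pointwise_smul_iff_inv_smul_mem]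
    refine h (r • C) (hinv _ C hC) ?_
    rw [← hD r, ← Subgroup.smul_inf, Subgroup.pointwise_smul_le_pointwise_smul_iff]
    exact hCE

/-- usable form of the permutation theorem -/
theorem j80_perm_use {T : Type u} [Group T] {φ : R →* T} {R' : Subgroup R} {Ω : Type u}
    [MulAction R' Ω] (h : PermConcl (φ.comp R'.subtype) Ω) :
    ∃ Δ : Set Ω, ∀ J : Subgroup R, (J ≤ R') → (∀ r : R', (r : R) ∈ J → r • Δ = Δ) →
      J.map φ ≠ ⊤ := by
  obtain ⟨Δ, -, -, h3⟩ := h
  refine ⟨Δ, fun J hJ hs hJT => h3 ?_⟩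
  rw [eq_top_iff, ← hJT]
  rintro _ ⟨j, hj, rfl⟩
  refine ⟨⟨j, hJ hj⟩, ?_, rfl⟩
  exact hs ⟨j, hJ hj⟩ hj

/-- the permutation theorem for an invariant set of subgroups -/
theorem j80_perm_set {T : Type u} [Group T] [Finite R] {φ : R →* T}
    (hP : ∀ (R' : Subgroup R) (Ω : Type u) [MulAction R' Ω] [Finite Ω], R'.map φ = ⊤ →
      (∀ g : R', (∀ ω : Ω, g • ω = ω) → φ g = 1) → PermConcl (φ.comp R'.subtype) Ω)
    [Finite M] (R' : Subgroup R) (hR' : R'.map φ = ⊤) (𝒮 : Set (Subgroup M))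
    (hinv : ∀ r ∈ R', ∀ C ∈ 𝒮, r • C ∈ 𝒮)
    (hk : ∀ g ∈ R', (∀ C ∈ 𝒮, g • C = C) → φ g = 1) :
    ∃ Δ : Set (Subgroup M), Δ ⊆ 𝒮 ∧ ∀ J : Subgroup R, (J ≤ R') →
      (∀ r ∈ J, ∀ C ∈ 𝒮, (r • C ∈ Δ ↔ C ∈ Δ)) → J.map φ ≠ ⊤ := by
  let S : SubMulAction R' (Subgroup M) :=
    { carrier := 𝒮
      smul_mem' := fun c C hC => hinv c c.2 C hC }
  have hS : ∀ (g : R') (C : S), ((g • C : S) : Subgroup M) = (g : R) • (C : Subgroup M) :=
    fun g C => rfl
  obtain ⟨Δ', hΔ'⟩ := j80_perm_use (hP R' S hR' (by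
    intro g hg
    refine hk g g.2 (fun C hC => ?_)
    have := hg ⟨C, hC⟩
    rw [Subtype.ext_iff, hS] at this
    exact this))
  refine ⟨Subtype.val '' Δ', ?_, ?_⟩
  · rintro _ ⟨C, -, rfl⟩
    exact C.2
  · intro J hJ hs
    refine hΔ' J hJ ?_
    intro r hr
    ext ω
    rw [Set.mem_smul_set_iff_inv_smul_mem]
    have h1 := hs r hr ((r⁻¹ • ω : S) : Subgroup M) (r⁻¹ • ω : S).2
    have h2 : (r : R) • ((r⁻¹ • ω : S) : Subgroup M) = (ω : Subgroup M) := by
      rw [← hS, smul_inv_smul]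
    rw [h2] at h1
    have h3 : ∀ ω : S, ((ω : Subgroup M) ∈ Subtype.val '' Δ') ↔ ω ∈ Δ' := by
      intro ω
      constructor
      · rintro ⟨ω', h, h'⟩
        rwa [← Subtype.ext h']
      · intro h
        exact ⟨ω, h, rfl⟩
    rw [h3, h3] at h1
    exact h1.symm

end NA

theorem na_lemma {T : Type u} [Group T] [IsSimpleGroup T] (hT : ¬ ∀ a b : T, a * b = b * a)
    {R : Type u} [Group R] [Finite R] (φ : R →* T) (hφ : Function.Surjective φ)
    (hP : ∀ (R' : Subgroup R) (Ω : Type u) [MulAction R' Ω] [Finite Ω], R'.map φ = ⊤ →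
      (∀ g : R', (∀ ω : Ω, g • ω = ω) → φ g = 1) → PermConcl (φ.comp R'.subtype) Ω)
    {M : Type u} [Group M] [Finite M] [MulDistribMulAction R M]
    (𝒞 : Set (Subgroup M)) (h𝒞 : ∀ C ∈ 𝒞, NSMax C) (hinv : ∀ r : R, ∀ C ∈ 𝒞, r • C ∈ 𝒞)
    (hker : ∀ r : R, (∀ C ∈ 𝒞, r • C = C) → φ r = 1)
    (D : Subgroup M) (hD : ∀ r : R, r • D = D)
    (hcore : ∀ K : Subgroup M, K.Normal → K ≤ D → ∀ C ∈ 𝒞, K ≤ C)
    (hZD : ∀ z : M, (∀ C ∈ 𝒞, z ∈ C) → z ∈ D) :
    ∃ x : M, ∀ J : Subgroup R, (∀ r ∈ J, x⁻¹ * (r • x) ∈ D) → J.map φ ≠ ⊤ := by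
  classical
  have htop : (⊤ : Subgroup R).map φ = ⊤ := by
    rw [← MonoidHom.range_eq_map]; exact MonoidHom.range_eq_top.mpr hφ
  -- kernels of `R` on invariant sets
  let Ker : Set (Subgroup M) → Subgroup R := fun 𝒮 =>
    { carrier := {r | ∀ C ∈ 𝒮, r • C = C}
      one_mem' := fun C _ => one_smul _ _
      mul_mem' := fun {a b} ha hb C hC => by rw [mul_smul, hb C hC, ha C hC]
      inv_mem' := fun {a} ha C hC => by
        rw [inv_smul_eq_iff]; exact (ha C hC).symm }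
  have memKer : ∀ 𝒮 r, r ∈ Ker 𝒮 ↔ ∀ C ∈ 𝒮, r • C = C := fun _ _ => Iff.rfl
  have Kern : ∀ 𝒮 : Set (Subgroup M), (∀ r : R, ∀ C ∈ 𝒮, r • C ∈ 𝒮) →
      ∀ g : R, ∀ k ∈ Ker 𝒮, g * k * g⁻¹ ∈ Ker 𝒮 := by
    intro 𝒮 hS g k hk
    rw [memKer] at hk ⊢
    intro C hC
    rw [mul_smul, mul_smul, hk _ (hS g⁻¹ C hC), smul_inv_smul]
  have Kerbt : ∀ 𝒮 : Set (Subgroup M), (∀ r : R, ∀ C ∈ 𝒮, r • C ∈ 𝒮) →
      (Ker 𝒮).map φ = ⊥ ∨ (Ker 𝒮).map φ = ⊤ := fun 𝒮 hS =>
    map_eq_bot_or_top htop (fun k _ a ha => Kern 𝒮 hS k a ha)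
  -- the two parts
  have hinf : ∀ r : R, ∀ C : Subgroup M, D ⊓ r • C = r • (D ⊓ C) := by
    intro r C; rw [Subgroup.smul_inf, hD]
  have hsup : ∀ r : R, ∀ C : Subgroup M, D ⊔ r • C = r • (D ⊔ C) := by
    intro r C; rw [Subgroup.smul_sup, hD]
  have hsmul_top : ∀ (r : R) (B : Subgroup M), r • B = ⊤ ↔ B = ⊤ := by
    intro r B
    constructor
    · intro h
      rw [eq_top_iff]
      intro b _
      rw [← Subgroup.smul_mem_pointwise_smul_iff (a := r), h]
      exact Subgroup.mem_top _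
    · rintro rfl
      rw [eq_top_iff]
      intro b _
      rw [Subgroup.mem_pointwise_smul_iff_inv_smul_mem]
      exact Subgroup.mem_top _
  set I : Set (Subgroup M) := {C | C ∈ 𝒞 ∧ D ⊔ C ≠ ⊤} with hI
  set Jt : Set (Subgroup M) := {C | C ∈ 𝒞 ∧ D ⊔ C = ⊤} with hJt
  have hIinv : ∀ r : R, ∀ C ∈ I, r • C ∈ I := by
    rintro r C ⟨h1, h2⟩
    exact ⟨hinv r C h1, by rw [hsup, ne_eq, hsmul_top]; exact h2⟩
  have hJinv : ∀ r : R, ∀ C ∈ Jt, r • C ∈ Jt := by
    rintro r C ⟨h1, h2⟩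
    exact ⟨hinv r C h1, by rw [hsup, hsmul_top]; exact h2⟩
  have hdich : (Ker I).map φ = ⊥ ∨ (Ker Jt).map φ = ⊥ := by
    rcases Kerbt I hIinv with h1 | h1
    · exact Or.inl h1
    · rcases Kerbt Jt hJinv with h2 | h2
      · exact Or.inr h2
      · exfalso
        have h3 := map_commutator_eq_top hT h1 h2
        apply hT
        have h8 : ∀ t : T, t = 1 := by
          intro t
          have ht : t ∈ (⁅Ker I, Ker Jt⁆).map φ := by rw [h3]; exact Subgroup.mem_top t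
          obtain ⟨g, hg, rfl⟩ := ht
          have hg' : g ∈ Ker I ⊓ Ker Jt := by
            refine (Subgroup.commutator_le.mpr ?_) hg
            intro a ha b hb
            refine ⟨?_, ?_⟩
            · have : ⁅a, b⁆ = a * (b * a⁻¹ * b⁻¹) := by rw [commutatorElement_def]; group
              rw [this]
              exact (Ker I).mul_mem ha (Kern I hIinv b _ ((Ker I).inv_mem ha))
            · rw [commutatorElement_def]
              exact (Ker Jt).mul_mem (Kern Jt hJinv a _ hb) ((Ker Jt).inv_mem hb)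
          refine hker g (fun C hC => ?_)
          by_cases hCI : D ⊔ C = ⊤
          · exact hg'.2 C ⟨hC, hCI⟩
          · exact hg'.1 C ⟨hC, hCI⟩
        intro a b
        rw [h8 a, h8 b]
  rcases hdich with hKI | hKJ
  · -- case 1
    obtain ⟨Δ, hΔI, hΔ⟩ := j80_perm_set hP ⊤ htop I (fun r _ => hIinv r) (by
      intro g _ hg
      have : φ g ∈ (Ker I).map φ := ⟨g, hg, rfl⟩
      rw [hKI] at this
      exact Subgroup.mem_bot.mp this)
    have hy : ∀ C : Subgroup M, ∃ y : M, (C ∈ I → C ∉ Δ → y ∉ D ⊔ C) ∧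
        (¬ (C ∈ I ∧ C ∉ Δ) → y = 1) := by
      intro C
      by_cases h : C ∈ I ∧ C ∉ Δ
      · have : ∃ y : M, y ∉ D ⊔ C := by
          by_contra hcon
          push Not at hcon
          exact h.1.2 (eq_top_iff.mpr fun y _ => hcon y)
        obtain ⟨y, hy⟩ := this
        exact ⟨y, fun _ _ => hy, fun h' => absurd h h'⟩
      · exact ⟨1, fun h1 h2 => absurd ⟨h1, h2⟩ h, fun _ => rfl⟩
    choose y hy1 hy2 using hy
    obtain ⟨x, hx⟩ := j80_crt h𝒞 y
    refine ⟨x, fun J hJ => hΔ J le_top ?_⟩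
    have key : ∀ C ∈ I, (C ∈ Δ ↔ x ∈ D ⊔ C) := by
      intro C hC
      constructor
      · intro h
        have h1 := hx C hC.1
        rw [hy2 C (fun h' => h'.2 h), inv_one, one_mul] at h1
        exact le_sup_right (a := D) h1
      · intro h
        by_contra h'
        apply hy1 C hC h'
        have h1 : (y C)⁻¹ * x ∈ D ⊔ C := le_sup_right (a := D) (hx C hC.1)
        have h2 := (D ⊔ C).mul_mem h ((D ⊔ C).inv_mem h1)
        simpa using h2
    intro r hr C hC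
    rw [key _ (hIinv r C hC), key C hC]
    exact j80_inv_lemma hD (hJ r hr) C
  · -- case 2
    have hKJ' : ∀ g : R, (∀ C ∈ Jt, g • C = C) → φ g = 1 := by
      intro g hg
      have : φ g ∈ (Ker Jt).map φ := ⟨g, hg, rfl⟩
      rw [hKJ] at this
      exact Subgroup.mem_bot.mp this
    set Sg : Set (Subgroup M) := {E | ∃ C ∈ Jt, D ⊓ C = E} with hSg
    have hSinv : ∀ r : R, ∀ E ∈ Sg, r • E ∈ Sg := by
      rintro r E ⟨C, hC, rfl⟩
      exact ⟨r • C, hJinv r C hC, hinf r C⟩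
    -- comparability
    have hcomp : ∀ C ∈ Jt, ∀ E ∈ Sg, D ⊓ C ≤ E → D ⊓ C = E := by
      rintro C hC E ⟨C', hC', rfl⟩ hle
      exact j80_comp_eq (h𝒞 C' hC'.1) (h𝒞 C hC.1) hC'.2 hC.2 hle
    have hinvQ : ∀ {x : M} {r : R}, x⁻¹ * (r • x) ∈ D → ∀ E : Subgroup M,
        (x ∈ D ⊔ j80_QQ 𝒞 D (r • E) ↔ x ∈ D ⊔ j80_QQ 𝒞 D E) := by
      intro x r h E
      rw [← j80_smul_QQ hinv hD]
      exact j80_inv_lemma hD h _
    rcases Kerbt Sg hSinv with hKS | hKS
    · -- (a)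
      obtain ⟨Δ, hΔS, hΔ⟩ := j80_perm_set hP ⊤ htop Sg (fun r _ => hSinv r) (by
        intro g _ hg
        have : φ g ∈ (Ker Sg).map φ := ⟨g, hg, rfl⟩
        rw [hKS] at this
        exact Subgroup.mem_bot.mp this)
      -- choose representatives
      have hch : ∀ E : Subgroup M, ∃ C : Subgroup M, E ∈ Sg → (C ∈ Jt ∧ D ⊓ C = E) := by
        intro E
        by_cases h : E ∈ Sg
        · obtain ⟨C, hC, hCE⟩ := h
          exact ⟨C, fun _ => ⟨hC, hCE⟩⟩
        · exact ⟨⊥, fun h' => absurd h' h⟩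
      choose ch hch using hch
      -- `Ch` the chosen ones
      let Ch : Set (Subgroup M) := {C | C ∈ Jt ∧ D ⊓ C ∉ Δ ∧ C = ch (D ⊓ C)}
      have hy : ∀ C : Subgroup M, ∃ y : M, (C ∈ Ch → y ∉ C) ∧ (C ∉ Ch → y = 1) := by
        intro C
        by_cases h : C ∈ Ch
        · have : ∃ y : M, y ∉ C := by
            by_contra hcon
            push Not at hcon
            exact (h𝒞 C h.1.1).ne_top (eq_top_iff.mpr fun y _ => hcon y)
          obtain ⟨y, hy⟩ := this
          exact ⟨y, fun _ => hy, fun h' => absurd h h'⟩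
        · exact ⟨1, fun h1 => absurd h1 h, fun _ => rfl⟩
      choose y hy1 hy2 using hy
      obtain ⟨x, hx⟩ := j80_crt h𝒞 y
      have hx1 : ∀ C ∈ 𝒞, C ∉ Ch → x ∈ C := by
        intro C hC hCh
        have h1 := hx C hC
        rwa [hy2 C hCh, inv_one, one_mul] at h1
      have hx2 : ∀ C ∈ Ch, x ∉ C := by
        intro C hC hxC
        apply hy1 C hC
        have h1 := hx C hC.1.1
        have h2 := C.mul_mem hxC (C.inv_mem h1)
        simpa using h2
      refine ⟨x, fun J hJ => hΔ J le_top ?_⟩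
      have key : ∀ E ∈ Sg, (E ∈ Δ ↔ x ∈ D ⊔ j80_QQ 𝒞 D E) := by
        intro E hE
        constructor
        · intro h
          refine le_sup_right (a := D) ?_
          rw [j80_mem_QQ]
          intro C' hC' hle
          refine hx1 C' hC' ?_
          rintro ⟨h1, h2, -⟩
          exact h2 (by rw [hcomp C' h1 E hE hle]; exact h)
        · intro h
          by_contra h'
          obtain ⟨hc1, hc2⟩ := hch E hE
          obtain ⟨d, hd, q, hq, hxe⟩ := j80_mem_sup_normal (j80_QQ_normal h𝒞 D E) h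
          rw [j80_mem_QQ] at hq
          obtain ⟨C', hC', hne, hle⟩ := j80_fact2 h𝒞 hcore hZD hc1.1 hc1.2
          rw [hc2] at hle
          have hC'n : C' ∉ Ch := by
            rintro ⟨h1, h2, h3⟩
            apply hne
            rw [h3, hcomp C' h1 E hE hle]
          have h4 : x ∈ C' := hx1 C' hC' hC'n
          have h5 : d ∈ C' := by
            have : d = x * q⁻¹ := by rw [hxe]; group
            rw [this]
            exact C'.mul_mem h4 (C'.inv_mem (hq C' hC' hle))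
          have h6 : d ∈ ch E := by
            have : d ∈ D ⊓ ch E := by rw [hc2]; exact hle ⟨hd, h5⟩
            exact this.2
          have h7 : x ∈ ch E := by
            rw [hxe]
            exact (ch E).mul_mem h6 (hq (ch E) hc1.1 hc2.le)
          refine hx2 (ch E) ⟨hc1, by rw [hc2]; exact h', by rw [hc2]⟩ h7
      intro r hr E hE
      rw [key _ (hSinv r E hE), key E hE]
      exact hinvQ (hJ r hr) E
    · -- (b)
      let Pc : Subgroup M → Set (Subgroup M) := fun E => {C | C ∈ Jt ∧ D ⊓ C = E}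
      have hKSmem : ∀ k ∈ Ker Sg, ∀ E ∈ Sg, k • E = E := fun k hk => hk
      -- block lemma
      obtain ⟨⟨E, hE⟩, hEE⟩ := block_lemma hT hKS (ι := Sg)
        (fun E => Ker (Pc E)) (fun E => MulAction.stabilizer R (E : Subgroup M))
        (fun E g _ k hk => Kern Sg hSinv g k hk)
        (by
          rintro ⟨E, hE⟩ r hr
          obtain ⟨C, hC, hCE⟩ := hE
          rw [MulAction.mem_stabilizer_iff]
          have h1 := hr C ⟨hC, hCE⟩
          change r • E = E
          rw [← hCE, ← hinf, h1])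
        (by
          rintro ⟨E, hE⟩ k hk e he
          rw [memKer] at he ⊢
          intro C hC
          have h1 : k⁻¹ • C ∈ Pc E := by
            refine ⟨hJinv _ C hC.1, ?_⟩
            rw [hinf, hC.2]
            exact hKSmem _ ((Ker Sg).inv_mem hk) E hE
          rw [mul_smul, mul_smul, he _ h1, smul_inv_smul])
        (by
          intro g _ hg
          refine hKJ' g (fun C hC => ?_)
          exact hg ⟨D ⊓ C, ⟨C, hC, rfl⟩⟩ C ⟨hC, rfl⟩)
      have hEE' : ∀ g : R, (∀ C ∈ Pc E, g • C = C) → φ g = 1 := fun g hg => hEE g hg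
      have hSt : (MulAction.stabilizer R E).map φ = ⊤ := by
        refine map_top_mono ?_ hKS
        intro k hk
        exact hKSmem k hk E hE
      have hPinv : ∀ r ∈ MulAction.stabilizer R E, ∀ C ∈ Pc E, r • C ∈ Pc E := by
        intro r hr C hC
        refine ⟨hJinv r C hC.1, ?_⟩
        rw [hinf, hC.2]
        exact hr
      obtain ⟨Δ, hΔP, hΔ⟩ := j80_perm_set hP (MulAction.stabilizer R E) hSt (Pc E) hPinv
        (fun g _ hg => hEE' g hg)
      obtain ⟨C₀, hC₀, hC₀E⟩ := id hE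
      have hC₀P : C₀ ∈ Pc E := ⟨hC₀, hC₀E⟩
      -- `Δ` is neither empty nor everything
      have hne : ∃ C ∈ Pc E, C ∈ Δ := by
        by_contra hcon
        push Not at hcon
        refine hΔ _ le_rfl ?_ hSt
        intro r hr C hC
        exact ⟨fun h => absurd h (hcon _ (hPinv r hr C hC)), fun h => absurd h (hcon C hC)⟩
      have hne' : ∃ C ∈ Pc E, C ∉ Δ := by
        by_contra hcon
        push Not at hcon
        refine hΔ _ le_rfl ?_ hSt
        intro r hr C hC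
        exact ⟨fun _ => hcon C hC, fun _ => hcon _ (hPinv r hr C hC)⟩
      obtain ⟨C₁, hC₁P, hC₁⟩ := hne
      obtain ⟨C₂, hC₂P, hC₂⟩ := hne'
      have hd0 : ∃ d ∈ D, d ∉ E := by
        by_contra hcon
        push Not at hcon
        apply (h𝒞 C₀ hC₀.1).ne_top
        rw [← hC₀.2]
        refine (sup_eq_right.mpr ?_).symm
        intro d hd
        have := hcon d hd
        rw [← hC₀E] at this
        exact this.2
      obtain ⟨d₀, hd₀, hd₀E⟩ := hd0
      have hd₀C : ∀ C ∈ Pc E, d₀ ∉ C := by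
        intro C hC h
        apply hd₀E
        rw [← hC.2]
        exact ⟨hd₀, h⟩
      obtain ⟨x, hx⟩ := j80_crt h𝒞 (fun C => if C ∈ Δ then d₀ else 1)
      have hxΔ : ∀ C ∈ Δ, d₀⁻¹ * x ∈ C := by
        intro C hC
        have := hx C (hΔP hC).1.1
        simpa [hC] using this
      have hxn : ∀ C ∈ 𝒞, C ∉ Δ → x ∈ C := by
        intro C hC hCn
        have := hx C hC
        simpa [hCn] using this
      have hxΔ' : ∀ C ∈ Δ, x ∉ C := by
        intro C hC h
        apply hd₀C C (hΔP hC)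
        have h2 := C.mul_mem h (C.inv_mem (hxΔ C hC))
        simpa using h2
      -- `E` is determined by `x`
      have hQne : ∀ E' ∈ Sg, E' ≠ E → x ∈ D ⊔ j80_QQ 𝒞 D E' := by
        intro E' hE' hne
        refine le_sup_right (a := D) ?_
        rw [j80_mem_QQ]
        intro C' hC' hle
        refine hxn C' hC' (fun h => hne ?_)
        have h1 := hΔP h
        rw [← hcomp C' h1.1 E' hE' hle, h1.2]
      have hQE : x ∉ D ⊔ j80_QQ 𝒞 D E := by
        intro h
        obtain ⟨d, hd, q, hq, hxe⟩ := j80_mem_sup_normal (j80_QQ_normal h𝒞 D E) h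
        rw [j80_mem_QQ] at hq
        have h1 : x ∈ C₂ := hxn C₂ hC₂P.1.1 hC₂
        have h2 : d ∈ C₂ := by
          have : d = x * q⁻¹ := by rw [hxe]; group
          rw [this]
          exact C₂.mul_mem h1 (C₂.inv_mem (hq C₂ hC₂P.1.1 hC₂P.2.le))
        have h3 : d ∈ C₁ := by
          have : d ∈ D ⊓ C₁ := by
            rw [hC₁P.2, ← hC₂P.2]; exact ⟨hd, h2⟩
          exact this.2
        apply hxΔ' C₁ hC₁
        rw [hxe]
        exact C₁.mul_mem h3 (hq C₁ hC₁P.1.1 hC₁P.2.le)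
      -- the relation on `Pc E`
      have hrel : ∀ C ∈ Pc E, ∀ C' ∈ Pc E, (x ∈ D ⊔ (C ⊓ C') ↔ (C ∈ Δ ↔ C' ∈ Δ)) := by
        have haux : ∀ C ∈ Pc E, ∀ C' ∈ Pc E, x ∈ D ⊔ (C ⊓ C') → C ∈ Δ → C' ∈ Δ := by
          intro C hC C' hC' h hCΔ
          by_contra hC'Δ
          have hCn := (h𝒞 C hC.1.1).normal
          have hCn' := (h𝒞 C' hC'.1.1).normal
          obtain ⟨d, hd, q, hq, hxe⟩ := j80_mem_sup_normal (C := C ⊓ C') inferInstance h
          have h1 : x ∈ C' := hxn C' hC'.1.1 hC'Δ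
          have h2 : d ∈ C' := by
            have : d = x * q⁻¹ := by rw [hxe]; group
            rw [this]
            exact C'.mul_mem h1 (C'.inv_mem hq.2)
          have h3 : d ∈ C := by
            have : d ∈ D ⊓ C := by
              rw [hC.2, ← hC'.2]; exact ⟨hd, h2⟩
            exact this.2
          apply hxΔ' C hCΔ
          rw [hxe]
          exact C.mul_mem h3 hq.1
        intro C hC C' hC'
        constructor
        · intro h
          exact ⟨haux C hC C' hC' h, haux C' hC' C hC (by rw [inf_comm]; exact h)⟩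
        · intro h
          by_cases hCΔ : C ∈ Δ
          · have hC'Δ := h.mp hCΔ
            have e : x = d₀ * (d₀⁻¹ * x) := by group
            rw [e]
            exact Subgroup.mul_mem_sup hd₀ ⟨hxΔ C hCΔ, hxΔ C' hC'Δ⟩
          · have hC'Δ : C' ∉ Δ := fun h' => hCΔ (h.mpr h')
            exact le_sup_right (a := D) ⟨hxn C hC.1.1 hCΔ, hxn C' hC'.1.1 hC'Δ⟩
      refine ⟨x, fun J hJ hJT => ?_⟩
      have hJst : J ≤ MulAction.stabilizer R E := by
        intro r hr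
        by_contra hcon
        rw [MulAction.mem_stabilizer_iff] at hcon
        have h1 := hQne (r • E) (hSinv r E hE) hcon
        rw [hinvQ (hJ r hr) E] at h1
        exact hQE h1
      have hflip : ∀ r ∈ J, (∀ C ∈ Pc E, (r • C ∈ Δ ↔ C ∈ Δ)) ∨
          (∀ C ∈ Pc E, (r • C ∈ Δ ↔ C ∉ Δ)) := by
        intro r hr
        have hrr : ∀ C ∈ Pc E, ∀ C' ∈ Pc E,
            ((r • C ∈ Δ ↔ r • C' ∈ Δ) ↔ (C ∈ Δ ↔ C' ∈ Δ)) := by
          intro C hC C' hC'
          rw [← hrel C hC C' hC', ← hrel _ (hPinv r (hJst hr) C hC) _ (hPinv r (hJst hr) C' hC'),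
            ← Subgroup.smul_inf]
          exact j80_inv_lemma hD (hJ r hr) _
        by_cases h : r • C₁ ∈ Δ
        · left
          intro C hC
          have := hrr C hC C₁ hC₁P
          tauto
        · right
          intro C hC
          have := hrr C hC C₁ hC₁P
          tauto
      have hcomm : (⁅J, J⁆).map φ = ⊤ := map_commutator_eq_top hT hJT hJT
      have hle : ⁅J, J⁆ ≤ J := by
        rw [Subgroup.commutator_le]
        intro a ha b hb
        rw [commutatorElement_def]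
        exact J.mul_mem (J.mul_mem (J.mul_mem ha hb) (J.inv_mem ha)) (J.inv_mem hb)
      let J0 : Subgroup R :=
        { carrier := {r | r ∈ J ∧ ∀ C ∈ Pc E, (r • C ∈ Δ ↔ C ∈ Δ)}
          one_mem' := ⟨J.one_mem, fun C _ => by rw [one_smul]⟩
          mul_mem' := by
            rintro a b ⟨ha, ha'⟩ ⟨hb, hb'⟩
            refine ⟨J.mul_mem ha hb, fun C hC => ?_⟩
            rw [mul_smul, ha' _ (hPinv b (hJst hb) C hC), hb' C hC]
          inv_mem' := by
            rintro a ⟨ha, ha'⟩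
            refine ⟨J.inv_mem ha, fun C hC => ?_⟩
            have h1 := ha' _ (hPinv a⁻¹ (hJst (J.inv_mem ha)) C hC)
            rw [smul_inv_smul] at h1
            exact h1.symm }
      have hJ0 : ⁅J, J⁆ ≤ J0 := by
        rw [Subgroup.commutator_le]
        intro a ha b hb
        refine ⟨hle (Subgroup.commutator_mem_commutator ha hb), fun C hC => ?_⟩
        rw [commutatorElement_def, mul_smul, mul_smul, mul_smul]
        have ha1 := J.inv_mem ha
        have hb1 := J.inv_mem hb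
        have p1 := hPinv _ (hJst hb1) C hC
        have p2 := hPinv _ (hJst ha1) _ p1
        have p3 := hPinv _ (hJst hb) _ p2
        have qb : (b⁻¹ • C ∈ Δ ↔ C ∈ Δ) ∧ (∀ C ∈ Pc E, (b • C ∈ Δ ↔ C ∈ Δ)) ∨
            (b⁻¹ • C ∈ Δ ↔ C ∉ Δ) ∧ (∀ C ∈ Pc E, (b • C ∈ Δ ↔ C ∉ Δ)) := by
          rcases hflip b hb with h | h
          · left
            refine ⟨?_, h⟩
            have := h _ p1
            rw [smul_inv_smul] at this
            exact this.symm
          · right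
            refine ⟨?_, h⟩
            have := h _ p1
            rw [smul_inv_smul] at this
            tauto
        have qa : (a⁻¹ • b⁻¹ • C ∈ Δ ↔ b⁻¹ • C ∈ Δ) ∧ (∀ C ∈ Pc E, (a • C ∈ Δ ↔ C ∈ Δ)) ∨
            (a⁻¹ • b⁻¹ • C ∈ Δ ↔ b⁻¹ • C ∉ Δ) ∧ (∀ C ∈ Pc E, (a • C ∈ Δ ↔ C ∉ Δ)) := by
          rcases hflip a ha with h | h
          · left
            refine ⟨?_, h⟩
            have := h _ p2
            rw [smul_inv_smul] at this
            exact this.symm
          · right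
            refine ⟨?_, h⟩
            have := h _ p2
            rw [smul_inv_smul] at this
            tauto
        rcases qa with ⟨qa1, qa2⟩ | ⟨qa1, qa2⟩
        · rcases qb with ⟨qb1, qb2⟩ | ⟨qb1, qb2⟩
          · rw [qa2 _ p3, qb2 _ p2, qa1, qb1]
          · rw [qa2 _ p3, qb2 _ p2, qa1, qb1, not_not]
        · rcases qb with ⟨qb1, qb2⟩ | ⟨qb1, qb2⟩
          · rw [qa2 _ p3, qb2 _ p2, qa1, qb1, not_not]
          · rw [qa2 _ p3, qb2 _ p2, qa1, qb1, not_not, not_not]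
      refine hΔ J0 (fun r hr => hJst hr.1) (fun r hr => hr.2) ?_
      exact map_top_mono hJ0 hcomm

end Pool.Agent.TH82.BS
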