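import Pool.Agent.TH62.PL.Stms
import Pool.Agent.TH62.PL.Stms2
import Pool.Agent.TH62.PL.Hall

set_option autoImplicit false

/-! An elementary abelian section cannot be long (`p = 2`). -/

namespace Pool.Agent.TH553.J831
open Pool.Agent.TH62.PL
open scoped commutatorElement

section rep
variable {G k V : Type} [Group G] [Field k] [AddCommGroup V] [Module k V]

theorem cm_mem (ρ : G →* Module.End k V) {W : Submodule k V} {D : Subgroup G} {g : G}
    (hg : g ∈ D) {w : V} (hw : w ∈ W) : ρ g w - w ∈ cm ρ W D :=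
  Submodule.subset_span ⟨g, hg, w, hw, rfl⟩

theorem rho_inv (ρ : G →* Module.End k V) (g : G) (w : V) : ρ g (ρ g⁻¹ w) = w := by
  rw [← Module.End.mul_apply, ← map_mul, mul_inv_cancel, map_one]; rfl

theorem rho_inv' (ρ : G →* Module.End k V) (g : G) (w : V) : ρ g⁻¹ (ρ g w) = w := by
  rw [← Module.End.mul_apply, ← map_mul, inv_mul_cancel, map_one]; rfl

/-- Lemma 0, relative form -/
theorem lem0 (ρ : G →* Module.End k V) (L : Subgroup G) (j : ℕ) (W0 : Submodule k V)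
    (hW0 : ∀ g ∈ DS L j, ∀ w ∈ W0, ρ g w ∈ W0) (i : ℕ) :
    ∀ b ∈ DS L (j + i), ∀ w ∈ W0,
      ρ b w - w ∈ VC ρ (fun i => DS L (j + i)) W0 i := by
  induction i with
  | zero => intro b hb w hw; exact Submodule.sub_mem _ (hW0 b hb w hw) hw
  | succ i ih =>
    have hle : DS L (j + i) ≤ DS L j := by
      rw [DS_add]; exact DS.le _ _
    let K : Subgroup G :=
      { carrier := {b | (∀ w ∈ W0, ρ b w ∈ W0) ∧ (∀ w ∈ W0, ρ b⁻¹ w ∈ W0) ∧
          ∀ w ∈ W0, ρ b w - w ∈ VC ρ (fun i => DS L (j + i)) W0 (i + 1)}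
        one_mem' := by
          refine ⟨fun w hw => ?_, fun w hw => ?_, fun w hw => ?_⟩
          · rw [map_one]; exact hw
          · rw [inv_one, map_one]; exact hw
          · rw [map_one]
            have : (1 : Module.End k V) w - w = 0 := by simp
            rw [this]; exact Submodule.zero_mem _
        mul_mem' := by
          rintro a b ⟨a1, a2, a3⟩ ⟨b1, b2, b3⟩
          refine ⟨fun w hw => ?_, fun w hw => ?_, fun w hw => ?_⟩
          · rw [map_mul]; exact a1 _ (b1 _ hw)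
          · rw [mul_inv_rev, map_mul]; exact b2 _ (a2 _ hw)
          · have e : ρ (a * b) w - w = (ρ a (ρ b w) - ρ b w) + (ρ b w - w) := by
              rw [map_mul, Module.End.mul_apply]; abel
            rw [e]
            exact Submodule.add_mem _ (a3 _ (b1 _ hw)) (b3 _ hw)
        inv_mem' := by
          rintro a ⟨a1, a2, a3⟩
          refine ⟨a2, fun w hw => by rw [inv_inv]; exact a1 w hw, fun w hw => ?_⟩
          have h := a3 _ (a2 w hw)
          rw [rho_inv] at h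
          have e : ρ a⁻¹ w - w = -(w - ρ a⁻¹ w) := by abel
          rw [e]
          exact Submodule.neg_mem _ h }
    have hK : ⁅DS L (j + i), DS L (j + i)⁆ ≤ K := by
      rw [Subgroup.commutator_le]
      intro a ha b hb
      have hm : ∀ g ∈ DS L (j + i), ∀ w ∈ W0, ρ g w ∈ W0 := fun g hg => hW0 g (hle hg)
      have hc : ⁅a, b⁆ ∈ DS L (j + i) := by
        rw [commutatorElement_def]
        exact mul_mem (mul_mem (mul_mem ha hb) (inv_mem ha)) (inv_mem hb)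
      refine ⟨hm _ hc, hm _ (inv_mem hc), fun w hw => ?_⟩
      obtain ⟨w', hw'⟩ : ∃ w', w' = ρ (a⁻¹ * b⁻¹) w := ⟨_, rfl⟩
      have hw'm : w' ∈ W0 := by
        rw [hw']; exact hm _ (mul_mem (inv_mem ha) (inv_mem hb)) w hw
      have e1 : ρ ⁅a, b⁆ w = ρ a (ρ b w') := by
        rw [hw', ← Module.End.mul_apply, ← Module.End.mul_apply, ← map_mul, ← map_mul,
          commutatorElement_def]
        congr 2
        group
      have e2 : w = ρ b (ρ a w') := by
        rw [hw', ← Module.End.mul_apply, ← Module.End.mul_apply, ← map_mul, ← map_mul]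
        have : b * a * (a⁻¹ * b⁻¹) = 1 := by group
        rw [this, map_one]; rfl
      have e3 : ρ ⁅a, b⁆ w - w = (ρ a (ρ b w' - w') - (ρ b w' - w')) -
          (ρ b (ρ a w' - w') - (ρ a w' - w')) := by
        rw [e1]
        conv_lhs => rw [e2]
        rw [map_sub, map_sub]
        rw [← e2]
        abel
      rw [e3]
      exact Submodule.sub_mem _ (cm_mem ρ ha (ih b hb w' hw'm)) (cm_mem ρ hb (ih a ha w' hw'm))
    intro b hb w hw
    exact (hK hb).2.2 w hw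

end rep

section pairing
variable {G k V : Type} [Group G] [Field k] {q : ℕ} {Q Z : Subgroup G} {c : G → k}

theorem c_one (h : QC q Q Z c) : c 1 = 1 := by
  have h1 := h.cmul 1 (one_mem _) 1 (one_mem _)
  rw [mul_one] at h1
  have h2 := h.cne 1 (one_mem _)
  exact (mul_eq_left₀ h2).1 h1.symm

theorem beta_mul (h : QC q Q Z c) {x x' y : G} (hx : x ∈ Q) (hx' : x' ∈ Q) (hy : y ∈ Q) :
    c ((x * x') * y * (x * x')⁻¹ * y⁻¹) = c (x * y * x⁻¹ * y⁻¹) * c (x' * y * x'⁻¹ * y⁻¹) := by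
  have e : (x * x') * y * (x * x')⁻¹ * y⁻¹ = (x' * y * x'⁻¹ * y⁻¹) * (x * y * x⁻¹ * y⁻¹) := by
    have h1 := h.cent _ (h.comm x' hx' y hy) x hx
    calc (x * x') * y * (x * x')⁻¹ * y⁻¹
        = (x * (x' * y * x'⁻¹ * y⁻¹)) * x⁻¹ * (x * y * x⁻¹ * y⁻¹) := by group
      _ = _ := by rw [← h1]; group
  rw [e, h.cmul _ (h.comm x' hx' y hy) _ (h.comm x hx y hy), mul_comm]

theorem beta_inv (h : QC q Q Z c) {x y : G} (hx : x ∈ Q) (hy : y ∈ Q)
    (h1 : c (x * y * x⁻¹ * y⁻¹) = 1) : c (x⁻¹ * y * x⁻¹⁻¹ * y⁻¹) = 1 := by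
  have h2 := beta_mul h (inv_mem hx) hx hy
  rw [h1, mul_one, inv_mul_cancel] at h2
  rw [← h2]
  have : (1 : G) * y * (1 : G)⁻¹ * y⁻¹ = 1 := by group
  rw [this, c_one h]

/-- the elements acting trivially modulo the radical -/
def TT (h : QC q Q Z c) : Subgroup G where
  carrier := {g | TrivOn Q c g}
  one_mem' := by
    intro x _ y _
    have : ((1 * x * (1 : G)⁻¹ * x⁻¹) * y * (1 * x * (1 : G)⁻¹ * x⁻¹)⁻¹ * y⁻¹) = 1 := by group
    rw [this, c_one h]
  mul_mem' := by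
    intro a b ha hb x hx y hy
    have hx' : b * x * b⁻¹ ∈ Q := h.Qn.conj_mem x hx b
    have e : (a * b) * x * (a * b)⁻¹ * x⁻¹ =
        (a * (b * x * b⁻¹) * a⁻¹ * (b * x * b⁻¹)⁻¹) * (b * x * b⁻¹ * x⁻¹) := by group
    have m1 : a * (b * x * b⁻¹) * a⁻¹ * (b * x * b⁻¹)⁻¹ ∈ Q :=
      mul_mem (h.Qn.conj_mem _ hx' a) (inv_mem hx')
    have m2 : b * x * b⁻¹ * x⁻¹ ∈ Q := mul_mem hx' (inv_mem hx)
    rw [e, beta_mul h m1 m2 hy, ha _ hx' y hy, hb x hx y hy, mul_one]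
  inv_mem' := by
    intro a ha x hx y hy
    have hx' : a⁻¹ * x * a ∈ Q := by simpa using h.Qn.conj_mem x hx a⁻¹
    have m1 : a * (a⁻¹ * x * a) * a⁻¹ * (a⁻¹ * x * a)⁻¹ ∈ Q :=
      mul_mem (h.Qn.conj_mem _ hx' a) (inv_mem hx')
    have e : a⁻¹ * x * a⁻¹⁻¹ * x⁻¹ = (a * (a⁻¹ * x * a) * a⁻¹ * (a⁻¹ * x * a)⁻¹)⁻¹ := by group
    rw [e]
    exact beta_inv h m1 hy (ha _ hx' y hy)

theorem mem_TT {h : QC q Q Z c} {g : G} : g ∈ TT h ↔ TrivOn Q c g := Iff.rfl

theorem TT_of_cent (h : QC q Q Z c) {g : G} (hg : ∀ x ∈ Q, g * x = x * g) : g ∈ TT h := by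
  intro x hx y _
  have e : g * x * g⁻¹ * x⁻¹ = 1 := by rw [hg x hx]; group
  rw [e]
  have : (1 : G) * y * (1 : G)⁻¹ * y⁻¹ = 1 := by group
  rw [this, c_one h]

theorem TT_conj (h : QC q Q Z c) {g : G} (hg : ∀ z ∈ Z, c (g * z * g⁻¹) = c z) {t : G}
    (ht : t ∈ TT h) : g * t * g⁻¹ ∈ TT h := by
  intro x hx y hy
  have hx' : g⁻¹ * x * g ∈ Q := by simpa using h.Qn.conj_mem x hx g⁻¹
  have hy' : g⁻¹ * y * g ∈ Q := by simpa using h.Qn.conj_mem y hy g⁻¹
  have m1 : t * (g⁻¹ * x * g) * t⁻¹ * (g⁻¹ * x * g)⁻¹ ∈ Q :=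
    mul_mem (h.Qn.conj_mem _ hx' t) (inv_mem hx')
  have e : ((g * t * g⁻¹) * x * (g * t * g⁻¹)⁻¹ * x⁻¹) * y *
      ((g * t * g⁻¹) * x * (g * t * g⁻¹)⁻¹ * x⁻¹)⁻¹ * y⁻¹ =
      g * ((t * (g⁻¹ * x * g) * t⁻¹ * (g⁻¹ * x * g)⁻¹) * (g⁻¹ * y * g) *
        (t * (g⁻¹ * x * g) * t⁻¹ * (g⁻¹ * x * g)⁻¹)⁻¹ * (g⁻¹ * y * g)⁻¹) * g⁻¹ := by group
  rw [e, hg _ (h.comm _ m1 _ hy')]
  exact ht _ hx' _ hy'

end pairing

section ext
variable {G : Type} [Group G]

/-- `N ∪ h N` -/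
def ex (N : Subgroup G) (h : G) (hn : ∀ n ∈ N, h⁻¹ * n * h ∈ N) (h2 : h * h ∈ N) :
    Subgroup G where
  carrier := {x | x ∈ N ∨ h⁻¹ * x ∈ N}
  one_mem' := Or.inl (one_mem _)
  mul_mem' := by
    rintro x y (hx | hx) (hy | hy)
    · exact Or.inl (mul_mem hx hy)
    · right
      have e : h⁻¹ * (x * y) = (h⁻¹ * x * h) * (h⁻¹ * y) := by group
      rw [e]; exact mul_mem (hn x hx) hy
    · right
      rw [← mul_assoc]; exact mul_mem hx hy
    · left
      have e : x * y = (h * h) * (h⁻¹ * (h⁻¹ * x) * h) * (h⁻¹ * y) := by group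
      rw [e]; exact mul_mem (mul_mem h2 (hn _ hx)) hy
  inv_mem' := by
    rintro x (hx | hx)
    · exact Or.inl (inv_mem hx)
    · right
      have e : h⁻¹ * x⁻¹ = (h⁻¹ * (h⁻¹ * x)⁻¹ * h) * (h * h)⁻¹ := by group
      rw [e]; exact mul_mem (hn _ (inv_mem hx)) (inv_mem h2)

theorem mem_ex {N : Subgroup G} {h : G} {hn : ∀ n ∈ N, h⁻¹ * n * h ∈ N} {h2 : h * h ∈ N} {x : G} :
    x ∈ ex N h hn h2 ↔ x ∈ N ∨ h⁻¹ * x ∈ N := Iff.rfl

end ext

section good
variable {G k V : Type} [Group G] [Field k] [AddCommGroup V] [Module k V]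

/-- combinations of elements of `F` in different cosets of `T` -/
def Good (ρ : G →* Module.End k V) (T F : Subgroup G) (R : Module.End k V) : Prop :=
  ∃ (s : Finset G) (a : G → k), s.Nonempty ∧ (∀ g ∈ s, g ∈ F) ∧ (∀ g ∈ s, a g ≠ 0) ∧
    (∀ g ∈ s, ∀ g' ∈ s, g ≠ g' → g⁻¹ * g' ∉ T) ∧ R = ∑ g ∈ s, a g • ρ g

theorem Good.one (ρ : G →* Module.End k V) (T : Subgroup G) : Good ρ T T 1 := by
  refine ⟨{1}, fun _ => 1, Finset.singleton_nonempty _, ?_, ?_, ?_, ?_⟩
  · intro g hg; rw [Finset.mem_singleton.1 hg]; exact one_mem _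
  · intro g _; exact one_ne_zero
  · intro g hg g' hg' hne
    rw [Finset.mem_singleton.1 hg, Finset.mem_singleton.1 hg'] at hne
    exact absurd rfl hne
  · simp

theorem Good.mul {ρ : G →* Module.End k V} {T F F' : Subgroup G} {R : Module.End k V}
    (hR : Good ρ T F R) (hTF : T ≤ F) (hFF : F ≤ F') {h : G} (hF : h ∉ F) (hF' : h ∈ F')
    (hn : ∀ t, h⁻¹ * t * h ∈ T → t ∈ T) : Good ρ T F' (R * (ρ h - 1)) := by
  classical
  obtain ⟨s, a, hs, hsF, ha, hdis, rfl⟩ := hR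
  have key : ∀ g ∈ s, ∀ g' ∈ s, g * h ≠ g' := by
    rintro g hg g' hg' he
    apply hF
    have : h = g⁻¹ * g' := by rw [← he]; group
    rw [this]
    exact mul_mem (inv_mem (hsF g hg)) (hsF g' hg')
  have hinj : Function.Injective (fun g : G => g * h) := fun x y hxy => mul_right_cancel hxy
  refine ⟨s.image (fun g => g * h) ∪ s, fun g => if g ∈ s then - a g else a (g * h⁻¹), ?_, ?_, ?_,
    ?_, ?_⟩
  · exact hs.mono Finset.subset_union_right
  · intro g hg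
    rw [Finset.mem_union, Finset.mem_image] at hg
    rcases hg with ⟨g', hg', rfl⟩ | hg
    · exact mul_mem (hFF (hsF g' hg')) hF'
    · exact hFF (hsF g hg)
  · intro g hg
    rw [Finset.mem_union, Finset.mem_image] at hg
    by_cases hgs : g ∈ s
    · simp only [if_pos hgs]
      exact neg_ne_zero.2 (ha g hgs)
    · simp only [if_neg hgs]
      rcases hg with ⟨g', hg', rfl⟩ | hg
      · rw [mul_inv_cancel_right]; exact ha g' hg'
      · exact absurd hg hgs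
  · intro g hg g' hg' hne hT
    rw [Finset.mem_union, Finset.mem_image] at hg hg'
    rcases hg with ⟨g1, hg1, rfl⟩ | hg <;> rcases hg' with ⟨g2, hg2, rfl⟩ | hg'
    · have hne' : g1 ≠ g2 := fun h' => hne (by rw [h'])
      refine hdis g1 hg1 g2 hg2 hne' (hn _ ?_)
      have e : h⁻¹ * (g1⁻¹ * g2) * h = (g1 * h)⁻¹ * (g2 * h) := by group
      rw [e]; exact hT
    · apply hF
      have e : h = g1⁻¹ * g' * ((g1 * h)⁻¹ * g')⁻¹ := by group
      rw [e]
      exact mul_mem (mul_mem (inv_mem (hsF g1 hg1)) (hsF g' hg')) (inv_mem (hTF hT))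
    · apply hF
      have e : h = g2⁻¹ * g * (g⁻¹ * (g2 * h)) := by group
      rw [e]
      exact mul_mem (mul_mem (inv_mem (hsF g2 hg2)) (hsF g hg)) (hTF hT)
    · exact hdis g hg g' hg' hne hT
  · have hdj : Disjoint (s.image (fun g => g * h)) s := by
      rw [Finset.disjoint_left]
      intro g hg hgs
      rw [Finset.mem_image] at hg
      obtain ⟨g', hg', rfl⟩ := hg
      exact key g' hg' _ hgs rfl
    rw [Finset.sum_union hdj, Finset.sum_image (fun x _ y _ hxy => hinj hxy), mul_sub, mul_one,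
      Finset.sum_mul, sub_eq_add_neg, ← Finset.sum_neg_distrib]
    congr 1
    · refine Finset.sum_congr rfl fun g hg => ?_
      beta_reduce
      rw [if_neg (fun h' => key g hg _ h' rfl), mul_inv_cancel_right, map_mul, smul_mul_assoc]
    · refine Finset.sum_congr rfl fun g hg => ?_
      beta_reduce
      rw [if_pos hg, neg_smul]

end good

theorem chainStm (wd : WDStm) (sep : SepF2Stm) : ChainStm := by
  intro q _ k G V _ _ _ _ _ _ _ ρ L Q Z P l hq2 hsol hV hQD hfaith hPL hInv hPZ hsq hcomm g hg x hx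
  by_contra hu
  have huQ : g * x * g⁻¹ * x⁻¹ ∈ Q := mul_mem (hQD.Qn.conj_mem x hx g) (inv_mem hx)
  obtain ⟨j, e, c, hW, y, hy, hcy⟩ := wd 2 q k G V ρ L Q Z l (Ne.symm hq2) hsol hV hQD hfaith
    (g * x * g⁻¹ * x⁻¹) huQ hu
  have hWC : WC q ρ Q Z e c := hW.toWC
  have hQC : QC q Q Z c := hWC.toQC
  -- invariance of the pairing under `P`
  have hPc : ∀ h ∈ P, ∀ z ∈ Z, c (h * z * h⁻¹) = c z := by
    intro h hh z hz
    rw [hPZ h hh z hz]; congr 1; group
  -- the subgroup T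
  obtain ⟨T, hT⟩ : ∃ T, T = P ⊓ TT hQC := ⟨_, rfl⟩
  have hTP : T ≤ P := by rw [hT]; exact inf_le_left
  have hcentT : ∀ h ∈ P, (∀ x ∈ Q, h * x = x * h) → h ∈ T := by
    intro h hh hc; rw [hT]; exact ⟨hh, TT_of_cent hQC hc⟩
  have hsqT : ∀ h ∈ P, h * h ∈ T := fun h hh => hcentT _ (mul_mem hh hh) (hsq h hh)
  have hcommT : ∀ a ∈ P, ∀ b ∈ P, a * b * a⁻¹ * b⁻¹ ∈ T := by
    intro a ha b hb
    refine hcentT _ (mul_mem (mul_mem (mul_mem ha hb) (inv_mem ha)) (inv_mem hb)) ?_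
    intro w hw
    have hw' : (b * a)⁻¹ * w * (b * a) ∈ Q := by simpa using hQD.Qn.conj_mem w hw (b * a)⁻¹
    have h1 := hcomm a ha b hb _ hw'
    have h2 : (b * a) * ((b * a)⁻¹ * w * (b * a)) * (b * a)⁻¹ = w := by group
    rw [h2] at h1
    calc a * b * a⁻¹ * b⁻¹ * w
        = ((a * b) * ((b * a)⁻¹ * w * (b * a)) * (a * b)⁻¹) * (a * b * a⁻¹ * b⁻¹) := by group
      _ = w * (a * b * a⁻¹ * b⁻¹) := by rw [h1]
  -- subgroups between T and P are normalised by P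
  have hnorm : ∀ N : Subgroup G, T ≤ N → N ≤ P → ∀ h ∈ P, ∀ n ∈ N, h⁻¹ * n * h ∈ N := by
    intro N hTN hNP h hh n hn
    have h1 := hTN (hcommT h⁻¹ (inv_mem hh) n (hNP hn))
    have e1 : h⁻¹ * n * h = (h⁻¹ * n * h⁻¹⁻¹ * n⁻¹) * n := by group
    rw [e1]; exact mul_mem h1 hn
  have hnormT : ∀ h ∈ P, ∀ t, h⁻¹ * t * h ∈ T → t ∈ T := by
    intro h hh t ht
    have h1 := hnorm T le_rfl hTP h⁻¹ (inv_mem hh) _ ht
    have e1 : h⁻¹⁻¹ * (h⁻¹ * t * h) * h⁻¹ = t := by group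
    rwa [e1] at h1
  -- the operators on range e
  have hW0 : ∀ a ∈ DS L j, ∀ w ∈ LinearMap.range e, ρ a w ∈ LinearMap.range e := by
    rintro a ha _ ⟨v, rfl⟩
    have := hW.comm' a ha
    refine ⟨ρ a v, ?_⟩
    rw [← Module.End.mul_apply, ← this]; rfl
  obtain ⟨W, hWdef⟩ : ∃ W, W = VC ρ (fun i => DS L (j + i)) (LinearMap.range e) := ⟨_, rfl⟩
  have hWlast : W (l + 1 - j) = ⊥ := by rw [hWdef]; exact hW.van
  have hWzero : W 0 = LinearMap.range e := by rw [hWdef]; rfl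
  have hWsucc : ∀ i, ∀ a ∈ DS L (j + i), ∀ w ∈ W i, ρ a w - w ∈ W (i + 1) := by
    intro i a ha w hw
    rw [hWdef] at hw ⊢
    exact cm_mem ρ ha hw
  have hWlem : ∀ i, ∀ b ∈ DS L (j + i), ∀ w ∈ LinearMap.range e, ρ b w - w ∈ W i := by
    rw [hWdef]; exact lem0 ρ L j _ hW0
  have hjl : j ≤ l := hW.jl
  -- good operators do not vanish on range e
  have hgood : ∀ (F : Subgroup G) (R : Module.End k V), F ≤ P → Good ρ T F R → R * e ≠ 0 := by
    rintro F R hFP ⟨s, a, hs, hsF, ha, hdis, rfl⟩ hz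
    have hsP : ∀ g ∈ s, g ∈ P := fun g hg => hFP (hsF g hg)
    obtain ⟨a1, h1, a2, h2, hne, htr⟩ := sep q k G V ρ Q Z e c hq2 hWC s hs a ha
      (fun g hg => hPZ g (hsP g hg)) (fun g hg => hsq g (hsP g hg))
      (fun g hg g' hg' => hcomm g (hsP g hg) g' (hsP g' hg'))
      (by
        rw [← hz, Finset.sum_mul]
        exact Finset.sum_congr rfl fun g _ => (smul_mul_assoc _ _ _).symm)
    refine hdis a1 h1 a2 h2 hne ?_
    rw [hT]
    exact Subgroup.mem_inf.2 ⟨P.mul_mem (P.inv_mem (hsP a1 h1)) (hsP a2 h2), htr⟩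
  -- the chain
  obtain ⟨E, hE⟩ : ∃ E, E = CE P (DS L) := ⟨_, rfl⟩
  have hEP : ∀ i, E i ≤ P := fun i => by rw [hE]; exact CE.le hInv i
  have hED : ∀ i, E i ≤ DS L i := fun i => by rw [hE]; exact CE.le_DS hPL i
  have hEinv : ∀ i, Inv L (E i) := fun i => by rw [hE]; exact CE.inv hInv (Inv.self L) i
  have hEsucc : ∀ i, E (i + 1) = ⁅E i, DS L i⁆ := fun i => by rw [hE]; rfl
  have hEle : ∀ i, E (i + 1) ≤ E i := fun i => by rw [hE]; exact CE.succ_le hInv i
  obtain ⟨F, hF⟩ : ∃ F : ℕ → Subgroup G, ∀ i, F i = E i ⊔ T := ⟨fun i => E i ⊔ T, fun _ => rfl⟩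
  have hTF : ∀ i, T ≤ F i := fun i => by rw [hF]; exact le_sup_right
  have hEF : ∀ i, E i ≤ F i := fun i => by rw [hF]; exact le_sup_left
  have hFP : ∀ i, F i ≤ P := fun i => by rw [hF]; exact sup_le (hEP i) hTP
  have hFle : ∀ i, F (i + 1) ≤ F i := fun i => by
    rw [hF, hF]; exact sup_le_sup_right (hEle i) _
  -- T and F are normalised by D_j
  have hDjT : Inv (DS L j) T := by
    intro a ha t ht
    rw [hT] at ht ⊢
    exact ⟨hInv a (DS.le L j ha) t ht.1, TT_conj hQC (hW.fix a ha) ht.2⟩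
  have hDjF : ∀ i, Inv (DS L j) (F i) := fun i => by
    rw [hF]; exact ((hEinv i).mono (DS.le L j)).sup hDjT
  -- E (l+1) ≤ T
  have hElT : E (l + 1) ≤ T := by
    rw [hEsucc, Subgroup.commutator_le]
    intro a ha b hb
    have haL := DS.le L l (hED l ha)
    have hbL := DS.le L l hb
    have hquad : ∀ a ∈ DS L l, ∀ b ∈ DS L l, ∀ v : V, ρ a (ρ b v - v) = ρ b v - v := by
      intro a ha b hb v
      have h0 := lem0 ρ L 0 ⊤ (fun _ _ _ _ => trivial) l b (by rw [zero_add]; exact hb) v trivial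
      have e0 : (fun i => DS L (0 + i)) = DS L := by funext i; rw [zero_add]
      rw [e0] at h0
      have h1 : ρ a (ρ b v - v) - (ρ b v - v) ∈ VC ρ (DS L) ⊤ (l + 1) := cm_mem ρ ha h0
      rw [hV, Submodule.mem_bot, sub_eq_zero] at h1
      exact h1
    have hab : ∀ v : V, ρ a (ρ b v) = ρ b (ρ a v) := by
      intro v
      have h1 := hquad a (hED l ha) b hb v
      have h2 := hquad b hb a (hED l ha) v
      rw [map_sub] at h1 h2
      have e1 : ρ a (ρ b v) = ρ a v + (ρ b v - v) := by rw [← h1]; abel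
      have e2 : ρ b (ρ a v) = ρ b v + (ρ a v - v) := by rw [← h2]; abel
      rw [e1, e2]; abel
    have h1 : ρ ⁅a, b⁆ = 1 := by
      have e1 : ⁅a, b⁆ = (a * b) * (b * a)⁻¹ := by rw [commutatorElement_def]; group
      have e2 : ρ (a * b) = ρ (b * a) := by
        rw [map_mul, map_mul]; exact LinearMap.ext hab
      rw [e1, map_mul, e2, ← map_mul, mul_inv_cancel, map_one]
    refine hcentT _ ?_ ?_
    · have h3 := hInv b hbL a⁻¹ (inv_mem (hEP l ha))
      have e1 : ⁅a, b⁆ = a * (b * a⁻¹ * b⁻¹) := by rw [commutatorElement_def]; group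
      rw [e1]; exact mul_mem (hEP l ha) h3
    · intro w hw
      have h3 : ⁅a, b⁆ * w * ⁅a, b⁆⁻¹ * w⁻¹ ∈ Q :=
        mul_mem (hQD.Qn.conj_mem w hw _) (inv_mem hw)
      have h4 := hfaith _ h3 (by
        rw [map_mul, map_mul, map_mul, h1, one_mul]
        have : ρ ⁅a, b⁆⁻¹ = 1 := by
          have h5 : ρ ⁅a, b⁆ * ρ ⁅a, b⁆⁻¹ = 1 := by rw [← map_mul, mul_inv_cancel, map_one]
          rwa [h1, one_mul] at h5
        rw [this, mul_one, ← map_mul, mul_inv_cancel, map_one])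
      have e1 : ⁅a, b⁆ * w = (⁅a, b⁆ * w * ⁅a, b⁆⁻¹ * w⁻¹) * (w * ⁅a, b⁆) := by group
      rw [e1, h4, one_mul]
  have hFlast : F (l + 1) = T := by rw [hF]; exact sup_eq_right.2 hElT
  -- step
  have hstep : ∀ m, j ≤ m → ∀ h ∈ E m, h ∉ F (m + 1) → ∀ R : Module.End k V,
      (∀ w ∈ W (m + 1 - j), R w = 0) → Good ρ T (F (m + 1)) R →
      (∀ w ∈ W (m - j), (R * (ρ h - 1)) w = 0) ∧ Good ρ T (F m) (R * (ρ h - 1)) := by
    intro m hjm h hh hhF R hR hRg
    refine ⟨fun w hw => ?_, hRg.mul (hTF _) (hFle m) hhF (hEF m hh) (hnormT h (hEP m hh))⟩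
    rw [Module.End.mul_apply]
    apply hR
    have h1 := hWsucc (m - j) h (by rw [Nat.add_sub_cancel' hjm]; exact hED m hh) w hw
    rw [show m - j + 1 = m + 1 - j by omega] at h1
    exact h1
  -- index two
  have hidx : ∀ m, j ≤ m → ∀ h ∈ E m, h ∉ F (m + 1) → ∀ R : Module.End k V,
      (∀ w ∈ W (m + 1 - j), R w = 0) → Good ρ T (F (m + 1)) R →
      ∀ h' ∈ E m, h' ∈ F (m + 1) ∨ h⁻¹ * h' ∈ F (m + 1) := by
    intro m hjm h hh hhF R hR hRg h' hh'
    by_contra hcon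
    have hhP := hEP m hh
    have hh'P := hEP m hh'
    have hcon' : h' ∉ ex (F (m + 1)) h (hnorm _ (hTF _) (hFP _) h hhP)
        (hTF _ (hsqT h hhP)) := hcon
    have h1 : Good ρ T (ex (F (m + 1)) h (hnorm _ (hTF _) (hFP _) h hhP)
        (hTF _ (hsqT h hhP))) (R * (ρ h - 1)) :=
      hRg.mul (hTF _) (fun _ hz => Or.inl hz) hhF
        (Or.inr (by rw [inv_mul_cancel]; exact one_mem _)) (hnormT h hhP)
    have hexP : ex (F (m + 1)) h (hnorm _ (hTF _) (hFP _) h hhP)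
        (hTF _ (hsqT h hhP)) ≤ P := by
      rintro z (hz | hz)
      · exact hFP _ hz
      · have := mul_mem hhP (hFP _ hz)
        rwa [mul_inv_cancel_left] at this
    have h2 : Good ρ T P (R * (ρ h - 1) * (ρ h' - 1)) :=
      h1.mul (fun _ hz => Or.inl (hTF _ hz)) hexP hcon' hh'P (hnormT h' hh'P)
    refine hgood P _ le_rfl h2 ?_
    apply LinearMap.ext
    intro v
    rw [Module.End.mul_apply, Module.End.mul_apply, LinearMap.zero_apply]
    have hev : e v ∈ LinearMap.range e := ⟨v, rfl⟩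
    have h3 : (ρ h' - 1) (e v) ∈ W (m - j) :=
      hWlem (m - j) h' (by rw [Nat.add_sub_cancel' hjm]; exact hED m hh') _ hev
    exact (hstep m hjm h hh hhF R hR hRg).1 _ h3
  -- downward induction
  have hmain : ∀ n m, m + n = l → j ≤ m → (∃ h ∈ E m, h ∉ F (m + 1)) ∧
      ∃ R : Module.End k V, (∀ w ∈ W (m + 1 - j), R w = 0) ∧ Good ρ T (F (m + 1)) R := by
    intro n
    induction n with
    | zero =>
      intro m hm hjm
      rw [Nat.add_zero] at hm
      subst hm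
      refine ⟨⟨g, by rw [hE]; exact hg, ?_⟩, 1, ?_, ?_⟩
      · rw [hFlast, hT]
        rintro ⟨_, hgT⟩
        exact hcy (hgT x hx y hy)
      · intro w hw
        rw [hWlast, Submodule.mem_bot] at hw
        rw [hw, map_zero]
      · rw [hFlast]; exact Good.one ρ T
    | succ n ih =>
      intro m hm hjm
      obtain ⟨⟨h, hh, hhF⟩, R, hR, hRg⟩ := ih (m + 1) (by omega) (by omega)
      obtain ⟨hS1, hS2⟩ := hstep (m + 1) (by omega) h hh hhF R hR hRg
      refine ⟨?_, _, hS1, hS2⟩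
      by_contra hcon
      push Not at hcon
      -- E m ≤ F (m+1)
      have hI := hidx (m + 1) (by omega) h hh hhF R hR hRg
      have hhP := hEP (m + 1) hh
      -- F (m+1) ≤ F (m+2) ∪ h F (m+2)
      have hFex : F (m + 1) ≤ ex (F (m + 1 + 1)) h (hnorm _ (hTF _) (hFP _) h hhP)
          (hTF _ (hsqT h hhP)) := by
        rw [hF (m + 1)]
        refine sup_le (fun z hz => hI z hz) (fun z hz => Or.inl (hTF _ hz))
      have hcen : ⁅E m, DS L m⁆ ≤ F (m + 1 + 1) := by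
        rw [Subgroup.commutator_le]
        intro a ha b hb
        have hbj : b ∈ DS L j := by
          have : DS L m ≤ DS L j := by
            obtain ⟨i, rfl⟩ := Nat.exists_eq_add_of_le hjm
            rw [DS_add]; exact DS.le _ _
          exact this hb
        have haF : a ∈ F (m + 1) := hcon a ha
        have hbaF : b * a * b⁻¹ ∈ F (m + 1) := hDjF _ b hbj a haF
        have e1 : ⁅a, b⁆ = a * (b * a * b⁻¹)⁻¹ := by rw [commutatorElement_def]; group
        rw [e1]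
        have haP := hFP _ haF
        have hbaP := hFP _ hbaF
        have hcongr : a ∈ F (m + 1 + 1) ↔ b * a * b⁻¹ ∈ F (m + 1 + 1) :=
          ((hDjF (m + 1 + 1)).conj_iff hbj a).symm
        by_cases haN : a ∈ F (m + 1 + 1)
        · exact mul_mem haN (inv_mem (hcongr.1 haN))
        · have h1 := (hFex haF).resolve_left haN
          have h2 := (hFex hbaF).resolve_left (fun h' => haN (hcongr.2 h'))
          have h3 : h⁻¹ * (a * (b * a * b⁻¹)⁻¹) * h ∈ F (m + 1 + 1) := by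
            have e2 : h⁻¹ * (a * (b * a * b⁻¹)⁻¹) * h =
              (h⁻¹ * a) * (h⁻¹ * (b * a * b⁻¹))⁻¹ := by group
            rw [e2]; exact mul_mem h1 (inv_mem h2)
          have h4 := hnorm _ (hTF _) (hFP _) h⁻¹ (inv_mem hhP) _ h3
          have e3 : h⁻¹⁻¹ * (h⁻¹ * (a * (b * a * b⁻¹)⁻¹) * h) * h⁻¹ =
            a * (b * a * b⁻¹)⁻¹ := by group
          rwa [e3] at h4
      apply hhF
      have : E (m + 1) ≤ F (m + 1 + 1) := by rw [hEsucc]; exact hcen
      exact this hh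
  obtain ⟨⟨h, hh, hhF⟩, R, hR, hRg⟩ := hmain (l - j) j (by omega) le_rfl
  obtain ⟨hS1, hS2⟩ := hstep j le_rfl h hh hhF R hR hRg
  refine hgood (F j) _ (hFP j) hS2 ?_
  apply LinearMap.ext
  intro v
  rw [Module.End.mul_apply, LinearMap.zero_apply]
  apply hS1
  rw [Nat.sub_self, hWzero]
  exact ⟨v, rfl⟩

end Pool.Agent.TH553.J831
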